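import Pool.Agent.H30.CompFP

set_option autoImplicit false
set_option linter.unusedSectionVars false

/-!
# Computable Boolean algebras and their c.e. ideals
-/

namespace Pool.Agent.H30.CB

open Pool.Agent.H30.CompFP Order

/-- a Boolean algebra (with a coding of its elements) whose operations are computable -/
class CBA (Q : Type) [BooleanAlgebra Q] [Primcodable Q] : Prop where
  sup' : Computable (fun p : Q × Q => p.1 ⊔ p.2)
  inf' : Computable (fun p : Q × Q => p.1 ⊓ p.2)
  compl' : Computable (fun a : Q => aᶜ)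

variable {Q : Type} [BooleanAlgebra Q]

/-! ### ideals generated by sequences -/

/-- the join of the first `N` terms -/
def J (g : ℕ → Q) (N : ℕ) : Q := rec3 ⊥ (fun i acc => acc ⊔ g i) N

@[simp] theorem J_zero (g : ℕ → Q) : J g 0 = ⊥ := rfl

theorem J_succ (g : ℕ → Q) (N : ℕ) : J g (N + 1) = J g N ⊔ g N := rfl

theorem J_mono (g : ℕ → Q) : Monotone (J g) :=
  monotone_nat_of_le_succ fun n => by rw [J_succ]; exact le_sup_left

theorem le_J {g : ℕ → Q} {i N : ℕ} (h : i < N) : g i ≤ J g N := by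
  have : g i ≤ J g (i + 1) := by rw [J_succ]; exact le_sup_right
  exact this.trans (J_mono g h)

theorem J_le {g : ℕ → Q} {N : ℕ} {a : Q} (h : ∀ i < N, g i ≤ a) : J g N ≤ a := by
  induction N with
  | zero => simp
  | succ N ih =>
    rw [J_succ]
    exact sup_le (ih fun i hi => h i (Nat.lt_succ_of_lt hi)) (h N (Nat.lt_succ_self N))

theorem J_mem {g : ℕ → Q} {N : ℕ} {I : Ideal Q} (h : ∀ i < N, g i ∈ I) : J g N ∈ I := by
  induction N with
  | zero => exact I.bot_mem
  | succ N ih =>
    rw [J_succ]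
    exact Ideal.sup_mem (ih fun i hi => h i (Nat.lt_succ_of_lt hi)) (h N (Nat.lt_succ_self N))

/-- the ideal generated by a sequence -/
def gen (g : ℕ → Q) : Ideal Q where
  carrier := {x | ∃ N, x ≤ J g N}
  lower' := by
    rintro a b hab ⟨N, hN⟩
    exact ⟨N, hab.trans hN⟩
  nonempty' := ⟨⊥, 0, bot_le⟩
  directed' := by
    rintro a ⟨N, hN⟩ b ⟨M, hM⟩
    exact ⟨J g (max N M), ⟨max N M, le_rfl⟩, hN.trans (J_mono g (le_max_left _ _)),
      hM.trans (J_mono g (le_max_right _ _))⟩

theorem mem_gen {g : ℕ → Q} {x : Q} : x ∈ gen g ↔ ∃ N, x ≤ J g N := Iff.rfl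

theorem self_mem_gen (g : ℕ → Q) (n : ℕ) : g n ∈ gen g := ⟨n + 1, le_J (Nat.lt_succ_self n)⟩

theorem J_mem_gen (g : ℕ → Q) (n : ℕ) : J g n ∈ gen g := ⟨n, le_rfl⟩

theorem gen_le {g : ℕ → Q} {I : Ideal Q} : gen g ≤ I ↔ ∀ n, g n ∈ I := by
  constructor
  · intro h n
    exact h (self_mem_gen g n)
  · rintro h x ⟨N, hN⟩
    exact I.lower hN (J_mem fun i _ => h i)

theorem gen_mono {g h : ℕ → Q} (H : ∀ n, g n ≤ h n) : gen g ≤ gen h :=
  gen_le.2 fun n => (gen h).lower (H n) (self_mem_gen h n)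

theorem gen_sup (g h : ℕ → Q) : gen g ⊔ gen h = gen (fun n => g n ⊔ h n) := by
  apply le_antisymm
  · exact sup_le (gen_mono fun n => le_sup_left) (gen_mono fun n => le_sup_right)
  · refine gen_le.2 fun n => ?_
    rw [Ideal.mem_sup]
    exact ⟨g n, self_mem_gen g n, h n, self_mem_gen h n, le_rfl⟩

theorem J_J_inf (g h : ℕ → Q) {x : Q} (N : ℕ) (h1 : x ≤ J g N) (h2 : x ≤ J h N) :
    x ≤ J (fun n => J g n ⊓ J h n) (N + 1) :=
  (le_inf h1 h2).trans (le_J (g := fun n => J g n ⊓ J h n) (Nat.lt_succ_self N))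

theorem mem_inf' {I K : Ideal Q} {x : Q} : x ∈ I ⊓ K ↔ x ∈ I ∧ x ∈ K := Iff.rfl

theorem gen_inf (g h : ℕ → Q) : gen g ⊓ gen h = gen (fun n => J g n ⊓ J h n) := by
  apply le_antisymm
  · rintro x hx
    obtain ⟨⟨N, hN⟩, ⟨M, hM⟩⟩ := mem_inf'.1 hx
    exact ⟨max N M + 1, J_J_inf g h _ (hN.trans (J_mono g (le_max_left _ _)))
      (hM.trans (J_mono h (le_max_right _ _)))⟩
  · refine gen_le.2 fun n => ?_
    rw [mem_inf']
    exact ⟨(gen g).lower inf_le_left (J_mem_gen g n), (gen h).lower inf_le_right (J_mem_gen h n)⟩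

theorem gen_const (a : Q) : gen (fun _ => a) = Ideal.principal a := by
  apply le_antisymm
  · exact gen_le.2 fun _ => Ideal.mem_principal_self
  · rw [Ideal.principal_le_iff]
    exact self_mem_gen (fun _ => a) 0

/-- distributivity of the ideal lattice, in the form we need -/
theorem mem_of_mem_sup {I K : Ideal Q} {x : Q} (h : x ∈ I ⊔ K) :
    ∃ i ∈ I, ∃ k ∈ K, x = i ⊔ k := by
  rw [Ideal.mem_sup] at h
  obtain ⟨i, hi, k, hk, h⟩ := h
  exact Ideal.eq_sup_of_le_sup hi hk h

variable [Primcodable Q]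

/-- the elements of the algebra, enumerated -/
def q (m : ℕ) : Q := (Encodable.decode m).getD ⊥

theorem q_encode (x : Q) : q (Encodable.encode x) = x := by
  unfold q
  rw [Encodable.encodek]
  rfl

@[fun_prop] theorem c_q {α : Type*} [Primcodable α] {f : α → ℕ} (hf : Computable f) :
    Computable (fun a => (q (f a) : Q)) := by
  unfold q
  fun_prop

/-- equality test -/
def eqB (a b : Q) : Bool := decide (Encodable.encode a = Encodable.encode b)

theorem eqB_iff {a b : Q} : eqB a b = true ↔ a = b := by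
  unfold eqB
  rw [decide_eq_true_eq]
  exact Encodable.encode_inj

theorem eqB_false_iff {a b : Q} : eqB a b = false ↔ a ≠ b := by
  rw [← Bool.not_eq_true, eqB_iff]

/-- comparison -/
def leB (a b : Q) : Bool := eqB (a ⊔ b) b

theorem leB_iff {a b : Q} : leB a b = true ↔ a ≤ b := by
  unfold leB
  rw [eqB_iff, sup_eq_right]

theorem leB_false_iff {a b : Q} : leB a b = false ↔ ¬ a ≤ b := by
  rw [← Bool.not_eq_true, leB_iff]

@[fun_prop] theorem c_eqB {α : Type*} [Primcodable α] {f g : α → Q} (hf : Computable f)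
    (hg : Computable g) : Computable (fun a => eqB (f a) (g a)) := by
  unfold eqB
  fun_prop

/-- a c.e. ideal: an ideal generated by a computable sequence -/
def CE (I : Ideal Q) : Prop := ∃ g : ℕ → Q, Computable g ∧ I = gen g

section CBA

variable [CBA Q] {α : Type*} [Primcodable α]

@[fun_prop] theorem c_sup {f g : α → Q} (hf : Computable f) (hg : Computable g) :
    Computable (fun a => f a ⊔ g a) := CBA.sup'.comp (hf.pair hg)

@[fun_prop] theorem c_inf {f g : α → Q} (hf : Computable f) (hg : Computable g) :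
    Computable (fun a => f a ⊓ g a) := CBA.inf'.comp (hf.pair hg)

@[fun_prop] theorem c_compl {f : α → Q} (hf : Computable f) :
    Computable (fun a => (f a)ᶜ) := CBA.compl'.comp hf

@[fun_prop] theorem c_sdiff {f g : α → Q} (hf : Computable f) (hg : Computable g) :
    Computable (fun a => f a \ g a) := by
  simp only [sdiff_eq]
  fun_prop

@[fun_prop] theorem c_leB {f g : α → Q} (hf : Computable f) (hg : Computable g) :
    Computable (fun a => leB (f a) (g a)) := by
  unfold leB
  fun_prop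

@[fun_prop] theorem c_J {g : α → ℕ → Q} {N : α → ℕ}
    (hg : Computable (fun p : α × ℕ => g p.1 p.2)) (hN : Computable N) :
    Computable (fun a => J (g a) (N a)) := by
  unfold J
  fun_prop

theorem CE_gen {g : ℕ → Q} (hg : Computable g) : CE (gen g) := ⟨g, hg, rfl⟩

theorem CE_principal (a : Q) : CE (Ideal.principal a) :=
  ⟨fun _ => a, by fun_prop, (gen_const a).symm⟩

theorem CE_top : CE (⊤ : Ideal Q) := by
  rw [← Ideal.principal_top]
  exact CE_principal _

theorem CE_bot : CE (⊥ : Ideal Q) := by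
  rw [← Ideal.principal_bot]
  exact CE_principal _

theorem CE.sup {I K : Ideal Q} (hI : CE I) (hK : CE K) : CE (I ⊔ K) := by
  obtain ⟨g, hg, rfl⟩ := hI
  obtain ⟨h, hh, rfl⟩ := hK
  rw [gen_sup]
  exact CE_gen (by fun_prop)

theorem CE.inf {I K : Ideal Q} (hI : CE I) (hK : CE K) : CE (I ⊓ K) := by
  obtain ⟨g, hg, rfl⟩ := hI
  obtain ⟨h, hh, rfl⟩ := hK
  rw [gen_inf]
  exact CE_gen (by fun_prop)

/-- an ideal is generated by a computable sequence iff it is c.e. as a set -/
theorem CE_iff {I : Ideal Q} : CE I ↔ REPred (fun x : Q => x ∈ I) := by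
  constructor
  · rintro ⟨g, hg, rfl⟩
    rw [rePred_iff_exists]
    refine ⟨fun x N => leB x (J g N), by fun_prop, fun x => ?_⟩
    simp only [leB_iff]
    exact mem_gen
  · rw [rePred_iff_exists]
    rintro ⟨f, hf, h⟩
    refine ⟨fun n => cond (f (q n.unpair.1) n.unpair.2) (q n.unpair.1) ⊥, by fun_prop, ?_⟩
    apply le_antisymm
    · intro x hx
      obtain ⟨t, ht⟩ := (h x).1 hx
      have h1 := self_mem_gen (fun n : ℕ => cond (f (q n.unpair.1) n.unpair.2) (q n.unpair.1)
        (⊥ : Q)) (Nat.pair (Encodable.encode x) t)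
      simp only [Nat.unpair_pair, q_encode, ht, cond_true] at h1
      exact h1
    · refine gen_le.2 fun n => ?_
      cases hc : f (q n.unpair.1) n.unpair.2 with
      | true =>
        simp only [cond_true]
        exact (h _).2 ⟨_, hc⟩
      | false =>
        simp only [cond_false]
        exact I.bot_mem

/-- the `e`-th computable sequence, with dummy entries -/
def G (e t : ℕ) : Q := ((evS t.unpair.2 e t.unpair.1).bind Encodable.decode).getD ⊥

@[fun_prop] theorem c_G {e t : α → ℕ} (he : Computable e) (ht : Computable t) :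
    Computable (fun a => (G (e a) (t a) : Q)) := by
  unfold G
  fun_prop

theorem exists_gen_G {g : ℕ → Q} (hg : Computable g) : ∃ e, gen (G e) = gen g := by
  obtain ⟨e, he⟩ := exists_index hg
  refine ⟨e, le_antisymm (gen_le.2 fun t => ?_) (gen_le.2 fun n => ?_)⟩
  · unfold G
    cases h : evS t.unpair.2 e t.unpair.1 with
    | none => exact (gen g).bot_mem
    | some y =>
      obtain ⟨s, hs⟩ := he t.unpair.1
      rw [evS_unique h hs]
      simp only [Option.bind_some, Encodable.encodek, Option.getD_some]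
      exact self_mem_gen g _
  · obtain ⟨s, hs⟩ := he n
    have h1 := self_mem_gen (G (Q := Q) e) (Nat.pair n s)
    unfold G at h1
    rw [Nat.unpair_pair] at h1
    simp only [hs, Option.bind_some, Encodable.encodek, Option.getD_some] at h1
    exact h1

/-! ### the lattice of c.e. subideals -/

/-- c.e. ideals below `T` -/
abbrev Sub (T : Ideal Q) : Type := {K : Ideal Q // CE K ∧ K ≤ T}

instance (T : Ideal Q) : Lattice (Sub T) :=
  Subtype.lattice (fun _ _ h1 h2 => ⟨h1.1.sup h2.1, sup_le h1.2 h2.2⟩)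
    (fun _ _ h1 h2 => ⟨h1.1.inf h2.1, inf_le_left.trans h1.2⟩)

instance (T : Ideal Q) [hT : Fact (CE T)] : BoundedOrder (Sub T) where
  top := ⟨T, hT.out, le_rfl⟩
  le_top K := K.2.2
  bot := ⟨⊥, CE_bot, bot_le⟩
  bot_le K := bot_le (a := K.1)

theorem Sub.coe_inf {T : Ideal Q} (K L : Sub T) : ((K ⊓ L : Sub T) : Ideal Q) = K.1 ⊓ L.1 := rfl

theorem Sub.coe_sup {T : Ideal Q} (K L : Sub T) : ((K ⊔ L : Sub T) : Ideal Q) = K.1 ⊔ L.1 := rfl

theorem Sub.isCompl_iff {T : Ideal Q} [hT : Fact (CE T)] {K L : Sub T} :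
    IsCompl K L ↔ (∀ x, x ∈ K.1 → x ∈ L.1 → x = ⊥) ∧ ∀ x ∈ T, x ∈ K.1 ⊔ L.1 := by
  rw [_root_.isCompl_iff, disjoint_iff, codisjoint_iff]
  refine and_congr ?_ ?_
  · rw [Subtype.ext_iff]
    constructor
    · intro h x hx hx'
      have h1 : x ∈ ((K ⊓ L : Sub T) : Ideal Q) := mem_inf'.2 ⟨hx, hx'⟩
      rw [h] at h1
      have h2 : x ∈ (⊥ : Ideal Q) := h1
      rw [← Ideal.principal_bot, Ideal.mem_principal] at h2
      exact le_bot_iff.1 h2
    · intro h
      apply le_antisymm
      · intro x hx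
        have h1 : x ∈ K.1 ⊓ L.1 := hx
        obtain ⟨h2, h3⟩ := mem_inf'.1 h1
        rw [h x h2 h3]
        exact (⊥ : Ideal Q).bot_mem
      · exact bot_le (a := ((K ⊓ L : Sub T) : Ideal Q))
  · rw [Subtype.ext_iff]
    constructor
    · intro h x hx
      have h1 : x ∈ ((⊤ : Sub T) : Ideal Q) := hx
      rw [← h] at h1
      exact h1
    · intro h
      apply le_antisymm
      · exact (K ⊔ L).2.2
      · intro x hx
        exact h x hx

end CBA

end Pool.Agent.H30.CB
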