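import Mathlib

set_option autoImplicit false

namespace Pool.Agent.H30.Collatz

/-- The accelerated 3x+1 map. -/
def T (m : ℕ) : ℕ := if m % 2 = 0 then m / 2 else (3 * m + 1) / 2

/-- Number of odd terms among the first `t` terms of the orbit of `n`. -/
def od : ℕ → ℕ → ℕ
  | 0, _ => 0
  | (t + 1), n => (if n % 2 = 0 then 0 else 1) + od t (T n)

/-- The remainder: `2 ^ t * T^[t] n = 3 ^ od t n * n + Rm t n`. -/
def Rm : ℕ → ℕ → ℕ
  | 0, _ => 0
  | (t + 1), n => if n % 2 = 0 then 2 * Rm t (T n) else 3 ^ od t (T n) + 2 * Rm t (T n)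

lemma T_even {n : ℕ} (h : n % 2 = 0) : T n = n / 2 := by simp [T, h]

lemma T_odd {n : ℕ} (h : n % 2 = 1) : T n = (3 * n + 1) / 2 := by simp [T, h]

lemma two_T_even {n : ℕ} (h : n % 2 = 0) : 2 * T n = n := by
  rw [T_even h]; omega

lemma two_T_odd {n : ℕ} (h : n % 2 = 1) : 2 * T n = 3 * n + 1 := by
  rw [T_odd h]; omega

lemma key (t n : ℕ) : 2 ^ t * T^[t] n = 3 ^ od t n * n + Rm t n := by
  induction t generalizing n with
  | zero => simp [od, Rm]
  | succ t ih =>
    rw [Function.iterate_succ_apply]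
    have h := ih (T n)
    rcases Nat.mod_two_eq_zero_or_one n with hn | hn
    · have h2 := two_T_even hn
      simp only [od, Rm, hn, if_true]
      calc 2 ^ (t + 1) * T^[t] (T n) = 2 * (2 ^ t * T^[t] (T n)) := by ring
        _ = 2 * (3 ^ od t (T n) * T n + Rm t (T n)) := by rw [h]
        _ = 3 ^ od t (T n) * (2 * T n) + 2 * Rm t (T n) := by ring
        _ = 3 ^ (0 + od t (T n)) * n + 2 * Rm t (T n) := by rw [h2, zero_add]
    · have h2 := two_T_odd hn
      have hn' : ¬ (n % 2 = 0) := by omega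
      simp only [od, Rm, hn', if_false]
      calc 2 ^ (t + 1) * T^[t] (T n) = 2 * (2 ^ t * T^[t] (T n)) := by ring
        _ = 2 * (3 ^ od t (T n) * T n + Rm t (T n)) := by rw [h]
        _ = 3 ^ od t (T n) * (2 * T n) + 2 * Rm t (T n) := by ring
        _ = 3 ^ od t (T n) * (3 * n + 1) + 2 * Rm t (T n) := by rw [h2]
        _ = 3 ^ (1 + od t (T n)) * n + (3 ^ od t (T n) + 2 * Rm t (T n)) := by ring

lemma T_add_even {n : ℕ} (h : n % 2 = 0) (d : ℕ) : T (n + 2 * d) = T n + d := by
  have h' : (n + 2 * d) % 2 = 0 := by omega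
  rw [T_even h, T_even h']; omega

lemma T_add_odd {n : ℕ} (h : n % 2 = 1) (d : ℕ) : T (n + 2 * d) = T n + 3 * d := by
  have h' : (n + 2 * d) % 2 = 1 := by omega
  rw [T_odd h, T_odd h']; omega

lemma od_add (t n c : ℕ) : od t (n + 2 ^ t * c) = od t n := by
  induction t generalizing n c with
  | zero => simp [od]
  | succ t ih =>
    have e : n + 2 ^ (t + 1) * c = n + 2 * (2 ^ t * c) := by ring
    rcases Nat.mod_two_eq_zero_or_one n with hn | hn
    · have h' : (n + 2 * (2 ^ t * c)) % 2 = 0 := by omega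
      simp only [od, e, hn, h', if_true]
      rw [T_add_even hn, ih]
    · have h' : ¬ ((n + 2 * (2 ^ t * c)) % 2 = 0) := by omega
      have hn' : ¬ (n % 2 = 0) := by omega
      simp only [od, e, hn', h', if_false]
      rw [T_add_odd hn]
      have e2 : T n + 3 * (2 ^ t * c) = T n + 2 ^ t * (3 * c) := by ring
      rw [e2, ih]

lemma od_mod {t w : ℕ} (h : t ≤ w) (n : ℕ) : od t (n % 2 ^ w) = od t n := by
  obtain ⟨d, rfl⟩ := Nat.exists_eq_add_of_le h
  have e : n = n % 2 ^ (t + d) + 2 ^ t * (2 ^ d * (n / 2 ^ (t + d))) := by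
    have := Nat.mod_add_div n (2 ^ (t + d))
    rw [← mul_assoc, ← pow_add]
    exact this.symm
  conv_rhs => rw [e]
  rw [od_add]

lemma od_le (t n : ℕ) : od t n ≤ t := by
  induction t generalizing n with
  | zero => simp [od]
  | succ t ih =>
    simp only [od]
    have := ih (T n)
    split_ifs <;> omega

/-- At a record low, the remainder is small. -/
lemma Rm_le (t n : ℕ) (h : ∀ i < t, T^[t] n < T^[i] n) : 3 * Rm t n ≤ t * 2 ^ t := by
  induction t generalizing n with
  | zero => simp [Rm]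
  | succ t ih =>
    have h1 : ∀ i < t, T^[t] (T n) < T^[i] (T n) := by
      intro i hi
      have := h (i + 1) (by omega)
      simpa [Function.iterate_succ_apply] using this
    have h2 := ih (T n) h1
    have h3 : 3 ^ od (t + 1) n ≤ 2 ^ (t + 1) := by
      have hk := key (t + 1) n
      have h0 := h 0 (by omega)
      simp only [Function.iterate_zero, id] at h0
      by_contra hcon
      push Not at hcon
      have : 2 ^ (t + 1) * T^[t + 1] n ≤ 2 ^ (t + 1) * n := Nat.mul_le_mul_left _ h0.le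
      have h4 : 2 ^ (t + 1) * n ≤ 3 ^ od (t + 1) n * n := Nat.mul_le_mul_right _ hcon.le
      have h5 : 2 ^ (t + 1) * T^[t + 1] n < 2 ^ (t + 1) * n :=
        Nat.mul_lt_mul_of_pos_left h0 (by positivity)
      omega
    rcases Nat.mod_two_eq_zero_or_one n with hn | hn
    · simp only [Rm, hn, if_true]
      calc 3 * (2 * Rm t (T n)) = 2 * (3 * Rm t (T n)) := by ring
        _ ≤ 2 * (t * 2 ^ t) := by omega
        _ ≤ (t + 1) * 2 ^ (t + 1) := by
          have : 0 < 2 ^ t := by positivity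
          rw [pow_succ]; nlinarith
    · have hn' : ¬ (n % 2 = 0) := by omega
      simp only [od, hn', if_false] at h3
      simp only [Rm, hn', if_false]
      have h6 : 3 * 3 ^ od t (T n) ≤ 2 ^ (t + 1) := by
        calc 3 * 3 ^ od t (T n) = 3 ^ (1 + od t (T n)) := by ring
          _ ≤ 2 ^ (t + 1) := h3
      calc 3 * (3 ^ od t (T n) + 2 * Rm t (T n)) = 3 * 3 ^ od t (T n) + 2 * (3 * Rm t (T n)) := by ring
        _ ≤ 2 ^ (t + 1) + 2 * (t * 2 ^ t) := by omega
        _ = (t + 1) * 2 ^ (t + 1) := by ring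

lemma sum_range_two_mul (f : ℕ → ℝ) (N : ℕ) :
    ∑ r ∈ Finset.range (2 * N), f r = ∑ a ∈ Finset.range N, (f (2 * a) + f (2 * a + 1)) := by
  induction N with
  | zero => simp
  | succ N ih =>
    rw [show 2 * (N + 1) = 2 * N + 1 + 1 by ring, Finset.sum_range_succ, Finset.sum_range_succ, ih,
      Finset.sum_range_succ]
    ring

lemma sum_affine (w c d : ℕ) (hc : Nat.Coprime (2 ^ w) c) (f : ℕ → ℝ)
    (hf : ∀ n, f (n % 2 ^ w) = f n) :
    ∑ a ∈ Finset.range (2 ^ w), f (c * a + d) = ∑ a ∈ Finset.range (2 ^ w), f a := by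
  have hinj : Set.InjOn (fun a => (c * a + d) % 2 ^ w) (Finset.range (2 ^ w) : Set ℕ) := by
    intro a ha b hb hab
    simp only [Finset.coe_range, Set.mem_Iio] at ha hb
    have h1 : c * a + d ≡ c * b + d [MOD 2 ^ w] := hab
    have h2 : c * a ≡ c * b [MOD 2 ^ w] := Nat.ModEq.add_right_cancel' d h1
    have h3 : a ≡ b [MOD 2 ^ w] := Nat.ModEq.cancel_left_of_coprime hc h2
    exact Nat.ModEq.eq_of_lt_of_lt h3 ha hb
  have himg : (Finset.range (2 ^ w)).image (fun a => (c * a + d) % 2 ^ w) = Finset.range (2 ^ w) := by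
    apply Finset.eq_of_subset_of_card_le
    · intro x hx
      simp only [Finset.mem_image, Finset.mem_range] at hx ⊢
      obtain ⟨a, _, rfl⟩ := hx
      exact Nat.mod_lt _ (by positivity)
    · rw [Finset.card_image_of_injOn hinj]
  conv_rhs => rw [← himg]
  rw [Finset.sum_image (fun a ha b hb hab => hinj ha hb hab)]
  apply Finset.sum_congr rfl
  intro a _
  rw [hf]

lemma sum_od (x : ℝ) (u w : ℕ) (h : u ≤ w) :
    ∑ r ∈ Finset.range (2 ^ w), x ^ od u r = (1 + x) ^ u * 2 ^ (w - u) := by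
  induction u generalizing w with
  | zero => simp [od]
  | succ u ih =>
    obtain ⟨w', rfl⟩ : ∃ w', w = w' + 1 := ⟨w - 1, by omega⟩
    have hu : u ≤ w' := by omega
    rw [show 2 ^ (w' + 1) = 2 * 2 ^ w' by ring, sum_range_two_mul]
    have e1 : ∀ a, od (u + 1) (2 * a) = od u a := by
      intro a
      have : (2 * a) % 2 = 0 := by omega
      simp [od, this, T]
    have e2 : ∀ a, od (u + 1) (2 * a + 1) = 1 + od u (3 * a + 2) := by
      intro a
      have h1 : (2 * a + 1) % 2 = 1 := by omega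
      have h2 : T (2 * a + 1) = 3 * a + 2 := by
        rw [T_odd h1]; omega
      simp [od, h1, h2]
    simp only [e1, e2, pow_add, pow_one]
    rw [Finset.sum_add_distrib, ← Finset.mul_sum]
    rw [sum_affine w' 3 2 (Nat.Coprime.pow_left _ (by norm_num)) (fun n => x ^ od u n)
      (fun n => by simp only [od_mod hu])]
    rw [ih w' hu]
    have : w' + 1 - (u + 1) = w' - u := by omega
    rw [this]
    ring

/-- Residues whose parity vector dips too low within `w` steps. -/
def Bad (w : ℕ) : Finset ℕ :=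
  (Finset.range (2 ^ w)).filter (fun r => ∃ u ≤ w, 3 ^ od u r * 7 ^ w < 6 ^ w * 2 ^ u)

lemma exists_theta : ∃ θ : ℝ, 0 < θ ∧
    Real.exp (θ * Real.log (12 / 7)) * ((1 + Real.exp (-(θ * Real.log 3))) / 2) < 1 := by
  set L := Real.log 3 with hL
  set δ : ℝ := L / 2 - Real.log (12 / 7) with hδ
  have hLpos : 0 < L := Real.log_pos (by norm_num)
  have hδpos : 0 < δ := by
    have : 2 * Real.log (12 / 7) < Real.log 3 := by
      rw [← Real.log_rpow (by norm_num)]
      apply Real.log_lt_log (by positivity)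
      norm_num
    rw [hδ, hL]; linarith
  refine ⟨4 * δ / L ^ 2, by positivity, ?_⟩
  set θ : ℝ := 4 * δ / L ^ 2 with hθ
  have hθpos : 0 < θ := by positivity
  have h1 : (1 + Real.exp (-(θ * L))) / 2 = Real.exp (-(θ * L / 2)) * Real.cosh (θ * L / 2) := by
    rw [Real.cosh_eq]
    have : Real.exp (-(θ * L / 2)) * ((Real.exp (θ * L / 2) + Real.exp (-(θ * L / 2))) / 2)
        = (Real.exp (-(θ * L / 2)) * Real.exp (θ * L / 2)
          + Real.exp (-(θ * L / 2)) * Real.exp (-(θ * L / 2))) / 2 := by ring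
    rw [this, ← Real.exp_add, ← Real.exp_add]
    have e1 : -(θ * L / 2) + θ * L / 2 = 0 := by ring
    have e2 : -(θ * L / 2) + -(θ * L / 2) = -(θ * L) := by ring
    rw [e1, e2, Real.exp_zero]
  rw [h1]
  have h2 : Real.cosh (θ * L / 2) ≤ Real.exp ((θ * L / 2) ^ 2 / 2) := Real.cosh_le_exp_half_sq _
  calc Real.exp (θ * Real.log (12 / 7)) * (Real.exp (-(θ * L / 2)) * Real.cosh (θ * L / 2))
      ≤ Real.exp (θ * Real.log (12 / 7)) * (Real.exp (-(θ * L / 2)) * Real.exp ((θ * L / 2) ^ 2 / 2)) := by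
        gcongr
    _ = Real.exp (θ * Real.log (12 / 7) + (-(θ * L / 2) + (θ * L / 2) ^ 2 / 2)) := by
        rw [← Real.exp_add, ← Real.exp_add]
    _ < 1 := by
        rw [Real.exp_lt_one_iff]
        have e : θ * Real.log (12 / 7) + (-(θ * L / 2) + (θ * L / 2) ^ 2 / 2)
            = -(θ * δ) / 2 := by
          have hLne : L ≠ 0 := hLpos.ne'
          have : Real.log (12 / 7) = L / 2 - δ := by rw [hδ]; ring
          rw [this]
          have h3 : θ * L ^ 2 = 4 * δ := by rw [hθ]; field_simp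
          have : (θ * L / 2) ^ 2 / 2 = θ * (θ * L ^ 2) / 8 := by ring
          rw [this, h3]; ring
        rw [e]
        have : 0 < θ * δ := by positivity
        linarith

lemma bad_card : ∃ ρ : ℝ, 0 < ρ ∧ ρ < 1 ∧ ∀ w : ℕ, ((Bad w).card : ℝ) ≤ (w + 1) * ρ ^ w * 2 ^ w := by
  obtain ⟨θ, hθ, hlt⟩ := exists_theta
  set x : ℝ := Real.exp (-(θ * Real.log 3)) with hx
  set a : ℝ := Real.exp (θ * Real.log 2) with ha
  set R : ℝ := Real.exp (θ * Real.log (6 / 7)) with hR
  have hxpos : 0 < x := Real.exp_pos _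
  have hapos : 0 < a := Real.exp_pos _
  have hRpos : 0 < R := Real.exp_pos _
  have hRa : R * a = Real.exp (θ * Real.log (12 / 7)) := by
    rw [hR, ha, ← Real.exp_add, ← mul_add, ← Real.log_mul (by norm_num) (by norm_num)]
    norm_num
  have hρ : R * (a * (1 + x) / 2) = Real.exp (θ * Real.log (12 / 7)) * ((1 + x) / 2) := by
    rw [← hRa]; ring
  have hκ : 1 ≤ a * (1 + x) / 2 := by
    -- a * x ^ (1/2) >= 1
    have h1 : 2 * Real.exp (-(θ * Real.log 3) / 2) ≤ 1 + x := by
      have hsq : x = Real.exp (-(θ * Real.log 3) / 2) ^ 2 := by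
        rw [hx, ← Real.exp_nat_mul]; congr 1; push_cast; ring
      rw [hsq]
      nlinarith [sq_nonneg (1 - Real.exp (-(θ * Real.log 3) / 2))]
    have h2 : 1 ≤ a * Real.exp (-(θ * Real.log 3) / 2) := by
      rw [ha, ← Real.exp_add, Real.one_le_exp_iff]
      have : Real.log 3 ≤ 2 * Real.log 2 := by
        rw [← Real.log_rpow (by norm_num)]
        apply Real.log_le_log (by norm_num)
        norm_num
      nlinarith
    have h3 : a * (2 * Real.exp (-(θ * Real.log 3) / 2)) ≤ a * (1 + x) := by gcongr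
    nlinarith
  refine ⟨R * (a * (1 + x) / 2), by positivity, by rw [hρ]; exact hlt, ?_⟩
  intro w
  -- pointwise domination
  have hdom : ∀ r ∈ Bad w, (1 : ℝ) ≤ ∑ u ∈ Finset.range (w + 1), R ^ w * a ^ u * x ^ od u r := by
    intro r hr
    simp only [Bad, Finset.mem_filter] at hr
    obtain ⟨_, u, hu, hlt'⟩ := hr
    have h1 : (1 : ℝ) ≤ R ^ w * a ^ u * x ^ od u r := by
      have hlt2 : (3 : ℝ) ^ od u r * 7 ^ w < 6 ^ w * 2 ^ u := by exact_mod_cast hlt'
      have hlog := Real.log_lt_log (by positivity) hlt2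
      rw [Real.log_mul (by positivity) (by positivity), Real.log_mul (by positivity) (by positivity),
        Real.log_pow, Real.log_pow, Real.log_pow, Real.log_pow] at hlog
      rw [hR, ha, hx, ← Real.exp_nat_mul, ← Real.exp_nat_mul, ← Real.exp_nat_mul, ← Real.exp_add,
        ← Real.exp_add, Real.one_le_exp_iff]
      rw [Real.log_div (by norm_num) (by norm_num)]
      nlinarith
    calc (1 : ℝ) ≤ R ^ w * a ^ u * x ^ od u r := h1
      _ ≤ ∑ u ∈ Finset.range (w + 1), R ^ w * a ^ u * x ^ od u r := by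
        apply Finset.single_le_sum (f := fun u => R ^ w * a ^ u * x ^ od u r)
        · intro i _; positivity
        · simp; omega
  calc ((Bad w).card : ℝ) = ∑ r ∈ Bad w, (1 : ℝ) := by simp
    _ ≤ ∑ r ∈ Bad w, ∑ u ∈ Finset.range (w + 1), R ^ w * a ^ u * x ^ od u r :=
        Finset.sum_le_sum hdom
    _ ≤ ∑ r ∈ Finset.range (2 ^ w), ∑ u ∈ Finset.range (w + 1), R ^ w * a ^ u * x ^ od u r := by
        apply Finset.sum_le_sum_of_subset_of_nonneg (Finset.filter_subset _ _)
        intro i _ _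
        apply Finset.sum_nonneg; intro j _; positivity
    _ = ∑ u ∈ Finset.range (w + 1), R ^ w * a ^ u * ∑ r ∈ Finset.range (2 ^ w), x ^ od u r := by
        rw [Finset.sum_comm]
        apply Finset.sum_congr rfl; intro u _
        rw [Finset.mul_sum]
    _ = ∑ u ∈ Finset.range (w + 1), R ^ w * (a * (1 + x) / 2) ^ u * 2 ^ w := by
        apply Finset.sum_congr rfl; intro u hu
        have hu' : u ≤ w := by simp at hu; omega
        rw [sum_od x u w hu']
        have : (2 : ℝ) ^ w = 2 ^ u * 2 ^ (w - u) := by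
          rw [← pow_add]; congr 1; omega
        rw [this, div_pow, mul_pow]
        field_simp
    _ ≤ ∑ u ∈ Finset.range (w + 1), R ^ w * (a * (1 + x) / 2) ^ w * 2 ^ w := by
        apply Finset.sum_le_sum; intro u hu
        have hu' : u ≤ w := by simp at hu; omega
        have := pow_le_pow_right₀ hκ hu'
        gcongr
    _ = (w + 1) * (R * (a * (1 + x) / 2)) ^ w * 2 ^ w := by
        rw [Finset.sum_const, Finset.card_range, nsmul_eq_mul, mul_pow]; push_cast; ring

end Pool.Agent.H30.Collatz
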