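import Pool.Agent.H30.CollatzA

set_option autoImplicit false

namespace Pool.Agent.H30.Collatz

lemma card_le_of_diam (S : Finset ℕ) (D : ℕ) (h : ∀ a ∈ S, ∀ b ∈ S, a ≤ b → b - a ≤ D) :
    S.card ≤ D + 1 := by
  rcases S.eq_empty_or_nonempty with rfl | hne
  · simp
  · have hsub : S ⊆ Finset.Icc (S.min' hne) (S.min' hne + D) := by
      intro b hb
      have h1 := S.min'_le b hb
      have h2 := h _ (S.min'_mem hne) b hb h1
      rw [Finset.mem_Icc]; omega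
    calc S.card ≤ (Finset.Icc (S.min' hne) (S.min' hne + D)).card := Finset.card_le_card hsub
      _ = D + 1 := by rw [Nat.card_Icc]; omega

lemma card_mod_le (Y M : ℕ) (hM : 0 < M) (B : Finset ℕ) :
    ((Finset.range (Y + 1)).filter (fun m => m % M ∈ B)).card ≤ (Y / M + 1) * B.card := by
  have : ((Finset.range (Y / M + 1)) ×ˢ B).card = (Y / M + 1) * B.card := by
    rw [Finset.card_product, Finset.card_range]
  rw [← this]
  apply Finset.card_le_card_of_injOn (fun m => (m / M, m % M))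
  · intro m hm
    simp only [Finset.coe_filter, Finset.mem_range, Set.mem_ofPred_eq] at hm
    simp only [Finset.coe_product, Set.mem_prod, Finset.coe_range, Set.mem_Iio, Finset.mem_coe]
    refine ⟨?_, hm.2⟩
    have : m / M ≤ Y / M := Nat.div_le_div_right (by omega)
    omega
  · intro a _ b _ hab
    simp only [Prod.mk.injEq] at hab
    rw [← Nat.div_add_mod a M, ← Nat.div_add_mod b M, hab.1, hab.2]

/-- `n` first gets to `y` or below at time `t`. -/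
def FP (y : ℝ) (n t : ℕ) : Prop := ((T^[t] n : ℕ) : ℝ) ≤ y ∧ ∀ i < t, y < ((T^[i] n : ℕ) : ℝ)

lemma T_ge (n : ℕ) : (n : ℝ) / 2 ≤ (T n : ℝ) := by
  rcases Nat.mod_two_eq_zero_or_one n with hn | hn
  · have h := two_T_even hn
    have : (2 : ℝ) * T n = n := by exact_mod_cast h
    linarith
  · have h := two_T_odd hn
    have : (2 : ℝ) * T n = 3 * n + 1 := by exact_mod_cast h
    have h0 : (0 : ℝ) ≤ n := by positivity
    linarith

lemma FP_half {y : ℝ} {n t : ℕ} (ht : 0 < t) (h : FP y n t) : y / 2 < ((T^[t] n : ℕ) : ℝ) := by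
  obtain ⟨t', rfl⟩ : ∃ t', t = t' + 1 := ⟨t - 1, by omega⟩
  rw [Function.iterate_succ_apply']
  have h1 := h.2 t' (by omega)
  have h2 := T_ge (T^[t'] n)
  linarith

/-- The start values `3 ^ s * q - 1`. -/
def st (s q : ℕ) : ℕ := 3 ^ s * q - 1

open Classical in
/-- The `q` for which the orbit of `st s q` first gets to `y` or below at a time `t`, `0 < t ≤ H`,
with a bad residue mod `2 ^ w`. -/
noncomputable def Fl (s l w H : ℕ) (y : ℝ) : Finset ℕ :=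
  (Finset.Icc 1 (2 ^ l)).filter (fun q => ∃ t, 0 < t ∧ t ≤ H ∧ FP y (st s q) t ∧
    (T^[t] (st s q)) % 2 ^ w ∈ Bad w)

open Classical in
noncomputable def Ft (s l w : ℕ) (y : ℝ) (t j : ℕ) : Finset ℕ :=
  (Finset.Icc 1 (2 ^ l)).filter (fun q => FP y (st s q) t ∧ od t (st s q) = j ∧
    (T^[t] (st s q)) % 2 ^ w ∈ Bad w)

lemma st_eq (s q : ℕ) (hq : 1 ≤ q) : st s q + 1 = 3 ^ s * q := by
  unfold st
  have : 0 < 3 ^ s * q := by positivity
  omega

lemma Ft_card (s l w H : ℕ) (y : ℝ) (t j : ℕ) (ht0 : 0 < t) (htH : t ≤ H)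
    (hy1 : (2 : ℝ) ^ w ≤ y) (hy2 : y ≤ 2 ^ l) (hyH : (4 : ℝ) * H / 3 ≤ y) :
    ((Ft s l w y t j).card : ℝ) ≤ (4 * H / 3 + 1) * 2 * 2 ^ l * ((Bad w).card / 2 ^ w) := by
  classical
  have hw : (0 : ℝ) < 2 ^ w := by positivity
  have hypos : 0 < y := lt_of_lt_of_le hw hy1
  have htH' : (t : ℝ) ≤ H := by exact_mod_cast htH
  set D : ℕ := ⌊(4 * t / 3 : ℝ) * 2 ^ l / y⌋₊ with hD
  have hfib : ∀ b ∈ (Ft s l w y t j).image (fun q => T^[t] (st s q)),
      ((Ft s l w y t j).filter (fun q => T^[t] (st s q) = b)).card ≤ D + 1 := by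
    intro b _
    apply card_le_of_diam
    intro q hq q' hq' hle
    simp only [Ft, Finset.mem_filter, Finset.mem_Icc] at hq hq'
    obtain ⟨⟨⟨hq1, hq2⟩, hFP, hod, _⟩, hTb⟩ := hq
    obtain ⟨⟨⟨hq1', hq2'⟩, hFP', hod', _⟩, hTb'⟩ := hq'
    -- record low
    have hrec : ∀ i < t, T^[t] (st s q) < T^[i] (st s q) := by
      intro i hi
      have := lt_of_le_of_lt hFP.1 (hFP.2 i hi)
      exact_mod_cast this
    have hR := Rm_le t (st s q) hrec
    have hk := key t (st s q)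
    have hk' := key t (st s q')
    rw [hTb, hod] at hk
    rw [hTb', hod'] at hk'
    -- real versions
    have hs : (st s q : ℝ) = 3 ^ s * q - 1 := by
      have := st_eq s q hq1
      have h' : (st s q : ℝ) + 1 = 3 ^ s * q := by exact_mod_cast this
      linarith
    have hs' : (st s q' : ℝ) = 3 ^ s * q' - 1 := by
      have := st_eq s q' hq1'
      have h' : (st s q' : ℝ) + 1 = 3 ^ s * q' := by exact_mod_cast this
      linarith
    have hkr : (2 : ℝ) ^ t * b = 3 ^ j * (3 ^ s * q - 1) + Rm t (st s q) := by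
      rw [← hs]; exact_mod_cast hk
    have hkr' : (2 : ℝ) ^ t * b = 3 ^ j * (3 ^ s * q' - 1) + Rm t (st s q') := by
      rw [← hs']; exact_mod_cast hk'
    have hRr : (3 : ℝ) * Rm t (st s q) ≤ t * 2 ^ t := by exact_mod_cast hR
    have hRnn : (0 : ℝ) ≤ Rm t (st s q') := by positivity
    have hdiff : (3 : ℝ) ^ j * 3 ^ s * ((q' : ℝ) - q) ≤ t * 2 ^ t / 3 := by
      have : (3 : ℝ) ^ j * 3 ^ s * ((q' : ℝ) - q) = Rm t (st s q) - Rm t (st s q') := by
        linear_combination hkr - hkr'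
      rw [this]; linarith
    -- lower bound for b
    have hb : y / 2 < (b : ℝ) := by
      have := FP_half ht0 hFP
      rw [hTb] at this; exact this
    -- 2^t (b - t/3) ≤ 3^(j+s) 2^l
    have hq2r : (q : ℝ) ≤ 2 ^ l := by exact_mod_cast hq2
    have h3j : (0 : ℝ) < 3 ^ j := by positivity
    have h3s : (0 : ℝ) < 3 ^ s := by positivity
    have h2t : (0 : ℝ) < 2 ^ t := by positivity
    have hup : (2 : ℝ) ^ t * (y / 4) ≤ 3 ^ j * 3 ^ s * 2 ^ l := by
      have h1 : (2 : ℝ) ^ t * b ≤ 3 ^ j * 3 ^ s * 2 ^ l + t * 2 ^ t / 3 := by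
        have : (3 : ℝ) ^ j * (3 ^ s * q - 1) ≤ 3 ^ j * 3 ^ s * 2 ^ l := by
          have : (3 : ℝ) ^ s * q ≤ 3 ^ s * 2 ^ l := by gcongr
          nlinarith
        linarith
      have h2 : y / 4 ≤ b - t / 3 := by linarith
      have h3 : (2 : ℝ) ^ t * (y / 4) ≤ 2 ^ t * (b - t / 3) := by gcongr
      nlinarith
    have hqq : (0 : ℝ) ≤ (q' : ℝ) - q := by
      have : (q : ℝ) ≤ q' := by exact_mod_cast hle
      linarith
    have hfin : ((q' : ℝ) - q) ≤ (4 * t / 3 : ℝ) * 2 ^ l / y := by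
      rw [le_div_iff₀ hypos]
      have h5 : ((q' : ℝ) - q) * (2 ^ t * (y / 4)) ≤ ((q' : ℝ) - q) * (3 ^ j * 3 ^ s * 2 ^ l) := by
        gcongr
      have h6 : ((q' : ℝ) - q) * (3 ^ j * 3 ^ s * 2 ^ l) ≤ t * 2 ^ t / 3 * 2 ^ l := by
        have : ((q' : ℝ) - q) * (3 ^ j * 3 ^ s * 2 ^ l) = (3 ^ j * 3 ^ s * ((q' : ℝ) - q)) * 2 ^ l := by
          ring
        rw [this]; gcongr
      have h7 : 2 ^ t * (((q' : ℝ) - q) * y) ≤ 2 ^ t * ((4 * t / 3 : ℝ) * 2 ^ l) := by nlinarith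
      exact le_of_mul_le_mul_left h7 h2t
    rw [hD]
    apply Nat.le_floor
    rw [Nat.cast_sub hle]
    exact hfin
  have h1 := Finset.card_le_mul_card_image (Ft s l w y t j) (D + 1) hfib
  have himg : (Ft s l w y t j).image (fun q => T^[t] (st s q)) ⊆
      (Finset.range (⌊y⌋₊ + 1)).filter (fun m => m % 2 ^ w ∈ Bad w) := by
    intro m hm
    simp only [Finset.mem_image, Ft, Finset.mem_filter] at hm
    obtain ⟨q, ⟨_, hFP, _, hbad⟩, rfl⟩ := hm
    simp only [Finset.mem_filter, Finset.mem_range]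
    refine ⟨?_, hbad⟩
    have := Nat.le_floor hFP.1
    omega
  have h2 := (Finset.card_le_card himg).trans (card_mod_le ⌊y⌋₊ (2 ^ w) (by positivity) (Bad w))
  have h3 : ((Ft s l w y t j).card : ℝ) ≤ (D + 1) * (((⌊y⌋₊ / 2 ^ w : ℕ) : ℝ) + 1) * (Bad w).card := by
    have : (Ft s l w y t j).card ≤ (D + 1) * ((⌊y⌋₊ / 2 ^ w + 1) * (Bad w).card) :=
      h1.trans (Nat.mul_le_mul_left _ h2)
    have h' : ((Ft s l w y t j).card : ℝ) ≤ ((D + 1) * ((⌊y⌋₊ / 2 ^ w + 1) * (Bad w).card) : ℕ) := by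
      exact_mod_cast this
    refine h'.trans (le_of_eq ?_)
    push_cast; ring
  have hDle : (D : ℝ) + 1 ≤ (4 * H / 3 + 1) * (2 ^ l / y) := by
    have h4 : (D : ℝ) ≤ (4 * t / 3 : ℝ) * 2 ^ l / y := by
      rw [hD]; apply Nat.floor_le; positivity
    have h5 : (1 : ℝ) ≤ 2 ^ l / y := by rwa [one_le_div hypos]
    have h6 : (4 * t / 3 : ℝ) * 2 ^ l / y ≤ (4 * H / 3 : ℝ) * (2 ^ l / y) := by
      rw [mul_div_assoc]; gcongr
    nlinarith
  have hfl : (((⌊y⌋₊ / 2 ^ w : ℕ) : ℝ) + 1) ≤ 2 * y / 2 ^ w := by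
    have h4 : ((⌊y⌋₊ / 2 ^ w : ℕ) : ℝ) ≤ (⌊y⌋₊ : ℝ) / ((2 ^ w : ℕ) : ℝ) := Nat.cast_div_le
    have h5 : (⌊y⌋₊ : ℝ) ≤ y := Nat.floor_le hypos.le
    have h6 : (1 : ℝ) ≤ y / 2 ^ w := by rwa [one_le_div hw]
    have h7 : (⌊y⌋₊ : ℝ) / ((2 ^ w : ℕ) : ℝ) ≤ y / 2 ^ w := by
      push_cast; gcongr
    have : 2 * y / 2 ^ w = y / 2 ^ w + y / 2 ^ w := by ring
    linarith
  calc ((Ft s l w y t j).card : ℝ)
      ≤ (D + 1) * (((⌊y⌋₊ / 2 ^ w : ℕ) : ℝ) + 1) * (Bad w).card := h3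
    _ ≤ ((4 * H / 3 + 1) * (2 ^ l / y)) * (2 * y / 2 ^ w) * (Bad w).card := by gcongr
    _ = (4 * H / 3 + 1) * 2 * 2 ^ l * ((Bad w).card / 2 ^ w) := by
        field_simp

lemma Fl_card (s l w H : ℕ) (y : ℝ)
    (hy1 : (2 : ℝ) ^ w ≤ y) (hy2 : y ≤ 2 ^ l) (hyH : (4 : ℝ) * H / 3 ≤ y) :
    ((Fl s l w H y).card : ℝ) ≤
      (H + 1) ^ 2 * ((4 * H / 3 + 1) * 2 * 2 ^ l * ((Bad w).card / 2 ^ w)) := by
  classical
  have hsub : Fl s l w H y ⊆ (Finset.Icc 1 H ×ˢ Finset.range (H + 1)).biUnion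
      (fun p => Ft s l w y p.1 p.2) := by
    intro q hq
    simp only [Fl, Finset.mem_filter] at hq
    obtain ⟨hq1, t, ht0, htH, hFP, hbad⟩ := hq
    simp only [Finset.mem_biUnion, Finset.mem_product, Finset.mem_Icc, Finset.mem_range, Prod.exists]
    refine ⟨t, od t (st s q), ⟨⟨ht0, htH⟩, ?_⟩, ?_⟩
    · have := od_le t (st s q); omega
    · simp only [Ft, Finset.mem_filter]
      exact ⟨hq1, hFP, trivial, hbad⟩
  have hcard := (Finset.card_le_card hsub).trans Finset.card_biUnion_le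
  have hcard' : ((Fl s l w H y).card : ℝ) ≤
      ∑ p ∈ (Finset.Icc 1 H ×ˢ Finset.range (H + 1)), ((Ft s l w y p.1 p.2).card : ℝ) := by
    exact_mod_cast hcard
  refine hcard'.trans ?_
  have hb : ∀ p ∈ (Finset.Icc 1 H ×ˢ Finset.range (H + 1)), ((Ft s l w y p.1 p.2).card : ℝ) ≤
      (4 * H / 3 + 1) * 2 * 2 ^ l * ((Bad w).card / 2 ^ w) := by
    intro p hp
    simp only [Finset.mem_product, Finset.mem_Icc] at hp
    exact Ft_card s l w H y p.1 p.2 (by omega) (by omega) hy1 hy2 hyH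
  refine (Finset.sum_le_card_nsmul _ _ _ hb).trans ?_
  rw [nsmul_eq_mul, Finset.card_product, Nat.card_Icc, Finset.card_range]
  have h0 : (0 : ℝ) ≤ (4 * H / 3 + 1) * 2 * 2 ^ l * ((Bad w).card / 2 ^ w) := by positivity
  apply mul_le_mul_of_nonneg_right _ h0
  push_cast
  have : (0 : ℝ) ≤ H := by positivity
  nlinarith

open Classical in
/-- `q` with a bad start. -/
noncomputable def Il (s l : ℕ) : Finset ℕ :=
  (Finset.Ico (2 ^ (l - 1)) (2 ^ l)).filter (fun q => (st s q) % 2 ^ l ∈ Bad l)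

lemma Il_card (s l : ℕ) : (Il s l).card ≤ (Bad l).card := by
  classical
  apply Finset.card_le_card_of_injOn (fun q => (st s q) % 2 ^ l)
  · intro q hq
    simp only [Il, Finset.coe_filter, Set.mem_ofPred_eq] at hq
    exact hq.2
  · intro a ha b hb hab
    simp only [Il, Finset.coe_filter, Set.mem_ofPred_eq, Finset.mem_Ico] at ha hb
    have hp : 0 < 2 ^ (l - 1) := by positivity
    have ha1 : 1 ≤ a := by omega
    have hb1 : 1 ≤ b := by omega
    have h1 : st s a ≡ st s b [MOD 2 ^ l] := hab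
    have h2 : st s a + 1 ≡ st s b + 1 [MOD 2 ^ l] := Nat.ModEq.add_right 1 h1
    rw [st_eq s a ha1, st_eq s b hb1] at h2
    have hc : Nat.Coprime (2 ^ l) (3 ^ s) := Nat.Coprime.pow _ _ (by norm_num)
    have h3 : a ≡ b [MOD 2 ^ l] := Nat.ModEq.cancel_left_of_coprime hc h2
    exact Nat.ModEq.eq_of_lt_of_lt h3 (by omega) (by omega)

/-- If the residue is not bad, the orbit does not dip. -/
lemma not_bad_dip {w n : ℕ} (h : n % 2 ^ w ∉ Bad w) {u : ℕ} (hu : u ≤ w) :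
    (n : ℝ) * (6 / 7) ^ w ≤ (T^[u] n : ℕ) := by
  have h1 : ¬ (3 ^ od u (n % 2 ^ w) * 7 ^ w < 6 ^ w * 2 ^ u) := by
    intro hlt
    apply h
    simp only [Bad, Finset.mem_filter, Finset.mem_range]
    exact ⟨Nat.mod_lt _ (by positivity), u, hu, hlt⟩
  rw [od_mod hu] at h1
  push Not at h1
  have h2 : (6 : ℝ) ^ w * 2 ^ u ≤ 3 ^ od u n * 7 ^ w := by exact_mod_cast h1
  have hk := key u n
  have hk' : (2 : ℝ) ^ u * (T^[u] n : ℕ) = 3 ^ od u n * n + Rm u n := by exact_mod_cast hk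
  have hR : (0 : ℝ) ≤ Rm u n := by positivity
  have h2u : (0 : ℝ) < 2 ^ u := by positivity
  have h7 : (0 : ℝ) < 7 ^ w := by positivity
  have hn : (0 : ℝ) ≤ n := by positivity
  rw [div_pow, ← mul_div_assoc, div_le_iff₀ h7]
  have h3 : (n : ℝ) * (6 ^ w * 2 ^ u) ≤ n * (3 ^ od u n * 7 ^ w) := by gcongr
  have h4 : 2 ^ u * ((n : ℝ) * 6 ^ w) ≤ 2 ^ u * ((T^[u] n : ℕ) * 7 ^ w) := by
    have : 2 ^ u * (((T^[u] n : ℕ) : ℝ) * 7 ^ w) = (3 ^ od u n * n + Rm u n) * 7 ^ w := by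
      rw [← hk']; ring
    rw [this]
    nlinarith
  exact le_of_mul_le_mul_left h4 h2u

end Pool.Agent.H30.Collatz
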