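import Pool.Agent.H30.CollatzB

set_option autoImplicit false

namespace Pool.Agent.H30.Collatz

/-- Levels. -/
noncomputable def lev (w i : ℕ) : ℝ := 2 ^ (42 * w) * ((6 / 7) ^ w / 2) ^ i

lemma lev_succ (w i : ℕ) : lev w (i + 1) = lev w i * (6 / 7) ^ w / 2 := by
  unfold lev; rw [pow_succ]; ring

lemma lev_pos (w i : ℕ) : 0 < lev w i := by unfold lev; positivity

lemma lev_succ_lt (w i : ℕ) : lev w (i + 1) < lev w i := by
  rw [lev_succ]
  have h1 : ((6 : ℝ) / 7) ^ w ≤ 1 := pow_le_one₀ (by norm_num) (by norm_num)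
  have h2 := lev_pos w i
  nlinarith

lemma lev_anti (w : ℕ) : Antitone (lev w) :=
  antitone_nat_of_succ_le (fun i => (lev_succ_lt w i).le)

lemma climb (s q k : ℕ) (hq : 1 ≤ q) (hk : k ≤ s) :
    T^[k] (2 ^ s * q - 1) = 3 ^ k * 2 ^ (s - k) * q - 1 := by
  induction k with
  | zero => simp
  | succ k ih =>
    rw [Function.iterate_succ_apply', ih (by omega)]
    have e : s - k = (s - (k + 1)) + 1 := by omega
    set M := 3 ^ k * 2 ^ (s - (k + 1)) * q with hM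
    have hMpos : 0 < M := by positivity
    have e1 : 3 ^ k * 2 ^ (s - k) * q = 2 * M := by rw [e, hM]; ring
    have e2 : 3 ^ (k + 1) * 2 ^ (s - (k + 1)) * q = 3 * M := by rw [hM]; ring
    rw [e1, e2, T_odd (by omega)]
    omega

set_option maxRecDepth 10000 in
lemma exists_good (w : ℕ) (_hw : 1 ≤ w)
    (c1 : (2 : ℝ) ^ w ≤ lev w 183)
    (c2 : (4 : ℝ) * (232 * w : ℕ) / 3 ≤ 2 ^ w)
    (c4 : ((Bad (42 * w)).card : ℝ) + 184 * ((((232 * w : ℕ) : ℝ) + 1) ^ 2 *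
      ((4 * ((232 * w : ℕ) : ℝ) / 3 + 1) * 2 * 2 ^ (42 * w) * ((Bad w).card / 2 ^ w))) < 2 ^ (42 * w - 1)) :
    ∃ q, 2 ^ (42 * w - 1) ≤ q ∧ q < 2 ^ (42 * w) ∧
      (st (6 * w) q) % 2 ^ (42 * w) ∉ Bad (42 * w) ∧
      ∀ i < 184, ∀ t, 0 < t → t ≤ 232 * w → FP (lev w i) (st (6 * w) q) t →
        (T^[t] (st (6 * w) q)) % 2 ^ w ∉ Bad w := by
  classical
  by_contra hcon
  push Not at hcon
  have hsub : Finset.Ico (2 ^ (42 * w - 1)) (2 ^ (42 * w)) ⊆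
      Il (6 * w) (42 * w) ∪ (Finset.range 184).biUnion
        (fun i => Fl (6 * w) (42 * w) w (232 * w) (lev w i)) := by
    intro q hq
    have hq' := hq
    rw [Finset.mem_Ico] at hq'
    rw [Finset.mem_union]
    by_cases hI : (st (6 * w) q) % 2 ^ (42 * w) ∈ Bad (42 * w)
    · left
      simp only [Il, Finset.mem_filter]
      exact ⟨hq, hI⟩
    · right
      obtain ⟨i, hi, t, ht0, htH, hFP, hbad⟩ := hcon q hq'.1 hq'.2 hI
      rw [Finset.mem_biUnion]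
      refine ⟨i, Finset.mem_range.mpr hi, ?_⟩
      simp only [Fl, Finset.mem_filter, Finset.mem_Icc]
      have : 0 < 2 ^ (42 * w - 1) := by positivity
      exact ⟨⟨by omega, by omega⟩, t, ht0, htH, hFP, hbad⟩
  have h1 := (Finset.card_le_card hsub).trans (Finset.card_union_le _ _)
  have h2 : ((Finset.range 184).biUnion
        (fun i => Fl (6 * w) (42 * w) w (232 * w) (lev w i))).card ≤
      ∑ i ∈ Finset.range 184, (Fl (6 * w) (42 * w) w (232 * w) (lev w i)).card :=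
    Finset.card_biUnion_le
  have h3 : (Finset.Ico (2 ^ (42 * w - 1)) (2 ^ (42 * w))).card = 2 ^ (42 * w - 1) := by
    rw [Nat.card_Ico]
    have : 2 ^ (42 * w) = 2 * 2 ^ (42 * w - 1) := by
      rw [← pow_succ']; congr 1; omega
    omega
  rw [h3] at h1
  have h4 := h1.trans (Nat.add_le_add (Il_card _ _) h2)
  have h4' : (2 : ℝ) ^ (42 * w - 1) ≤ (Bad (42 * w)).card +
      ∑ i ∈ Finset.range 184, ((Fl (6 * w) (42 * w) w (232 * w) (lev w i)).card : ℝ) := by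
    exact_mod_cast h4
  have h5 : ∀ i ∈ Finset.range 184, ((Fl (6 * w) (42 * w) w (232 * w) (lev w i)).card : ℝ) ≤
      (((232 * w : ℕ) : ℝ) + 1) ^ 2 *
      ((4 * ((232 * w : ℕ) : ℝ) / 3 + 1) * 2 * 2 ^ (42 * w) * ((Bad w).card / 2 ^ w)) := by
    intro i hi
    have hi' : i ≤ 183 := by have := Finset.mem_range.mp hi; omega
    have hl : lev w 183 ≤ lev w i := lev_anti w hi'
    have hl0 : lev w i ≤ lev w 0 := lev_anti w (Nat.zero_le i)
    have h0 : lev w 0 = 2 ^ (42 * w) := by simp [lev]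
    apply Fl_card
    · linarith
    · linarith
    · linarith
  have h6 := Finset.sum_le_card_nsmul _ _ _ h5
  rw [Finset.card_range, nsmul_eq_mul] at h6
  push_cast at h6 h4' c4
  linarith

lemma orbit_large (w q : ℕ) (_hw : 1 ≤ w)
    (c3 : (2 : ℝ) ^ (42 * w) < (3 ^ (6 * w) * 2 ^ (42 * w - 1) - 1) * (6 / 7) ^ (42 * w))
    (hq : 2 ^ (42 * w - 1) ≤ q)
    (hI : (st (6 * w) q) % 2 ^ (42 * w) ∉ Bad (42 * w))
    (hF : ∀ i < 184, ∀ t, 0 < t → t ≤ 232 * w → FP (lev w i) (st (6 * w) q) t →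
        (T^[t] (st (6 * w) q)) % 2 ^ w ∉ Bad w) :
    ∀ i ≤ 184, ∀ t ≤ 42 * w + i * w, lev w i < ((T^[t] (st (6 * w) q) : ℕ) : ℝ) := by
  set n := st (6 * w) q with hn
  intro i
  induction i with
  | zero =>
    intro _ t ht
    have h1 := not_bad_dip hI (u := t) (by omega)
    have hq1 : 1 ≤ q := le_trans Nat.one_le_two_pow hq
    have h2 : (n : ℝ) = 3 ^ (6 * w) * q - 1 := by
      have := st_eq (6 * w) q hq1
      have h' : (st (6 * w) q : ℝ) + 1 = 3 ^ (6 * w) * q := by exact_mod_cast this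
      rw [hn]; linarith
    have h3 : (2 : ℝ) ^ (42 * w - 1) ≤ q := by exact_mod_cast hq
    have h4 : (3 : ℝ) ^ (6 * w) * 2 ^ (42 * w - 1) - 1 ≤ n := by
      rw [h2]
      have : (3 : ℝ) ^ (6 * w) * 2 ^ (42 * w - 1) ≤ 3 ^ (6 * w) * q := by gcongr
      linarith
    have h5 : ((3 : ℝ) ^ (6 * w) * 2 ^ (42 * w - 1) - 1) * (6 / 7) ^ (42 * w)
        ≤ n * (6 / 7) ^ (42 * w) := by gcongr
    have h0 : lev w 0 = 2 ^ (42 * w) := by simp [lev]
    rw [h0]; linarith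
  | succ i ih =>
    intro hi t ht
    have ih' := ih (by omega)
    by_cases hall : ∀ t' ≤ t, lev w i < ((T^[t'] n : ℕ) : ℝ)
    · exact (lev_succ_lt w i).trans (hall t le_rfl)
    · classical
      push Not at hall
      have hex : ∃ t', ((T^[t'] n : ℕ) : ℝ) ≤ lev w i := by
        obtain ⟨t', _, h⟩ := hall; exact ⟨t', h⟩
      obtain ⟨t', ht', hle'⟩ := hall
      set τ := Nat.find hex with hτ
      have hτle : τ ≤ t := (Nat.find_min' hex hle').trans ht'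
      have hτspec : ((T^[τ] n : ℕ) : ℝ) ≤ lev w i := Nat.find_spec hex
      have hτmin : ∀ j < τ, lev w i < ((T^[j] n : ℕ) : ℝ) := by
        intro j hj
        have := Nat.find_min hex hj
        push Not at this; exact this
      have hτgt : 42 * w + i * w < τ := by
        by_contra hc
        push Not at hc
        have := ih' τ hc
        linarith
      have ht2 : t ≤ 42 * w + i * w + w := by
        have : (i + 1) * w = i * w + w := by ring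
        omega
      have hiw : i * w ≤ 183 * w := Nat.mul_le_mul_right _ (by omega)
      have hbad := hF i (by omega) τ (by omega) (by omega) ⟨hτspec, hτmin⟩
      obtain ⟨u, rfl⟩ := Nat.exists_eq_add_of_le hτle
      have hu : u ≤ w := by omega
      have h1 := not_bad_dip hbad hu
      have h2 : T^[τ + u] n = T^[u] (T^[τ] n) := by
        rw [add_comm, Function.iterate_add_apply]
      rw [h2]
      have h3 := FP_half (y := lev w i) (n := n) (t := τ) (by omega) ⟨hτspec, hτmin⟩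
      rw [lev_succ]
      have h4 : (0 : ℝ) < (6 / 7) ^ w := by positivity
      have h5 : lev w i / 2 * (6 / 7) ^ w < ((T^[τ] n : ℕ) : ℝ) * (6 / 7) ^ w := by gcongr
      calc lev w i * (6 / 7) ^ w / 2 = lev w i / 2 * (6 / 7) ^ w := by ring
        _ < ((T^[τ] n : ℕ) : ℝ) * (6 / 7) ^ w := h5
        _ ≤ _ := h1

lemma prod_bound (a a' b b' P c c' : ℝ) (ha : 0 ≤ a) (hb : 0 ≤ b) (hP : 0 ≤ P) (hc : 0 ≤ c)
    (h1 : a ≤ a') (h2 : b ≤ b') (h3 : c ≤ c') :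
    184 * (a ^ 2 * (b * 2 * P * c)) ≤ 184 * (a' ^ 2 * (b' * 2 * P * c')) := by
  have ha' : 0 ≤ a' := ha.trans h1
  have hb' : 0 ≤ b' := hb.trans h2
  gcongr

lemma eventually_conditions : ∀ᶠ w : ℕ in Filter.atTop,
    (2 : ℝ) ^ w ≤ lev w 183 ∧ (4 : ℝ) * (232 * w : ℕ) / 3 ≤ 2 ^ w ∧
    (2 : ℝ) ^ (42 * w) < (3 ^ (6 * w) * 2 ^ (42 * w - 1) - 1) * (6 / 7) ^ (42 * w) ∧
    ((Bad (42 * w)).card : ℝ) + 184 * ((((232 * w : ℕ) : ℝ) + 1) ^ 2 *
      ((4 * ((232 * w : ℕ) : ℝ) / 3 + 1) * 2 * 2 ^ (42 * w) * ((Bad w).card / 2 ^ w))) < 2 ^ (42 * w - 1) ∧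
    1 ≤ lev w 184 := by
  obtain ⟨ρ, hρ0, hρ1, hbad⟩ := bad_card
  have e1 : ∀ᶠ w : ℕ in Filter.atTop, (2 : ℝ) ^ 183 ≤ (2 ^ 41 * (6 / 7) ^ 183) ^ w := by
    apply (tendsto_pow_atTop_atTop_of_one_lt (r := (2 ^ 41 * (6 / 7) ^ 183 : ℝ)) _).eventually_ge_atTop
    norm_num
  have e5 : ∀ᶠ w : ℕ in Filter.atTop, (2 : ℝ) ^ 184 ≤ (2 ^ 42 * (6 / 7) ^ 184) ^ w := by
    apply (tendsto_pow_atTop_atTop_of_one_lt (r := (2 ^ 42 * (6 / 7) ^ 184 : ℝ)) _).eventually_ge_atTop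
    norm_num
  have e3 : ∀ᶠ w : ℕ in Filter.atTop, (6 : ℝ) ≤ (3 ^ 6 * (6 / 7) ^ 42) ^ w := by
    apply (tendsto_pow_atTop_atTop_of_one_lt (r := (3 ^ 6 * (6 / 7) ^ 42 : ℝ)) _).eventually_ge_atTop
    norm_num
  have e2 : ∀ᶠ w : ℕ in Filter.atTop, (w : ℝ) ^ 1 * (1 / 2) ^ w < 1 / 1000 :=
    (tendsto_pow_const_mul_const_pow_of_abs_lt_one 1 (r := (1 / 2 : ℝ))
      (by rw [abs_of_pos] <;> norm_num)).eventually_lt_const (by norm_num)
  have e4 : ∀ᶠ w : ℕ in Filter.atTop, (w : ℝ) ^ 4 * ρ ^ w <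
      1 / (2 * (43 + 184 * 233 ^ 2 * 311 * 4)) :=
    (tendsto_pow_const_mul_const_pow_of_abs_lt_one 4 (r := ρ)
      (by rw [abs_of_pos hρ0]; exact hρ1)).eventually_lt_const (by norm_num)
  filter_upwards [e1, e2, e3, e4, e5, Filter.eventually_ge_atTop 1] with w h1 h2 h3 h4 h5 hw
  have hwr : (1 : ℝ) ≤ w := by exact_mod_cast hw
  refine ⟨?_, ?_, ?_, ?_, ?_⟩
  · -- c1
    unfold lev
    have e : (2 : ℝ) ^ (42 * w) * ((6 / 7) ^ w / 2) ^ 183
        = 2 ^ w * ((2 ^ 41 * (6 / 7) ^ 183) ^ w / 2 ^ 183) := by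
      rw [mul_pow, ← pow_mul, ← pow_mul, div_pow, ← pow_mul, mul_comm 183 w,
        show 42 * w = w + 41 * w by ring, pow_add]
      ring
    rw [e]
    have h6 : (1 : ℝ) ≤ (2 ^ 41 * (6 / 7) ^ 183) ^ w / 2 ^ 183 := by
      rw [one_le_div (by positivity)]; exact h1
    have h7 : (0 : ℝ) < 2 ^ w := by positivity
    nlinarith
  · -- c2
    have h7 : (0 : ℝ) < 2 ^ w := by positivity
    rw [pow_one, one_div, inv_pow, ← div_eq_mul_inv, div_lt_iff₀ h7] at h2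
    push_cast
    nlinarith
  · -- c3
    obtain ⟨m, hm⟩ : ∃ m, 42 * w = m + 1 := ⟨42 * w - 1, by omega⟩
    have hm' : 42 * w - 1 = m := by omega
    rw [hm']
    have e : (3 : ℝ) ^ (6 * w) * 2 ^ m * (6 / 7) ^ (42 * w) = 2 ^ m * (3 ^ 6 * (6 / 7) ^ 42) ^ w := by
      rw [mul_pow, ← pow_mul, ← pow_mul]; ring
    have h6 : ((6 : ℝ) / 7) ^ (42 * w) ≤ 1 := pow_le_one₀ (by norm_num) (by norm_num)
    have h7 : (1 : ℝ) ≤ 2 ^ m := one_le_pow₀ (by norm_num)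
    have h8 : (2 : ℝ) ^ m * 6 ≤ 2 ^ m * (3 ^ 6 * (6 / 7) ^ 42) ^ w := by gcongr
    have h9 : (2 : ℝ) ^ (42 * w) = 2 * 2 ^ m := by rw [hm, pow_succ]; ring
    rw [h9, sub_mul, e, one_mul]
    linarith
  · -- c4
    have hb1 := hbad (42 * w)
    have hb2 := hbad w
    obtain ⟨m, hm⟩ : ∃ m, 42 * w = m + 1 := ⟨42 * w - 1, by omega⟩
    have hm' : 42 * w - 1 = m := by omega
    have h9 : (2 : ℝ) ^ (42 * w) = 2 * 2 ^ m := by rw [hm, pow_succ]; ring
    have hX : (0 : ℝ) < 2 ^ m := by positivity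
    have hρw : ρ ^ (42 * w) ≤ ρ ^ w := pow_le_pow_of_le_one hρ0.le hρ1.le (by omega)
    have hρp : 0 < ρ ^ w := by positivity
    have hb3 : ((Bad w).card : ℝ) / 2 ^ w ≤ (w + 1) * ρ ^ w := by
      rw [div_le_iff₀ (by positivity)]; exact hb2
    have hw4 : (w : ℝ) ≤ w ^ 4 := by
      calc (w : ℝ) = w ^ 1 := by ring
        _ ≤ w ^ 4 := pow_le_pow_right₀ hwr (by norm_num)
    have i1 : ((Bad (42 * w)).card : ℝ) ≤ 43 * (w ^ 4 * ρ ^ w) * 2 ^ (42 * w) := by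
      refine hb1.trans ?_
      have : (((42 * w : ℕ) : ℝ) + 1) ≤ 43 * w ^ 4 := by push_cast; linarith
      calc (((42 * w : ℕ) : ℝ) + 1) * ρ ^ (42 * w) * 2 ^ (42 * w)
          ≤ (43 * w ^ 4) * ρ ^ w * 2 ^ (42 * w) := by gcongr
        _ = _ := by ring
    have i2 : 184 * ((((232 * w : ℕ) : ℝ) + 1) ^ 2 *
      ((4 * ((232 * w : ℕ) : ℝ) / 3 + 1) * 2 * 2 ^ (42 * w) * ((Bad w).card / 2 ^ w))) ≤
        (184 * 233 ^ 2 * 311 * 4) * (w ^ 4 * ρ ^ w) * 2 ^ (42 * w) := by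
      have j1 : (((232 * w : ℕ) : ℝ) + 1) ≤ 233 * w := by push_cast; linarith
      have j2 : (4 * ((232 * w : ℕ) : ℝ) / 3 + 1) ≤ 311 * w := by push_cast; linarith
      have j3 : ((Bad w).card : ℝ) / 2 ^ w ≤ (2 * w) * ρ ^ w := by
        refine hb3.trans ?_
        gcongr; linarith
      have jj := prod_bound (((232 * w : ℕ) : ℝ) + 1) (233 * w) (4 * ((232 * w : ℕ) : ℝ) / 3 + 1)
        (311 * w) (2 ^ (42 * w)) (((Bad w).card : ℝ) / 2 ^ w) ((2 * w) * ρ ^ w)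
        (by positivity) (by positivity) (by positivity)
        (div_nonneg (Nat.cast_nonneg _) (by positivity)) j1 j2 j3
      refine jj.trans (le_of_eq ?_)
      ring
    have i3 : ((43 : ℝ) + 184 * 233 ^ 2 * 311 * 4) * (w ^ 4 * ρ ^ w) < 1 / 2 := by
      have hC : (0 : ℝ) < 43 + 184 * 233 ^ 2 * 311 * 4 := by norm_num
      calc ((43 : ℝ) + 184 * 233 ^ 2 * 311 * 4) * (w ^ 4 * ρ ^ w)
          < (43 + 184 * 233 ^ 2 * 311 * 4) * (1 / (2 * (43 + 184 * 233 ^ 2 * 311 * 4))) := by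
            gcongr
        _ = 1 / 2 := by norm_num
    rw [hm']
    have hP : (0 : ℝ) < 2 ^ (42 * w) := by positivity
    have i4 : ((43 : ℝ) + 184 * 233 ^ 2 * 311 * 4) * (w ^ 4 * ρ ^ w) * 2 ^ (42 * w) <
        1 / 2 * 2 ^ (42 * w) := by gcongr
    have i5 : (1 : ℝ) / 2 * 2 ^ (42 * w) = 2 ^ m := by rw [h9]; ring
    rw [i5] at i4
    have i6 : ((43 : ℝ) + 184 * 233 ^ 2 * 311 * 4) * (w ^ 4 * ρ ^ w) * 2 ^ (42 * w) =
        43 * (w ^ 4 * ρ ^ w) * 2 ^ (42 * w) + (184 * 233 ^ 2 * 311 * 4) * (w ^ 4 * ρ ^ w) * 2 ^ (42 * w) := by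
      ring
    linarith
  · -- c5
    unfold lev
    have e : (2 : ℝ) ^ (42 * w) * ((6 / 7) ^ w / 2) ^ 184
        = (2 ^ 42 * (6 / 7) ^ 184) ^ w / 2 ^ 184 := by
      rw [mul_pow, ← pow_mul, ← pow_mul, div_pow, ← pow_mul, mul_comm 184 w]
      ring
    rw [e, one_le_div (by positivity)]
    exact h5

theorem main (N : ℕ) : ∃ n : ℕ, N < n ∧ 0 < n ∧
      ∀ k : ℕ, (k : ℝ) < ((1 / 2 : ℝ) * Real.log (4 / 3))⁻¹ * Real.log (n : ℝ) →
        T^[k] n ≠ 1 := by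
  obtain ⟨w, ⟨c1, c2, c3, c4, c5⟩, hwN⟩ :=
    (eventually_conditions.and (Filter.eventually_ge_atTop (N + 1))).exists
  have hw : 1 ≤ w := by omega
  obtain ⟨q, hq1, hq2, hI, hF⟩ := exists_good w hw c1 c2 c4
  have horb := orbit_large w q hw c3 hq1 hI hF 184 le_rfl
  set s := 6 * w with hs
  have hqpos : 1 ≤ q := le_trans Nat.one_le_two_pow hq1
  have hq4 : 2 ≤ q := by
    have : 2 ^ 1 ≤ 2 ^ (42 * w - 1) := Nat.pow_le_pow_right (by norm_num) (by omega)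
    omega
  have h2s : w < 2 ^ s := by
    calc w < 2 ^ w := Nat.lt_two_pow_self
      _ ≤ 2 ^ s := Nat.pow_le_pow_right (by norm_num) (by omega)
  have hbig : 2 ^ s * 2 ≤ 2 ^ s * q := Nat.mul_le_mul_left _ hq4
  refine ⟨2 ^ s * q - 1, by omega, by omega, ?_⟩
  intro k hk
  -- bound on k
  have hlog43 : 0 < Real.log (4 / 3) := Real.log_pos (by norm_num)
  have hnlt : ((2 ^ s * q - 1 : ℕ) : ℝ) ≤ 2 ^ (48 * w) := by
    have h1 : 2 ^ s * q ≤ 2 ^ s * 2 ^ (42 * w) := Nat.mul_le_mul_left _ hq2.le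
    have h2 : 2 ^ s * 2 ^ (42 * w) = 2 ^ (48 * w) := by rw [← pow_add]; congr 1; omega
    have h3 : 2 ^ s * q - 1 ≤ 2 ^ (48 * w) := by omega
    exact_mod_cast h3
  have hnpos : (0 : ℝ) < ((2 ^ s * q - 1 : ℕ) : ℝ) := by
    have : 0 < 2 ^ s * q - 1 := by omega
    exact_mod_cast this
  have hlogn : Real.log ((2 ^ s * q - 1 : ℕ) : ℝ) ≤ w * (48 * Real.log 2) := by
    calc Real.log ((2 ^ s * q - 1 : ℕ) : ℝ) ≤ Real.log (2 ^ (48 * w)) :=
          Real.log_le_log hnpos hnlt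
      _ = w * (48 * Real.log 2) := by rw [Real.log_pow]; push_cast; ring
  have hconst : 48 * Real.log 2 ≤ 116 * Real.log (4 / 3) := by
    have h1 : Real.log ((2 : ℝ) ^ 48) ≤ Real.log ((4 / 3 : ℝ) ^ 116) := by
      apply Real.log_le_log (by norm_num)
      norm_num
    rw [Real.log_pow, Real.log_pow] at h1
    push_cast at h1
    exact h1
  have hk2 : (k : ℝ) < 232 * w := by
    refine lt_of_lt_of_le hk ?_
    rw [inv_mul_le_iff₀ (by positivity)]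
    have hw0 : (0 : ℝ) ≤ w := by positivity
    calc Real.log ((2 ^ s * q - 1 : ℕ) : ℝ) ≤ w * (48 * Real.log 2) := hlogn
      _ ≤ w * (116 * Real.log (4 / 3)) := by gcongr
      _ = _ := by ring
  have hk3 : k < 232 * w := by exact_mod_cast hk2
  rcases le_or_gt k s with hks | hks
  · rw [climb s q k hqpos hks]
    have h1 : 1 ≤ 3 ^ k := Nat.one_le_pow _ _ (by norm_num)
    rcases Nat.eq_or_lt_of_le hks with heq | hlt
    · have h3 : 3 ^ 1 ≤ 3 ^ k := Nat.pow_le_pow_right (by norm_num) (by omega)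
      have h4 : 3 ^ 1 * 1 * 2 ≤ 3 ^ k * 2 ^ (s - k) * q :=
        Nat.mul_le_mul (Nat.mul_le_mul h3 Nat.one_le_two_pow) hq4
      omega
    · have h3 : 2 ^ 1 ≤ 2 ^ (s - k) := Nat.pow_le_pow_right (by norm_num) (by omega)
      have h4 : 1 * 2 ^ 1 * 2 ≤ 3 ^ k * 2 ^ (s - k) * q :=
        Nat.mul_le_mul (Nat.mul_le_mul h1 h3) hq4
      omega
  · obtain ⟨t, rfl⟩ := Nat.exists_eq_add_of_le hks.le
    have h1 : T^[s + t] (2 ^ s * q - 1) = T^[t] (st s q) := by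
      rw [add_comm, Function.iterate_add_apply, climb s q s hqpos le_rfl]
      simp [st]
    rw [h1]
    have h2 := horb t (by omega)
    intro h3
    rw [h3] at h2
    push_cast at h2
    linarith

end Pool.Agent.H30.Collatz
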