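import Mathlib.Computability.Halting
import Mathlib.Tactic

set_option autoImplicit false

/-!
# `Computable` with `fun_prop`

We tag `Computable` with the `fun_prop` attribute and give the usual closure rules in compositional
form.  Hypotheses on functions of several variables should be in the form
`Computable (fun p : α × β × γ => f p.1 p.2.1 p.2.2)`.
-/

namespace Pool.Agent.H30.CompFP

attribute [fun_prop] Computable

variable {α β γ δ σ : Type*} [Primcodable α] [Primcodable β] [Primcodable γ] [Primcodable σ]
  [Primcodable δ]

@[fun_prop] theorem c_id : Computable (fun a : α => a) := Computable.id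

@[fun_prop] theorem c_const (b : β) : Computable (fun _ : α => b) := Computable.const b

@[fun_prop] theorem c_comp {f : β → σ} {g : α → β} (hf : Computable f) (hg : Computable g) :
    Computable (fun a => f (g a)) := hf.comp hg

@[fun_prop] theorem c_fst {f : α → β × γ} (hf : Computable f) : Computable (fun a => (f a).1) :=
  Computable.fst.comp hf

@[fun_prop] theorem c_snd {f : α → β × γ} (hf : Computable f) : Computable (fun a => (f a).2) :=
  Computable.snd.comp hf

@[fun_prop] theorem c_pair {f : α → β} {g : α → γ} (hf : Computable f) (hg : Computable g) :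
    Computable (fun a => (f a, g a)) := hf.pair hg

@[fun_prop] theorem c_succ {f : α → ℕ} (hf : Computable f) : Computable (fun a => f a + 1) :=
  Computable.succ.comp hf

@[fun_prop] theorem c_succ' {f : α → ℕ} (hf : Computable f) : Computable (fun a => (f a).succ) :=
  Computable.succ.comp hf

@[fun_prop] theorem c_add {f g : α → ℕ} (hf : Computable f) (hg : Computable g) :
    Computable (fun a => f a + g a) := (Primrec.nat_add.to_comp).comp hf hg

@[fun_prop] theorem c_sub {f g : α → ℕ} (hf : Computable f) (hg : Computable g) :
    Computable (fun a => f a - g a) := (Primrec.nat_sub.to_comp).comp hf hg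

@[fun_prop] theorem c_mul {f g : α → ℕ} (hf : Computable f) (hg : Computable g) :
    Computable (fun a => f a * g a) := (Primrec.nat_mul.to_comp).comp hf hg

@[fun_prop] theorem c_div {f g : α → ℕ} (hf : Computable f) (hg : Computable g) :
    Computable (fun a => f a / g a) := (Primrec.nat_div.to_comp).comp hf hg

@[fun_prop] theorem c_mod {f g : α → ℕ} (hf : Computable f) (hg : Computable g) :
    Computable (fun a => f a % g a) := (Primrec.nat_mod.to_comp).comp hf hg

@[fun_prop] theorem c_natpair {f g : α → ℕ} (hf : Computable f) (hg : Computable g) :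
    Computable (fun a => Nat.pair (f a) (g a)) := (Primrec₂.natPair.to_comp).comp hf hg

@[fun_prop] theorem c_unpair {f : α → ℕ} (hf : Computable f) :
    Computable (fun a => Nat.unpair (f a)) := (Primrec.unpair.to_comp).comp hf

@[fun_prop] theorem c_cond {c : α → Bool} {f g : α → σ} (hc : Computable c) (hf : Computable f)
    (hg : Computable g) : Computable (fun a => cond (c a) (f a) (g a)) := hc.cond hf hg

@[fun_prop] theorem c_and {f g : α → Bool} (hf : Computable f) (hg : Computable g) :
    Computable (fun a => f a && g a) := (Primrec.and.to_comp).comp hf hg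

@[fun_prop] theorem c_or {f g : α → Bool} (hf : Computable f) (hg : Computable g) :
    Computable (fun a => f a || g a) := (Primrec.or.to_comp).comp hf hg

@[fun_prop] theorem c_not {f : α → Bool} (hf : Computable f) :
    Computable (fun a => !(f a)) := (Primrec.not.to_comp).comp hf

@[fun_prop] theorem c_xor {f g : α → Bool} (hf : Computable f) (hg : Computable g) :
    Computable (fun a => xor (f a) (g a)) :=
  (Primrec.to_comp (Primrec.dom_bool₂ xor)).comp (hf.pair hg)

@[fun_prop] theorem c_beqBool {f g : α → Bool} (hf : Computable f) (hg : Computable g) :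
    Computable (fun a => f a == g a) :=
  (Primrec.to_comp (Primrec.dom_bool₂ (· == ·))).comp (hf.pair hg)

@[fun_prop] theorem c_decide_eq_nat {f g : α → ℕ} (hf : Computable f) (hg : Computable g) :
    Computable (fun a => decide (f a = g a)) :=
  (Primrec.eq.decide.to_comp).comp hf hg

@[fun_prop] theorem c_decide_le_nat {f g : α → ℕ} (hf : Computable f) (hg : Computable g) :
    Computable (fun a => decide (f a ≤ g a)) :=
  (Primrec.nat_le.decide.to_comp).comp hf hg

@[fun_prop] theorem c_decide_lt_nat {f g : α → ℕ} (hf : Computable f) (hg : Computable g) :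
    Computable (fun a => decide (f a < g a)) :=
  (Primrec.nat_lt.decide.to_comp).comp hf hg

@[fun_prop] theorem c_some {f : α → β} (hf : Computable f) : Computable (fun a => some (f a)) :=
  Computable.option_some.comp hf

@[fun_prop] theorem c_getD {f : α → Option β} {g : α → β} (hf : Computable f) (hg : Computable g) :
    Computable (fun a => (f a).getD (g a)) := Computable.option_getD hf hg

@[fun_prop] theorem c_isSome {f : α → Option β} (hf : Computable f) :
    Computable (fun a => (f a).isSome) := (Primrec.option_isSome.to_comp).comp hf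

@[fun_prop] theorem c_bind {f : α → Option β} {g : α → β → Option σ} (hf : Computable f)
    (hg : Computable (fun p : α × β => g p.1 p.2)) : Computable (fun a => (f a).bind (g a)) :=
  Computable.option_bind hf hg

@[fun_prop] theorem c_map {f : α → Option β} {g : α → β → σ} (hf : Computable f)
    (hg : Computable (fun p : α × β => g p.1 p.2)) : Computable (fun a => (f a).map (g a)) :=
  Computable.option_map hf hg

@[fun_prop] theorem c_encode {f : α → β} (hf : Computable f) :
    Computable (fun a => Encodable.encode (f a)) := Computable.encode.comp hf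

@[fun_prop] theorem c_decode {f : α → ℕ} (hf : Computable f) :
    Computable (fun a => (Encodable.decode (f a) : Option β)) := Computable.decode.comp hf

@[fun_prop] theorem c_ofNat {τ : Type*} [Denumerable τ] {f : α → ℕ} (hf : Computable f) :
    Computable (fun a => Denumerable.ofNat τ (f a)) := (Computable.ofNat τ).comp hf

@[fun_prop] theorem c_append {f g : α → List β} (hf : Computable f) (hg : Computable g) :
    Computable (fun a => f a ++ g a) := Computable.list_append.comp hf hg

@[fun_prop] theorem c_cons {f : α → β} {g : α → List β} (hf : Computable f) (hg : Computable g) :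
    Computable (fun a => f a :: g a) := Computable.list_cons.comp hf hg

@[fun_prop] theorem c_getElem? {f : α → List β} {g : α → ℕ} (hf : Computable f)
    (hg : Computable g) : Computable (fun a => (f a)[g a]?) := Computable.list_getElem?.comp hf hg

@[fun_prop] theorem c_length {f : α → List β} (hf : Computable f) :
    Computable (fun a => (f a).length) := Computable.list_length.comp hf

theorem c_natrec {f : α → ℕ} {g : α → σ} {h : α → ℕ × σ → σ} (hf : Computable f)
    (hg : Computable g) (hh : Computable (fun p : α × ℕ × σ => h p.1 p.2)) :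
    Computable (fun a => Nat.rec (motive := fun _ => σ) (g a) (fun y IH => h a (y, IH)) (f a)) :=
  Computable.nat_rec hf hg hh

/-! ### Iteration -/

/-- primitive recursion with three explicit arguments -/
def rec3 (z : σ) (h : ℕ → σ → σ) (n : ℕ) : σ := Nat.rec z h n

omit [Primcodable σ] in
@[simp] theorem rec3_zero (z : σ) (h : ℕ → σ → σ) : rec3 z h 0 = z := rfl

omit [Primcodable σ] in
@[simp] theorem rec3_succ (z : σ) (h : ℕ → σ → σ) (n : ℕ) :
    rec3 z h (n + 1) = h n (rec3 z h n) := rfl

@[fun_prop] theorem c_rec3 {f : α → ℕ} {g : α → σ} {h : α → ℕ → σ → σ} (hf : Computable f)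
    (hg : Computable g) (hh : Computable (fun p : α × ℕ × σ => h p.1 p.2.1 p.2.2)) :
    Computable (fun a => rec3 (g a) (h a) (f a)) :=
  Computable.nat_rec (h := fun a q => h a q.1 q.2) hf hg hh

/-! ### Bounded quantifiers -/

/-- bounded universal quantifier `∀ i < n` -/
def ball (n : ℕ) (f : ℕ → Bool) : Bool := rec3 true (fun i acc => acc && f i) n

/-- bounded existential quantifier `∃ i < n` -/
def bex (n : ℕ) (f : ℕ → Bool) : Bool := rec3 false (fun i acc => acc || f i) n

theorem ball_iff {n : ℕ} {f : ℕ → Bool} : ball n f = true ↔ ∀ i < n, f i = true := by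
  induction n with
  | zero => simp [ball]
  | succ n ih =>
    have : ball (n + 1) f = (ball n f && f n) := rfl
    rw [this, Bool.and_eq_true, ih]
    constructor
    · rintro ⟨h, h'⟩ i hi
      rcases Nat.lt_succ_iff_lt_or_eq.1 hi with h1 | rfl
      · exact h i h1
      · exact h'
    · intro h
      exact ⟨fun i hi => h i (Nat.lt_succ_of_lt hi), h n (Nat.lt_succ_self n)⟩

theorem bex_iff {n : ℕ} {f : ℕ → Bool} : bex n f = true ↔ ∃ i < n, f i = true := by
  induction n with
  | zero => simp [bex]
  | succ n ih =>
    have : bex (n + 1) f = (bex n f || f n) := rfl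
    rw [this, Bool.or_eq_true, ih]
    constructor
    · rintro (⟨i, hi, h⟩ | h)
      · exact ⟨i, Nat.lt_succ_of_lt hi, h⟩
      · exact ⟨n, Nat.lt_succ_self n, h⟩
    · rintro ⟨i, hi, h⟩
      rcases Nat.lt_succ_iff_lt_or_eq.1 hi with h1 | rfl
      · exact Or.inl ⟨i, h1, h⟩
      · exact Or.inr h

@[fun_prop] theorem c_ball {n : α → ℕ} {f : α → ℕ → Bool} (hn : Computable n)
    (hf : Computable (fun p : α × ℕ => f p.1 p.2)) :
    Computable (fun a => ball (n a) (f a)) := by
  unfold ball
  refine c_rec3 hn (by fun_prop) ?_
  fun_prop

@[fun_prop] theorem c_bex {n : α → ℕ} {f : α → ℕ → Bool} (hn : Computable n)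
    (hf : Computable (fun p : α × ℕ => f p.1 p.2)) :
    Computable (fun a => bex (n a) (f a)) := by
  unfold bex
  refine c_rec3 hn (by fun_prop) ?_
  fun_prop

/-- counting -/
def cntB (n : ℕ) (f : ℕ → Bool) : ℕ := rec3 0 (fun i acc => acc + cond (f i) 1 0) n

@[fun_prop] theorem c_cntB {n : α → ℕ} {f : α → ℕ → Bool} (hn : Computable n)
    (hf : Computable (fun p : α × ℕ => f p.1 p.2)) :
    Computable (fun a => cntB (n a) (f a)) := by
  unfold cntB
  refine c_rec3 hn (by fun_prop) ?_
  fun_prop

/-! ### Unbounded search -/

theorem exists_search {f : α → ℕ → Bool} (hf : Computable (fun p : α × ℕ => f p.1 p.2))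
    (h : ∀ a, ∃ n, f a n = true) :
    ∃ g : α → ℕ, Computable g ∧ ∀ a, f a (g a) = true ∧ ∀ m < g a, f a m = false := by
  classical
  refine ⟨fun a => Nat.find (h a), ?_, fun a => ⟨Nat.find_spec (h a), fun m hm => ?_⟩⟩
  · have hf' : Computable₂ f := hf
    have h1 : Partrec (fun a => Nat.rfind (p := fun n => Part.some (f a n))) :=
      Partrec.rfind (p := fun a n => Part.some (f a n)) hf'.partrec₂
    refine h1.of_eq_tot fun a => ?_
    refine Nat.mem_rfind.2 ⟨?_, fun {m} hm => ?_⟩
    · exact Part.mem_some_iff.2 (Nat.find_spec (h a)).symm
    · refine Part.mem_some_iff.2 ?_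
      have := Nat.find_min (h a) hm
      simpa using this
  · have := Nat.find_min (h a) hm
    simpa using this

/-- a function is computable if its values can be searched for -/
theorem computable_of_search {F : α → β} {f : α → ℕ → Option β}
    (hf : Computable (fun p : α × ℕ => f p.1 p.2))
    (h : ∀ a, ∃ n, (f a n).isSome) (hs : ∀ a n b, f a n = some b → b = F a) : Computable F := by
  obtain ⟨g, hg, hg'⟩ := exists_search (f := fun a n => (f a n).isSome)
    (by fun_prop) h
  have h1 : Computable (fun a => f a (g a)) := hf.comp (Computable.id.pair hg)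
  refine Computable.option_some_iff.1 (h1.of_eq fun a => ?_)
  obtain ⟨b, hb⟩ := Option.isSome_iff_exists.1 (hg' a).1
  rw [hb, hs a _ b hb]

/-! ### Indices of partial computable functions -/

open Nat.Partrec (Code)

/-- the value (if any) found after `s` steps by the `e`-th program on input `x` -/
def evS (s e x : ℕ) : Option ℕ := Code.evaln s (Denumerable.ofNat Code e) x

@[fun_prop] theorem c_evS {s e x : α → ℕ} (hs : Computable s) (he : Computable e)
    (hx : Computable x) : Computable (fun a => evS (s a) (e a) (x a)) := by
  have h := Code.primrec_evaln.to_comp.comp ((hs.pair ((Computable.ofNat Code).comp he)).pair hx)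
  exact h

theorem evS_mono {s s' e x y : ℕ} (h : s ≤ s') (h' : evS s e x = some y) : evS s' e x = some y :=
  Code.evaln_mono h h'

theorem evS_unique {s s' e x y y' : ℕ} (h : evS s e x = some y) (h' : evS s' e x = some y') :
    y = y' := by
  rcases le_total s s' with hs | hs
  · have := evS_mono hs h
    rw [this] at h'
    exact Option.some.inj h'
  · have := evS_mono hs h'
    rw [this] at h
    exact (Option.some.inj h).symm

/-- every computable function has an index -/
theorem exists_index {F : ℕ → σ} (hF : Computable F) :
    ∃ e, ∀ x, ∃ s, evS s e x = some (Encodable.encode (F x)) := by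
  have h1 : Nat.Partrec (fun x => Part.some (Encodable.encode (F x))) :=
    Partrec.nat_iff.1 (Computable.encode.comp hF).partrec
  obtain ⟨c, hc⟩ := Code.exists_code.1 h1
  refine ⟨Encodable.encode c, fun x => ?_⟩
  have h2 : Encodable.encode (F x) ∈ c.eval x := by
    rw [hc]; exact Part.mem_some _
  obtain ⟨k, hk⟩ := Code.evaln_complete.1 h2
  refine ⟨k, ?_⟩
  unfold evS
  rw [Denumerable.ofNat_encode]
  exact hk

/-- the function computed by a total index is computable -/
theorem computable_of_index {F : ℕ → σ} {e : ℕ}
    (h : ∀ x, ∃ s, evS s e x = some (Encodable.encode (F x))) : Computable F := by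
  refine computable_of_search (f := fun x s => (evS s e x).bind Encodable.decode)
    (by fun_prop) ?_ ?_
  · intro x
    obtain ⟨s, hs⟩ := h x
    exact ⟨s, by simp [hs]⟩
  · intro x s b hb
    obtain ⟨s', hs'⟩ := h x
    obtain ⟨y, hy, hyb⟩ := Option.bind_eq_some_iff.1 hb
    have := evS_unique hy hs'
    subst this
    rw [Encodable.encodek] at hyb
    exact (Option.some.inj hyb).symm

/-! ### Computable and c.e. predicates -/

theorem rePred_iff_exists {p : α → Prop} :
    REPred p ↔ ∃ f : α → ℕ → Bool, Computable (fun q : α × ℕ => f q.1 q.2) ∧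
      ∀ a, p a ↔ ∃ t, f a t = true := by
  constructor
  · intro h
    have h1 : Partrec (fun a => Part.assert (p a) fun _ => Part.some ()) := h
    have h2 : Nat.Partrec fun n => Part.bind (Encodable.decode (α := α) n : Option α) fun a =>
      Part.map Encodable.encode (Part.assert (p a) fun _ => Part.some ()) := h1
    obtain ⟨c, hc⟩ := Code.exists_code.1 h2
    refine ⟨fun a t => (evS t (Encodable.encode c) (Encodable.encode a)).isSome, by fun_prop,
      fun a => ?_⟩
    have key : (c.eval (Encodable.encode a)).Dom ↔ p a := by
      rw [hc]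
      simp [Part.assert]
    rw [← key, Part.dom_iff_mem]
    constructor
    · rintro ⟨y, hy⟩
      obtain ⟨k, hk⟩ := Code.evaln_complete.1 hy
      refine ⟨k, ?_⟩
      have hk' : Code.evaln k c (Encodable.encode a) = some y := hk
      simp only [evS, Denumerable.ofNat_encode, hk', Option.isSome_some]
    · rintro ⟨t, ht⟩
      simp only [evS, Denumerable.ofNat_encode] at ht
      obtain ⟨y, hy⟩ := Option.isSome_iff_exists.1 ht
      exact ⟨y, Code.evaln_sound hy⟩
  · rintro ⟨f, hf, h⟩
    have hf' : Computable₂ f := hf
    have h1 : Partrec (fun a => Nat.rfind (p := fun n => Part.some (f a n))) :=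
      Partrec.rfind (p := fun a n => Part.some (f a n)) hf'.partrec₂
    refine REPred.of_eq h1.dom_re fun a => ?_
    rw [h a, Part.dom_iff_mem]
    constructor
    · rintro ⟨y, hy⟩
      exact ⟨y, by simpa using (Nat.mem_rfind.1 hy).1⟩
    · rintro ⟨t, ht⟩
      have := Nat.rfind_dom (p := fun n => Part.some (f a n)).2 ⟨t, by simpa using ht, by simp⟩
      exact Part.dom_iff_mem.1 this

theorem computablePred_iff_exists {p : α → Prop} :
    ComputablePred p ↔ ∃ f : α → Bool, Computable f ∧ ∀ a, p a ↔ f a = true := by
  constructor
  · rintro ⟨hd, h⟩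
    exact ⟨fun a => decide (p a), h, fun a => by simp⟩
  · rintro ⟨f, hf, h⟩
    have : p = fun a => f a = true := funext fun a => propext (h a)
    subst this
    refine ⟨inferInstance, hf.of_eq fun a => ?_⟩
    simp

end Pool.Agent.H30.CompFP
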