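import Pool.Agent.H30.CompFP

set_option autoImplicit false

/-!
# Controlling which computable sets split a c.e. set computably

Let `A` be a c.e. set and `J` a `Σ₃` ideal of computable sets containing every computable `R` with
`R ∩ A` computable.  Then there is a c.e. set `C ⊆ A` such that, for every computable set `R`,
`R ∈ J` iff `R ∩ C` is computable.
-/

namespace Pool.Agent.H30.HN

open Pool.Agent.H30.CompFP

/-- `R ∩ A` is computable -/
def DecOn (R : ℕ → Bool) (A : ℕ → Prop) : Prop :=
  ∃ F : ℕ → Bool, Computable F ∧ ∀ x, F x = true ↔ (R x = true ∧ A x)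

/-- Boolean valued evaluation -/
def evB (s e x : ℕ) : Option Bool := (evS s e x).bind Encodable.decode

variable {α : Type*} [Primcodable α]

@[fun_prop] theorem c_evB {s e x : α → ℕ} (hs : Computable s) (he : Computable e)
    (hx : Computable x) : Computable (fun a => evB (s a) (e a) (x a)) := by
  unfold evB
  fun_prop

theorem evB_mono {s s' e x : ℕ} {b : Bool} (h : s ≤ s') (h' : evB s e x = some b) :
    evB s' e x = some b := by
  unfold evB at *
  obtain ⟨y, hy, hyb⟩ := Option.bind_eq_some_iff.1 h'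
  rw [evS_mono h hy]
  exact hyb

theorem evB_unique {s s' e x : ℕ} {b b' : Bool} (h : evB s e x = some b)
    (h' : evB s' e x = some b') : b = b' := by
  rcases le_total s s' with hs | hs
  · have := evB_mono hs h
    rw [this] at h'
    exact Option.some.inj h'
  · have := evB_mono hs h'
    rw [this] at h
    exact (Option.some.inj h).symm

theorem exists_indexB {F : ℕ → Bool} (hF : Computable F) :
    ∃ e, ∀ x, ∃ s, evB s e x = some (F x) := by
  obtain ⟨e, he⟩ := exists_index hF
  refine ⟨e, fun x => ?_⟩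
  obtain ⟨s, hs⟩ := he x
  refine ⟨s, ?_⟩
  unfold evB
  rw [hs]
  simp

theorem computable_of_indexB {F : ℕ → Bool} {e : ℕ}
    (h : ∀ x, ∃ s, evB s e x = some (F x)) : Computable F := by
  refine computable_of_search (f := fun x s => evB s e x) (by fun_prop) ?_ ?_
  · intro x
    obtain ⟨s, hs⟩ := h x
    exact ⟨s, by simp [hs]⟩
  · intro x s b hb
    obtain ⟨s', hs'⟩ := h x
    exact evB_unique hb hs'

theorem computable_of_eventually {F G : ℕ → Bool} (hF : Computable F) (N : ℕ)
    (h : ∀ x, N ≤ x → G x = F x) : Computable G := by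
  have h1 : Computable (fun x : ℕ => (((List.range N).map G)[x]?).getD (F x)) := by fun_prop
  refine h1.of_eq fun x => ?_
  rcases lt_or_ge x N with hx | hx
  · simp [hx]
  · simp [hx, h x hx]

theorem decOn_of_eventually {R F : ℕ → Bool} {A : ℕ → Prop} (hF : Computable F) (N : ℕ)
    (h : ∀ x, N ≤ x → (F x = true ↔ (R x = true ∧ A x))) : DecOn R A := by
  classical
  refine ⟨fun x => decide (R x = true ∧ A x), computable_of_eventually hF N fun x hx => ?_, ?_⟩
  · rw [Bool.eq_iff_iff, h x hx]
    simp
  · intro x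
    simp

section construction

variable (A : ℕ → ℕ → Bool) (ρ : ℕ → ℕ → ℕ → Bool)

/-- something is enumerated at stage `s` -/
def ent (s : ℕ) : Bool := A s.unpair.1 s.unpair.2 && ball s.unpair.2 (fun t => !A s.unpair.1 t)

/-- list membership -/
def memL (L : List ℕ) (y : ℕ) : Bool := bex L.length (fun i => decide ((L[i]?).getD (y + 1) = y))

/-- `k` restrains `x` at stage `s` -/
def restr (k x s : ℕ) : Bool :=
  ball (x + 1) (fun u => bex s (fun v => ρ k u v)) &&
    (ball (x + 1) (fun y => (evB s k.unpair.1 y).isSome) && (evB s k.unpair.1 x).getD false)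

/-- `p` wants to put `x` into `C` at stage `s` -/
def ovr (p x s : ℕ) (L : List ℕ) : Bool :=
  (evB s p.unpair.1 x).getD false && ball (x + 1) (fun y =>
    (evB s p.unpair.2 y).isSome && ((evB s p.unpair.1 y).isSome &&
      ((evB s p.unpair.2 y).getD false == ((evB s p.unpair.1 y).getD false && memL L y))))

/-- `x` is allowed to enter `C` at stage `s` -/
def ok (x s : ℕ) (L : List ℕ) : Bool :=
  ball s (fun k => !restr ρ k x s || bex (k + 1) (fun p => ovr p x s L))

/-- the set `C` as it is before stage `s` -/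
def hist (s : ℕ) : List ℕ :=
  rec3 [] (fun s L => cond (ent A s && ok ρ s.unpair.1 s L) (s.unpair.1 :: L) L) s

/-- the enumeration of `C` -/
def CC (x t : ℕ) : Bool :=
  ent A (Nat.pair x t) && ok ρ x (Nat.pair x t) (hist A ρ (Nat.pair x t))

variable {A ρ}

theorem memL_iff {L : List ℕ} {y : ℕ} : memL L y = true ↔ y ∈ L := by
  unfold memL
  rw [bex_iff]
  constructor
  · rintro ⟨i, hi, h⟩
    have : L[i]? = some L[i] := List.getElem?_eq_getElem hi
    rw [this] at h
    simp only [Option.getD_some, decide_eq_true_eq] at h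
    rw [← h]
    exact List.getElem_mem hi
  · intro h
    obtain ⟨i, hi, h⟩ := List.mem_iff_getElem.1 h
    refine ⟨i, hi, ?_⟩
    rw [List.getElem?_eq_getElem hi]
    simp [h]

@[fun_prop] theorem c_memL {L : α → List ℕ} {y : α → ℕ} (hL : Computable L) (hy : Computable y) :
    Computable (fun a => memL (L a) (y a)) := by
  unfold memL
  fun_prop

theorem c_ent (hA : Computable (fun p : ℕ × ℕ => A p.1 p.2)) : Computable (ent A) := by
  unfold ent
  fun_prop

theorem c_restr (hρ : Computable (fun p : ℕ × ℕ × ℕ => ρ p.1 p.2.1 p.2.2)) :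
    Computable (fun p : ℕ × ℕ × ℕ => restr ρ p.1 p.2.1 p.2.2) := by
  unfold restr
  fun_prop

theorem c_ovr : Computable (fun p : ℕ × ℕ × ℕ × List ℕ => ovr p.1 p.2.1 p.2.2.1 p.2.2.2) := by
  unfold ovr
  fun_prop

theorem c_ok (hρ : Computable (fun p : ℕ × ℕ × ℕ => ρ p.1 p.2.1 p.2.2)) :
    Computable (fun p : ℕ × ℕ × List ℕ => ok ρ p.1 p.2.1 p.2.2) := by
  have h1 := c_restr hρ
  have h2 := c_ovr
  unfold ok
  fun_prop

theorem c_hist (hA : Computable (fun p : ℕ × ℕ => A p.1 p.2))
    (hρ : Computable (fun p : ℕ × ℕ × ℕ => ρ p.1 p.2.1 p.2.2)) : Computable (hist A ρ) := by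
  have h1 := c_ok hρ
  have h2 := c_ent hA
  unfold hist
  fun_prop

theorem c_CC (hA : Computable (fun p : ℕ × ℕ => A p.1 p.2))
    (hρ : Computable (fun p : ℕ × ℕ × ℕ => ρ p.1 p.2.1 p.2.2)) :
    Computable (fun p : ℕ × ℕ => CC A ρ p.1 p.2) := by
  have h1 := c_ok hρ
  have h2 := c_ent hA
  have h3 := c_hist hA hρ
  unfold CC
  fun_prop

theorem mem_hist {y s : ℕ} : y ∈ hist A ρ s ↔ ∃ t, Nat.pair y t < s ∧ CC A ρ y t = true := by
  induction s with
  | zero => simp [hist]
  | succ s ih =>
    have e : hist A ρ (s + 1) = cond (ent A s && ok ρ s.unpair.1 s (hist A ρ s))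
      (s.unpair.1 :: hist A ρ s) (hist A ρ s) := rfl
    have e2 : CC A ρ s.unpair.1 s.unpair.2 = (ent A s && ok ρ s.unpair.1 s (hist A ρ s)) := by
      unfold CC
      rw [Nat.pair_unpair]
    rw [e, ← e2]
    cases h : CC A ρ s.unpair.1 s.unpair.2 with
    | false =>
      rw [cond_false, ih]
      constructor
      · rintro ⟨t, ht, hc⟩
        exact ⟨t, by omega, hc⟩
      · rintro ⟨t, ht, hc⟩
        refine ⟨t, ?_, hc⟩
        rcases Nat.lt_succ_iff_lt_or_eq.1 ht with h1 | h1
        · exact h1
        · subst h1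
          rw [Nat.unpair_pair] at h
          simp only at h
          rw [h] at hc
          exact absurd hc (by decide)
    | true =>
      rw [cond_true, List.mem_cons, ih]
      constructor
      · rintro (rfl | ⟨t, ht, hc⟩)
        · exact ⟨s.unpair.2, by rw [Nat.pair_unpair]; omega, h⟩
        · exact ⟨t, by omega, hc⟩
      · rintro ⟨t, ht, hc⟩
        rcases Nat.lt_succ_iff_lt_or_eq.1 ht with h1 | h1
        · exact Or.inr ⟨t, h1, hc⟩
        · left
          subst h1
          simp

theorem hist_mono {y s s' : ℕ} (h : s ≤ s') (hy : y ∈ hist A ρ s) : y ∈ hist A ρ s' := by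
  rw [mem_hist] at *
  obtain ⟨t, ht, hc⟩ := hy
  exact ⟨t, by omega, hc⟩

theorem ent_A {x t : ℕ} (h : ent A (Nat.pair x t) = true) : A x t = true := by
  unfold ent at h
  rw [Bool.and_eq_true, Nat.unpair_pair] at h
  exact h.1

theorem ent_min {x t t' : ℕ} (h : ent A (Nat.pair x t) = true) (h' : A x t' = true) : t ≤ t' := by
  unfold ent at h
  rw [Bool.and_eq_true, Nat.unpair_pair, ball_iff] at h
  by_contra hlt
  have := h.2 t' (by simpa using hlt)
  simp only at this
  rw [h'] at this
  exact absurd this (by decide)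

theorem exists_ent {x t : ℕ} (h : A x t = true) : ∃ t' ≤ t, ent A (Nat.pair x t') = true := by
  classical
  have hex : ∃ t, A x t = true := ⟨t, h⟩
  refine ⟨Nat.find hex, Nat.find_min' hex h, ?_⟩
  unfold ent
  rw [Bool.and_eq_true, Nat.unpair_pair, ball_iff]
  refine ⟨Nat.find_spec hex, fun i hi => ?_⟩
  have := Nat.find_min hex hi
  simpa using this

theorem CC_A {x t : ℕ} (h : CC A ρ x t = true) : A x t = true := by
  unfold CC at h
  rw [Bool.and_eq_true] at h
  exact ent_A h.1

/-- an element does not belong to `C` before its own stage -/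
theorem not_mem_hist {x t : ℕ} (h : ent A (Nat.pair x t) = true) :
    x ∉ hist A ρ (Nat.pair x t) := by
  intro hx
  obtain ⟨t', ht', hc⟩ := mem_hist.1 hx
  have h1 := ent_min h (CC_A hc)
  have h2 : Nat.pair x t ≤ Nat.pair x t' := by
    rcases h1.eq_or_lt with rfl | h1
    · exact le_rfl
    · exact (Nat.pair_lt_pair_right x h1).le
  omega

theorem restr_iff {k x s : ℕ} : restr ρ k x s = true ↔
    (∀ u < x + 1, ∃ v < s, ρ k u v = true) ∧ (∀ y < x + 1, ∃ b, evB s k.unpair.1 y = some b) ∧
      evB s k.unpair.1 x = some true := by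
  unfold restr
  rw [Bool.and_eq_true, Bool.and_eq_true, ball_iff, ball_iff]
  simp only [bex_iff, Option.isSome_iff_exists]
  refine and_congr Iff.rfl (and_congr Iff.rfl ?_)
  cases evB s k.unpair.1 x with
  | none => simp
  | some b => simp

theorem ovr_iff {p x s : ℕ} {L : List ℕ} : ovr p x s L = true ↔
    evB s p.unpair.1 x = some true ∧ ∀ y < x + 1, ∃ b c, evB s p.unpair.2 y = some b ∧
      evB s p.unpair.1 y = some c ∧ (b = true ↔ (c = true ∧ y ∈ L)) := by
  unfold ovr
  rw [Bool.and_eq_true, ball_iff]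
  refine and_congr ?_ (forall_congr' fun y => imp_congr Iff.rfl ?_)
  · cases evB s p.unpair.1 x with
    | none => simp
    | some b => simp
  · cases h1 : evB s p.unpair.2 y with
    | none => simp
    | some b =>
      cases h2 : evB s p.unpair.1 y with
      | none => simp
      | some c =>
        simp only [Option.isSome_some, Option.getD_some, Bool.true_and, Option.some.injEq,
          exists_and_left, exists_eq_left', beq_iff_eq]
        rw [Bool.eq_iff_iff, Bool.and_eq_true, memL_iff]

theorem ok_iff {x s : ℕ} {L : List ℕ} : ok ρ x s L = true ↔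
    ∀ k < s, restr ρ k x s = true → ∃ p < k + 1, ovr p x s L = true := by
  unfold ok
  rw [ball_iff]
  refine forall_congr' fun k => imp_congr Iff.rfl ?_
  rw [Bool.or_eq_true, bex_iff]
  cases restr ρ k x s <;> simp

/-- every `p` acts only finitely often -/
theorem ovr_bound (p : ℕ) : ∃ N, ∀ x, N ≤ x → ∀ t, CC A ρ x t = true →
    ovr p x (Nat.pair x t) (hist A ρ (Nat.pair x t)) = false := by
  by_cases h : ∃ x t, CC A ρ x t = true ∧
    ovr p x (Nat.pair x t) (hist A ρ (Nat.pair x t)) = true
  · obtain ⟨x₀, t₀, hc₀, ho₀⟩ := h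
    refine ⟨Nat.pair x₀ t₀ + 1, fun x hx t hc => ?_⟩
    by_contra ho
    rw [Bool.not_eq_false] at ho
    have hx₀ : x₀ ∉ hist A ρ (Nat.pair x₀ t₀) := by
      refine not_mem_hist ?_
      unfold CC at hc₀
      rw [Bool.and_eq_true] at hc₀
      exact hc₀.1
    have hs : Nat.pair x₀ t₀ < Nat.pair x t := lt_of_lt_of_le (by omega) (Nat.left_le_pair x t)
    have hxx : x₀ < x + 1 := by
      have := Nat.left_le_pair x₀ t₀
      omega
    rw [ovr_iff] at ho₀ ho
    obtain ⟨b₀, c₀, hb₀, hc0, hbc₀⟩ := ho₀.2 x₀ (Nat.lt_succ_self _)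
    obtain ⟨b, c, hb, hc', hbc⟩ := ho.2 x₀ hxx
    have e1 : b₀ = b := evB_unique hb₀ hb
    have e2 : true = c := evB_unique ho₀.1 hc'
    have hmem : x₀ ∈ hist A ρ (Nat.pair x t) := mem_hist.2 ⟨t₀, hs, hc₀⟩
    have h1 : b = true := hbc.2 ⟨e2.symm, hmem⟩
    have h2 := hbc₀.1 (e1.trans h1)
    exact hx₀ h2.2
  · refine ⟨0, fun x _ t hc => ?_⟩
    by_contra ho
    rw [Bool.not_eq_false] at ho
    exact h ⟨x, t, hc, ho⟩

theorem ovr_bound' (m : ℕ) : ∃ N, ∀ x, N ≤ x → ∀ t, CC A ρ x t = true →
    ∀ p < m, ovr p x (Nat.pair x t) (hist A ρ (Nat.pair x t)) = false := by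
  induction m with
  | zero => exact ⟨0, fun _ _ _ _ p hp => absurd hp (Nat.not_lt_zero p)⟩
  | succ m ih =>
    obtain ⟨N, hN⟩ := ih
    obtain ⟨M, hM⟩ := ovr_bound (A := A) (ρ := ρ) m
    refine ⟨max N M, fun x hx t hc p hp => ?_⟩
    rcases Nat.lt_succ_iff_lt_or_eq.1 hp with h1 | rfl
    · exact hN x ((le_max_left _ _).trans hx) t hc p h1
    · exact hM x ((le_max_right _ _).trans hx) t hc

/-- members of the ideal split `C` computably -/
theorem decOn_of_true (hA : Computable (fun p : ℕ × ℕ => A p.1 p.2))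
    (hρ : Computable (fun p : ℕ × ℕ × ℕ => ρ p.1 p.2.1 p.2.2)) {R : ℕ → Bool}
    (hR : Computable R) {k : ℕ} (hk : ∀ x, ∃ s, evB s k.unpair.1 x = some (R x))
    (hT : ∀ u, ∃ v, ρ k u v = true) : DecOn R (fun x => ∃ t, CC A ρ x t = true) := by
  have hH := c_hist hA hρ
  -- the stage at which the restraint becomes visible
  have hsearch : ∀ x, ∃ s, (decide (k < s) && (ball (x + 1) (fun u => bex s (fun v => ρ k u v)) &&
      ball (x + 1) (fun y => (evB s k.unpair.1 y).isSome))) = true := by
    intro x
    choose v hv using hT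
    choose w hw using hk
    refine ⟨k + 1 + ∑ u ∈ Finset.range (x + 1), (v u + 1) + ∑ u ∈ Finset.range (x + 1), w u, ?_⟩
    rw [Bool.and_eq_true, Bool.and_eq_true, ball_iff, ball_iff]
    refine ⟨by simp only [decide_eq_true_eq]; omega, fun u hu => ?_, fun y hy => ?_⟩
    · rw [bex_iff]
      refine ⟨v u, ?_, hv u⟩
      have : v u + 1 ≤ ∑ u ∈ Finset.range (x + 1), (v u + 1) :=
        Finset.single_le_sum (f := fun u => v u + 1) (fun _ _ => Nat.zero_le _)
          (Finset.mem_range.2 hu)
      omega
    · have : w y ≤ ∑ u ∈ Finset.range (x + 1), w u :=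
        Finset.single_le_sum (f := fun u => w u) (fun _ _ => Nat.zero_le _)
          (Finset.mem_range.2 hy)
      rw [evB_mono (s' := k + 1 + ∑ u ∈ Finset.range (x + 1), (v u + 1) +
        ∑ u ∈ Finset.range (x + 1), w u) (by omega) (hw y)]
      rfl
  obtain ⟨g, hg, hg'⟩ := exists_search (f := fun x s => decide (k < s) &&
    (ball (x + 1) (fun u => bex s (fun v => ρ k u v)) &&
      ball (x + 1) (fun y => (evB s k.unpair.1 y).isSome))) (by fun_prop) hsearch
  obtain ⟨N, hN⟩ := ovr_bound' (A := A) (ρ := ρ) (k + 1)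
  refine decOn_of_eventually (F := fun x => R x && memL (hist A ρ (g x)) x) (by fun_prop) N
    fun x hx => ?_
  rw [Bool.and_eq_true, memL_iff, mem_hist]
  refine and_congr_right fun hRx => ?_
  constructor
  · rintro ⟨t, _, hc⟩
    exact ⟨t, hc⟩
  · rintro ⟨t, hc⟩
    refine ⟨t, ?_, hc⟩
    by_contra hlt
    rw [not_lt] at hlt
    have h1 := (hg' x).1
    rw [Bool.and_eq_true, Bool.and_eq_true, ball_iff, ball_iff] at h1
    obtain ⟨h2, h3, h4⟩ := h1
    have hk' : k < Nat.pair x t := by
      rw [decide_eq_true_eq] at h2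
      omega
    have hc' := hc
    unfold CC at hc'
    rw [Bool.and_eq_true, ok_iff] at hc'
    have hres : restr ρ k x (Nat.pair x t) = true := by
      rw [restr_iff]
      refine ⟨fun u hu => ?_, fun y hy => ?_, ?_⟩
      · obtain ⟨v, hv, hv'⟩ := bex_iff.1 (h3 u hu)
        exact ⟨v, by omega, hv'⟩
      · obtain ⟨b, hb⟩ := Option.isSome_iff_exists.1 (h4 y hy)
        exact ⟨b, evB_mono hlt hb⟩
      · obtain ⟨b, hb⟩ := Option.isSome_iff_exists.1 (h4 x (Nat.lt_succ_self x))
        obtain ⟨s, hs⟩ := hk x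
        have := evB_unique hb hs
        rw [← hRx, ← this]
        exact evB_mono hlt hb
    obtain ⟨p, hp, hov⟩ := hc'.2 k hk' hres
    rw [hN x hx t hc p hp] at hov
    exact absurd hov (by decide)

variable {J : (ℕ → Bool) → Prop}

/-- finitely many restraints are concentrated on a member of the ideal -/
theorem restraint_bound
    (h0 : J (fun _ => false))
    (hun : ∀ R S, Computable R → Computable S → J R → J S → J (fun x => R x || S x))
    (hS : ∀ (R : ℕ → Bool) (c : ℕ), (∀ x, ∃ s, evB s c x = some (R x)) →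
      ((∃ w, ∀ u, ∃ v, ρ (Nat.pair c w) u v = true) → J R)) (m : ℕ) :
    ∃ G : ℕ → Bool, Computable G ∧ J G ∧ ∃ N, ∀ k < m, ∀ x, N ≤ x → ∀ s,
      restr ρ k x s = true → G x = true := by
  classical
  induction m with
  | zero => exact ⟨fun _ => false, by fun_prop, h0, 0, fun k hk => absurd hk (Nat.not_lt_zero k)⟩
  | succ m ih =>
    obtain ⟨G, hG, hJG, N, hN⟩ := ih
    by_cases h1 : ∀ x, ∃ s b, evB s m.unpair.1 x = some b
    · choose s b hsb using h1
      have hb : Computable b := computable_of_indexB (e := m.unpair.1) fun x => ⟨s x, hsb x⟩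
      by_cases h2 : ∀ u, ∃ v, ρ m u v = true
      · have hJb : J b := by
          refine hS b m.unpair.1 (fun x => ⟨s x, hsb x⟩) ⟨m.unpair.2, ?_⟩
          rw [Nat.pair_unpair]
          exact h2
        refine ⟨fun x => G x || b x, by fun_prop, hun G b hG hb hJG hJb, N,
          fun k hk x hx t hr => ?_⟩
        rw [Bool.or_eq_true]
        rcases Nat.lt_succ_iff_lt_or_eq.1 hk with h3 | rfl
        · exact Or.inl (hN k h3 x hx t hr)
        · right
          rw [restr_iff] at hr
          exact evB_unique (hsb x) hr.2.2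
      · push Not at h2
        obtain ⟨u, hu⟩ := h2
        refine ⟨G, hG, hJG, max N u, fun k hk x hx t hr => ?_⟩
        rcases Nat.lt_succ_iff_lt_or_eq.1 hk with h3 | rfl
        · exact hN k h3 x ((le_max_left _ _).trans hx) t hr
        · exfalso
          rw [restr_iff] at hr
          obtain ⟨v, _, hv⟩ := hr.1 u (by have := (le_max_right N u).trans hx; omega)
          exact hu v hv
    · push Not at h1
      obtain ⟨y, hy⟩ := h1
      refine ⟨G, hG, hJG, max N y, fun k hk x hx t hr => ?_⟩
      rcases Nat.lt_succ_iff_lt_or_eq.1 hk with h3 | rfl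
      · exact hN k h3 x ((le_max_left _ _).trans hx) t hr
      · exfalso
        rw [restr_iff] at hr
        obtain ⟨b, hb⟩ := hr.2.1 y (by have := (le_max_right N y).trans hx; omega)
        exact hy t b hb

/-- **Main lemma.** -/
theorem main {A : ℕ → ℕ → Bool} (hA : Computable (fun p : ℕ × ℕ => A p.1 p.2))
    {J : (ℕ → Bool) → Prop}
    (hsub : ∀ R S, Computable R → Computable S → (∀ x, R x = true → S x = true) → J S → J R)
    (hun : ∀ R S, Computable R → Computable S → J R → J S → J (fun x => R x || S x))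
    (hJA : ∀ R, Computable R → DecOn R (fun x => ∃ t, A x t = true) → J R)
    {ρ : ℕ → ℕ → ℕ → Bool} (hρ : Computable (fun p : ℕ × ℕ × ℕ => ρ p.1 p.2.1 p.2.2))
    (hS : ∀ (R : ℕ → Bool) (c : ℕ), (∀ x, ∃ s, evB s c x = some (R x)) →
      (J R ↔ ∃ w, ∀ u, ∃ v, ρ (Nat.pair c w) u v = true)) :
    ∃ C : ℕ → ℕ → Bool, Computable (fun p : ℕ × ℕ => C p.1 p.2) ∧
      (∀ x t, C x t = true → A x t = true) ∧
      ∀ R, Computable R → (J R ↔ DecOn R (fun x => ∃ t, C x t = true)) := by
  refine ⟨CC A ρ, c_CC hA hρ, fun x t h => CC_A h, fun R hR => ⟨fun hJ => ?_, fun hD => ?_⟩⟩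
  · obtain ⟨c, hc⟩ := exists_indexB hR
    obtain ⟨w, hw⟩ := (hS R c hc).1 hJ
    refine decOn_of_true hA hρ hR (k := Nat.pair c w) ?_ hw
    rw [Nat.unpair_pair]
    exact hc
  · by_contra hJ
    obtain ⟨F, hF, hFR⟩ := hD
    obtain ⟨i, hi⟩ := exists_indexB hR
    obtain ⟨r, hr⟩ := exists_indexB hF
    have h0 : J (fun _ => false) := hJA _ (by fun_prop) ⟨fun _ => false, by fun_prop, by simp⟩
    obtain ⟨G, hG, hJG, N, hN⟩ := restraint_bound h0 hun (fun R c h => (hS R c h).2) (Nat.pair i r)
    have hD : ¬ DecOn (fun x => R x && !G x) (fun x => ∃ t, A x t = true) := by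
      intro h
      have h1 := hJA _ (by fun_prop) h
      have h2 := hun _ G (by fun_prop) hG h1 hJG
      refine hJ (hsub R _ hR (by fun_prop) (fun x hx => ?_) h2)
      simp only [hx, Bool.true_and]
      cases G x <;> rfl
    refine hD ?_
    have hH := c_hist hA hρ
    have hsearch : ∀ x, ∃ s, (ball (x + 1) (fun y => (evB s i y).isSome && ((evB s r y).isSome &&
        (!F y || memL (hist A ρ s) y)))) = true := by
      intro x
      choose v hv using hi
      choose w hw using hr
      have hz : ∀ y, ∃ s, F y = true → y ∈ hist A ρ s := by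
        intro y
        by_cases hy : F y = true
        · obtain ⟨t, ht⟩ := ((hFR y).1 hy).2
          exact ⟨Nat.pair y t + 1, fun _ => mem_hist.2 ⟨t, Nat.lt_succ_self _, ht⟩⟩
        · exact ⟨0, fun h => absurd h hy⟩
      choose z hz using hz
      refine ⟨∑ u ∈ Finset.range (x + 1), (v u + w u + z u), ?_⟩
      rw [ball_iff]
      intro y hy
      have hle : v y + w y + z y ≤ ∑ u ∈ Finset.range (x + 1), (v u + w u + z u) :=
        Finset.single_le_sum (f := fun u => v u + w u + z u) (fun _ _ => Nat.zero_le _)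
          (Finset.mem_range.2 hy)
      rw [evB_mono (by omega) (hv y), evB_mono (by omega) (hw y)]
      simp only [Option.isSome_some, Bool.true_and, Bool.or_eq_true]
      by_cases hFy : F y = true
      · right
        rw [memL_iff]
        exact hist_mono (by omega) (hz y hFy)
      · left
        simpa using hFy
    obtain ⟨h, hh, hh'⟩ := exists_search (f := fun x s =>
      (ball (x + 1) (fun y => (evB s i y).isSome && ((evB s r y).isSome &&
        (!F y || memL (hist A ρ s) y))))) (by fun_prop) hsearch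
    refine decOn_of_eventually (F := fun x => (R x && !G x) && bex (h x + Nat.pair i r + 1)
      (fun t => A x t)) (by fun_prop) N fun x hx => ?_
    rw [Bool.and_eq_true, bex_iff]
    refine and_congr_right fun hDx => ?_
    constructor
    · rintro ⟨t, _, ht⟩
      exact ⟨t, ht⟩
    · rintro ⟨t₁, ht₁⟩
      obtain ⟨t, _, hent⟩ := exists_ent ht₁
      refine ⟨t, ?_, ent_A hent⟩
      by_contra hlt
      rw [not_lt] at hlt
      have hst : t ≤ Nat.pair x t := Nat.right_le_pair x t
      rw [Bool.and_eq_true] at hDx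
      have hGx : G x = false := by simpa using hDx.2
      have hprop := (hh' x).1
      rw [ball_iff] at hprop
      have hprop' : ∀ y < x + 1, evB (Nat.pair x t) i y = some (R y) ∧
          evB (Nat.pair x t) r y = some (F y) ∧ (F y = true → y ∈ hist A ρ (Nat.pair x t)) := by
        intro y hy
        have h1 := hprop y hy
        rw [Bool.and_eq_true, Bool.and_eq_true, Bool.or_eq_true, memL_iff] at h1
        obtain ⟨b, hb⟩ := Option.isSome_iff_exists.1 h1.1
        obtain ⟨b', hb'⟩ := Option.isSome_iff_exists.1 h1.2.1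
        obtain ⟨s, hs⟩ := hi y
        obtain ⟨s', hs'⟩ := hr y
        have e1 := evB_unique hb hs
        have e2 := evB_unique hb' hs'
        refine ⟨?_, ?_, fun hFy => ?_⟩
        · rw [← e1]; exact evB_mono (by omega) hb
        · rw [← e2]; exact evB_mono (by omega) hb'
        · rcases h1.2.2 with h3 | h3
          · rw [hFy] at h3
            exact absurd h3 (by decide)
          · exact hist_mono (by omega) h3
      have hov : ovr (Nat.pair i r) x (Nat.pair x t) (hist A ρ (Nat.pair x t)) = true := by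
        rw [ovr_iff, Nat.unpair_pair]
        refine ⟨?_, fun y hy => ?_⟩
        · have := (hprop' x (Nat.lt_succ_self x)).1
          rw [hDx.1] at this
          exact this
        · obtain ⟨h1, h2, h3⟩ := hprop' y hy
          refine ⟨F y, R y, h2, h1, fun hFy => ⟨((hFR y).1 hFy).1, h3 hFy⟩, fun hy' => ?_⟩
          obtain ⟨t', _, hc⟩ := mem_hist.1 hy'.2
          exact (hFR y).2 ⟨hy'.1, t', hc⟩
      have hCC : CC A ρ x t = true := by
        unfold CC
        rw [Bool.and_eq_true, ok_iff]
        refine ⟨hent, fun k _ hres => ?_⟩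
        by_cases hkp : k < Nat.pair i r
        · have := hN k hkp x hx _ hres
          rw [hGx] at this
          exact absurd this (by decide)
        · exact ⟨Nat.pair i r, by omega, hov⟩
      have hFx : F x = true := (hFR x).2 ⟨hDx.1, t, hCC⟩
      exact not_mem_hist hent ((hprop' x (Nat.lt_succ_self x)).2.2 hFx)

end construction

end Pool.Agent.H30.HN
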