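import Pool.Agent.H30.TwoSat

set_option autoImplicit false

/-!
# The decision procedure for homogeneous partial edge drawings
-/

namespace Pool.Agent.H30.Hped

open Pool.Agent.H80.Poly

/-- raw fractions -/
abbrev RQ : Type := ℤ × ℤ

/-- value of a raw fraction -/
noncomputable def rv (x : RQ) : ℝ := (x.1 : ℝ) / x.2

def rsub (x y : RQ) : RQ := (x.1 * y.2 - y.1 * x.2, x.2 * y.2)
def rmul (x y : RQ) : RQ := (x.1 * y.1, x.2 * y.2)
def rdiv (x y : RQ) : RQ :=
  bif decide (y.1 < 0) then (-(x.1 * y.2), -(x.2 * y.1)) else (x.1 * y.2, x.2 * y.1)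

lemma rsub_pos {x y : RQ} (hx : 0 < x.2) (hy : 0 < y.2) : 0 < (rsub x y).2 := mul_pos hx hy
lemma rmul_pos {x y : RQ} (hx : 0 < x.2) (hy : 0 < y.2) : 0 < (rmul x y).2 := mul_pos hx hy

lemma rv_rsub {x y : RQ} (hx : 0 < x.2) (hy : 0 < y.2) : rv (rsub x y) = rv x - rv y := by
  have h1 : (x.2 : ℝ) ≠ 0 := by exact_mod_cast hx.ne'
  have h2 : (y.2 : ℝ) ≠ 0 := by exact_mod_cast hy.ne'
  unfold rv rsub
  push_cast
  field_simp

lemma rv_rmul (x y : RQ) : rv (rmul x y) = rv x * rv y := by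
  unfold rv rmul
  push_cast
  rw [div_mul_div_comm]

lemma rdiv_pos {x y : RQ} (hx : 0 < x.2) (hy : y.1 ≠ 0) : 0 < (rdiv x y).2 := by
  unfold rdiv
  by_cases h : y.1 < 0
  · rw [decide_eq_true h, cond_true]
    simp only
    nlinarith
  · rw [decide_eq_false h, cond_false]
    simp only
    have : 0 < y.1 := by omega
    positivity

lemma rv_rdiv {x y : RQ} (hx : 0 < x.2) (hy : 0 < y.2) (hy1 : y.1 ≠ 0) :
    rv (rdiv x y) = rv x / rv y := by
  have h1 : (x.2 : ℝ) ≠ 0 := by exact_mod_cast hx.ne'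
  have h2 : (y.2 : ℝ) ≠ 0 := by exact_mod_cast hy.ne'
  have h3 : (y.1 : ℝ) ≠ 0 := by exact_mod_cast hy1
  unfold rv rdiv
  by_cases h : y.1 < 0
  · rw [decide_eq_true h, cond_true]
    push_cast
    field_simp
  · rw [decide_eq_false h, cond_false]
    push_cast
    field_simp

lemma rv_pos_iff {x : RQ} (hx : 0 < x.2) : 0 < rv x ↔ 0 < x.1 := by
  have h1 : (0 : ℝ) < x.2 := by exact_mod_cast hx
  unfold rv
  rw [div_pos_iff_of_pos_right h1]
  exact_mod_cast Iff.rfl

lemma rv_lt_one_iff {x : RQ} (hx : 0 < x.2) : rv x < 1 ↔ x.1 < x.2 := by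
  have h1 : (0 : ℝ) < x.2 := by exact_mod_cast hx
  unfold rv
  rw [div_lt_one h1]
  exact_mod_cast Iff.rfl

lemma rv_eq_zero_iff {x : RQ} (hx : 0 < x.2) : rv x = 0 ↔ x.1 = 0 := by
  have h1 : (x.2 : ℝ) ≠ 0 := by exact_mod_cast hx.ne'
  unfold rv
  rw [div_eq_zero_iff, or_iff_left h1]
  exact_mod_cast Iff.rfl

/-- raw points -/
abbrev RP : Type := RQ × RQ

def vsub (p q : RP) : RP := (rsub p.1 q.1, rsub p.2 q.2)
def cr (p q : RP) : RQ := rsub (rmul p.1 q.2) (rmul p.2 q.1)

/-- parameters of the crossing of two segments -/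
def params (u v u' v' : RP) : Option (RQ × RQ) :=
  bif decide ((cr (vsub v u) (vsub v' u')).1 = 0) then none else
    bif decide (0 < (rdiv (cr (vsub u' u) (vsub v' u')) (cr (vsub v u) (vsub v' u'))).1) &&
      decide ((rdiv (cr (vsub u' u) (vsub v' u')) (cr (vsub v u) (vsub v' u'))).1 <
        (rdiv (cr (vsub u' u) (vsub v' u')) (cr (vsub v u) (vsub v' u'))).2) &&
      (decide (0 < (rdiv (cr (vsub u' u) (vsub v u)) (cr (vsub v u) (vsub v' u'))).1) &&
      decide ((rdiv (cr (vsub u' u) (vsub v u)) (cr (vsub v u) (vsub v' u'))).1 <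
        (rdiv (cr (vsub u' u) (vsub v u)) (cr (vsub v u) (vsub v' u'))).2)) then
      some (rdiv (cr (vsub u' u) (vsub v' u')) (cr (vsub v u) (vsub v' u')),
        rdiv (cr (vsub u' u) (vsub v u)) (cr (vsub v u) (vsub v' u'))) else none

/-- literals: edge, kind, parameter of the crossing. `(e, true, l)` means: the first stub of `e`
ends before `l`; `(e, false, l)` means: the second stub of `e` starts after `l`. -/
abbrev Lit : Type := (ℕ × ℕ) × Bool × RQ

/-- clauses of a pair of edges -/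
def pairClauses (e e' : ℕ × ℕ) : Option (RQ × RQ) → List (Lit × Lit)
  | none => []
  | some p => [((e, true, p.1), (e', true, p.2)), ((e, true, p.1), (e', false, p.2)),
      ((e, false, p.1), (e', true, p.2)), ((e, false, p.1), (e', false, p.2))]

/-- raw drawings -/
abbrev Raw : Type := List ((ℤ × ℕ) × (ℤ × ℕ)) × List (ℕ × ℕ)

/-- raw position of the `k`-th vertex -/
def rpt (P : List ((ℤ × ℕ) × (ℤ × ℕ))) (k : ℕ) : RP :=
  (((P.getD k ((0, 1), (0, 1))).1.1, ((P.getD k ((0, 1), (0, 1))).1.2 : ℤ)),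
    ((P.getD k ((0, 1), (0, 1))).2.1, ((P.getD k ((0, 1), (0, 1))).2.2 : ℤ)))

/-- all clauses -/
def clauses (G : Raw) : List (Lit × Lit) :=
  G.2.flatMap (fun e => G.2.flatMap (fun e' => pairClauses e e'
    (params (rpt G.1 e.1) (rpt G.1 e.2) (rpt G.1 e'.1) (rpt G.1 e'.2))))

/-- conflicts, given a test `cmp` for `1 - 2δ ≤ ·` -/
def conf (cmp : RQ → Bool) (a b : Lit) : Bool :=
  decide (a.1 = b.1) && ((a.2.1 && !b.2.1 && cmp (rsub b.2.2 a.2.2)) ||
    (!a.2.1 && b.2.1 && cmp (rsub a.2.2 b.2.2)))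

/-- the decision procedure -/
def decideHPED (cmp : RQ → Bool) (G : Raw) : Bool := TwoSat.solve (conf cmp) (clauses G)

section poly

variable {α : Type} [BEnc α]

lemma polyTime_rsub {f g : α → RQ} (hf : PolyTime f) (hg : PolyTime g) :
    PolyTime (fun a => rsub (f a) (g a)) :=
  ((hf.fst.intMul hg.snd).intSub (hg.fst.intMul hf.snd)).pair (hf.snd.intMul hg.snd)

lemma polyTime_rmul {f g : α → RQ} (hf : PolyTime f) (hg : PolyTime g) :
    PolyTime (fun a => rmul (f a) (g a)) :=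
  (hf.fst.intMul hg.fst).pair (hf.snd.intMul hg.snd)

lemma polyTime_rdiv {f g : α → RQ} (hf : PolyTime f) (hg : PolyTime g) :
    PolyTime (fun a => rdiv (f a) (g a)) :=
  PolyTime.cond (hg.fst.isNeg) ((hf.fst.intMul hg.snd).intNeg.pair (hf.snd.intMul hg.fst).intNeg)
    ((hf.fst.intMul hg.snd).pair (hf.snd.intMul hg.fst))

lemma polyTime_vsub {f g : α → RP} (hf : PolyTime f) (hg : PolyTime g) :
    PolyTime (fun a => vsub (f a) (g a)) :=
  (polyTime_rsub hf.fst hg.fst).pair (polyTime_rsub hf.snd hg.snd)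

lemma polyTime_cr {f g : α → RP} (hf : PolyTime f) (hg : PolyTime g) :
    PolyTime (fun a => cr (f a) (g a)) :=
  polyTime_rsub (polyTime_rmul hf.fst hg.snd) (polyTime_rmul hf.snd hg.fst)

lemma polyTime_params {u v u' v' : α → RP} (hu : PolyTime u) (hv : PolyTime v) (hu' : PolyTime u')
    (hv' : PolyTime v') : PolyTime (fun a => params (u a) (v a) (u' a) (v' a)) := by
  have hD := polyTime_cr (polyTime_vsub hv hu) (polyTime_vsub hv' hu')
  have h1 := polyTime_rdiv (polyTime_cr (polyTime_vsub hu' hu) (polyTime_vsub hv' hu')) hD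
  have h2 := polyTime_rdiv (polyTime_cr (polyTime_vsub hu' hu) (polyTime_vsub hv hu)) hD
  have h0 : PolyTime (fun _ : α => (0 : ℤ)) := PolyTime.const _
  unfold params
  exact PolyTime.cond (PolyTime.eq hD.fst h0) (PolyTime.const _)
    (PolyTime.cond (((PolyTime.intLt h0 h1.fst).and (PolyTime.intLt h1.fst h1.snd)).and
      ((PolyTime.intLt h0 h2.fst).and (PolyTime.intLt h2.fst h2.snd)))
      (h1.pair h2).some (PolyTime.const _))

lemma polyTime_pairClauses {e e' : α → ℕ × ℕ} {o : α → Option (RQ × RQ)} (he : PolyTime e)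
    (he' : PolyTime e') (ho : PolyTime o) : PolyTime (fun a => pairClauses (e a) (e' a) (o a)) := by
  have hw : PolyTime (fun w : (RQ × RQ) × α => w) := PolyTime.id
  have hT : PolyTime (fun _ : (RQ × RQ) × α => true) := PolyTime.const _
  have hF : PolyTime (fun _ : (RQ × RQ) × α => false) := PolyTime.const _
  have he1 := he.comp hw.snd
  have he1' := he'.comp hw.snd
  have l1 := he1.pair (hT.pair hw.fst.fst)
  have l2 := he1.pair (hF.pair hw.fst.fst)
  have r1 := he1'.pair (hT.pair hw.fst.snd)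
  have r2 := he1'.pair (hF.pair hw.fst.snd)
  have h := (l1.pair r1).cons ((l1.pair r2).cons ((l2.pair r1).cons ((l2.pair r2).cons
    (PolyTime.const ([] : List (Lit × Lit))))))
  refine (PolyTime.optElim (f := fun _ => ([] : List (Lit × Lit))) ho (PolyTime.const _) h).congr ?_
  intro a
  cases h : o a <;> simp [h, pairClauses]

lemma polyTime_rpt {P : α → List ((ℤ × ℕ) × (ℤ × ℕ))} {k : α → ℕ} (hP : PolyTime P)
    (hk : PolyTime k) : PolyTime (fun a => rpt (P a) (k a)) := by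
  have h := PolyTime.list_getD (d := fun _ => (((0 : ℤ), (1 : ℕ)), ((0 : ℤ), (1 : ℕ)))) hP hk
    (PolyTime.const _)
  exact (h.fst.fst.pair h.fst.snd.natCast).pair (h.snd.fst.pair h.snd.snd.natCast)

lemma polyTime_clauses : PolyTime clauses := by
  unfold clauses
  have hw : PolyTime (fun w : Raw × (ℕ × ℕ) => w) := PolyTime.id
  have hv : PolyTime (fun w : (Raw × (ℕ × ℕ)) × (ℕ × ℕ) => w) := PolyTime.id
  apply PolyTime.flatMap (g := fun w : Raw × (ℕ × ℕ) => w.1.2.flatMap (fun e' => pairClauses w.2 e'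
    (params (rpt w.1.1 w.2.1) (rpt w.1.1 w.2.2) (rpt w.1.1 e'.1) (rpt w.1.1 e'.2))))
    (PolyTime.id (α := Raw)).snd
  apply PolyTime.flatMap (g := fun w : (Raw × (ℕ × ℕ)) × (ℕ × ℕ) => pairClauses w.1.2 w.2
    (params (rpt w.1.1.1 w.1.2.1) (rpt w.1.1.1 w.1.2.2) (rpt w.1.1.1 w.2.1) (rpt w.1.1.1 w.2.2)))
    hw.fst.snd
  exact polyTime_pairClauses hv.fst.snd hv.snd (polyTime_params
    (polyTime_rpt hv.fst.fst.fst hv.fst.snd.fst) (polyTime_rpt hv.fst.fst.fst hv.fst.snd.snd)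
    (polyTime_rpt hv.fst.fst.fst hv.snd.fst) (polyTime_rpt hv.fst.fst.fst hv.snd.snd))

lemma polyTime_conf {cmp : RQ → Bool} (hcmp : PolyTime cmp) :
    PolyTime (fun x : Lit × Lit => conf cmp x.1 x.2) := by
  have hw : PolyTime (fun w : Lit × Lit => w) := PolyTime.id
  unfold conf
  exact (PolyTime.eq hw.fst.fst hw.snd.fst).and
    (((hw.fst.snd.fst.and hw.snd.snd.fst.not).and
      (hcmp.comp (polyTime_rsub hw.snd.snd.snd hw.fst.snd.snd))).or
    ((hw.fst.snd.fst.not.and hw.snd.snd.fst).and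
      (hcmp.comp (polyTime_rsub hw.fst.snd.snd hw.snd.snd.snd))))

theorem polyTime_decideHPED {cmp : RQ → Bool} (hcmp : PolyTime cmp) :
    PolyTime (decideHPED cmp) :=
  (TwoSat.polyTime_solve (polyTime_conf hcmp)).comp polyTime_clauses

end poly

end Pool.Agent.H30.Hped
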