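import Mathlib

set_option autoImplicit false

/-!
# Homogeneous partial edge drawings: definitions
-/

namespace Pool.Agent.H30.Hped

/-- The Euclidean plane. -/
abbrev Plane : Type := EuclideanSpace ℝ (Fin 2)

/-- Position of the `k`-th vertex, given the list of the rational coordinates of all vertices. -/
noncomputable def pos (pts : List (ℚ × ℚ)) (k : ℕ) : Plane :=
  !₂[((pts.getD k (0, 0)).1 : ℝ), ((pts.getD k (0, 0)).2 : ℝ)]

/-- A straight-line drawing of a finite simple graph: the vertices are `0, …, n - 1`, where `n` is
the length of `pts`, vertex `k` is placed at the rational point `pts[k]`, distinct vertices at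
distinct points, the edges are pairs `(i, j)` with `i < j < n`, listed without repetition, and no
edge passes through a vertex other than its own endpoints. -/
structure Drawing where
  pts : List (ℚ × ℚ)
  edges : List (ℕ × ℕ)
  distinct : pts.Nodup
  simple : edges.Nodup
  valid : ∀ e ∈ edges, e.1 < e.2 ∧ e.2 < pts.length
  noPass : ∀ e ∈ edges, ∀ k < pts.length,
    pos pts k ∈ segment ℝ (pos pts e.1) (pos pts e.2) → k = e.1 ∨ k = e.2

/-- The stub of length `r` at `p` of the segment from `p` to `q`. -/
def stub (p q : Plane) (r : ℝ) : Set Plane := {x ∈ segment ℝ p q | dist p x ≤ r}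

/-- The drawn part of the edge `e` with stub lengths `a` (at its first endpoint) and `b` (at its
second endpoint). -/
noncomputable def drawn (Γ : Drawing) (e : ℕ × ℕ) (a b : ℝ) : Set Plane :=
  stub (pos Γ.pts e.1) (pos Γ.pts e.2) a ∪ stub (pos Γ.pts e.2) (pos Γ.pts e.1) b

/-- `Γ` admits a `δ`-HPED: there are stub lengths `a e`, `b e ≥ 0` with
`a e + b e = 2 δ |e|` for every edge `e` such that stubs of distinct edges only share common
endpoints of the two edges. -/
def AdmitsHPED (δ : ℝ) (Γ : Drawing) : Prop :=
  ∃ a b : ℕ × ℕ → ℝ,
    (∀ e ∈ Γ.edges, 0 ≤ a e ∧ 0 ≤ b e ∧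
      a e + b e = 2 * δ * dist (pos Γ.pts e.1) (pos Γ.pts e.2)) ∧
    ∀ e ∈ Γ.edges, ∀ e' ∈ Γ.edges, e ≠ e' →
      ∀ x ∈ drawn Γ e (a e) (b e) ∩ drawn Γ e' (a e') (b e'),
        ∃ k, (k = e.1 ∨ k = e.2) ∧ (k = e'.1 ∨ k = e'.2) ∧ x = pos Γ.pts k

/-! ### Encodings by bit strings -/

/-- Pairing of bit strings: the bits of `x`, each preceded by a 1, then a 0, then `y`. -/
def bitPair (x y : List Bool) : List Bool := x.flatMap (fun b => [true, b]) ++ false :: y

/-- Integers: sign bit and absolute value in binary. -/
def encInt (z : ℤ) : List Bool := bitPair [decide (z < 0)] (Computability.encodeNat z.natAbs)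

/-- Fractions: numerator and denominator in binary. -/
def encFrac (q : ℤ × ℕ) : List Bool := bitPair (encInt q.1) (Computability.encodeNat q.2)

/-- Rational numbers: numerator and denominator (in lowest terms). -/
def encRat (q : ℚ) : List Bool := encFrac (q.num, q.den)

/-- Bits. -/
def encBit (b : Bool) : List Bool := [b]

/-- Lists. -/
def encSeq {α : Type} (e : α → List Bool) : List α → List Bool
  | [] => []
  | a :: l => bitPair (e a) (encSeq e l)

/-- Drawings: the list of the positions of the vertices and the list of the edges. -/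
def encDrawing (Γ : Drawing) : List Bool :=
  bitPair (encSeq (fun p : ℚ × ℚ => bitPair (encRat p.1) (encRat p.2)) Γ.pts)
    (encSeq (fun e : ℕ × ℕ => bitPair (Computability.encodeNat e.1) (Computability.encodeNat e.2))
      Γ.edges)

/-- `P` is decidable in polynomial time (by a Turing machine of Mathlib's multi-stack model `TM2`)
with respect to the encoding `e` of the inputs by bit strings. -/
def InP {α : Type} (e : α → List Bool) (P : α → Prop) : Prop :=
  ∃ f : α → Bool, (∀ a, f a = true ↔ P a) ∧
    Nonempty (Turing.TM2ComputableInPolyTime e encBit f)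

end Pool.Agent.H30.Hped
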