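import Pool.Agent.H30.HpedGeom

set_option autoImplicit false

/-!
# Homogeneous partial edge drawings: versions with a context, and the final theorems
-/

namespace Pool.Agent.H30.Hped

open Pool.Agent.H80.Poly

section ctx

variable {κ : Type} [DecidableEq κ]

/-- conflicts with a context attached to the literals -/
def confK (cmp : κ → RQ → Bool) (a b : κ × Lit) : Bool :=
  decide (a.1 = b.1) && conf (cmp a.1) a.2 b.2

/-- attach a context to a clause -/
def att (k : κ) (c : Lit × Lit) : (κ × Lit) × (κ × Lit) := ((k, c.1), (k, c.2))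

/-- the decision procedure with a context -/
def decideK (cmp : κ → RQ → Bool) (x : κ × Raw) : Bool :=
  TwoSat.solve (confK cmp) ((clauses x.2).map (fun c => att x.1 c))

omit [DecidableEq κ] in
lemma conf_symm (cmp : RQ → Bool) (a b : Lit) : conf cmp a b = conf cmp b a := by
  unfold conf
  rw [Bool.eq_iff_iff]
  simp only [Bool.and_eq_true, Bool.or_eq_true, decide_eq_true_eq, Bool.not_eq_true']
  constructor
  · rintro ⟨h, h' | h'⟩
    · exact ⟨h.symm, Or.inr ⟨⟨h'.1.2, h'.1.1⟩, h'.2⟩⟩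
    · exact ⟨h.symm, Or.inl ⟨⟨h'.1.2, h'.1.1⟩, h'.2⟩⟩
  · rintro ⟨h, h' | h'⟩
    · exact ⟨h.symm, Or.inr ⟨⟨h'.1.2, h'.1.1⟩, h'.2⟩⟩
    · exact ⟨h.symm, Or.inl ⟨⟨h'.1.2, h'.1.1⟩, h'.2⟩⟩

lemma decideK_eq (cmp : κ → RQ → Bool) (k : κ) (G : Raw) :
    decideK cmp (k, G) = decideHPED (cmp k) G := by
  unfold decideK decideHPED
  rw [Bool.eq_iff_iff, TwoSat.solve_iff (conf_symm (cmp k)), TwoSat.solve_iff (by
    intro a b
    unfold confK
    by_cases h : a.1 = b.1
    · rw [h, conf_symm]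
    · rw [decide_eq_false h, decide_eq_false (Ne.symm h), Bool.false_and, Bool.false_and])]
  constructor
  · rintro ⟨S, h1, h2⟩
    refine ⟨fun a => S (k, a), fun c hc => ?_, fun a b ha hb => ?_⟩
    · exact h1 (att k c) (List.mem_map.mpr ⟨c, hc, rfl⟩)
    · have := h2 (k, a) (k, b) ha hb
      unfold confK at this
      simpa using this
  · rintro ⟨S, h1, h2⟩
    refine ⟨fun a => a.1 = k ∧ S a.2, fun c hc => ?_, ?_⟩
    · obtain ⟨c', hc', rfl⟩ := List.mem_map.mp hc
      exact (h1 c' hc').imp (fun h => ⟨rfl, h⟩) (fun h => ⟨rfl, h⟩)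
    · rintro ⟨k1, a⟩ ⟨k2, b⟩ ⟨rfl, ha⟩ ⟨rfl, hb⟩
      unfold confK
      simp only [decide_true, Bool.true_and]
      exact h2 a b ha hb

variable [BEnc κ]

theorem polyTime_decideK {cmp : κ → RQ → Bool} (hcmp : PolyTime (fun x : κ × RQ => cmp x.1 x.2)) :
    PolyTime (decideK cmp) := by
  have hw : PolyTime (fun w : (κ × Lit) × (κ × Lit) => w) := PolyTime.id
  have hconf : PolyTime (fun x : (κ × Lit) × (κ × Lit) => confK cmp x.1 x.2) := by
    unfold confK conf
    exact (PolyTime.eq hw.fst.fst hw.snd.fst).and ((PolyTime.eq hw.fst.snd.fst hw.snd.snd.fst).and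
      (((hw.fst.snd.snd.fst.and hw.snd.snd.snd.fst.not).and
        (hcmp.comp (hw.fst.fst.pair (polyTime_rsub hw.snd.snd.snd.snd hw.fst.snd.snd.snd)))).or
      ((hw.fst.snd.snd.fst.not.and hw.snd.snd.snd.fst).and
        (hcmp.comp (hw.fst.fst.pair (polyTime_rsub hw.fst.snd.snd.snd hw.snd.snd.snd.snd))))))
  have hx : PolyTime (fun x : κ × Raw => x) := PolyTime.id
  have hv : PolyTime (fun w : (κ × Raw) × (Lit × Lit) => w) := PolyTime.id
  have h1 : PolyTime (fun x : κ × Raw => (clauses x.2).map (fun c => att x.1 c)) := by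
    apply PolyTime.map (g := fun w : (κ × Raw) × (Lit × Lit) => att w.1.1 w.2)
      (polyTime_clauses.comp hx.snd)
    exact (hv.fst.fst.pair hv.snd.fst).pair (hv.fst.fst.pair hv.snd.snd)
  exact (TwoSat.polyTime_solve hconf).comp h1

end ctx

/-! ### rational δ, given as part of the input -/

/-- test of `1 - 2 n / d ≤ q` -/
def cmpQ (k : ℤ × ℕ) (q : RQ) : Bool := decide (((k.2 : ℤ) - 2 * k.1) * q.2 ≤ q.1 * k.2)

lemma polyTime_cmpQ : PolyTime (fun x : (ℤ × ℕ) × RQ => cmpQ x.1 x.2) := by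
  have hw : PolyTime (fun w : (ℤ × ℕ) × RQ => w) := PolyTime.id
  exact PolyTime.intLe ((hw.fst.snd.natCast.intSub
    (PolyTime.intMul (PolyTime.const 2) hw.fst.fst)).intMul hw.snd.snd)
    (hw.snd.fst.intMul hw.fst.snd.natCast)

lemma cmpQ_spec (δ : ℚ) (q : RQ) (hq : 0 < q.2) :
    cmpQ (δ.num, δ.den) q = true ↔ 1 - 2 * (δ : ℝ) ≤ rv q := by
  unfold cmpQ rv
  rw [decide_eq_true_iff]
  have h1 : (0 : ℝ) < q.2 := by exact_mod_cast hq
  have h2 : (0 : ℝ) < (δ.den : ℝ) := by exact_mod_cast δ.den_pos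
  have h3 : (δ : ℝ) = δ.num / δ.den := Rat.cast_def δ
  rw [h3, le_div_iff₀ h1]
  have h4 : (1 - 2 * ((δ.num : ℝ) / δ.den)) * q.2 = (((δ.den : ℝ) - 2 * δ.num) * q.2) / δ.den := by
    field_simp
  rw [h4, div_le_iff₀ h2]
  constructor
  · intro h
    have : (((((δ.den : ℤ) - 2 * δ.num) * q.2 : ℤ)) : ℝ) ≤ ((q.1 * δ.den : ℤ) : ℝ) := by
      exact_mod_cast h
    push_cast at this
    exact this
  · intro h
    have : (((((δ.den : ℤ) - 2 * δ.num) * q.2 : ℤ)) : ℝ) ≤ ((q.1 * δ.den : ℤ) : ℝ) := by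
      push_cast; exact h
    exact_mod_cast this

/-! ### real δ: truth-table reduction to comparisons with δ -/

/-- the query belonging to the test `1 - 2δ ≤ q`: is `(q.2 - q.1) / (2 q.2) ≤ δ`? -/
def query (q : RQ) : ℤ × ℕ := (q.2 - q.1, 2 * q.2.natAbs)

lemma query_spec (δ : ℝ) (q : RQ) (hq : 0 < q.2) :
    ((query q).1 : ℝ) / (query q).2 ≤ δ ↔ 1 - 2 * δ ≤ rv q := by
  unfold query rv
  have h1 : (0 : ℝ) < q.2 := by exact_mod_cast hq
  have h2 : (((2 * q.2.natAbs : ℕ) : ℝ)) = 2 * q.2 := by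
    have h : ((q.2.natAbs : ℕ) : ℤ) = q.2 := Int.natAbs_of_nonneg hq.le
    have h' : ((q.2.natAbs : ℕ) : ℝ) = (q.2 : ℝ) := by
      have := congrArg (fun z : ℤ => (z : ℝ)) h
      simpa only [Int.cast_natCast] using this
    rw [Nat.cast_mul, h', Nat.cast_ofNat]
  simp only
  rw [h2, div_le_iff₀ (by positivity), le_div_iff₀ h1]
  push_cast
  constructor <;> intro h <;> nlinarith

/-- all queries for a raw drawing -/
def queries (G : Raw) : List (ℤ × ℕ) :=
  (TwoSat.lits (clauses G)).flatMap (fun a => (TwoSat.lits (clauses G)).map (fun b =>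
    query (rsub a.2.2 b.2.2)))

/-- look up an answer -/
def lookupB (T : List ((ℤ × ℕ) × Bool)) (q : ℤ × ℕ) : Bool :=
  T.any (fun x => decide (x.1 = q) && x.2)

/-- the test from a table of answers -/
def cmpT (T : List ((ℤ × ℕ) × Bool)) (q : RQ) : Bool := lookupB T (query q)

lemma polyTime_query {α : Type} [BEnc α] {f : α → RQ} (hf : PolyTime f) :
    PolyTime (fun a => query (f a)) :=
  (hf.snd.intSub hf.fst).pair (PolyTime.mul (PolyTime.const 2) hf.snd.natAbs)

lemma polyTime_queries : PolyTime queries := by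
  unfold queries
  have hl : PolyTime (fun G : Raw => TwoSat.lits (clauses G)) :=
    TwoSat.polyTime_lits.comp polyTime_clauses
  have hw : PolyTime (fun w : Raw × Lit => w) := PolyTime.id
  have hv : PolyTime (fun w : (Raw × Lit) × Lit => w) := PolyTime.id
  apply PolyTime.flatMap (g := fun w : Raw × Lit => (TwoSat.lits (clauses w.1)).map (fun b =>
    query (rsub w.2.2.2 b.2.2))) hl
  apply PolyTime.map (g := fun w : (Raw × Lit) × Lit => query (rsub w.1.2.2.2 w.2.2.2))
    (hl.comp hw.fst)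
  exact polyTime_query (polyTime_rsub hv.fst.snd.snd.snd hv.snd.snd.snd)

lemma polyTime_cmpT : PolyTime (fun x : List ((ℤ × ℕ) × Bool) × RQ => cmpT x.1 x.2) := by
  unfold cmpT lookupB
  have hw : PolyTime (fun w : List ((ℤ × ℕ) × Bool) × RQ => w) := PolyTime.id
  have hv : PolyTime (fun w : (List ((ℤ × ℕ) × Bool) × RQ) × ((ℤ × ℕ) × Bool) => w) := PolyTime.id
  apply PolyTime.any (g := fun w : (List ((ℤ × ℕ) × Bool) × RQ) × ((ℤ × ℕ) × Bool) =>
    decide (w.2.1 = query w.1.2) && w.2.2) hw.fst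
  exact (PolyTime.eq hv.snd.fst (polyTime_query hv.fst.snd)).and hv.snd.snd

/-- evaluation of the truth table -/
def evalT (x : Raw × List Bool) : Bool := decideK cmpT (List.zip (queries x.1) x.2, x.1)

lemma polyTime_evalT : PolyTime evalT := by
  have hx : PolyTime (fun x : Raw × List Bool => x) := PolyTime.id
  exact (polyTime_decideK polyTime_cmpT).comp
    ((PolyTime.zip (polyTime_queries.comp hx.fst) hx.snd).pair hx.fst)

lemma lookupB_zip_map (Q : List (ℤ × ℕ)) (f : ℤ × ℕ → Bool) {q : ℤ × ℕ} (hq : q ∈ Q) :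
    lookupB (List.zip Q (Q.map f)) q = f q := by
  unfold lookupB
  rw [Bool.eq_iff_iff, List.any_eq_true]
  constructor
  · rintro ⟨⟨x, b⟩, hx, h⟩
    rw [Bool.and_eq_true, decide_eq_true_iff] at h
    obtain ⟨rfl, hb⟩ := h
    simp only at hb
    rw [List.zip_map_right, List.mem_map] at hx
    obtain ⟨⟨y, z⟩, hyz, he⟩ := hx
    rw [Prod.map_apply, Prod.mk.injEq] at he
    obtain ⟨rfl, rfl⟩ := he
    have : y = z := by
      have h' := List.zip_eq_zipWith (l₁ := Q) (l₂ := Q)
      have : (y, z) ∈ Q.map (fun a => (a, a)) := by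
        have e : List.zip Q Q = Q.map (fun a => (a, a)) := by
          clear hq hyz h'
          induction Q with
          | nil => rfl
          | cons a Q ih => simp [ih]
        rw [← e]; exact hyz
      rw [List.mem_map] at this
      obtain ⟨a, _, h⟩ := this
      rw [Prod.mk.injEq] at h
      rw [← h.1, ← h.2]
    subst this
    exact hb
  · intro h
    have : (q, f q) ∈ List.zip Q (Q.map f) := by
      clear h
      induction Q with
      | nil => exact absurd hq List.not_mem_nil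
      | cons a Q ih =>
        rw [List.map_cons, List.zip_cons_cons, List.mem_cons]
        rcases List.mem_cons.mp hq with rfl | hq
        · exact Or.inl rfl
        · exact Or.inr (ih hq)
    exact ⟨_, this, by simp [h]⟩

/-! ### Conclusions -/

lemma solve_congr {L : Type} [DecidableEq L] {c c' : L → L → Bool} {C : List (L × L)}
    (hc : ∀ a b, c a b = c b a) (hc' : ∀ a b, c' a b = c' b a)
    (h : ∀ a ∈ TwoSat.lits C, ∀ b ∈ TwoSat.lits C, c a b = c' a b) :
    TwoSat.solve c C = TwoSat.solve c' C := by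
  have aux : ∀ {c c' : L → L → Bool}, (∀ a ∈ TwoSat.lits C, ∀ b ∈ TwoSat.lits C, c a b = c' a b) →
      (∃ S, TwoSat.IsSol c C S) → ∃ S, TwoSat.IsSol c' C S := by
    rintro c c' h ⟨S, h1, h2⟩
    refine ⟨fun a => S a ∧ a ∈ TwoSat.lits C, fun x hx => ?_, fun a b ha hb => ?_⟩
    · exact (h1 x hx).imp (fun hS => ⟨hS, TwoSat.mem_lits.mpr ⟨x.2, Or.inl hx⟩⟩)
        (fun hS => ⟨hS, TwoSat.mem_lits.mpr ⟨x.1, Or.inr hx⟩⟩)
    · rw [← h a ha.2 b hb.2]
      exact h2 a b ha.1 hb.1
  rw [Bool.eq_iff_iff, TwoSat.solve_iff hc, TwoSat.solve_iff hc']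
  exact ⟨aux h, aux (fun a ha b hb => (h a ha b hb).symm)⟩

lemma lits_pos {Γ : Drawing} {x : Lit} (hx : x ∈ TwoSat.lits (clauses (rawOf Γ))) :
    0 < x.2.2.2 := by
  have hG : PosG (rawOf Γ) := fun k => (rpt_rawOf Γ k).1
  rw [TwoSat.mem_lits] at hx
  obtain ⟨y, h | h⟩ := hx
  · obtain ⟨e, _, e', _, l, l', hp, b, b', rfl, rfl⟩ := mem_clauses.mp h
    exact ((params_iff (hG _) (hG _) (hG _) (hG _)).mp hp).2.2.2.1
  · obtain ⟨e, _, e', _, l, l', hp, b, b', rfl, rfl⟩ := mem_clauses.mp h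
    exact ((params_iff (hG _) (hG _) (hG _) (hG _)).mp hp).2.2.2.2.1

lemma queries_pos {Γ : Drawing} {q : ℤ × ℕ} (hq : q ∈ queries (rawOf Γ)) : 0 < q.2 := by
  unfold queries at hq
  simp only [List.mem_flatMap, List.mem_map] at hq
  obtain ⟨a, ha, b, hb, rfl⟩ := hq
  have h1 := rsub_pos (lits_pos ha) (lits_pos hb)
  unfold query
  simp only
  omega

theorem evalT_iff {δ : ℝ} (hδ0 : 0 < δ) (Γ : Drawing) [DecidablePred (fun q : ℤ × ℕ => (q.1 : ℝ) / q.2 ≤ δ)] :
    evalT (rawOf Γ, (queries (rawOf Γ)).map (fun q => decide ((q.1 : ℝ) / q.2 ≤ δ))) = true ↔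
      AdmitsHPED δ Γ := by
  classical
  unfold evalT
  rw [decideK_eq, ← decideHPED_iff (cmp := fun q => decide (1 - 2 * δ ≤ rv q)) hδ0
    (fun q _ => decide_eq_true_iff) Γ]
  unfold decideHPED
  rw [solve_congr (conf_symm _) (conf_symm _)]
  intro a ha b hb
  have key : ∀ x ∈ TwoSat.lits (clauses (rawOf Γ)), ∀ y ∈ TwoSat.lits (clauses (rawOf Γ)),
      cmpT (List.zip (queries (rawOf Γ)) ((queries (rawOf Γ)).map
        (fun q => decide ((q.1 : ℝ) / q.2 ≤ δ)))) (rsub x.2.2 y.2.2) =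
      decide (1 - 2 * δ ≤ rv (rsub x.2.2 y.2.2)) := by
    intro x hx y hy
    unfold cmpT
    rw [lookupB_zip_map]
    · have := query_spec δ (rsub x.2.2 y.2.2) (rsub_pos (lits_pos hx) (lits_pos hy))
      exact decide_eq_decide.mpr this
    · unfold queries
      simp only [List.mem_flatMap, List.mem_map]
      exact ⟨x, hx, y, hy, rfl⟩
  unfold conf
  simp only
  rw [key b hb a ha, key a ha b hb]

theorem decideQ_iff {δ : ℚ} (hδ0 : 0 < δ) (Γ : Drawing) :
    decideK cmpQ ((δ.num, δ.den), rawOf Γ) = true ↔ AdmitsHPED (δ : ℝ) Γ := by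
  rw [decideK_eq]
  exact decideHPED_iff (by exact_mod_cast hδ0) (cmpQ_spec δ) Γ

/-! ### Encodings -/

lemma ratPair_injective : Function.Injective (fun q : ℚ => (q.num, q.den)) := by
  intro q q' h
  simp only [Prod.mk.injEq] at h
  exact Rat.ext h.1 h.2

lemma rawOf_injective : Function.Injective rawOf := by
  rintro ⟨p, e, _, _, _, _⟩ ⟨p', e', _, _, _, _⟩ h
  unfold rawOf at h
  simp only [Prod.mk.injEq] at h
  obtain ⟨h1, rfl⟩ := h
  have h2 : Function.Injective (fun p : ℚ × ℚ => ((p.1.num, p.1.den), (p.2.num, p.2.den))) := by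
    intro a b hab
    simp only [Prod.mk.injEq] at hab
    exact Prod.ext (Rat.ext hab.1.1 hab.1.2) (Rat.ext hab.2.1 hab.2.2)
  have h3 := List.map_injective_iff.mpr h2 h1
  subst h3
  rfl

/-- rational numbers are encoded by numerator and denominator -/
instance : BEnc ℚ := ⟨fun q => enc (q.num, q.den), fun _ _ h => ratPair_injective (BEnc.enc_inj h)⟩

/-- drawings are encoded by the list of the coordinates of the vertices and the list of edges -/
instance : BEnc Drawing := ⟨fun Γ => enc (rawOf Γ), fun _ _ h => rawOf_injective (BEnc.enc_inj h)⟩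

lemma polyTime_ratPair : PolyTime (fun q : ℚ => (q.num, q.den)) :=
  PolyTime.of_enc_eq (fun _ => rfl)

lemma polyTime_rawOf : PolyTime rawOf := PolyTime.of_enc_eq (fun _ => rfl)

lemma polyTime_fixed (δ : ℚ) :
    PolyTime (fun Γ : Drawing => decideK cmpQ ((δ.num, δ.den), rawOf Γ)) :=
  (polyTime_decideK polyTime_cmpQ).comp ((PolyTime.const _).pair polyTime_rawOf)

/-- the uniform procedure -/
def uniform (x : ℚ × Drawing) : Bool :=
  decide (0 < x.1.num) && decide (2 * x.1.num < (x.1.den : ℤ)) &&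
    decideK cmpQ ((x.1.num, x.1.den), rawOf x.2)

lemma polyTime_uniform : PolyTime uniform := by
  have hx : PolyTime (fun x : ℚ × Drawing => x) := PolyTime.id
  have h1 := polyTime_ratPair.comp hx.fst
  exact ((PolyTime.intLt (PolyTime.const 0) h1.fst).and
    (PolyTime.intLt (PolyTime.intMul (PolyTime.const 2) h1.fst) h1.snd.natCast)).and
    ((polyTime_decideK polyTime_cmpQ).comp (h1.pair (polyTime_rawOf.comp hx.snd)))

lemma uniform_iff (x : ℚ × Drawing) :
    uniform x = true ↔ 0 < x.1 ∧ x.1 < 1 / 2 ∧ AdmitsHPED (x.1 : ℝ) x.2 := by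
  obtain ⟨δ, Γ⟩ := x
  unfold uniform
  simp only [Bool.and_eq_true, decide_eq_true_eq]
  have h1 : 0 < δ.num ↔ 0 < δ := Rat.num_pos
  have h2 : 2 * δ.num < (δ.den : ℤ) ↔ δ < 1 / 2 := by
    have hd : (0 : ℚ) < δ.den := by exact_mod_cast δ.den_pos
    conv_rhs => rw [← Rat.num_div_den δ]
    rw [div_lt_div_iff₀ hd (by norm_num)]
    constructor
    · intro h
      have : ((2 * δ.num : ℤ) : ℚ) < ((δ.den : ℤ) : ℚ) := by exact_mod_cast h
      push_cast at this
      linarith
    · intro h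
      have : ((2 * δ.num : ℤ) : ℚ) < ((δ.den : ℤ) : ℚ) := by push_cast; linarith
      exact_mod_cast this
  rw [h1, h2, and_assoc]
  constructor
  · rintro ⟨h3, h4, h5⟩
    exact ⟨h3, h4, (decideQ_iff h3 Γ).mp h5⟩
  · rintro ⟨h3, h4, h5⟩
    exact ⟨h3, h4, (decideQ_iff h3 Γ).mpr h5⟩

/-! ### Comparison with the explicit encodings -/

lemma bitPair_eq (x y : List Bool) : bitPair x y = pr x y := rfl

lemma encInt_eq (z : ℤ) : encInt z = enc z := rfl

lemma encFrac_eq : encFrac = (enc : ℤ × ℕ → List Bool) := rfl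

lemma encRat_eq : encRat = (enc : ℚ → List Bool) := rfl

lemma encBit_eq : encBit = (enc : Bool → List Bool) := rfl

lemma encSeq_eq {α : Type} [BEnc α] (l : List α) : encSeq (enc : α → List Bool) l = enc l := by
  induction l with
  | nil => rfl
  | cons a l ih => rw [encSeq, ih]; rfl

lemma encSeq_map {α β : Type} (e : β → List Bool) (f : α → β) (l : List α) :
    encSeq (fun a => e (f a)) l = encSeq e (l.map f) := by
  induction l with
  | nil => rfl
  | cons a l ih => rw [encSeq, ih]; rfl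

lemma encDrawing_eq : encDrawing = (enc : Drawing → List Bool) := by
  funext Γ
  have h1 : encSeq (fun p : ℚ × ℚ => bitPair (encRat p.1) (encRat p.2)) Γ.pts =
      enc (Γ.pts.map (fun p => ((p.1.num, p.1.den), (p.2.num, p.2.den)))) := by
    rw [← encSeq_eq, ← encSeq_map]
    rfl
  have h2 : encSeq (fun e : ℕ × ℕ => bitPair (Computability.encodeNat e.1)
      (Computability.encodeNat e.2)) Γ.edges = enc Γ.edges := by
    rw [← encSeq_eq]
    rfl
  unfold encDrawing
  rw [h1, h2]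
  rfl

lemma inP_of_polyTime {α : Type} [BEnc α] {e : α → List Bool} {P : α → Prop} (he : e = enc)
    {f : α → Bool} (hf : PolyTime f) (h : ∀ a, f a = true ↔ P a) : InP e P := by
  subst he
  exact ⟨f, h, hf.tm2⟩

end Pool.Agent.H30.Hped
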