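import Pool.Agent.H30.HpedAlg
import Pool.Agent.H30.HpedDefs

set_option autoImplicit false

/-!
# Homogeneous partial edge drawings: definitions and geometry
-/

namespace Pool.Agent.H30.Hped

/-! ### Geometry -/

/-- determinant of two difference vectors -/
noncomputable def det (u v u' v' : Plane) : ℝ :=
  (v 0 - u 0) * (v' 1 - u' 1) - (v 1 - u 1) * (v' 0 - u' 0)

lemma mem_seg {p q x : Plane} : x ∈ segment ℝ p q ↔ ∃ t : ℝ, 0 ≤ t ∧ t ≤ 1 ∧ x = p + t • (q - p) := by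
  rw [segment_eq_image']
  constructor
  · rintro ⟨t, ht, rfl⟩; exact ⟨t, ht.1, ht.2, rfl⟩
  · rintro ⟨t, h0, h1, rfl⟩; exact ⟨t, ⟨h0, h1⟩, rfl⟩

lemma dist_param (p q : Plane) {t : ℝ} (ht : 0 ≤ t) : dist p (p + t • (q - p)) = t * dist p q := by
  rw [dist_eq_norm, dist_eq_norm]
  have : p - (p + t • (q - p)) = t • (p - q) := by
    rw [sub_add_cancel_left, ← smul_neg, neg_sub]
  rw [this, norm_smul, Real.norm_of_nonneg ht]

lemma mem_stub {p q x : Plane} {r : ℝ} :
    x ∈ stub p q r ↔ ∃ t : ℝ, 0 ≤ t ∧ t ≤ 1 ∧ x = p + t • (q - p) ∧ t * dist p q ≤ r := by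
  unfold stub
  constructor
  · rintro ⟨hs, h2⟩
    obtain ⟨t, h0, h1, rfl⟩ := mem_seg.mp hs
    exact ⟨t, h0, h1, rfl, by rwa [dist_param p q h0] at h2⟩
  · rintro ⟨t, h0, h1, rfl, h2⟩
    exact ⟨mem_seg.mpr ⟨t, h0, h1, rfl⟩, by rwa [dist_param p q h0]⟩

lemma flip_param (p q : Plane) (t : ℝ) : q + t • (p - q) = p + (1 - t) • (q - p) := by
  have : p - q = -(q - p) := by abel
  rw [this, smul_neg, sub_smul, one_smul]
  abel

/-- the parameter is in the middle part -/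
def mid (δ a t : ℝ) : Prop := a < t ∧ t < 1 - 2 * δ + a

/-- proper crossings -/
def Cross (u v u' v' : Plane) (t t' : ℝ) : Prop :=
  det u v u' v' ≠ 0 ∧ 0 < t ∧ t < 1 ∧ 0 < t' ∧ t' < 1 ∧ u + t • (v - u) = u' + t' • (v' - u')

lemma pos_inj (Γ : Drawing) {i j : ℕ} (hi : i < Γ.pts.length) (hj : j < Γ.pts.length)
    (h : pos Γ.pts i = pos Γ.pts j) : i = j := by
  have h0 : (((Γ.pts.getD i (0, 0)).1 : ℚ) : ℝ) = ((Γ.pts.getD j (0, 0)).1 : ℚ) := by
    have := congrFun (congrArg (fun p : Plane => (p : Fin 2 → ℝ)) h) 0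
    simpa [pos] using this
  have h1 : (((Γ.pts.getD i (0, 0)).2 : ℚ) : ℝ) = ((Γ.pts.getD j (0, 0)).2 : ℚ) := by
    have := congrFun (congrArg (fun p : Plane => (p : Fin 2 → ℝ)) h) 1
    simpa [pos] using this
  have h2 : Γ.pts.getD i (0, 0) = Γ.pts.getD j (0, 0) :=
    Prod.ext (by exact_mod_cast h0) (by exact_mod_cast h1)
  rw [List.getD_eq_getElem _ _ hi, List.getD_eq_getElem _ _ hj] at h2
  exact (List.Nodup.getElem_inj_iff Γ.distinct).mp h2

lemma param_eq_left {p q : Plane} (hpq : p ≠ q) {t : ℝ} (h : p + t • (q - p) = p) : t = 0 := by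
  have h1 : t • (q - p) = 0 := by simpa using h
  rcases smul_eq_zero.mp h1 with h | h
  · exact h
  · exact absurd (sub_eq_zero.mp h).symm hpq

lemma param_eq_right {p q : Plane} (hpq : p ≠ q) {t : ℝ} (h : p + t • (q - p) = q) : t = 1 := by
  have h1 : (t - 1) • (q - p) = 0 := by
    rw [sub_smul, one_smul, sub_eq_zero]
    exact eq_sub_of_add_eq' h
  rcases smul_eq_zero.mp h1 with h | h
  · linarith
  · exact absurd (sub_eq_zero.mp h).symm hpq

lemma parallel {u v u' v' : Plane} (huv : u ≠ v) (hD : det u v u' v' = 0) :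
    ∃ c : ℝ, v' - u' = c • (v - u) := by
  unfold det at hD
  by_cases h0 : v 0 - u 0 = 0
  · have h1 : v 1 - u 1 ≠ 0 := by
      intro h1
      apply huv
      ext i
      fin_cases i
      · simp only [Fin.zero_eta]; linarith
      · simp only [Fin.mk_one]; linarith
    refine ⟨(v' 1 - u' 1) / (v 1 - u 1), ?_⟩
    have h2 : v' 0 - u' 0 = 0 := by
      rw [h0, zero_mul, zero_sub, neg_eq_zero] at hD
      exact (mul_eq_zero.mp hD).resolve_left h1
    ext i
    fin_cases i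
    · simp only [Fin.zero_eta, PiLp.sub_apply, PiLp.smul_apply, smul_eq_mul]
      rw [h0, h2, mul_zero]
    · simp only [Fin.mk_one, PiLp.sub_apply, PiLp.smul_apply, smul_eq_mul]
      field_simp
  · refine ⟨(v' 0 - u' 0) / (v 0 - u 0), ?_⟩
    ext i
    fin_cases i
    · simp only [Fin.zero_eta, PiLp.sub_apply, PiLp.smul_apply, smul_eq_mul]
      field_simp
    · simp only [Fin.mk_one, PiLp.sub_apply, PiLp.smul_apply, smul_eq_mul]
      field_simp
      linarith

/-- Two distinct edges through a common point: either a proper crossing or a common endpoint. -/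
lemma incidence (Γ : Drawing) {e e' : ℕ × ℕ} (he : e ∈ Γ.edges) (he' : e' ∈ Γ.edges) (hne : e ≠ e')
    {t t' : ℝ} (ht0 : 0 ≤ t) (ht1 : t ≤ 1) (ht0' : 0 ≤ t') (ht1' : t' ≤ 1)
    (hx : pos Γ.pts e.1 + t • (pos Γ.pts e.2 - pos Γ.pts e.1) =
      pos Γ.pts e'.1 + t' • (pos Γ.pts e'.2 - pos Γ.pts e'.1)) :
    Cross (pos Γ.pts e.1) (pos Γ.pts e.2) (pos Γ.pts e'.1) (pos Γ.pts e'.2) t t' ∨
      ∃ k, (k = e.1 ∨ k = e.2) ∧ (k = e'.1 ∨ k = e'.2) ∧
        pos Γ.pts e.1 + t • (pos Γ.pts e.2 - pos Γ.pts e.1) = pos Γ.pts k := by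
  obtain ⟨hv1, hv2⟩ := Γ.valid e he
  obtain ⟨hv1', hv2'⟩ := Γ.valid e' he'
  have hl1 : e.1 < Γ.pts.length := hv1.trans hv2
  have hl1' : e'.1 < Γ.pts.length := hv1'.trans hv2'
  set u := pos Γ.pts e.1 with hu
  set v := pos Γ.pts e.2 with hv
  set u' := pos Γ.pts e'.1 with hu'
  set v' := pos Γ.pts e'.2 with hv'
  have huv : u ≠ v := fun h => hv1.ne (pos_inj Γ hl1 hv2 h)
  have huv' : u' ≠ v' := fun h => hv1'.ne (pos_inj Γ hl1' hv2' h)
  rcases eq_or_lt_of_le ht0 with h0 | h0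
  · right
    have hxu : u + t • (v - u) = u := by rw [← h0, zero_smul, add_zero]
    refine ⟨e.1, Or.inl rfl, Γ.noPass e' he' e.1 hl1 (mem_seg.mpr ⟨t', ht0', ht1', ?_⟩), hxu⟩
    exact hxu.symm.trans hx
  rcases eq_or_lt_of_le ht1 with h1 | h1
  · right
    have hxv : u + t • (v - u) = v := by rw [h1, one_smul, add_sub_cancel]
    refine ⟨e.2, Or.inr rfl, Γ.noPass e' he' e.2 hv2 (mem_seg.mpr ⟨t', ht0', ht1', ?_⟩), hxv⟩
    exact hxv.symm.trans hx
  rcases eq_or_lt_of_le ht0' with h0' | h0'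
  · right
    have hxu : u' + t' • (v' - u') = u' := by rw [← h0', zero_smul, add_zero]
    refine ⟨e'.1, Γ.noPass e he e'.1 hl1' (mem_seg.mpr ⟨t, ht0, ht1, ?_⟩), Or.inl rfl, ?_⟩
    · exact hxu.symm.trans hx.symm
    · rw [hx]; exact hxu
  rcases eq_or_lt_of_le ht1' with h1' | h1'
  · right
    have hxv : u' + t' • (v' - u') = v' := by rw [h1', one_smul, add_sub_cancel]
    refine ⟨e'.2, Γ.noPass e he e'.2 hv2' (mem_seg.mpr ⟨t, ht0, ht1, ?_⟩), Or.inr rfl, ?_⟩
    · exact hxv.symm.trans hx.symm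
    · rw [hx]; exact hxv
  by_cases hD : det u v u' v' = 0
  swap
  · left; exact ⟨hD, h0, h1, h0', h1', hx⟩
  exfalso
  obtain ⟨c, hc⟩ := parallel huv hD
  have hc0 : c ≠ 0 := by
    rintro rfl
    rw [zero_smul, sub_eq_zero] at hc
    exact huv' hc.symm
  set s1 := t - t' * c with hs1
  set s2 := t + (1 - t') * c with hs2
  have hu'e : u' = u + s1 • (v - u) := by
    have : u' = u + t • (v - u) - t' • (v' - u') := by rw [hx]; abel
    rw [this, hc, hs1, sub_smul, mul_smul]; abel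
  have hv'e : v' = u + s2 • (v - u) := by
    have h2 : v' = u' + (v' - u') := by abel
    rw [h2, hc, hu'e, add_assoc, ← add_smul]
    congr 2
    rw [hs1, hs2]; ring
  have hs12 : s2 - s1 = c := by rw [hs1, hs2]; ring
  have hin1 : ¬ (0 < s1 ∧ s1 < 1) := by
    rintro ⟨h2, h3⟩
    rcases Γ.noPass e he e'.1 hl1' (mem_seg.mpr ⟨s1, h2.le, h3.le, hu'e⟩) with h | h
    · have h4 : u + s1 • (v - u) = u := by rw [← hu'e, hu', h]
      linarith [param_eq_left huv h4]
    · have h4 : u + s1 • (v - u) = v := by rw [← hu'e, hu', h]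
      linarith [param_eq_right huv h4]
  have hin2 : ¬ (0 < s2 ∧ s2 < 1) := by
    rintro ⟨h2, h3⟩
    rcases Γ.noPass e he e'.2 hv2' (mem_seg.mpr ⟨s2, h2.le, h3.le, hv'e⟩) with h | h
    · have h4 : u + s2 • (v - u) = u := by rw [← hv'e, hv', h]
      linarith [param_eq_left huv h4]
    · have h4 : u + s2 • (v - u) = v := by rw [← hv'e, hv', h]
      linarith [param_eq_right huv h4]
  -- both endpoints of `e` lie on `e'`
  have hmem : ∀ r : ℝ, (0 ≤ (r - s1) / c) → ((r - s1) / c ≤ 1) →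
      u + r • (v - u) ∈ segment ℝ u' v' := by
    intro r hr0 hr1
    refine mem_seg.mpr ⟨(r - s1) / c, hr0, hr1, ?_⟩
    rw [hc, smul_smul, div_mul_cancel₀ _ hc0, hu'e, add_assoc, ← add_smul]
    congr 2
    ring
  have hboth : u ∈ segment ℝ u' v' ∧ v ∈ segment ℝ u' v' := by
    have e0 : u = u + (0 : ℝ) • (v - u) := by rw [zero_smul, add_zero]
    have e1 : v = u + (1 : ℝ) • (v - u) := by rw [one_smul, add_sub_cancel]
    rcases lt_or_gt_of_ne hc0 with hneg | hpos
    · have hle2 : s2 ≤ 0 := by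
        by_contra h
        push Not at h
        apply hin2
        refine ⟨h, ?_⟩
        have : (1 - t') * c < 0 := mul_neg_of_pos_of_neg (by linarith) hneg
        linarith
      have hge1 : 1 ≤ s1 := by
        by_contra h
        push Not at h
        apply hin1
        refine ⟨?_, h⟩
        have : t' * c < 0 := mul_neg_of_pos_of_neg h0' hneg
        linarith
      constructor
      · rw [e0]
        apply hmem
        · rw [le_div_iff_of_neg hneg]; linarith
        · rw [div_le_iff_of_neg hneg]; linarith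
      · rw [e1]
        apply hmem
        · rw [le_div_iff_of_neg hneg]; linarith
        · rw [div_le_iff_of_neg hneg]; linarith
    · have hle1 : s1 ≤ 0 := by
        by_contra h
        push Not at h
        apply hin1
        refine ⟨h, ?_⟩
        have : 0 < t' * c := mul_pos h0' hpos
        linarith
      have hge2 : 1 ≤ s2 := by
        by_contra h
        push Not at h
        apply hin2
        refine ⟨?_, h⟩
        have : 0 < (1 - t') * c := mul_pos (by linarith) hpos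
        linarith
      constructor
      · rw [e0]
        apply hmem
        · rw [le_div_iff₀ hpos]; linarith
        · rw [div_le_iff₀ hpos]; linarith
      · rw [e1]
        apply hmem
        · rw [le_div_iff₀ hpos]; linarith
        · rw [div_le_iff₀ hpos]; linarith
  have hk1 := Γ.noPass e' he' e.1 hl1 hboth.1
  have hk2 := Γ.noPass e' he' e.2 hv2 hboth.2
  apply hne
  apply Prod.ext
  · omega
  · omega

/-- Reformulation with one real parameter per edge. -/
theorem hped_iff {δ : ℝ} (hδ0 : 0 < δ) (Γ : Drawing) :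
    AdmitsHPED δ Γ ↔ ∃ α : ℕ × ℕ → ℝ, (∀ e, 0 ≤ α e ∧ α e ≤ 2 * δ) ∧
      ∀ e ∈ Γ.edges, ∀ e' ∈ Γ.edges, ∀ t t',
        Cross (pos Γ.pts e.1) (pos Γ.pts e.2) (pos Γ.pts e'.1) (pos Γ.pts e'.2) t t' →
        mid δ (α e) t ∨ mid δ (α e') t' := by
  classical
  have hpos : ∀ e ∈ Γ.edges, pos Γ.pts e.1 ≠ pos Γ.pts e.2 := by
    intro e he h
    obtain ⟨h1, h2⟩ := Γ.valid e he
    exact h1.ne (pos_inj Γ (h1.trans h2) h2 h)
  constructor
  · rintro ⟨a, b, hab, hdisj⟩
    refine ⟨fun e => if e ∈ Γ.edges then a e / dist (pos Γ.pts e.1) (pos Γ.pts e.2) else 0, ?_, ?_⟩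
    · intro e
      simp only
      split_ifs with he
      · obtain ⟨h1, h2, h3⟩ := hab e he
        have hd : 0 < dist (pos Γ.pts e.1) (pos Γ.pts e.2) := dist_pos.mpr (hpos e he)
        exact ⟨by positivity, by rw [div_le_iff₀ hd]; linarith⟩
      · exact ⟨le_rfl, by linarith⟩
    · intro e he e' he' t t' hcr
      simp only [he, he', if_true]
      by_contra hcon
      push Not at hcon
      obtain ⟨hm, hm'⟩ := hcon
      obtain ⟨hD, h0, h1, h0', h1', hx⟩ := hcr
      have hne : e ≠ e' := by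
        rintro rfl
        apply hD
        unfold det
        ring
      -- point lies in the drawn part
      have key : ∀ e ∈ Γ.edges, ∀ t : ℝ, 0 < t → t < 1 →
          ¬ mid δ (a e / dist (pos Γ.pts e.1) (pos Γ.pts e.2)) t →
          pos Γ.pts e.1 + t • (pos Γ.pts e.2 - pos Γ.pts e.1) ∈ drawn Γ e (a e) (b e) := by
        intro e he t h0 h1 hm
        obtain ⟨ha, hb, hs⟩ := hab e he
        have hd : 0 < dist (pos Γ.pts e.1) (pos Γ.pts e.2) := dist_pos.mpr (hpos e he)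
        unfold mid at hm
        by_cases hlt : a e / dist (pos Γ.pts e.1) (pos Γ.pts e.2) < t
        · right
          have h2 : 1 - 2 * δ + a e / dist (pos Γ.pts e.1) (pos Γ.pts e.2) ≤ t := by
            by_contra h; push Not at h; exact hm ⟨hlt, h⟩
          refine mem_stub.mpr ⟨1 - t, by linarith, by linarith, ?_, ?_⟩
          · rw [flip_param]
          · rw [dist_comm]
            have h3 : (1 - t) ≤ 2 * δ - a e / dist (pos Γ.pts e.1) (pos Γ.pts e.2) := by linarith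
            calc (1 - t) * dist (pos Γ.pts e.1) (pos Γ.pts e.2)
                ≤ (2 * δ - a e / dist (pos Γ.pts e.1) (pos Γ.pts e.2)) *
                    dist (pos Γ.pts e.1) (pos Γ.pts e.2) := by gcongr
              _ = b e := by rw [sub_mul, div_mul_cancel₀ _ hd.ne']; linarith
        · left
          push Not at hlt
          refine mem_stub.mpr ⟨t, h0.le, h1.le, rfl, ?_⟩
          rwa [← le_div_iff₀ hd]
      have hx1 := key e he t h0 h1 hm
      have hx2 := key e' he' t' h0' h1' hm'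
      rw [← hx] at hx2
      obtain ⟨k, hk, _, hxk⟩ := hdisj e he e' he' hne _ ⟨hx1, hx2⟩
      rcases hk with rfl | rfl
      · linarith [param_eq_left (hpos e he) hxk]
      · linarith [param_eq_right (hpos e he) hxk]
  · rintro ⟨α, hα, hcr⟩
    refine ⟨fun e => α e * dist (pos Γ.pts e.1) (pos Γ.pts e.2),
      fun e => (2 * δ - α e) * dist (pos Γ.pts e.1) (pos Γ.pts e.2), ?_, ?_⟩
    · intro e _
      obtain ⟨h1, h2⟩ := hα e
      refine ⟨by positivity, mul_nonneg (by linarith) dist_nonneg, by ring⟩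
    · intro e he e' he' hne x hx
      have key : ∀ e ∈ Γ.edges, x ∈ drawn Γ e (α e * dist (pos Γ.pts e.1) (pos Γ.pts e.2))
          ((2 * δ - α e) * dist (pos Γ.pts e.1) (pos Γ.pts e.2)) →
          ∃ t : ℝ, 0 ≤ t ∧ t ≤ 1 ∧ x = pos Γ.pts e.1 + t • (pos Γ.pts e.2 - pos Γ.pts e.1) ∧
            ¬ mid δ (α e) t := by
        intro e he hx
        have hd : 0 < dist (pos Γ.pts e.1) (pos Γ.pts e.2) := dist_pos.mpr (hpos e he)
        rcases hx with hx | hx
        · obtain ⟨t, h0, h1, hx, hle⟩ := mem_stub.mp hx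
          refine ⟨t, h0, h1, hx, fun hm => ?_⟩
          have := le_of_mul_le_mul_right hle hd
          exact absurd hm.1 (not_lt.mpr this)
        · obtain ⟨t, h0, h1, hx, hle⟩ := mem_stub.mp hx
          refine ⟨1 - t, by linarith, by linarith, by rw [hx, flip_param], fun hm => ?_⟩
          rw [dist_comm (pos Γ.pts e.2)] at hle
          have := le_of_mul_le_mul_right hle hd
          have h2 := hm.2
          linarith
      obtain ⟨t, h0, h1, hxt, hm⟩ := key e he hx.1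
      obtain ⟨t', h0', h1', hxt', hm'⟩ := key e' he' hx.2
      rcases incidence Γ he he' hne h0 h1 h0' h1' (hxt.symm.trans hxt') with h | ⟨k, hk1, hk2, hk3⟩
      · exact absurd (hcr e he e' he' t t' h) (by tauto)
      · exact ⟨k, hk1, hk2, hxt.trans hk3⟩

/-! ### Correctness of the decision procedure -/

lemma helly (U L : Set ℝ) (hU : U.Finite) (hL : L.Finite) (t : ℝ) (ht : 0 < t)
    (h0 : ∀ u ∈ U, 0 < u) (h1 : ∀ l ∈ L, l < t) (h2 : ∀ u ∈ U, ∀ l ∈ L, l < u) :
    ∃ α, 0 ≤ α ∧ α ≤ t ∧ (∀ u ∈ U, α < u) ∧ ∀ l ∈ L, l < α := by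
  obtain ⟨m, hm, hmax⟩ := Set.exists_max_image (insert (-1) L) id (hL.insert _)
    ⟨-1, Set.mem_insert _ _⟩
  obtain ⟨M, hM, hmin⟩ := Set.exists_min_image (insert (t + 1) U) id (hU.insert _)
    ⟨t + 1, Set.mem_insert _ _⟩
  simp only [id] at hmax hmin
  have hmt : m < t := by
    rcases hm with rfl | hm
    · linarith
    · exact h1 m hm
  have hM0 : 0 < M := by
    rcases hM with rfl | hM
    · linarith
    · exact h0 M hM
  have hmM : m < M := by
    rcases hM with rfl | hM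
    · linarith
    · rcases hm with rfl | hm
      · linarith [h0 M hM]
      · exact h2 M hM m hm
  by_cases hneg : m < 0
  · refine ⟨0, le_rfl, ht.le, h0, fun l hl => ?_⟩
    exact (hmax l (Set.mem_insert_of_mem _ hl)).trans_lt hneg
  · push Not at hneg
    have h3 : m < min M t := lt_min hmM hmt
    have h4 : min M t ≤ M := min_le_left _ _
    have h5 : min M t ≤ t := min_le_right _ _
    refine ⟨(m + min M t) / 2, by linarith, by linarith, fun u hu => ?_, fun l hl => ?_⟩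
    · have := hmin u (Set.mem_insert_of_mem _ hu)
      linarith
    · have := hmax l (Set.mem_insert_of_mem _ hl)
      linarith

/-- real coordinates of raw points are positive fractions -/
def PosP (p : RP) : Prop := 0 < p.1.2 ∧ 0 < p.2.2

/-- determinant in raw coordinates -/
noncomputable def rdet (u v u' v' : RP) : ℝ :=
  (rv v.1 - rv u.1) * (rv v'.2 - rv u'.2) - (rv v.2 - rv u.2) * (rv v'.1 - rv u'.1)

lemma cr_spec {u v u' v' : RP} (hu : PosP u) (hv : PosP v) (hu' : PosP u') (hv' : PosP v') :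
    0 < (cr (vsub v u) (vsub v' u')).2 ∧ rv (cr (vsub v u) (vsub v' u')) = rdet u v u' v' := by
  have a1 := rsub_pos hv.1 hu.1
  have a2 := rsub_pos hv.2 hu.2
  have a3 := rsub_pos hv'.1 hu'.1
  have a4 := rsub_pos hv'.2 hu'.2
  unfold cr vsub rdet
  refine ⟨rsub_pos (rmul_pos a1 a4) (rmul_pos a2 a3), ?_⟩
  simp only
  rw [rv_rsub (rmul_pos a1 a4) (rmul_pos a2 a3), rv_rmul, rv_rmul, rv_rsub hv.1 hu.1,
    rv_rsub hv.2 hu.2, rv_rsub hv'.1 hu'.1, rv_rsub hv'.2 hu'.2]

lemma params_iff {u v u' v' : RP} (hu : PosP u) (hv : PosP v) (hu' : PosP u') (hv' : PosP v')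
    {l l' : RQ} : params u v u' v' = some (l, l') ↔
      rdet u v u' v' ≠ 0 ∧
      l = rdiv (cr (vsub u' u) (vsub v' u')) (cr (vsub v u) (vsub v' u')) ∧
      l' = rdiv (cr (vsub u' u) (vsub v u)) (cr (vsub v u) (vsub v' u')) ∧
      0 < l.2 ∧ 0 < l'.2 ∧
      rv l = rdet u u' u' v' / rdet u v u' v' ∧ rv l' = rdet u u' u v / rdet u v u' v' ∧
      0 < rv l ∧ rv l < 1 ∧ 0 < rv l' ∧ rv l' < 1 := by
  obtain ⟨hD1, hD2⟩ := cr_spec hu hv hu' hv'
  obtain ⟨hN1, hN2⟩ := cr_spec hu hu' hu' hv'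
  obtain ⟨hM1, hM2⟩ := cr_spec hu hu' hu hv
  unfold params
  set D := cr (vsub v u) (vsub v' u') with hD
  set N := cr (vsub u' u) (vsub v' u') with hN
  set M := cr (vsub u' u) (vsub v u) with hM
  by_cases h0 : D.1 = 0
  · rw [decide_eq_true h0, cond_true]
    have : rdet u v u' v' = 0 := by rw [← hD2]; exact (rv_eq_zero_iff hD1).mpr h0
    simp [this]
  · rw [decide_eq_false h0, cond_false]
    have hne : rdet u v u' v' ≠ 0 := by
      rw [← hD2]; exact fun h => h0 ((rv_eq_zero_iff hD1).mp h)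
    have p1 := rdiv_pos hN1 h0
    have p2 := rdiv_pos hM1 h0
    have v1 : rv (rdiv N D) = rdet u u' u' v' / rdet u v u' v' := by
      rw [rv_rdiv hN1 hD1 h0, hN2, hD2]
    have v2 : rv (rdiv M D) = rdet u u' u v / rdet u v u' v' := by
      rw [rv_rdiv hM1 hD1 h0, hM2, hD2]
    rw [Bool.cond_eq_ite]
    simp only [Bool.and_eq_true, decide_eq_true_eq]
    constructor
    · intro h
      split_ifs at h with hc
      simp only [Option.some.injEq, Prod.mk.injEq] at h
      obtain ⟨rfl, rfl⟩ := h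
      obtain ⟨⟨c1, c2⟩, c3, c4⟩ := hc
      exact ⟨hne, rfl, rfl, p1, p2, v1, v2, (rv_pos_iff p1).mpr c1, (rv_lt_one_iff p1).mpr c2,
        (rv_pos_iff p2).mpr c3, (rv_lt_one_iff p2).mpr c4⟩
    · rintro ⟨_, rfl, rfl, _, _, _, _, c1, c2, c3, c4⟩
      rw [if_pos]
      exact ⟨⟨(rv_pos_iff p1).mp c1, (rv_lt_one_iff p1).mp c2⟩, (rv_pos_iff p2).mp c3,
        (rv_lt_one_iff p2).mp c4⟩

/-- truth of a literal -/
def holds (δ : ℝ) (α : ℕ × ℕ → ℝ) (x : Lit) : Prop :=
  0 < x.2.2.2 ∧ (x.2.1 = true → α x.1 < rv x.2.2) ∧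
    (x.2.1 = false → rv x.2.2 - (1 - 2 * δ) < α x.1)

lemma mem_clauses {G : Raw} {x y : Lit} : (x, y) ∈ clauses G ↔ ∃ e ∈ G.2, ∃ e' ∈ G.2, ∃ l l',
    params (rpt G.1 e.1) (rpt G.1 e.2) (rpt G.1 e'.1) (rpt G.1 e'.2) = some (l, l') ∧
    ∃ b b' : Bool, x = (e, b, l) ∧ y = (e', b', l') := by
  unfold clauses
  simp only [List.mem_flatMap]
  constructor
  · rintro ⟨e, he, e', he', h⟩
    cases hp : params (rpt G.1 e.1) (rpt G.1 e.2) (rpt G.1 e'.1) (rpt G.1 e'.2) with
    | none => rw [hp] at h; simp [pairClauses] at h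
    | some p =>
      rw [hp] at h
      obtain ⟨l, l'⟩ := p
      refine ⟨e, he, e', he', l, l', hp, ?_⟩
      simp only [pairClauses, List.mem_cons, Prod.mk.injEq, List.not_mem_nil, or_false] at h
      rcases h with ⟨rfl, rfl⟩ | ⟨rfl, rfl⟩ | ⟨rfl, rfl⟩ | ⟨rfl, rfl⟩
      · exact ⟨true, true, rfl, rfl⟩
      · exact ⟨true, false, rfl, rfl⟩
      · exact ⟨false, true, rfl, rfl⟩
      · exact ⟨false, false, rfl, rfl⟩
  · rintro ⟨e, he, e', he', l, l', hp, b, b', rfl, rfl⟩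
    refine ⟨e, he, e', he', ?_⟩
    rw [hp]
    cases b <;> cases b' <;> simp [pairClauses]

/-- raw points of a raw drawing with positive denominators -/
def PosG (G : Raw) : Prop := ∀ k, PosP (rpt G.1 k)

theorem solve_iff_params {δ : ℝ} (hδ0 : 0 < δ) {cmp : RQ → Bool}
    (hcmp : ∀ q : RQ, 0 < q.2 → (cmp q = true ↔ 1 - 2 * δ ≤ rv q)) {G : Raw} (hG : PosG G) :
    decideHPED cmp G = true ↔ ∃ α : ℕ × ℕ → ℝ, (∀ e, 0 ≤ α e ∧ α e ≤ 2 * δ) ∧
      ∀ e ∈ G.2, ∀ e' ∈ G.2, ∀ l l',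
        params (rpt G.1 e.1) (rpt G.1 e.2) (rpt G.1 e'.1) (rpt G.1 e'.2) = some (l, l') →
        mid δ (α e) (rv l) ∨ mid δ (α e') (rv l') := by
  classical
  unfold decideHPED
  rw [TwoSat.solve_iff (by
    intro a b
    unfold conf
    rw [Bool.eq_iff_iff]
    simp only [Bool.and_eq_true, Bool.or_eq_true, decide_eq_true_eq, Bool.not_eq_true']
    constructor
    · rintro ⟨h, h' | h'⟩
      · exact ⟨h.symm, Or.inr ⟨⟨h'.1.2, h'.1.1⟩, h'.2⟩⟩
      · exact ⟨h.symm, Or.inl ⟨⟨h'.1.2, h'.1.1⟩, h'.2⟩⟩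
    · rintro ⟨h, h' | h'⟩
      · exact ⟨h.symm, Or.inr ⟨⟨h'.1.2, h'.1.1⟩, h'.2⟩⟩
      · exact ⟨h.symm, Or.inl ⟨⟨h'.1.2, h'.1.1⟩, h'.2⟩⟩)]
  constructor
  · rintro ⟨S, hS1, hS2⟩
    -- the finite sets of bounds
    have hfin : {x : Lit | x ∈ TwoSat.lits (clauses G)}.Finite := List.finite_toSet _
    have hlit : ∀ x ∈ TwoSat.lits (clauses G), 0 < x.2.2.2 ∧ 0 < rv x.2.2 ∧ rv x.2.2 < 1 := by
      intro x hx
      rw [TwoSat.mem_lits] at hx
      obtain ⟨y, h | h⟩ := hx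
      · obtain ⟨e, _, e', _, l, l', hp, b, b', rfl, rfl⟩ := mem_clauses.mp h
        obtain ⟨_, _, _, h1, _, _, _, h2, h3, _⟩ :=
          (params_iff (hG _) (hG _) (hG _) (hG _)).mp hp
        exact ⟨h1, h2, h3⟩
      · obtain ⟨e, _, e', _, l, l', hp, b, b', rfl, rfl⟩ := mem_clauses.mp h
        obtain ⟨_, _, _, _, h1, _, _, _, _, h2, h3⟩ :=
          (params_iff (hG _) (hG _) (hG _) (hG _)).mp hp
        exact ⟨h1, h2, h3⟩
    have hα : ∀ e : ℕ × ℕ, ∃ α : ℝ, 0 ≤ α ∧ α ≤ 2 * δ ∧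
        (∀ l, (e, true, l) ∈ TwoSat.lits (clauses G) → S (e, true, l) → α < rv l) ∧
        (∀ l, (e, false, l) ∈ TwoSat.lits (clauses G) → S (e, false, l) →
          rv l - (1 - 2 * δ) < α) := by
      intro e
      obtain ⟨α, h1, h2, h3, h4⟩ := helly
        ((fun x : Lit => rv x.2.2) '' {x | x ∈ TwoSat.lits (clauses G) ∧ x.1 = e ∧ x.2.1 = true ∧ S x})
        ((fun x : Lit => rv x.2.2 - (1 - 2 * δ)) ''
          {x | x ∈ TwoSat.lits (clauses G) ∧ x.1 = e ∧ x.2.1 = false ∧ S x})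
        ((hfin.subset (fun x hx => hx.1)).image _) ((hfin.subset (fun x hx => hx.1)).image _)
        (2 * δ) (by linarith)
        (by rintro _ ⟨x, hx, rfl⟩; exact (hlit x hx.1).2.1)
        (by rintro _ ⟨x, hx, rfl⟩; have := (hlit x hx.1).2.2; simp only; linarith)
        (by
          rintro _ ⟨x, ⟨hx1, hx2, hx3, hx4⟩, rfl⟩ _ ⟨y, ⟨hy1, hy2, hy3, hy4⟩, rfl⟩
          simp only
          have hc := hS2 x y hx4 hy4
          unfold conf at hc
          rw [hx2, hy2, hx3, hy3] at hc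
          simp only [decide_true, Bool.true_and, Bool.not_false, Bool.not_true, Bool.false_and,
            Bool.and_self, Bool.or_false] at hc
          have hp := rsub_pos (hlit y hy1).1 (hlit x hx1).1
          have h5 := (hcmp _ hp).not.mp (by rw [hc]; exact Bool.false_ne_true)
          rw [rv_rsub (hlit y hy1).1 (hlit x hx1).1] at h5
          push Not at h5
          linarith)
      refine ⟨α, h1, h2, fun l hl hS => ?_, fun l hl hS => ?_⟩
      · exact h3 _ ⟨(e, true, l), ⟨hl, rfl, rfl, hS⟩, rfl⟩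
      · exact h4 _ ⟨(e, false, l), ⟨hl, rfl, rfl, hS⟩, rfl⟩
    choose α hα1 hα2 hα3 hα4 using hα
    refine ⟨α, fun e => ⟨hα1 e, hα2 e⟩, ?_⟩
    intro e he e' he' l l' hp
    have hcl : ∀ b b' : Bool, ((e, b, l), (e', b', l')) ∈ clauses G := fun b b' =>
      mem_clauses.mpr ⟨e, he, e', he', l, l', hp, b, b', rfl, rfl⟩
    have hl1 : ∀ b, (e, b, l) ∈ TwoSat.lits (clauses G) := fun b =>
      TwoSat.mem_lits.mpr ⟨(e', true, l'), Or.inl (hcl b true)⟩
    have hl2 : ∀ b, (e', b, l') ∈ TwoSat.lits (clauses G) := fun b =>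
      TwoSat.mem_lits.mpr ⟨(e, true, l), Or.inr (hcl true b)⟩
    by_cases hb : S (e, true, l) ∧ S (e, false, l)
    · left
      have h1 := hα3 e l (hl1 true) hb.1
      have h2 := hα4 e l (hl1 false) hb.2
      exact ⟨h1, by linarith⟩
    · right
      have hb' : ∃ b, ¬ S (e, b, l) := by
        by_contra h
        push Not at h
        exact hb ⟨h true, h false⟩
      obtain ⟨b, hb'⟩ := hb'
      have h1 := (hS1 _ (hcl b true)).resolve_left hb'
      have h2 := (hS1 _ (hcl b false)).resolve_left hb'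
      have h3 := hα3 e' l' (hl2 true) h1
      have h4 := hα4 e' l' (hl2 false) h2
      exact ⟨h3, by linarith⟩
  · rintro ⟨α, hα, hcr⟩
    refine ⟨holds δ α, ?_, ?_⟩
    · rintro ⟨x, y⟩ hc
      obtain ⟨e, he, e', he', l, l', hp, b, b', rfl, rfl⟩ := mem_clauses.mp hc
      obtain ⟨_, _, _, hl, hl', _⟩ := (params_iff (hG _) (hG _) (hG _) (hG _)).mp hp
      rcases hcr e he e' he' l l' hp with h | h
      · left
        exact ⟨hl, fun _ => h.1, fun _ => by have := h.2; simp only; linarith⟩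
      · right
        exact ⟨hl', fun _ => h.1, fun _ => by have := h.2; simp only; linarith⟩
    · rintro a b ⟨ha0, ha1, ha2⟩ ⟨hb0, hb1, hb2⟩
      by_contra hne
      rw [Bool.not_eq_false] at hne
      unfold conf at hne
      simp only [Bool.and_eq_true, Bool.or_eq_true, decide_eq_true_eq, Bool.not_eq_true'] at hne
      obtain ⟨heq, ⟨⟨h1, h2⟩, h3⟩ | ⟨⟨h1, h2⟩, h3⟩⟩ := hne
      · have h4 := (hcmp _ (rsub_pos hb0 ha0)).mp h3
        rw [rv_rsub hb0 ha0] at h4
        have h5 := ha1 h1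
        have h6 := hb2 h2
        rw [heq] at h5
        linarith
      · have h4 := (hcmp _ (rsub_pos ha0 hb0)).mp h3
        rw [rv_rsub ha0 hb0] at h4
        have h5 := hb1 h2
        have h6 := ha2 h1
        rw [heq] at h6
        linarith

/-- the raw form of a drawing -/
def rawOf (Γ : Drawing) : Raw :=
  (Γ.pts.map (fun p => ((p.1.num, p.1.den), (p.2.num, p.2.den))), Γ.edges)

lemma rpt_rawOf (Γ : Drawing) (k : ℕ) : PosP (rpt (rawOf Γ).1 k) ∧
    rv (rpt (rawOf Γ).1 k).1 = pos Γ.pts k 0 ∧ rv (rpt (rawOf Γ).1 k).2 = pos Γ.pts k 1 := by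
  have h : (rawOf Γ).1.getD k ((0, 1), (0, 1)) =
      (((Γ.pts.getD k (0, 0)).1.num, (Γ.pts.getD k (0, 0)).1.den),
        ((Γ.pts.getD k (0, 0)).2.num, (Γ.pts.getD k (0, 0)).2.den)) := by
    unfold rawOf
    by_cases hk : k < Γ.pts.length
    · rw [List.getD_eq_getElem _ _ hk, List.getD_eq_getElem _ _ (by rw [List.length_map]; exact hk),
        List.getElem_map]
    · rw [List.getD_eq_default _ _ (by simp only [List.length_map]; omega),
        List.getD_eq_default _ _ (by omega)]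
      rfl
  unfold rpt PosP rv
  rw [h]
  simp only
  have key : ∀ x : ℚ, ((x.num : ℤ) : ℝ) / (((x.den : ℕ) : ℤ) : ℝ) = (x : ℝ) := by
    intro x
    rw [Rat.cast_def, Int.cast_natCast]
  refine ⟨⟨by exact_mod_cast Rat.den_pos _, by exact_mod_cast Rat.den_pos _⟩, ?_, ?_⟩
  · rw [key]; simp [pos]
  · rw [key]; simp [pos]

lemma det_rdet (Γ : Drawing) (i j k l : ℕ) : rdet (rpt (rawOf Γ).1 i) (rpt (rawOf Γ).1 j)
    (rpt (rawOf Γ).1 k) (rpt (rawOf Γ).1 l) =
    det (pos Γ.pts i) (pos Γ.pts j) (pos Γ.pts k) (pos Γ.pts l) := by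
  unfold rdet det
  rw [(rpt_rawOf Γ i).2.1, (rpt_rawOf Γ i).2.2, (rpt_rawOf Γ j).2.1, (rpt_rawOf Γ j).2.2,
    (rpt_rawOf Γ k).2.1, (rpt_rawOf Γ k).2.2, (rpt_rawOf Γ l).2.1, (rpt_rawOf Γ l).2.2]

lemma cross_iff {u v u' v' : Plane} {t t' : ℝ} : Cross u v u' v' t t' ↔
    det u v u' v' ≠ 0 ∧ 0 < t ∧ t < 1 ∧ 0 < t' ∧ t' < 1 ∧
      t = det u u' u' v' / det u v u' v' ∧ t' = det u u' u v / det u v u' v' := by
  unfold Cross
  constructor
  · rintro ⟨hD, h1, h2, h3, h4, hx⟩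
    refine ⟨hD, h1, h2, h3, h4, ?_, ?_⟩
    · rw [eq_div_iff hD]
      have e0 := congrFun (congrArg (fun p : Plane => (p : Fin 2 → ℝ)) hx) 0
      have e1 := congrFun (congrArg (fun p : Plane => (p : Fin 2 → ℝ)) hx) 1
      simp only [PiLp.add_apply, PiLp.smul_apply, PiLp.sub_apply, smul_eq_mul] at e0 e1
      unfold det
      linear_combination (v' 1 - u' 1) * e0 - (v' 0 - u' 0) * e1
    · rw [eq_div_iff hD]
      have e0 := congrFun (congrArg (fun p : Plane => (p : Fin 2 → ℝ)) hx) 0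
      have e1 := congrFun (congrArg (fun p : Plane => (p : Fin 2 → ℝ)) hx) 1
      simp only [PiLp.add_apply, PiLp.smul_apply, PiLp.sub_apply, smul_eq_mul] at e0 e1
      unfold det
      linear_combination (v 1 - u 1) * e0 - (v 0 - u 0) * e1
  · rintro ⟨hD, h1, h2, h3, h4, e1, e2⟩
    refine ⟨hD, h1, h2, h3, h4, ?_⟩
    rw [eq_div_iff hD] at e1 e2
    have key : ∀ i : Fin 2, (det u v u' v') * ((u + t • (v - u)) i) =
        (det u v u' v') * ((u' + t' • (v' - u')) i) := by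
      intro i
      unfold det at e1 e2 ⊢
      fin_cases i
      · simp only [Fin.zero_eta, PiLp.add_apply, PiLp.smul_apply, PiLp.sub_apply, smul_eq_mul]
        linear_combination (v 0 - u 0) * e1 - (v' 0 - u' 0) * e2
      · simp only [Fin.mk_one, PiLp.add_apply, PiLp.smul_apply, PiLp.sub_apply, smul_eq_mul]
        linear_combination (v 1 - u 1) * e1 - (v' 1 - u' 1) * e2
    ext i
    exact mul_left_cancel₀ hD (key i)

/-- **Correctness.** -/
theorem decideHPED_iff {δ : ℝ} (hδ0 : 0 < δ) {cmp : RQ → Bool}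
    (hcmp : ∀ q : RQ, 0 < q.2 → (cmp q = true ↔ 1 - 2 * δ ≤ rv q)) (Γ : Drawing) :
    decideHPED cmp (rawOf Γ) = true ↔ AdmitsHPED δ Γ := by
  have hG : PosG (rawOf Γ) := fun k => (rpt_rawOf Γ k).1
  rw [solve_iff_params hδ0 hcmp hG, hped_iff hδ0]
  apply exists_congr
  intro α
  apply and_congr_right
  intro _
  apply forall₂_congr
  intro e he
  apply forall₂_congr
  intro e' he'
  constructor
  · intro h t t' hcr
    obtain ⟨hD, h1, h2, h3, h4, e1, e2⟩ := cross_iff.mp hcr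
    rw [← det_rdet, ← det_rdet] at e1 e2
    rw [← det_rdet] at hD
    set l := rdiv (cr (vsub (rpt (rawOf Γ).1 e'.1) (rpt (rawOf Γ).1 e.1))
      (vsub (rpt (rawOf Γ).1 e'.2) (rpt (rawOf Γ).1 e'.1)))
      (cr (vsub (rpt (rawOf Γ).1 e.2) (rpt (rawOf Γ).1 e.1))
      (vsub (rpt (rawOf Γ).1 e'.2) (rpt (rawOf Γ).1 e'.1))) with hl
    set l' := rdiv (cr (vsub (rpt (rawOf Γ).1 e'.1) (rpt (rawOf Γ).1 e.1))
      (vsub (rpt (rawOf Γ).1 e.2) (rpt (rawOf Γ).1 e.1)))
      (cr (vsub (rpt (rawOf Γ).1 e.2) (rpt (rawOf Γ).1 e.1))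
      (vsub (rpt (rawOf Γ).1 e'.2) (rpt (rawOf Γ).1 e'.1))) with hl'
    obtain ⟨hD1, hD2⟩ := cr_spec (hG e.1) (hG e.2) (hG e'.1) (hG e'.2)
    obtain ⟨hN1, hN2⟩ := cr_spec (hG e.1) (hG e'.1) (hG e'.1) (hG e'.2)
    obtain ⟨hM1, hM2⟩ := cr_spec (hG e.1) (hG e'.1) (hG e.1) (hG e.2)
    have h0 : (cr (vsub (rpt (rawOf Γ).1 e.2) (rpt (rawOf Γ).1 e.1))
        (vsub (rpt (rawOf Γ).1 e'.2) (rpt (rawOf Γ).1 e'.1))).1 ≠ 0 := by
      intro h0
      apply hD
      rw [← hD2]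
      exact (rv_eq_zero_iff hD1).mpr h0
    have v1 : rv l = t := by rw [hl, rv_rdiv hN1 hD1 h0, hN2, hD2, e1]
    have v2 : rv l' = t' := by rw [hl', rv_rdiv hM1 hD1 h0, hM2, hD2, e2]
    have hp : params (rpt (rawOf Γ).1 e.1) (rpt (rawOf Γ).1 e.2) (rpt (rawOf Γ).1 e'.1)
        (rpt (rawOf Γ).1 e'.2) = some (l, l') := by
      rw [params_iff (hG _) (hG _) (hG _) (hG _)]
      refine ⟨hD, rfl, rfl, rdiv_pos hN1 h0, rdiv_pos hM1 h0, by rw [v1, e1], by rw [v2, e2], ?_⟩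
      rw [v1, v2]
      exact ⟨h1, h2, h3, h4⟩
    have := h l l' hp
    rwa [v1, v2] at this
  · intro h l l' hp
    obtain ⟨hD, _, _, _, _, e1, e2, h1, h2, h3, h4⟩ :=
      (params_iff (hG _) (hG _) (hG _) (hG _)).mp hp
    apply h
    rw [cross_iff]
    rw [det_rdet, det_rdet] at e1 e2
    rw [det_rdet] at hD
    exact ⟨hD, h1, h2, h3, h4, e1, e2⟩

end Pool.Agent.H30.Hped
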