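import Pool.Agent.H30.LQ
import Pool.Agent.H30.HN

set_option autoImplicit false
set_option linter.unusedSectionVars false

/-!
# The lattice of c.e. subideals of a nonprincipal c.e. ideal
-/

namespace Pool.Agent.H30.CB

open Pool.Agent.H30.CompFP Pool.Agent.H30.HN Order

variable {Q : Type} [BooleanAlgebra Q] [Primcodable Q] [CBA Q]

/-! ### computable ultrafilters -/

section uf

variable (a : ℕ → Q)

/-- decreasing sequences deciding all elements -/
def zz (n m : ℕ) : Q := rec3 (a n) (fun j x => cond (eqB (x ⊓ q j) ⊥) x (x ⊓ q j)) m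

/-- membership in the `n`-th ultrafilter -/
def uf (n : ℕ) (x : Q) : Bool := leB (zz a n (Encodable.encode x + 1)) x

variable {a}

theorem zz_zero (n : ℕ) : zz a n 0 = a n := rfl

theorem zz_succ (n m : ℕ) : zz a n (m + 1) =
    cond (eqB (zz a n m ⊓ q m) ⊥) (zz a n m) (zz a n m ⊓ q m) := rfl

theorem zz_ne_bot (ha : ∀ n, a n ≠ ⊥) (n m : ℕ) : zz a n m ≠ ⊥ := by
  induction m with
  | zero => exact ha n
  | succ m ih =>
    rw [zz_succ]
    cases h : eqB (zz a n m ⊓ q m) ⊥ with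
    | true => exact ih
    | false => exact eqB_false_iff.1 h

theorem zz_anti (n : ℕ) : Antitone (zz a n) :=
  antitone_nat_of_succ_le fun m => by
    rw [zz_succ]
    cases eqB (zz a n m ⊓ q m) ⊥ with
    | true => exact le_rfl
    | false => exact inf_le_left

theorem zz_le (n m : ℕ) : zz a n m ≤ a n := (zz_anti n (Nat.zero_le m)).trans_eq (zz_zero n)

theorem zz_decides (n : ℕ) (x : Q) : zz a n (Encodable.encode x + 1) ≤ x ∨
    zz a n (Encodable.encode x + 1) ⊓ x = ⊥ := by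
  rw [zz_succ]
  cases h : eqB (zz a n (Encodable.encode x) ⊓ q (Encodable.encode x)) ⊥ with
  | true =>
    rw [eqB_iff, q_encode] at h
    exact Or.inr h
  | false =>
    rw [q_encode]
    exact Or.inl inf_le_right

theorem uf_iff (ha : ∀ n, a n ≠ ⊥) {n : ℕ} {x : Q} : uf a n x = true ↔ ∃ m, zz a n m ≤ x := by
  unfold uf
  rw [leB_iff]
  constructor
  · intro h
    exact ⟨_, h⟩
  · rintro ⟨m, hm⟩
    rcases zz_decides (a := a) n x with h | h
    · exact h
    · exfalso
      refine zz_ne_bot ha n (max m (Encodable.encode x + 1)) (le_bot_iff.1 ?_)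
      rw [← h]
      exact le_inf (zz_anti n (le_max_right _ _)) ((zz_anti n (le_max_left _ _)).trans hm)

theorem uf_false {n : ℕ} {x : Q} (h : uf a n x = false) :
    zz a n (Encodable.encode x + 1) ⊓ x = ⊥ := by
  unfold uf at h
  rw [leB_false_iff] at h
  exact (zz_decides n x).resolve_left h

theorem uf_mono (ha : ∀ n, a n ≠ ⊥) {n : ℕ} {x y : Q} (h : x ≤ y) (hx : uf a n x = true) :
    uf a n y = true := by
  rw [uf_iff ha] at *
  obtain ⟨m, hm⟩ := hx
  exact ⟨m, hm.trans h⟩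

theorem uf_a (ha : ∀ n, a n ≠ ⊥) (n : ℕ) : uf a n (a n) = true := (uf_iff ha).2 ⟨0, le_rfl⟩

theorem uf_bot (ha : ∀ n, a n ≠ ⊥) (n : ℕ) : uf a n ⊥ = false := by
  rw [← Bool.not_eq_true, uf_iff ha]
  rintro ⟨m, hm⟩
  exact zz_ne_bot ha n m (le_bot_iff.1 hm)

theorem uf_inf (ha : ∀ n, a n ≠ ⊥) {n : ℕ} {x y : Q} :
    uf a n (x ⊓ y) = (uf a n x && uf a n y) := by
  rw [Bool.eq_iff_iff, Bool.and_eq_true]
  constructor
  · intro h
    exact ⟨uf_mono ha inf_le_left h, uf_mono ha inf_le_right h⟩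
  · rw [uf_iff ha, uf_iff ha, uf_iff ha]
    rintro ⟨⟨m, hm⟩, ⟨m', hm'⟩⟩
    exact ⟨max m m', le_inf ((zz_anti n (le_max_left _ _)).trans hm)
      ((zz_anti n (le_max_right _ _)).trans hm')⟩

theorem uf_sup (ha : ∀ n, a n ≠ ⊥) {n : ℕ} {x y : Q} :
    uf a n (x ⊔ y) = (uf a n x || uf a n y) := by
  rw [Bool.eq_iff_iff, Bool.or_eq_true]
  constructor
  · intro h
    by_contra hcon
    push Not at hcon
    have h1 := uf_false (by simpa using hcon.1)
    have h2 := uf_false (by simpa using hcon.2)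
    obtain ⟨m, hm⟩ := (uf_iff ha).1 h
    set K := max m (max (Encodable.encode x + 1) (Encodable.encode y + 1)) with hK
    refine zz_ne_bot ha n K (le_bot_iff.1 ?_)
    have h3 : zz a n K ≤ (x ⊔ y) := (zz_anti n (le_max_left _ _)).trans hm
    have h4 : zz a n K ⊓ x = ⊥ := le_bot_iff.1 (by
      rw [← h1]
      exact inf_le_inf_right _ (zz_anti n ((le_max_left _ _).trans (le_max_right _ _))))
    have h5 : zz a n K ⊓ y = ⊥ := le_bot_iff.1 (by
      rw [← h2]
      exact inf_le_inf_right _ (zz_anti n ((le_max_right _ _).trans (le_max_right _ _))))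
    rw [← inf_eq_left.2 h3, inf_sup_left, h4, h5]
    simp
  · rintro (h | h)
    · exact uf_mono ha le_sup_left h
    · exact uf_mono ha le_sup_right h

theorem uf_sdiff (ha : ∀ n, a n ≠ ⊥) {n : ℕ} {x : Q} :
    uf a n (a n \ x) = !uf a n x := by
  have h1 : uf a n (x ⊔ a n \ x) = true := uf_mono ha (by
    rw [sup_sdiff_self_right]; exact le_sup_right) (uf_a ha n)
  have h2 : uf a n (x ⊓ (a n \ x)) = false := by
    rw [inf_sdiff_self_right]
    exact uf_bot ha n
  rw [uf_sup ha] at h1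
  rw [uf_inf ha] at h2
  cases h3 : uf a n x <;> cases h4 : uf a n (a n \ x) <;> simp_all

@[fun_prop] theorem c_zz (ha : Computable a) {α : Type*} [Primcodable α] {n m : α → ℕ} (hn : Computable n)
    (hm : Computable m) : Computable (fun x => zz a (n x) (m x)) := by
  unfold zz
  fun_prop

@[fun_prop] theorem c_uf (ha : Computable a) {α : Type*} [Primcodable α] {n : α → ℕ} {x : α → Q}
    (hn : Computable n) (hx : Computable x) : Computable (fun y => uf a (n y) (x y)) := by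
  unfold uf
  exact c_leB (c_zz ha hn (by fun_prop)) hx

end uf

/-! ### complemented elements -/

section compl

variable {a : ℕ → Q}

theorem a_inf_J (hd : ∀ m n, m ≠ n → a m ⊓ a n = ⊥) {κ : ℕ → Q} (hκ : ∀ n, κ n ≤ a n) (n N : ℕ) :
    J κ N ⊓ a n ≤ κ n := by
  induction N with
  | zero => simp
  | succ N ih =>
    rw [J_succ, inf_sup_right]
    refine sup_le ih ?_
    by_cases h : N = n
    · subst h; exact inf_le_left
    · have : κ N ⊓ a n ≤ a N ⊓ a n := inf_le_inf_right _ (hκ N)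
      rw [hd N n h] at this
      exact this.trans bot_le

theorem mem_gen_le (hd : ∀ m n, m ≠ n → a m ⊓ a n = ⊥) {κ : ℕ → Q} (hκ : ∀ n, κ n ≤ a n)
    {x : Q} : x ∈ gen κ ↔ x ∈ gen a ∧ ∀ n, x ⊓ a n ≤ κ n := by
  constructor
  · intro h
    refine ⟨gen_mono hκ h, fun n => ?_⟩
    obtain ⟨N, hN⟩ := h
    exact (inf_le_inf_right _ hN).trans (a_inf_J hd hκ n N)
  · rintro ⟨⟨N, hN⟩, h⟩
    refine ⟨N, ?_⟩
    rw [← inf_eq_left.2 hN]
    clear hN
    induction N with
    | zero => simp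
    | succ N ih =>
      rw [J_succ, J_succ, inf_sup_left]
      exact sup_le (ih.trans le_sup_left) ((h N).trans le_sup_right)

theorem mem_gen_of_le (hd : ∀ m n, m ≠ n → a m ⊓ a n = ⊥) {κ : ℕ → Q} (hκ : ∀ n, κ n ≤ a n)
    {x : Q} {n : ℕ} (hx : x ≤ a n) : x ∈ gen κ ↔ x ≤ κ n := by
  rw [mem_gen_le hd hκ]
  constructor
  · rintro ⟨_, h⟩
    have := h n
    rwa [inf_eq_left.2 hx] at this
  · intro h
    refine ⟨(gen a).lower hx (self_mem_gen a n), fun m => ?_⟩
    by_cases hm : m = n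
    · subst hm; exact inf_le_left.trans h
    · have : x ⊓ a m ≤ a n ⊓ a m := inf_le_inf_right _ hx
      rw [hd n m (Ne.symm hm)] at this
      exact this.trans bot_le

theorem gen_inf_gen (hd : ∀ m n, m ≠ n → a m ⊓ a n = ⊥) {κ μ : ℕ → Q} (hκ : ∀ n, κ n ≤ a n)
    (hμ : ∀ n, μ n ≤ a n) : gen κ ⊓ gen μ = gen (fun n => κ n ⊓ μ n) := by
  have h : ∀ x, x ∈ gen κ ⊓ gen μ ↔ x ∈ gen (fun n => κ n ⊓ μ n) := by
    intro x
    rw [mem_inf', mem_gen_le hd hκ, mem_gen_le hd hμ,
      mem_gen_le hd (κ := fun n => κ n ⊓ μ n) (fun n => inf_le_left.trans (hκ n))]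
    constructor
    · rintro ⟨⟨h1, h2⟩, ⟨_, h3⟩⟩
      exact ⟨h1, fun n => le_inf (h2 n) (h3 n)⟩
    · rintro ⟨h1, h2⟩
      exact ⟨⟨h1, fun n => (h2 n).trans inf_le_left⟩, ⟨h1, fun n => (h2 n).trans inf_le_right⟩⟩
  exact le_antisymm (fun x hx => (h x).1 hx) (fun x hx => (h x).2 hx)

theorem inf_gen_le {g h : ℕ → Q} {I : Ideal Q} :
    gen g ⊓ gen h ≤ I ↔ ∀ i j, g i ⊓ h j ∈ I := by
  constructor
  · intro H i j
    exact H (mem_inf'.2 ⟨(gen g).lower inf_le_left (self_mem_gen g i),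
      (gen h).lower inf_le_right (self_mem_gen h j)⟩)
  · intro H x hx
    obtain ⟨⟨N, hN⟩, ⟨M, hM⟩⟩ := mem_inf'.1 hx
    have h1 : J g N ⊓ J h M ∈ I := by
      clear hN hx
      induction N with
      | zero => simp
      | succ N ih =>
        rw [J_succ, inf_sup_right]
        refine Ideal.sup_mem ih ?_
        clear ih hM
        induction M with
        | zero => simp
        | succ M ih =>
          rw [J_succ, inf_sup_left]
          exact Ideal.sup_mem ih (H N M)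
    exact I.lower (le_inf hN hM) h1

/-- computable functions below `a` as elements of the lattice -/
def kp (a : ℕ → Q) (κ : ℕ → Q) (hκc : Computable κ) (hκ : ∀ n, κ n ≤ a n) : Sub (gen a) :=
  ⟨gen κ, CE_gen hκc, gen_mono hκ⟩

theorem isCompl_kp (hd : ∀ m n, m ≠ n → a m ⊓ a n = ⊥) [Fact (CE (gen a))] {K L : Sub (gen a)}
    {κ : ℕ → Q} (hκ : ∀ n, κ n ≤ a n) (hK : K.1 = gen κ) (hL : L.1 = gen (fun n => a n \ κ n)) :
    IsCompl K L := by
  rw [Sub.isCompl_iff, hK, hL]
  constructor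
  · intro x hx hx'
    have h : x ∈ gen κ ⊓ gen (fun n => a n \ κ n) := mem_inf'.2 ⟨hx, hx'⟩
    rw [gen_inf_gen hd hκ (fun n => sdiff_le)] at h
    obtain ⟨N, hN⟩ := h
    refine le_bot_iff.1 (hN.trans (J_le fun i _ => ?_))
    rw [inf_sdiff_self_right]
  · intro x hx
    rw [gen_sup]
    refine (gen_mono fun n => ?_) hx
    rw [sup_sdiff_self_right]
    exact le_sup_right

theorem exists_kappa (hac : Computable a) (hd : ∀ m n, m ≠ n → a m ⊓ a n = ⊥)
    [Fact (CE (gen a))] {K L : Sub (gen a)} (h : IsCompl K L) :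
    ∃ κ : ℕ → Q, Computable κ ∧ (∀ n, κ n ≤ a n) ∧ K.1 = gen κ ∧
      L.1 = gen (fun n => a n \ κ n) := by
  rw [Sub.isCompl_iff] at h
  obtain ⟨h1, h2⟩ := h
  obtain ⟨k, hk, hK⟩ := K.2.1
  obtain ⟨l, hl, hL⟩ := L.2.1
  have hsearch : ∀ n, ∃ N, leB (a n) (J k N ⊔ J l N) = true := by
    intro n
    have h3 := h2 (a n) (self_mem_gen a n)
    rw [Ideal.mem_sup] at h3
    obtain ⟨x, hx, y, hy, hxy⟩ := h3
    rw [hK] at hx
    rw [hL] at hy
    obtain ⟨N, hN⟩ := hx
    obtain ⟨M, hM⟩ := hy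
    refine ⟨max N M, leB_iff.2 (hxy.trans (sup_le_sup (hN.trans (J_mono k (le_max_left _ _)))
      (hM.trans (J_mono l (le_max_right _ _)))))⟩
  obtain ⟨g, hg, hg'⟩ := exists_search (f := fun n N => leB (a n) (J k N ⊔ J l N))
    (by fun_prop) hsearch
  have hg2 : ∀ n, a n ≤ J k (g n) ⊔ J l (g n) := fun n => leB_iff.1 (hg' n).1
  have hκ : ∀ n, a n ⊓ J k (g n) ≤ a n := fun n => inf_le_left
  have hκK : ∀ n, a n ⊓ J k (g n) ∈ K.1 := by
    intro n
    rw [hK]
    exact (gen k).lower inf_le_right (J_mem_gen k _)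
  have hκL : ∀ n, a n \ (a n ⊓ J k (g n)) ∈ L.1 := by
    intro n
    rw [hL]
    refine (gen l).lower ?_ (J_mem_gen l (g n))
    rw [sdiff_inf_self_left, sdiff_le_iff]
    exact hg2 n
  refine ⟨fun n => a n ⊓ J k (g n), by fun_prop, hκ, ?_, ?_⟩
  · apply le_antisymm
    · intro x hx
      rw [mem_gen_le hd hκ]
      refine ⟨K.2.2 hx, fun n => ?_⟩
      rw [← sdiff_eq_bot_iff]
      apply h1
      · exact K.1.lower (sdiff_le.trans inf_le_left) hx
      · exact L.1.lower (sdiff_le_sdiff_right inf_le_right) (hκL n)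
    · exact gen_le.2 hκK
  · apply le_antisymm
    · intro x hx
      rw [mem_gen_le hd (κ := fun n => a n \ (a n ⊓ J k (g n))) (fun n => sdiff_le)]
      refine ⟨L.2.2 hx, fun n => ?_⟩
      rw [le_sdiff]
      refine ⟨inf_le_right, disjoint_iff.2 ?_⟩
      apply h1
      · exact K.1.lower inf_le_right (hκK n)
      · exact L.1.lower (inf_le_left.trans inf_le_left) hx
    · exact gen_le.2 hκL

theorem isComplemented_iff_computable (hac : Computable a) (hd : ∀ m n, m ≠ n → a m ⊓ a n = ⊥)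
    [Fact (CE (gen a))] {K : Sub (gen a)} {μ : ℕ → Q} (hμ : ∀ n, μ n ≤ a n)
    (hK : K.1 = gen μ) : IsComplemented K ↔ Computable μ := by
  constructor
  · rintro ⟨L, h⟩
    obtain ⟨κ, hκc, hκ, hκK, -⟩ := exists_kappa hac hd h
    have : κ = μ := by
      funext n
      apply le_antisymm
      · rw [← mem_gen_of_le hd hμ (hκ n), ← hK, hκK]
        exact self_mem_gen κ n
      · rw [← mem_gen_of_le hd hκ (hμ n), ← hκK, hK]
        exact self_mem_gen μ n
    rw [← this]
    exact hκc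
  · intro h
    exact ⟨kp a (fun n => a n \ μ n) (by fun_prop) (fun n => sdiff_le),
      isCompl_kp hd hμ hK rfl⟩

end compl

end Pool.Agent.H30.CB
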