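import Pool.Agent.H30.LI

set_option autoImplicit false
set_option linter.unusedSectionVars false

/-!
# The property holds in the lattice of c.e. subideals of a nonprincipal c.e. ideal
-/

namespace Pool.Agent.H30.CB

open Pool.Agent.H30.CompFP Pool.Agent.H30.HN Order

variable {Q : Type} [BooleanAlgebra Q] [Primcodable Q] [CBA Q]

/-! ### the ideal of a c.e. set -/

section UC

variable (a : ℕ → Q) (C : ℕ → ℕ → Bool)

/-- the generators of the ideal of `C` -/
def uC (s : ℕ) : Q := cond (ent C s) (zz a s.unpair.1 s.unpair.2) ⊥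

open Classical in
/-- the trace of the ideal of `C` below `a n` -/
noncomputable def mC (n : ℕ) : Q :=
  if h : ∃ t, C n t = true then zz a n (Nat.find h) else ⊥

variable {a C}

theorem c_uC (ha : Computable a) (hC : Computable (fun p : ℕ × ℕ => C p.1 p.2)) :
    Computable (uC a C) := by
  have h := c_ent hC
  unfold uC
  exact c_cond h (c_zz ha (by fun_prop) (by fun_prop)) (by fun_prop)

theorem mC_le (n : ℕ) : mC a C n ≤ a n := by
  unfold mC
  split_ifs with h
  · exact zz_le n _
  · exact bot_le

theorem mC_of_not {n : ℕ} (h : ¬ ∃ t, C n t = true) : mC a C n = ⊥ := by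
  unfold mC
  rw [dif_neg h]

theorem mC_of_ent {n t : ℕ} (h : ent C (Nat.pair n t) = true) : mC a C n = zz a n t := by
  classical
  have hex : ∃ t, C n t = true := ⟨t, ent_A h⟩
  have h1 : Nat.find hex = t := by
    apply le_antisymm
    · exact Nat.find_min' hex (ent_A h)
    · exact ent_min h (Nat.find_spec hex)
  unfold mC
  rw [dif_pos hex, ← h1]

theorem uC_of_ent {n t : ℕ} (h : ent C (Nat.pair n t) = true) :
    uC a C (Nat.pair n t) = zz a n t := by
  unfold uC
  rw [h, cond_true, Nat.unpair_pair]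

theorem gen_uC : gen (uC a C) = gen (mC a C) := by
  apply le_antisymm
  · refine gen_le.2 fun s => ?_
    cases h : ent C s with
    | true =>
      have h' : ent C (Nat.pair s.unpair.1 s.unpair.2) = true := by rw [Nat.pair_unpair]; exact h
      have e : uC a C s = mC a C s.unpair.1 := by
        rw [mC_of_ent h', ← uC_of_ent h', Nat.pair_unpair]
      rw [e]
      exact self_mem_gen _ _
    | false =>
      have e : uC a C s = ⊥ := by unfold uC; rw [h, cond_false]
      rw [e]
      exact (gen _).bot_mem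
  · refine gen_le.2 fun n => ?_
    by_cases h : ∃ t, C n t = true
    · obtain ⟨t, ht⟩ := h
      obtain ⟨t', _, ht'⟩ := exists_ent ht
      rw [mC_of_ent ht', ← uC_of_ent ht']
      exact self_mem_gen _ _
    · rw [mC_of_not h]
      exact (gen _).bot_mem

/-- key equivalence -/
theorem computable_iff_decOn (ha : Computable a) (ha' : ∀ n, a n ≠ ⊥)
    (hC : Computable (fun p : ℕ × ℕ => C p.1 p.2)) {κ : ℕ → Q} (hκ : Computable κ) :
    Computable (fun n => κ n ⊓ mC a C n) ↔
      DecOn (fun n => uf a n (κ n)) (fun n => ∃ t, C n t = true) := by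
  have hR : Computable (fun n => uf a n (κ n)) := c_uf ha (by fun_prop) hκ
  constructor
  · intro h
    refine ⟨fun n => uf a n (κ n) && !eqB (κ n ⊓ mC a C n) ⊥, ?_, fun n => ?_⟩
    · exact c_and hR (c_not (c_eqB h (by fun_prop)))
    · rw [Bool.and_eq_true, Bool.not_eq_true', eqB_false_iff]
      refine and_congr_right fun hn => ?_
      constructor
      · intro hne
        by_contra hcon
        rw [mC_of_not hcon] at hne
        simp at hne
      · rintro ⟨t, ht⟩
        obtain ⟨t', _, ht'⟩ := exists_ent ht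
        rw [mC_of_ent ht']
        intro h0
        obtain ⟨m, hm⟩ := (uf_iff ha').1 hn
        refine zz_ne_bot ha' n (max m t') (le_bot_iff.1 ?_)
        rw [← h0]
        exact le_inf ((zz_anti n (le_max_left _ _)).trans hm) (zz_anti n (le_max_right _ _))
  · rintro ⟨F, hF, hFC⟩
    have hent := c_ent hC
    -- whether we have to wait for `n` to enter
    set b : ℕ → Bool := fun n => cond (uf a n (κ n)) (F n)
      (bex (Encodable.encode (κ n) + 1) (fun t => C n t)) with hb
    have hbc : Computable b := c_cond hR hF (by fun_prop)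
    refine computable_of_search (f := fun n t => cond (b n) (cond (ent C (Nat.pair n t))
      (some (κ n ⊓ zz a n t)) none) (some ⊥)) ?_ ?_ ?_
    · have h1 : Computable (fun p : ℕ × ℕ => zz a p.1 p.2) := c_zz ha (by fun_prop) (by fun_prop)
      exact c_cond (by fun_prop) (c_cond (by fun_prop) (c_some (c_inf (by fun_prop) h1))
        (by fun_prop)) (by fun_prop)
    · intro n
      cases hbn : b n with
      | false => exact ⟨0, by simp⟩
      | true =>
        have h1 : ∃ t, C n t = true := by
          simp only [hb] at hbn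
          cases hu : uf a n (κ n) with
          | true =>
            rw [hu, cond_true] at hbn
            exact ((hFC n).1 hbn).2
          | false =>
            rw [hu, cond_false, bex_iff] at hbn
            obtain ⟨t, _, ht⟩ := hbn
            exact ⟨t, ht⟩
        obtain ⟨t, ht⟩ := h1
        obtain ⟨t', _, ht'⟩ := exists_ent ht
        exact ⟨t', by simp [ht']⟩
    · intro n t x hx
      cases hbn : b n with
      | true =>
        rw [hbn, cond_true] at hx
        cases he : ent C (Nat.pair n t) with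
        | true =>
          rw [he, cond_true] at hx
          rw [mC_of_ent he]
          exact (Option.some.inj hx).symm
        | false =>
          rw [he, cond_false] at hx
          exact absurd hx (by simp)
      | false =>
        rw [hbn, cond_false] at hx
        rw [← Option.some.inj hx]
        by_cases hn : ∃ t, C n t = true
        · obtain ⟨t₁, ht₁⟩ := hn
          obtain ⟨t', _, ht'⟩ := exists_ent ht₁
          rw [mC_of_ent ht']
          simp only [hb] at hbn
          cases hu : uf a n (κ n) with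
          | true =>
            exfalso
            rw [hu, cond_true] at hbn
            have := (hFC n).2 ⟨hu, t₁, ht₁⟩
            rw [hbn] at this
            exact absurd this (by decide)
          | false =>
            rw [hu, cond_false] at hbn
            have h1 : Encodable.encode (κ n) + 1 ≤ t' := by
              by_contra hlt
              rw [not_le] at hlt
              rw [← Bool.not_eq_true, bex_iff] at hbn
              exact hbn ⟨t', hlt, ent_A ht'⟩
            symm
            refine le_bot_iff.1 ?_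
            rw [← uf_false hu, inf_comm]
            exact inf_le_inf_right _ (zz_anti n h1)
        · rw [mC_of_not hn]
          simp

theorem isComplemented_inf_uC (ha : Computable a) (ha' : ∀ n, a n ≠ ⊥)
    (hd : ∀ m n, m ≠ n → a m ⊓ a n = ⊥) [Fact (CE (gen a))]
    (hC : Computable (fun p : ℕ × ℕ => C p.1 p.2)) {κ : ℕ → Q} (hκc : Computable κ)
    (hκ : ∀ n, κ n ≤ a n) {K U : Sub (gen a)} (hK : K.1 = gen κ) (hU : U.1 = gen (uC a C)) :
    IsComplemented (K ⊓ U) ↔ DecOn (fun n => uf a n (κ n)) (fun n => ∃ t, C n t = true) := by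
  rw [← computable_iff_decOn ha ha' hC hκc]
  refine isComplemented_iff_computable ha hd (fun n => inf_le_left.trans (hκ n)) ?_
  rw [Sub.coe_inf, hK, hU, gen_uC, gen_inf_gen hd hκ (fun n => mC_le n)]

end UC

/-- the halting problem, as an undecidable c.e. set of natural numbers -/
theorem exists_kk : ∃ kk : ℕ → ℕ → Bool, Computable (fun p : ℕ × ℕ => kk p.1 p.2) ∧
    ¬ ∃ F : ℕ → Bool, Computable F ∧ ∀ x, F x = true ↔ ∃ t, kk x t = true := by
  obtain ⟨f, hf, hf'⟩ := rePred_iff_exists.1 (ComputablePred.halting_problem_re 0)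
  refine ⟨fun x t => f (Denumerable.ofNat Nat.Partrec.Code x) t, by fun_prop, ?_⟩
  rintro ⟨F, hF, hF'⟩
  refine ComputablePred.halting_problem 0 (computablePred_iff_exists.2
    ⟨fun c => F (Encodable.encode c), by fun_prop, fun c => ?_⟩)
  rw [hf' c, hF']
  simp only [Denumerable.ofNat_encode]

theorem inf_J_bot' {g : ℕ → Q} {x : Q} (h : ∀ i, x ⊓ g i = ⊥) (N : ℕ) : x ⊓ J g N = ⊥ := by
  induction N with
  | zero => simp
  | succ N ih => rw [J_succ, inf_sup_left, ih, h N]; simp

/-! ### evaluation with values in `Q` -/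

/-- evaluation with values in the algebra -/
def evQ (s e x : ℕ) : Option Q := (evS s e x).bind Encodable.decode

@[fun_prop] theorem c_evQ {α : Type*} [Primcodable α] {s e x : α → ℕ} (hs : Computable s)
    (he : Computable e) (hx : Computable x) :
    Computable (fun a => (evQ (s a) (e a) (x a) : Option Q)) := by
  unfold evQ
  fun_prop

theorem evQ_mono {s s' e x : ℕ} {b : Q} (h : s ≤ s') (h' : evQ s e x = some b) :
    evQ s' e x = some b := by
  unfold evQ at *
  obtain ⟨y, hy, hyb⟩ := Option.bind_eq_some_iff.1 h'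
  rw [evS_mono h hy]
  exact hyb

theorem evQ_unique {s s' e x : ℕ} {b b' : Q} (h : evQ s e x = some b)
    (h' : evQ s' e x = some b') : b = b' := by
  rcases le_total s s' with hs | hs
  · have := evQ_mono hs h
    rw [this] at h'
    exact Option.some.inj h'
  · have := evQ_mono hs h'
    rw [this] at h
    exact (Option.some.inj h).symm

theorem exists_indexQ {F : ℕ → Q} (hF : Computable F) :
    ∃ e, ∀ x, ∃ s, evQ s e x = some (F x) := by
  obtain ⟨e, he⟩ := exists_index hF
  refine ⟨e, fun x => ?_⟩
  obtain ⟨s, hs⟩ := he x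
  refine ⟨s, ?_⟩
  unfold evQ
  rw [hs]
  simp

theorem computable_of_indexQ {F : ℕ → Q} {e : ℕ}
    (h : ∀ x, ∃ s, evQ s e x = some (F x)) : Computable F := by
  refine computable_of_search (f := fun x s => (evQ s e x : Option Q)) (by fun_prop) ?_ ?_
  · intro x
    obtain ⟨s, hs⟩ := h x
    exact ⟨s, by simp [hs]⟩
  · intro x s b hb
    obtain ⟨s', hs'⟩ := h x
    exact evQ_unique hb hs'

/-! ### the ideal of computable sets -/

section JJ

variable (a vv ww : ℕ → Q) (A : ℕ → ℕ → Bool)

/-- the ideal of computable sets attached to `V`, `W` -/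
def JJ (R : ℕ → Bool) : Prop :=
  ∃ β : ℕ → Q, Computable β ∧ (∀ n, β n ≤ a n) ∧
    DecOn (fun n => uf a n (β n)) (fun n => ∃ t, A n t = true) ∧
    ∀ n j, R n = true → a n \ β n ⊓ vv j ∈ gen ww

/-- the matrix of its definition: `b` is the claimed value for `n ∈ R_β ∩ A`, `r` is `R n` -/
def mm (n t j s : ℕ) (r b : Bool) (x : Q) : Bool :=
  cond b (uf a n (x ⊓ a n) && bex s (fun t' => A n t')) (!(uf a n (x ⊓ a n) && A n t)) &&
    (!r || leB (a n \ (x ⊓ a n) ⊓ vv j) (J ww s))

/-- the matrix of the `Σ₃` definition -/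
def rJ (k u s : ℕ) : Bool :=
  ((evB s k.unpair.1 u.unpair.1).bind fun r =>
    (evB s k.unpair.2.unpair.2 u.unpair.1).bind fun b =>
      (evQ s k.unpair.2.unpair.1 u.unpair.1).map fun x =>
        mm a vv ww A u.unpair.1 u.unpair.2.unpair.1 u.unpair.2.unpair.2 s r b x).getD false

variable {a vv ww A}

theorem c_mm (ha : Computable a) (hv : Computable vv) (hw : Computable ww)
    (hA : Computable (fun p : ℕ × ℕ => A p.1 p.2)) :
    Computable (fun p : ℕ × ℕ × ℕ × ℕ × Bool × Bool × Q =>
      mm a vv ww A p.1 p.2.1 p.2.2.1 p.2.2.2.1 p.2.2.2.2.1 p.2.2.2.2.2.1 p.2.2.2.2.2.2) := by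
  have h1 : Computable (fun p : ℕ × ℕ × ℕ × ℕ × Bool × Bool × Q =>
      uf a p.1 (p.2.2.2.2.2.2 ⊓ a p.1)) := c_uf ha (by fun_prop) (by fun_prop)
  unfold mm
  fun_prop

theorem c_rJ (ha : Computable a) (hv : Computable vv) (hw : Computable ww)
    (hA : Computable (fun p : ℕ × ℕ => A p.1 p.2)) :
    Computable (fun p : ℕ × ℕ × ℕ => rJ a vv ww A p.1 p.2.1 p.2.2) := by
  have h1 := c_mm ha hv hw hA
  unfold rJ
  fun_prop

theorem mm_iff {n t j s : ℕ} {r b : Bool} {x : Q} : mm a vv ww A n t j s r b x = true ↔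
    (b = true → uf a n (x ⊓ a n) = true ∧ ∃ t' < s, A n t' = true) ∧
    (b = false → ¬ (uf a n (x ⊓ a n) = true ∧ A n t = true)) ∧
    (r = true → a n \ (x ⊓ a n) ⊓ vv j ≤ J ww s) := by
  unfold mm
  rw [Bool.and_eq_true, Bool.or_eq_true, leB_iff]
  have h1 : ∀ {x y : Prop} {r : Bool}, ((!r) = true ∨ x) ↔ (r = true → x) := by
    intro x y r
    cases r <;> simp
  cases b with
  | true =>
    rw [cond_true, Bool.and_eq_true, bex_iff]
    cases r <;> simp
  | false =>
    rw [cond_false]
    cases r <;> cases uf a n (x ⊓ a n) <;> cases A n t <;> simp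

theorem rJ_iff {k u s : ℕ} : rJ a vv ww A k u s = true ↔ ∃ r b x,
    evB s k.unpair.1 u.unpair.1 = some r ∧ evB s k.unpair.2.unpair.2 u.unpair.1 = some b ∧
    evQ s k.unpair.2.unpair.1 u.unpair.1 = some x ∧
    mm a vv ww A u.unpair.1 u.unpair.2.unpair.1 u.unpair.2.unpair.2 s r b x = true := by
  unfold rJ
  cases h1 : evB s k.unpair.1 u.unpair.1 with
  | none => simp
  | some r =>
    cases h2 : evB s k.unpair.2.unpair.2 u.unpair.1 with
    | none => simp
    | some b =>
      cases h3 : (evQ s k.unpair.2.unpair.1 u.unpair.1 : Option Q) with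
      | none => simp
      | some x => simp

theorem JJ_iff (ha : Computable a) (R : ℕ → Bool) (c : ℕ)
    (hc : ∀ x, ∃ s, evB s c x = some (R x)) :
    JJ a vv ww A R ↔ ∃ w, ∀ u, ∃ s, rJ a vv ww A (Nat.pair c w) u s = true := by
  constructor
  · rintro ⟨β, hβ, hβa, ⟨F, hF, hFA⟩, hV⟩
    obtain ⟨e, he⟩ := exists_indexQ hβ
    obtain ⟨f, hf⟩ := exists_indexB hF
    refine ⟨Nat.pair e f, fun u => ?_⟩
    simp only [rJ_iff, Nat.unpair_pair, mm_iff]
    set n := u.unpair.1
    set t := u.unpair.2.unpair.1
    set j := u.unpair.2.unpair.2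
    obtain ⟨s1, hs1⟩ := hc n
    obtain ⟨s2, hs2⟩ := he n
    obtain ⟨s3, hs3⟩ := hf n
    have hβn : β n ⊓ a n = β n := inf_eq_left.2 (hβa n)
    have h4 : ∃ s4, F n = true → ∃ t' < s4, A n t' = true := by
      by_cases hFn : F n = true
      · obtain ⟨t', ht'⟩ := ((hFA n).1 hFn).2
        exact ⟨t' + 1, fun _ => ⟨t', Nat.lt_succ_self _, ht'⟩⟩
      · exact ⟨0, fun h => absurd h hFn⟩
    have h5 : ∃ s5, R n = true → a n \ β n ⊓ vv j ≤ J ww s5 := by
      by_cases hRn : R n = true
      · obtain ⟨N, hN⟩ := hV n j hRn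
        exact ⟨N, fun _ => hN⟩
      · exact ⟨0, fun h => absurd h hRn⟩
    obtain ⟨s4, hs4⟩ := h4
    obtain ⟨s5, hs5⟩ := h5
    refine ⟨s1 + s2 + s3 + s4 + s5, R n, F n, β n, evB_mono (by omega) hs1,
      evB_mono (by omega) hs3, evQ_mono (by omega) hs2, fun hFn => ?_, fun hFn => ?_,
      fun hRn => ?_⟩
    · rw [hβn]
      obtain ⟨t', ht', ht''⟩ := hs4 hFn
      exact ⟨((hFA n).1 hFn).1, t', by omega, ht''⟩
    · rw [hβn]
      rintro ⟨h6, h7⟩
      have := (hFA n).2 ⟨h6, t, h7⟩
      rw [hFn] at this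
      exact absurd this (by decide)
    · rw [hβn]
      exact (hs5 hRn).trans (J_mono ww (by omega))
  · rintro ⟨w, hw⟩
    simp only [rJ_iff, Nat.unpair_pair, mm_iff] at hw
    -- totality of the two functions
    have h1 : ∀ n, ∃ x : Q, ∃ b, ∃ s, evB s w.unpair.2 n = some b ∧ evQ s w.unpair.1 n = some x := by
      intro n
      obtain ⟨s, r, b, x, _, h2, h3, _⟩ := hw (Nat.pair n 0)
      rw [Nat.unpair_pair] at h2 h3
      exact ⟨x, b, s, h2, h3⟩
    choose x b s hb hx using h1
    have hxc : Computable x := computable_of_indexQ fun n => ⟨s n, hx n⟩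
    have hbc : Computable b := computable_of_indexB fun n => ⟨s n, hb n⟩
    refine ⟨fun n => x n ⊓ a n, by fun_prop, fun n => inf_le_right, ⟨b, hbc, fun n => ?_⟩,
      fun n j hRn => ?_⟩
    · constructor
      · intro hbn
        obtain ⟨s', r, b', x', _, h2, h3, h4, _, _⟩ := hw (Nat.pair n 0)
        rw [Nat.unpair_pair] at h2 h3 h4
        have e1 := evB_unique h2 (hb n)
        have e2 := evQ_unique h3 (hx n)
        rw [e1, e2] at h4
        obtain ⟨h5, t', _, ht'⟩ := h4 hbn
        exact ⟨h5, t', ht'⟩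
      · rintro ⟨h5, t, ht⟩
        obtain ⟨s', r, b', x', _, h2, h3, _, h4, _⟩ := hw (Nat.pair n (Nat.pair t 0))
        simp only [Nat.unpair_pair] at h2 h3 h4
        have e1 := evB_unique h2 (hb n)
        have e2 := evQ_unique h3 (hx n)
        rw [e1, e2] at h4
        by_contra hbn
        exact h4 (by simpa using hbn) ⟨h5, ht⟩
    · obtain ⟨s', r, b', x', h1, h2, h3, _, _, h4⟩ := hw (Nat.pair n (Nat.pair 0 j))
      simp only [Nat.unpair_pair] at h1 h2 h3 h4
      have e2 := evQ_unique h3 (hx n)
      obtain ⟨s'', hs''⟩ := hc n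
      have e3 := evB_unique h1 hs''
      rw [e2, e3] at h4
      exact ⟨s', h4 hRn⟩

theorem JJ_mono {R S : ℕ → Bool} (h : ∀ x, R x = true → S x = true)
    (hS : JJ a vv ww A S) : JJ a vv ww A R := by
  obtain ⟨β, h1, h2, h3, h4⟩ := hS
  exact ⟨β, h1, h2, h3, fun n j hn => h4 n j (h n hn)⟩

theorem decOn_or {R S : ℕ → Bool} {P : ℕ → Prop} (hR : DecOn R P) (hS : DecOn S P) :
    DecOn (fun n => R n || S n) P := by
  obtain ⟨F, hF, hF'⟩ := hR
  obtain ⟨G, hG, hG'⟩ := hS
  refine ⟨fun n => F n || G n, by fun_prop, fun n => ?_⟩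
  rw [Bool.or_eq_true, Bool.or_eq_true, hF', hG']
  tauto

theorem JJ_or (ha' : ∀ n, a n ≠ ⊥) {R S : ℕ → Bool} (hR : JJ a vv ww A R)
    (hS : JJ a vv ww A S) : JJ a vv ww A (fun n => R n || S n) := by
  obtain ⟨β, h1, h2, h3, h4⟩ := hR
  obtain ⟨γ, g1, g2, g3, g4⟩ := hS
  refine ⟨fun n => β n ⊔ γ n, by fun_prop, fun n => sup_le (h2 n) (g2 n), ?_, fun n j hn => ?_⟩
  · have h := decOn_or h3 g3
    have e : (fun n => uf a n (β n ⊔ γ n)) = fun n => (uf a n (β n) || uf a n (γ n)) := by
      funext n
      exact uf_sup ha'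
    rw [e]
    exact h
  · rw [Bool.or_eq_true] at hn
    rcases hn with hn | hn
    · exact (gen ww).lower (inf_le_inf_right _ (sdiff_le_sdiff_left le_sup_left)) (h4 n j hn)
    · exact (gen ww).lower (inf_le_inf_right _ (sdiff_le_sdiff_left le_sup_right)) (g4 n j hn)

theorem JJ_of_decOn (ha : Computable a) (ha' : ∀ n, a n ≠ ⊥) {R : ℕ → Bool} (hRc : Computable R)
    (hR : DecOn R (fun n => ∃ t, A n t = true)) : JJ a vv ww A R := by
  refine ⟨fun n => cond (R n) (a n) ⊥, by fun_prop, fun n => ?_, ?_, fun n j hn => ?_⟩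
  · beta_reduce
    cases R n with
    | true => exact le_rfl
    | false => exact bot_le
  · have e : (fun n => uf a n (cond (R n) (a n) ⊥)) = R := by
      funext n
      cases h : R n with
      | true => rw [cond_true]; exact uf_a ha' n
      | false => rw [cond_false]; exact uf_bot ha' n
    rw [e]
    exact hR
  · beta_reduce
    rw [hn, cond_true, sdiff_self, bot_inf_eq]
    exact (gen ww).bot_mem

/-- the ideal of a complemented element only depends on its set of ultrafilters -/
theorem JJ_kappa (ha : Computable a) (ha' : ∀ n, a n ≠ ⊥) {κ : ℕ → Q} (hκc : Computable κ)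
    (hκ : ∀ n, κ n ≤ a n) :
    JJ a vv ww A (fun n => uf a n (κ n)) ↔ ∃ β : ℕ → Q, Computable β ∧ (∀ n, β n ≤ a n) ∧
      DecOn (fun n => uf a n (β n)) (fun n => ∃ t, A n t = true) ∧
      ∀ n j, κ n ⊓ (a n \ β n) ⊓ vv j ∈ gen ww := by
  have hR : Computable (fun n => uf a n (κ n)) := c_uf ha (by fun_prop) hκc
  constructor
  · rintro ⟨β, h1, h2, h3, h4⟩
    refine ⟨fun n => cond (uf a n (κ n)) (β n) (β n ⊔ κ n), by fun_prop, fun n => ?_, ?_,
      fun n j => ?_⟩
    · beta_reduce
      cases uf a n (κ n) with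
      | true => exact h2 n
      | false => exact sup_le (h2 n) (hκ n)
    · have e : (fun n => uf a n (cond (uf a n (κ n)) (β n) (β n ⊔ κ n))) =
          fun n => uf a n (β n) := by
        funext n
        cases h : uf a n (κ n) with
        | true => rw [cond_true]
        | false => rw [cond_false, uf_sup ha', h, Bool.or_false]
      rw [e]
      exact h3
    · beta_reduce
      cases h : uf a n (κ n) with
      | true =>
        rw [cond_true]
        exact (gen ww).lower (inf_le_inf_right _ inf_le_right) (h4 n j h)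
      | false =>
        rw [cond_false]
        have : κ n ⊓ (a n \ (β n ⊔ κ n)) = ⊥ := by
          rw [← sdiff_sdiff, inf_sdiff_self_right]
        rw [this, bot_inf_eq]
        exact (gen ww).bot_mem
  · rintro ⟨β, h1, h2, h3, h4⟩
    refine ⟨fun n => cond (uf a n (κ n)) (β n ⊔ a n \ κ n) (β n), by fun_prop, fun n => ?_, ?_,
      fun n j hn => ?_⟩
    · beta_reduce
      cases uf a n (κ n) with
      | true => exact sup_le (h2 n) sdiff_le
      | false => exact h2 n
    · have e : (fun n => uf a n (cond (uf a n (κ n)) (β n ⊔ a n \ κ n) (β n))) =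
          fun n => uf a n (β n) := by
        funext n
        cases h : uf a n (κ n) with
        | true => rw [cond_true, uf_sup ha', uf_sdiff ha', h, Bool.not_true, Bool.or_false]
        | false => rw [cond_false]
      rw [e]
      exact h3
    · beta_reduce at hn ⊢
      rw [hn, cond_true]
      refine (gen ww).lower (inf_le_inf_right _ ?_) (h4 n j)
      rw [← sdiff_sdiff]
      refine le_inf ?_ sdiff_le
      rw [sdiff_le_iff, sdiff_sup_self]
      exact sdiff_le.trans le_sup_left

end JJ

/-- **The distinguishing property holds in the lattice of c.e. subideals of a nonprincipal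
c.e. ideal.** -/
theorem theta_gen {a : ℕ → Q} (ha : Computable a) (ha' : ∀ n, a n ≠ ⊥)
    (hd : ∀ m n, m ≠ n → a m ⊓ a n = ⊥) [Fact (CE (gen a))] : Theta (Sub (gen a)) := by
  obtain ⟨kk, hkk, hkk'⟩ := exists_kk
  set A : ℕ → ℕ → Bool := fun n t => kk n.unpair.1 t with hA
  have hAc : Computable (fun p : ℕ × ℕ => A p.1 p.2) := by
    simp only [hA]
    fun_prop
  set v₁ : ℕ → Q := fun s => cond (kk s.unpair.1.unpair.2 s.unpair.2) (a s.unpair.1) ⊥ with hv₁
  have hv₁c : Computable v₁ := by
    simp only [hv₁]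
    fun_prop
  have hA_le : gen (uC a A) ≤ gen a := by
    rw [gen_uC]
    exact gen_mono fun n => mC_le n
  have hv₁_le : gen v₁ ≤ gen a := by
    refine gen_le.2 fun s => ?_
    simp only [hv₁]
    cases kk s.unpair.1.unpair.2 s.unpair.2 with
    | true => exact self_mem_gen a _
    | false => exact (gen a).bot_mem
  refine ⟨⟨gen (uC a A), CE_gen (c_uC ha hAc), hA_le⟩, ⟨gen v₁, CE_gen hv₁c, hv₁_le⟩, ?_, ?_⟩
  · intro b b' hbb hbV
    obtain ⟨β, hβc, hβ, hbβ, hb'β⟩ := exists_kappa ha hd hbb
    have hR : Computable (fun n => uf a n (β n)) := c_uf ha (by fun_prop) hβc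
    -- `R_β ⊆ B`
    have hsub : ∀ n, uf a n (β n) = true → ∃ t, kk n.unpair.2 t = true := by
      intro n hn
      by_contra hcon
      push Not at hcon
      have h1 : β n ∈ gen v₁ := by
        have : β n ∈ b.1 := by rw [hbβ]; exact self_mem_gen β n
        exact hbV this
      obtain ⟨N, hN⟩ := h1
      have h2 : β n ⊓ J v₁ N = ⊥ := by
        refine inf_J_bot' (fun s => ?_) N
        simp only [hv₁]
        by_cases hs : s.unpair.1 = n
        · have : kk s.unpair.1.unpair.2 s.unpair.2 = false := by
            rw [hs]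
            simpa using hcon s.unpair.2
          rw [this, cond_false, inf_bot_eq]
        · cases kk s.unpair.1.unpair.2 s.unpair.2 with
          | true =>
            rw [cond_true]
            refine le_bot_iff.1 ?_
            rw [← hd n s.unpair.1 (Ne.symm hs)]
            exact inf_le_inf_right _ (hβ n)
          | false => rw [cond_false, inf_bot_eq]
      rw [inf_eq_left.2 hN] at h2
      rw [h2, uf_bot ha'] at hn
      exact absurd hn (by decide)
    -- the columns
    have hcol : ∀ m : ℕ, ∃ j : ℕ, (kk j.unpair.1 j.unpair.2 &&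
        !uf a (Nat.pair m j.unpair.1) (β (Nat.pair m j.unpair.1))) = true := by
      intro m
      by_contra hcon
      push Not at hcon
      apply hkk'
      refine ⟨fun j => uf a (Nat.pair m j) (β (Nat.pair m j)), by fun_prop, fun j => ?_⟩
      constructor
      · intro h
        have := hsub _ h
        rwa [Nat.unpair_pair] at this
      · rintro ⟨t, ht⟩
        have := hcon (Nat.pair j t)
        rw [Nat.unpair_pair] at this
        simpa [ht] using this
    obtain ⟨g, hg, hg'⟩ := exists_search (f := fun (m j : ℕ) => (kk j.unpair.1 j.unpair.2 &&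
        !uf a (Nat.pair m j.unpair.1) (β (Nat.pair m j.unpair.1)))) (by fun_prop) hcol
    set R : ℕ → Bool := fun n => decide (n.unpair.2 = (g n.unpair.1).unpair.1) with hRdef
    have hRc : Computable R := by
      simp only [hRdef]
      fun_prop
    have hRprop : ∀ n, R n = true → kk n.unpair.2 (g n.unpair.1).unpair.2 = true ∧
        uf a n (β n) = false := by
      intro n hn
      simp only [hRdef, decide_eq_true_eq] at hn
      have h1 := (hg' n.unpair.1).1
      rw [Bool.and_eq_true, ← hn, Nat.pair_unpair] at h1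
      exact ⟨h1.1, by simpa using h1.2⟩
    set κ : ℕ → Q := fun n => cond (R n) (a n) ⊥ with hκdef
    have hκc : Computable κ := by
      simp only [hκdef]
      fun_prop
    have hκ : ∀ n, κ n ≤ a n := by
      intro n
      simp only [hκdef]
      cases R n with
      | true => exact le_rfl
      | false => exact bot_le
    refine ⟨kp a κ hκc hκ, ⟨kp a (fun n => a n \ κ n) (by fun_prop) (fun n => sdiff_le),
      isCompl_kp hd hκ rfl rfl⟩, ?_, ?_⟩
    · have : gen κ ≤ gen v₁ := by
        refine gen_le.2 fun n => ?_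
        simp only [hκdef]
        cases hn : R n with
        | false => exact (gen v₁).bot_mem
        | true =>
          have h1 := self_mem_gen v₁ (Nat.pair n (g n.unpair.1).unpair.2)
          simp only [hv₁, Nat.unpair_pair, (hRprop n hn).1, cond_true] at h1
          rw [cond_true]
          exact h1
      exact this
    · have hK : (kp a κ hκc hκ ⊓ b').1 = gen (fun n => κ n ⊓ (a n \ β n)) := by
        rw [Sub.coe_inf, hb'β]
        exact gen_inf_gen hd hκ (fun n => sdiff_le)
      rw [isComplemented_inf_uC ha ha' hd hAc (κ := fun n => κ n ⊓ (a n \ β n))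
        (by fun_prop) (fun n => inf_le_left.trans (hκ n)) hK rfl]
      have e : (fun n => uf a n (κ n ⊓ (a n \ β n))) = R := by
        funext n
        rw [uf_inf ha', uf_sdiff ha']
        simp only [hκdef]
        cases hn : R n with
        | true => rw [cond_true, uf_a ha', (hRprop n hn).2]; rfl
        | false => rw [cond_false, uf_bot ha']; rfl
      rw [e]
      rintro ⟨F, hF, hF'⟩
      apply hkk'
      refine ⟨fun m => F (Nat.pair m (g m).unpair.1), by fun_prop, fun m => ?_⟩
      rw [hF']
      simp only [hRdef, hA, Nat.unpair_pair, decide_true, true_and]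
  · intro V W
    obtain ⟨vv, hvv, hV⟩ := V.2.1
    obtain ⟨ww, hww, hW⟩ := W.2.1
    obtain ⟨C, hC, hCA, hCJ⟩ := HN.main hAc (J := JJ a vv ww A) (fun R S _ _ h => JJ_mono h)
      (fun R S _ _ => JJ_or ha') (fun R hR => JJ_of_decOn ha ha' hR) (c_rJ ha hvv hww hAc)
      (JJ_iff ha)
    have hC_le : gen (uC a C) ≤ gen a := by
      rw [gen_uC]
      exact gen_mono fun n => mC_le n
    refine ⟨⟨gen (uC a C), CE_gen (c_uC ha hC), hC_le⟩, fun c hc => ?_⟩
    obtain ⟨c', hcc⟩ := hc
    obtain ⟨κ, hκc, hκ, hcκ, -⟩ := exists_kappa ha hd hcc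
    rw [isComplemented_inf_uC ha ha' hd hC hκc hκ hcκ rfl, ← hCJ _ (c_uf ha (by fun_prop) hκc),
      JJ_kappa ha ha' hκc hκ]
    constructor
    · rintro ⟨β, hβc, hβ, hD, hle⟩
      refine ⟨kp a β hβc hβ, kp a (fun n => a n \ β n) (by fun_prop) (fun n => sdiff_le),
        isCompl_kp hd hβ rfl rfl, ?_, ?_⟩
      · rw [isComplemented_inf_uC ha ha' hd hAc hβc hβ rfl rfl]
        exact hD
      · change (c ⊓ kp a (fun n => a n \ β n) (by fun_prop) (fun n => sdiff_le) ⊓ V).1 ≤ W.1
        rw [Sub.coe_inf, Sub.coe_inf, hcκ, hV, hW]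
        change gen κ ⊓ gen (fun n => a n \ β n) ⊓ gen vv ≤ gen ww
        rw [gen_inf_gen hd hκ (fun n => sdiff_le), inf_gen_le]
        exact hle
    · rintro ⟨b, b', hbb, hb, hle⟩
      obtain ⟨β, hβc, hβ, hbβ, hb'β⟩ := exists_kappa ha hd hbb
      refine ⟨β, hβc, hβ, ?_, ?_⟩
      · rw [isComplemented_inf_uC ha ha' hd hAc hβc hβ hbβ rfl] at hb
        exact hb
      · have h1 : (c ⊓ b' ⊓ V).1 ≤ W.1 := hle
        rw [Sub.coe_inf, Sub.coe_inf, hcκ, hb'β, hV, hW,
          gen_inf_gen hd hκ (fun n => sdiff_le), inf_gen_le] at h1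
        exact h1

end Pool.Agent.H30.CB
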