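import Pool.Agent.H30.Split

set_option autoImplicit false
set_option linter.unusedSectionVars false

/-!
# The distinguishing property, and its failure in the lattice of all c.e. ideals
-/

namespace Pool.Agent.H30.CB

open Pool.Agent.H30.CompFP Order

/-- the distinguishing property -/
def Theta (L : Type*) [Lattice L] [BoundedOrder L] : Prop :=
  ∃ U₀ V₁ : L,
    (∀ b b' : L, IsCompl b b' → b ≤ V₁ →
      ∃ c : L, IsComplemented c ∧ c ≤ V₁ ∧ ¬ IsComplemented (c ⊓ b' ⊓ U₀)) ∧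
    ∀ V W : L, ∃ U : L, ∀ c : L, IsComplemented c →
      (IsComplemented (c ⊓ U) ↔
        ∃ b b' : L, IsCompl b b' ∧ IsComplemented (b ⊓ U₀) ∧ c ⊓ b' ⊓ V ≤ W)

theorem Theta.congr {L M : Type*} [Lattice L] [BoundedOrder L] [Lattice M] [BoundedOrder M]
    (e : L ≃o M) (h : Theta L) : Theta M := by
  have hc : ∀ x y : L, IsCompl (e x) (e y) ↔ IsCompl x y := fun x y => by
    constructor
    · intro h
      have := e.symm.isCompl h
      simpa using this
    · exact fun h => e.isCompl h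
  have hi : ∀ x : L, IsComplemented (e x) ↔ IsComplemented x := fun x => by
    constructor
    · rintro ⟨y, hy⟩
      refine ⟨e.symm y, (hc _ _).1 ?_⟩
      simpa using hy
    · rintro ⟨y, hy⟩
      exact ⟨e y, (hc _ _).2 hy⟩
  obtain ⟨U₀, V₁, h1, h2⟩ := h
  refine ⟨e U₀, e V₁, ?_, ?_⟩
  · intro b b' hb hbV
    obtain ⟨b, rfl⟩ := e.surjective b
    obtain ⟨b', rfl⟩ := e.surjective b'
    obtain ⟨c, hc1, hc2, hc3⟩ := h1 b b' ((hc _ _).1 hb) (e.le_iff_le.1 hbV)
    refine ⟨e c, (hi _).2 hc1, e.le_iff_le.2 hc2, ?_⟩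
    rw [← map_inf, ← map_inf, hi]
    exact hc3
  · intro V W
    obtain ⟨V, rfl⟩ := e.surjective V
    obtain ⟨W, rfl⟩ := e.surjective W
    obtain ⟨U, hU⟩ := h2 V W
    refine ⟨e U, fun c hcc => ?_⟩
    obtain ⟨c, rfl⟩ := e.surjective c
    rw [← map_inf, hi, hU c ((hi _).1 hcc)]
    constructor
    · rintro ⟨b, b', hb, hb', hle⟩
      refine ⟨e b, e b', (hc _ _).2 hb, ?_, ?_⟩
      · rw [← map_inf, hi]; exact hb'
      · rw [← map_inf, ← map_inf]; exact e.le_iff_le.2 hle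
    · rintro ⟨b, b', hb, hb', hle⟩
      obtain ⟨b, rfl⟩ := e.surjective b
      obtain ⟨b', rfl⟩ := e.surjective b'
      refine ⟨b, b', (hc _ _).1 hb, ?_, ?_⟩
      · rw [← map_inf, hi] at hb'; exact hb'
      · rw [← map_inf, ← map_inf] at hle; exact e.le_iff_le.1 hle

variable {Q : Type} [BooleanAlgebra Q]

/-- `x` cuts the ideal generated by `g` in a principal ideal -/
def Dd (g : ℕ → Q) (x : Q) : Prop := ∃ N, ∀ M, J g M ⊓ x ≤ J g N

theorem Dd.mono {g : ℕ → Q} {x y : Q} (h : x ≤ y) (hy : Dd g y) : Dd g x := by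
  obtain ⟨N, hN⟩ := hy
  exact ⟨N, fun M => (inf_le_inf_left _ h).trans (hN M)⟩

theorem Dd.sup {g : ℕ → Q} {x y : Q} (hx : Dd g x) (hy : Dd g y) : Dd g (x ⊔ y) := by
  obtain ⟨N, hN⟩ := hx
  obtain ⟨M, hM⟩ := hy
  refine ⟨max N M, fun K => ?_⟩
  rw [inf_sup_left]
  exact sup_le ((hN K).trans (J_mono g (le_max_left _ _)))
    ((hM K).trans (J_mono g (le_max_right _ _)))

theorem Dd.of_mem {g : ℕ → Q} {x : Q} (h : x ∈ gen g) : Dd g x := by
  obtain ⟨N, hN⟩ := h
  exact ⟨N, fun M => inf_le_right.trans hN⟩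

theorem Dd.bot (g : ℕ → Q) : Dd g ⊥ := Dd.of_mem (gen g).bot_mem

/-- if `x` meets only finitely many generators, it cuts the ideal in a principal ideal -/
theorem Dd.of_finite {g : ℕ → Q} {x : Q} (N : ℕ) (h : ∀ i, N ≤ i → g i ⊓ x = ⊥) : Dd g x := by
  refine ⟨N, fun M => ?_⟩
  induction M with
  | zero => simp
  | succ M ih =>
    rw [J_succ, inf_sup_right]
    refine sup_le ih ?_
    rcases lt_or_ge M N with h1 | h1
    · exact inf_le_left.trans (le_J h1)
    · rw [h M h1]; exact bot_le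

theorem Dd.iff_of_gen_eq {g h : ℕ → Q} (e : gen g = gen h) {x : Q} : Dd g x ↔ Dd h x := by
  have key : ∀ {g h : ℕ → Q}, gen g = gen h → Dd g x → Dd h x := by
    rintro g h e ⟨N, hN⟩
    have h1 : J g N ∈ gen h := by rw [← e]; exact J_mem_gen g N
    obtain ⟨K, hK⟩ := h1
    refine ⟨K, fun M => ?_⟩
    have h2 : J h M ∈ gen g := by rw [e]; exact J_mem_gen h M
    obtain ⟨M', hM'⟩ := h2
    exact ((inf_le_inf_right _ hM').trans (hN M')).trans hK
  exact ⟨key e, key e.symm⟩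

variable [Primcodable Q] [CBA Q]

instance : Fact (CE (⊤ : Ideal Q)) := ⟨CE_top⟩

/-- the principal ideals as elements of the lattice -/
def pr (x : Q) : Sub (⊤ : Ideal Q) := ⟨Ideal.principal x, CE_principal x, le_top⟩

theorem mem_pr {x y : Q} : y ∈ (pr x).1 ↔ y ≤ x := Ideal.mem_principal

theorem isCompl_pr (x : Q) : IsCompl (pr x) (pr xᶜ) := by
  rw [Sub.isCompl_iff]
  constructor
  · intro y hy hy'
    rw [mem_pr] at hy hy'
    have := le_inf hy hy'
    rw [inf_compl_self] at this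
    exact le_bot_iff.1 this
  · intro y _
    rw [Ideal.mem_sup]
    refine ⟨x, mem_pr.2 le_rfl, xᶜ, mem_pr.2 le_rfl, ?_⟩
    rw [sup_compl_eq_top]
    exact le_top

theorem isCompl_top_iff {K L : Sub (⊤ : Ideal Q)} :
    IsCompl K L ↔ ∃ x, K = pr x ∧ L = pr xᶜ := by
  constructor
  · intro h
    have h0 := h
    rw [Sub.isCompl_iff] at h
    obtain ⟨h1, h2⟩ := h
    have h3 := h2 ⊤ trivial
    obtain ⟨k, hk, l, hl, hkl⟩ := mem_of_mem_sup h3
    have h4 : k ⊓ l = ⊥ := h1 _ (K.1.lower inf_le_left hk) (L.1.lower inf_le_right hl)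
    have h5 : IsCompl k l := ⟨disjoint_iff.2 h4, codisjoint_iff.2 hkl.symm⟩
    refine ⟨k, Subtype.ext (le_antisymm ?_ ?_), Subtype.ext (le_antisymm ?_ ?_)⟩
    · intro y hy
      rw [mem_pr]
      have h6 : y ⊓ l = ⊥ := h1 _ (K.1.lower inf_le_left hy) (L.1.lower inf_le_right hl)
      have h7 : y = y ⊓ (k ⊔ l) := by rw [← hkl, inf_top_eq]
      rw [inf_sup_left, h6, sup_bot_eq] at h7
      rw [h7]; exact inf_le_right
    · intro y hy
      rw [mem_pr] at hy
      exact K.1.lower hy hk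
    · intro y hy
      rw [mem_pr, h5.compl_eq]
      have h6 : k ⊓ y = ⊥ := h1 _ (K.1.lower inf_le_left hk) (L.1.lower inf_le_right hy)
      have h7 : y = (k ⊔ l) ⊓ y := by rw [← hkl, top_inf_eq]
      rw [inf_sup_right, h6, bot_sup_eq] at h7
      rw [h7]; exact inf_le_left
    · intro y hy
      rw [mem_pr, h5.compl_eq] at hy
      exact L.1.lower hy hl
  · rintro ⟨x, rfl, rfl⟩
    exact isCompl_pr x

theorem isComplemented_top_iff {K : Sub (⊤ : Ideal Q)} : IsComplemented K ↔ ∃ x, K = pr x := by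
  constructor
  · rintro ⟨L, h⟩
    obtain ⟨x, h1, _⟩ := isCompl_top_iff.1 h
    exact ⟨x, h1⟩
  · rintro ⟨x, rfl⟩
    exact ⟨_, isCompl_pr x⟩

theorem pr_inf (x y : Q) : pr x ⊓ pr y = pr (x ⊓ y) := by
  refine Subtype.ext (le_antisymm ?_ ?_)
  · intro z hz
    have h := mem_inf'.1 hz
    rw [mem_pr]
    exact le_inf (mem_pr.1 h.1) (mem_pr.1 h.2)
  · intro z hz
    rw [mem_pr] at hz
    exact mem_inf'.2 ⟨mem_pr.2 (hz.trans inf_le_left), mem_pr.2 (hz.trans inf_le_right)⟩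

theorem isComplemented_pr_inf {U : Sub (⊤ : Ideal Q)} {g : ℕ → Q} (hU : U.1 = gen g) {x : Q} :
    IsComplemented (pr x ⊓ U) ↔ Dd g x := by
  rw [isComplemented_top_iff]
  constructor
  · rintro ⟨y, hy⟩
    have h1 : ∀ z, (z ≤ x ∧ z ∈ gen g) ↔ z ≤ y := by
      intro z
      rw [← mem_pr (x := y), ← hy]
      change _ ↔ z ∈ (pr x).1 ⊓ U.1
      rw [mem_inf', mem_pr, hU]
    obtain ⟨h2, N, hN⟩ := (h1 y).2 le_rfl
    refine ⟨N, fun M => ?_⟩
    exact ((h1 _).1 ⟨inf_le_right, (gen g).lower inf_le_left (J_mem_gen g M)⟩).trans hN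
  · rintro ⟨N, hN⟩
    refine ⟨J g N ⊓ x, Subtype.ext (le_antisymm ?_ ?_)⟩
    · intro z hz
      have h := mem_inf'.1 hz
      rw [mem_pr] at h ⊢
      rw [hU] at h
      obtain ⟨h1, M, hM⟩ := h
      exact le_inf ((le_inf hM h1).trans (hN M)) h1
    · intro z hz
      rw [mem_pr] at hz
      refine mem_inf'.2 ⟨mem_pr.2 (hz.trans inf_le_right), ?_⟩
      rw [hU]
      exact (gen g).lower (hz.trans inf_le_left) (J_mem_gen g N)

end Pool.Agent.H30.CB
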