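import Pool.Agent.H30.LQ
import Mathlib.Data.Nat.Nth

set_option autoImplicit false
set_option linter.unusedSectionVars false

/-!
# The property fails in the lattice of all c.e. ideals
-/

namespace Pool.Agent.H30.CB

open Pool.Agent.H30.CompFP Order

variable {Q : Type} [BooleanAlgebra Q] [Primcodable Q] [CBA Q]

theorem inf_of_C1 {U₀ V₁ : Sub (⊤ : Ideal Q)} {u v : ℕ → Q} (hu : U₀.1 = gen u)
    (hv : V₁.1 = gen v)
    (C1 : ∀ b b' : Sub (⊤ : Ideal Q), IsCompl b b' → b ≤ V₁ →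
      ∃ c, IsComplemented c ∧ c ≤ V₁ ∧ ¬ IsComplemented (c ⊓ b' ⊓ U₀)) (m : ℕ) :
    ∃ n, m ≤ n ∧ ¬ Dd u (dj v n) := by
  by_contra hcon
  push Not at hcon
  have hle : pr (J v m) ≤ V₁ := by
    intro y hy
    rw [mem_pr] at hy
    rw [hv]
    exact ⟨m, hy⟩
  obtain ⟨c, hc, hcV, hcc⟩ := C1 _ _ (isCompl_pr (J v m)) hle
  obtain ⟨x, rfl⟩ := isComplemented_top_iff.1 hc
  rw [pr_inf, isComplemented_pr_inf hu] at hcc
  have hx : x ∈ gen v := by
    rw [← hv]
    exact hcV (mem_pr.2 le_rfl)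
  obtain ⟨N, hN⟩ := hx
  refine hcc (Dd.mono (inf_le_inf_right _ hN) ?_)
  clear hN hcc hcV hc
  rw [← J_dj v N]
  induction N with
  | zero => simpa using Dd.bot u
  | succ N ih =>
    rw [J_succ, inf_sup_right]
    refine Dd.sup ih ?_
    rcases lt_or_ge N m with h | h
    · have h1 : dj v N ≤ J v m := (dj_le v N).trans (le_J h)
      have h2 : dj v N ⊓ (J v m)ᶜ = ⊥ := (disjoint_compl_right.mono_left h1).eq_bot
      rw [h2]
      exact Dd.bot u
    · exact (hcon N h).mono inf_le_left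

section diag

variable (u v : ℕ → Q) (sp : Q → Q)

/-- approximation to `dj v m` not cutting `gen u` in a principal ideal -/
def NN (m k t : ℕ) : Bool :=
  ball k (fun N => bex t (fun M => !leB (J u M ⊓ dj v m) (J u N)))

/-- approximation to the counting function -/
def cf (n k t : ℕ) : ℕ := cntB n (fun m => NN u v m k t)

/-- the matrix of the formula saying that `dj v n` cuts the `e`-th ideal in a principal ideal -/
def dd (e n N M : ℕ) : Bool := leB (J (G e) M ⊓ dj v n) (J (G e) N)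

/-- the matrix of the diagonal condition -/
def rr (i w z : ℕ) : Bool :=
  leB (pc u i) (dj v w.unpair.1) &&
    ((decide (z.unpair.1 < w.unpair.2.unpair.1) ||
      decide (cf u v w.unpair.1 i z.unpair.1 = cf u v w.unpair.1 i w.unpair.2.unpair.1)) &&
    dd v (cf u v w.unpair.1 i w.unpair.2.unpair.1) w.unpair.1 w.unpair.2.unpair.2 z.unpair.2)

/-- generators of `V` -/
def vg (m : ℕ) : Q := pw sp (pc u m.unpair.1) m.unpair.2

/-- generators of `W` -/
def wg (m : ℕ) : Q :=
  cond (ball (m.unpair.2.unpair.1 + 1) (fun w => bex m.unpair.2.unpair.2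
    (fun z => !rr u v m.unpair.1 w z))) (pw sp (pc u m.unpair.1) m.unpair.2.unpair.1) ⊥

variable {u v sp}

theorem c_NN (hu : Computable u) (hv : Computable v) :
    Computable (fun p : ℕ × ℕ × ℕ => NN u v p.1 p.2.1 p.2.2) := by
  unfold NN
  fun_prop

theorem c_cf (hu : Computable u) (hv : Computable v) :
    Computable (fun p : ℕ × ℕ × ℕ => cf u v p.1 p.2.1 p.2.2) := by
  have h := c_NN hu hv
  unfold cf
  fun_prop

theorem c_dd (hv : Computable v) :
    Computable (fun p : ℕ × ℕ × ℕ × ℕ => dd v p.1 p.2.1 p.2.2.1 p.2.2.2) := by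
  unfold dd
  fun_prop

theorem c_rr1 (hu : Computable u) (hv : Computable v) :
    Computable (fun p : ℕ × ℕ × ℕ => leB (pc u p.1) (dj v p.2.1.unpair.1)) := by
  fun_prop

theorem c_rr2 (hu : Computable u) (hv : Computable v) :
    Computable (fun p : ℕ × ℕ × ℕ => cf u v p.2.1.unpair.1 p.1 p.2.2.unpair.1) := by
  have h := c_cf hu hv
  fun_prop

theorem c_rr3 (hu : Computable u) (hv : Computable v) :
    Computable (fun p : ℕ × ℕ × ℕ => cf u v p.2.1.unpair.1 p.1 p.2.1.unpair.2.unpair.1) := by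
  have h := c_cf hu hv
  fun_prop

theorem c_rr4 (hu : Computable u) (hv : Computable v) :
    Computable (fun p : ℕ × ℕ × ℕ => dd v (cf u v p.2.1.unpair.1 p.1 p.2.1.unpair.2.unpair.1)
      p.2.1.unpair.1 p.2.1.unpair.2.unpair.2 p.2.2.unpair.2) := by
  have h := c_dd hv
  have h3 := c_rr3 hu hv
  fun_prop

theorem c_rr (hu : Computable u) (hv : Computable v) :
    Computable (fun p : ℕ × ℕ × ℕ => rr u v p.1 p.2.1 p.2.2) :=
  c_and (c_rr1 hu hv) (c_and (c_or (c_decide_lt_nat (by fun_prop) (by fun_prop))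
    (c_decide_eq_nat (c_rr2 hu hv) (c_rr3 hu hv))) (c_rr4 hu hv))

theorem c_vg (hu : Computable u) (hsp : Computable sp) : Computable (vg u sp) := by
  unfold vg
  exact c_pw hsp (by fun_prop) (by fun_prop)

theorem c_wg (hu : Computable u) (hv : Computable v) (hsp : Computable sp) :
    Computable (wg u v sp) := by
  have h := c_rr hu hv
  have h1 : Computable (fun m : ℕ => pw sp (pc u m.unpair.1) m.unpair.2.unpair.1) :=
    c_pw hsp (by fun_prop) (by fun_prop)
  unfold wg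
  fun_prop

theorem cf_succ (n k t : ℕ) : cf u v (n + 1) k t = cf u v n k t + cond (NN u v n k t) 1 0 := rfl

/-- the approximations converge to the counting function -/
theorem cf_lim [DecidablePred fun m => ¬ Dd u (dj v m)] (n : ℕ) :
    ∃ k₀, ∀ k, k₀ ≤ k → ∃ t₀, ∀ t, t₀ ≤ t →
      cf u v n k t = Nat.count (fun m => ¬ Dd u (dj v m)) n := by
  induction n with
  | zero => exact ⟨0, fun _ _ => ⟨0, fun _ _ => rfl⟩⟩
  | succ n ih =>
    obtain ⟨k₀, hk₀⟩ := ih
    by_cases h : Dd u (dj v n)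
    · obtain ⟨N, hN⟩ := h
      refine ⟨max k₀ (N + 1), fun k hk => ?_⟩
      obtain ⟨t₀, ht₀⟩ := hk₀ k ((le_max_left _ _).trans hk)
      refine ⟨t₀, fun t ht => ?_⟩
      rw [cf_succ, Nat.count_succ, ht₀ t ht, if_neg (by rw [not_not]; exact ⟨N, hN⟩)]
      have : NN u v n k t = false := by
        rw [← Bool.not_eq_true]
        intro hcon
        unfold NN at hcon
        rw [ball_iff] at hcon
        have h1 := hcon N (by have := (le_max_right k₀ (N + 1)).trans hk; omega)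
        rw [bex_iff] at h1
        obtain ⟨M, _, hM⟩ := h1
        rw [Bool.not_eq_true', leB_false_iff] at hM
        exact hM (hN M)
      rw [this]
      rfl
    · refine ⟨k₀, fun k hk => ?_⟩
      obtain ⟨t₀, ht₀⟩ := hk₀ k hk
      have h' : ∀ N, ∃ M, ¬ (J u M ⊓ dj v n ≤ J u N) := by
        intro N
        by_contra hcon
        push Not at hcon
        exact h ⟨N, hcon⟩
      choose M hM using h'
      refine ⟨max t₀ (∑ N ∈ Finset.range k, (M N + 1)), fun t ht => ?_⟩
      rw [cf_succ, Nat.count_succ, ht₀ t ((le_max_left _ _).trans ht), if_pos h]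
      have : NN u v n k t = true := by
        unfold NN
        rw [ball_iff]
        intro N hN
        rw [bex_iff]
        have h1 : M N + 1 ≤ ∑ N ∈ Finset.range k, (M N + 1) :=
          Finset.single_le_sum (f := fun N => M N + 1) (fun _ _ => Nat.zero_le _)
            (Finset.mem_range.2 hN)
        refine ⟨M N, by have := (le_max_right t₀ (∑ N ∈ Finset.range k, (M N + 1))).trans ht; omega,
          ?_⟩
        rw [Bool.not_eq_true', leB_false_iff]
        exact hM N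
      rw [this]
      rfl

/-- the limit condition -/
def HH (u v : ℕ → Q) (n k : ℕ) : Prop := ∃ t N, ∀ t' M,
  (t' < t ∨ cf u v n k t' = cf u v n k t) ∧
    J (G (cf u v n k t)) M ⊓ dj v n ≤ J (G (cf u v n k t)) N

theorem HH_lim [DecidablePred fun m => ¬ Dd u (dj v m)] (n : ℕ) :
    ∃ k₀, ∀ k, k₀ ≤ k →
      (HH u v n k ↔ Dd (G (Nat.count (fun m => ¬ Dd u (dj v m)) n)) (dj v n)) := by
  obtain ⟨k₀, hk₀⟩ := cf_lim (u := u) (v := v) n
  refine ⟨k₀, fun k hk => ?_⟩
  obtain ⟨t₀, ht₀⟩ := hk₀ k hk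
  constructor
  · rintro ⟨t, N, h⟩
    have e : cf u v n k t = Nat.count (fun m => ¬ Dd u (dj v m)) n := by
      have h1 := (h (max t t₀) 0).1
      rcases h1 with h1 | h1
      · have := le_max_left t t₀
        omega
      · rw [← h1]
        exact ht₀ _ (le_max_right _ _)
    rw [e] at h
    exact ⟨N, fun M => (h 0 M).2⟩
  · rintro ⟨N, hN⟩
    refine ⟨t₀, N, fun t' M => ⟨?_, ?_⟩⟩
    · rcases lt_or_ge t' t₀ with h | h
      · exact Or.inl h
      · right
        rw [ht₀ t' h, ht₀ t₀ le_rfl]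
    · rw [ht₀ t₀ le_rfl]
      exact hN M

theorem rr_iff {i : ℕ} : (∃ w, ∀ z, rr u v i w z = true) ↔ ∃ n, pc u i ≤ dj v n ∧ HH u v n i := by
  constructor
  · rintro ⟨w, hw⟩
    unfold rr dd at hw
    simp only [Bool.and_eq_true, Bool.or_eq_true, decide_eq_true_eq, leB_iff] at hw
    refine ⟨w.unpair.1, (hw 0).1, w.unpair.2.unpair.1, w.unpair.2.unpair.2, fun t' M => ?_⟩
    have := (hw (Nat.pair t' M)).2
    rw [Nat.unpair_pair] at this
    exact this
  · rintro ⟨n, hn, t, N, h⟩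
    refine ⟨Nat.pair n (Nat.pair t N), fun z => ?_⟩
    unfold rr dd
    simp only [Bool.and_eq_true, Bool.or_eq_true, decide_eq_true_eq, leB_iff, Nat.unpair_pair]
    exact ⟨hn, h _ _⟩

theorem pw_pc_disj (hsp : ∀ x, sp x ≤ x) {i j i' j' : ℕ} (h : ¬ (i = i' ∧ j = j')) :
    pw sp (pc u i) j ⊓ pw sp (pc u i') j' = ⊥ := by
  by_cases h1 : i = i'
  · subst h1
    exact pw_disj hsp fun h2 => h ⟨rfl, h2⟩
  · refine le_bot_iff.1 ((inf_le_inf (pw_le hsp _ _) (pw_le hsp _ _)).trans ?_)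
    rw [pc_disj h1]

theorem inf_J_bot {g : ℕ → Q} {x : Q} (h : ∀ i, x ⊓ g i = ⊥) (N : ℕ) : x ⊓ J g N = ⊥ := by
  induction N with
  | zero => simp
  | succ N ih => rw [J_succ, inf_sup_left, ih, h N]; simp

theorem wg_of_not {i : ℕ} (h : ¬ ∃ w, ∀ z, rr u v i w z = true) (j : ℕ) :
    pw sp (pc u i) j ∈ gen (wg u v sp) := by
  push Not at h
  choose z hz using h
  have h1 := self_mem_gen (wg u v sp)
    (Nat.pair i (Nat.pair j (∑ w ∈ Finset.range (j + 1), (z w + 1))))
  have h2 : wg u v sp (Nat.pair i (Nat.pair j (∑ w ∈ Finset.range (j + 1), (z w + 1)))) =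
      pw sp (pc u i) j := by
    unfold wg
    simp only [Nat.unpair_pair]
    have h3 : ball (j + 1) (fun w => bex (∑ w ∈ Finset.range (j + 1), (z w + 1))
        (fun z => !rr u v i w z)) = true := by
      rw [ball_iff]
      intro w hw
      rw [bex_iff]
      have h1 : z w + 1 ≤ ∑ w ∈ Finset.range (j + 1), (z w + 1) :=
        Finset.single_le_sum (f := fun w => z w + 1) (fun _ _ => Nat.zero_le _)
          (Finset.mem_range.2 hw)
      refine ⟨z w, by omega, ?_⟩
      simpa using hz w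
    rw [h3, cond_true]
  rw [h2] at h1
  exact h1

theorem not_wg_of {i : ℕ} (hsp : ∀ x, sp x ≤ x) (hsp' : ∀ x, x ≠ ⊥ → sp x < x ∧ sp x ≠ ⊥)
    (hi : pc u i ≠ ⊥) (h : ∃ w, ∀ z, rr u v i w z = true) :
    ∃ j, pw sp (pc u i) j ∉ gen (wg u v sp) := by
  obtain ⟨w, hw⟩ := h
  refine ⟨w, ?_⟩
  rintro ⟨N, hN⟩
  have h1 : pw sp (pc u i) w ⊓ J (wg u v sp) N = ⊥ := by
    refine inf_J_bot (fun m => ?_) N
    unfold wg
    cases hb : ball (m.unpair.2.unpair.1 + 1) (fun w => bex m.unpair.2.unpair.2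
      (fun z => !rr u v m.unpair.1 w z)) with
    | false => simp
    | true =>
      simp only [cond_true]
      refine pw_pc_disj hsp ?_
      rintro ⟨h2, h3⟩
      rw [ball_iff] at hb
      have h4 := hb w (by omega)
      rw [bex_iff] at h4
      obtain ⟨z, _, hz⟩ := h4
      rw [← h2, hw z] at hz
      exact absurd hz (by decide)
  rw [inf_eq_left.2 hN] at h1
  exact pw_ne_bot hsp' hi w h1

/-- first half of the coding -/
theorem coding_pos [DecidablePred fun m => ¬ Dd u (dj v m)]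
    (hsp : ∀ x, sp x ≤ x) (hsp' : ∀ x, x ≠ ⊥ → sp x < x ∧ sp x ≠ ⊥) {n : ℕ}
    (h0 : ¬ Dd u (dj v n)) (h1 : Dd (G (Nat.count (fun m => ¬ Dd u (dj v m)) n)) (dj v n))
    {b : Q} (hb : Dd u b) :
    ∃ x, x ≤ dj v n ⊓ bᶜ ∧ x ∈ gen (vg u sp) ∧ x ∉ gen (wg u v sp) := by
  have h2 : ¬ Dd (pc u) (dj v n ⊓ bᶜ) := by
    rw [Dd.iff_of_gen_eq (gen_pc u)]
    intro h
    refine h0 (Dd.mono ?_ (h.sup hb))
    rw [sup_inf_right]
    refine le_inf le_sup_left ?_
    rw [compl_sup_eq_top]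
    exact le_top
  obtain ⟨N, hN⟩ := pc_decided u (dj v n ⊓ bᶜ)
  obtain ⟨k₀, hk₀⟩ := HH_lim (u := u) (v := v) n
  have h3 : ∃ i, max N k₀ ≤ i ∧ pc u i ⊓ (dj v n ⊓ bᶜ) ≠ ⊥ := by
    by_contra hcon
    push Not at hcon
    exact h2 (Dd.of_finite _ hcon)
  obtain ⟨i, hi, hi'⟩ := h3
  have h4 : pc u i ≤ dj v n ⊓ bᶜ := by
    rcases hN i ((le_max_left _ _).trans hi) with h | h
    · exact h
    · exact absurd h hi'
  have h5 : pc u i ≠ ⊥ := by
    intro h
    rw [h] at hi'
    simp at hi'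
  obtain ⟨j, hj⟩ := not_wg_of (v := v) hsp hsp' h5
    (rr_iff.2 ⟨n, h4.trans inf_le_left, (hk₀ i ((le_max_right _ _).trans hi)).2 h1⟩)
  refine ⟨pw sp (pc u i) j, (pw_le hsp _ _).trans h4, ?_, hj⟩
  have := self_mem_gen (vg u sp) (Nat.pair i j)
  unfold vg at this ⊢
  simpa using this

/-- second half of the coding -/
theorem coding_neg [DecidablePred fun m => ¬ Dd u (dj v m)]
    (hsp : ∀ x, sp x ≤ x) {n : ℕ}
    (h1 : ¬ (¬ Dd u (dj v n) ∧ Dd (G (Nat.count (fun m => ¬ Dd u (dj v m)) n)) (dj v n))) :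
    ∃ b, Dd u b ∧ ∀ x, x ≤ dj v n ⊓ bᶜ → x ∈ gen (vg u sp) → x ∈ gen (wg u v sp) := by
  classical
  by_cases h0 : Dd u (dj v n)
  · refine ⟨dj v n, h0, fun x hx _ => ?_⟩
    rw [inf_compl_self] at hx
    exact (gen (wg u v sp)).lower hx (gen (wg u v sp)).bot_mem
  have h2 : ¬ Dd (G (Nat.count (fun m => ¬ Dd u (dj v m)) n)) (dj v n) := fun h => h1 ⟨h0, h⟩
  obtain ⟨N, hN⟩ := pc_decided u (dj v n)
  obtain ⟨k₀, hk₀⟩ := HH_lim (u := u) (v := v) n
  -- the finitely many bad pieces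
  set b : Q := J (fun i => pc u i ⊓ dj v n) (max N k₀) with hb
  refine ⟨b, Dd.of_mem ?_, fun x hx hxV => ?_⟩
  · refine J_mem fun i _ => ?_
    exact (gen u).lower inf_le_left (pc_mem u i)
  · obtain ⟨K, hK⟩ := hxV
    have h3 : ∀ m, x ⊓ vg u sp m ∈ gen (wg u v sp) := by
      intro m
      by_cases hm : x ⊓ vg u sp m = ⊥
      · rw [hm]; exact (gen (wg u v sp)).bot_mem
      refine (gen (wg u v sp)).lower inf_le_right ?_
      have hvp : vg u sp m ≤ pc u m.unpair.1 := pw_le hsp _ _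
      have hxn : x ≤ dj v n := hx.trans inf_le_left
      have hxb : x ⊓ b = ⊥ := by
        have : Disjoint x b := by
          refine Disjoint.mono_left (hx.trans inf_le_right) ?_
          exact disjoint_compl_left
        exact this.eq_bot
      have hge : max N k₀ ≤ m.unpair.1 := by
        by_contra hlt
        rw [not_le] at hlt
        have h4 : pc u m.unpair.1 ⊓ dj v n ≤ b := le_J (g := fun i => pc u i ⊓ dj v n) hlt
        apply hm
        refine le_bot_iff.1 ?_
        rw [← hxb]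
        refine le_inf inf_le_left (le_trans ?_ h4)
        exact le_inf (inf_le_right.trans hvp) (inf_le_left.trans hxn)
      have hpn : pc u m.unpair.1 ≤ dj v n := by
        rcases hN _ ((le_max_left _ _).trans hge) with h | h
        · exact h
        · exfalso
          apply hm
          refine le_bot_iff.1 ?_
          rw [← h]
          exact le_inf (inf_le_right.trans hvp) (inf_le_left.trans hxn)
      have hne : pc u m.unpair.1 ≠ ⊥ := by
        intro h
        apply hm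
        refine le_bot_iff.1 ?_
        rw [← h]
        exact inf_le_right.trans hvp
      have hnr : ¬ ∃ w, ∀ z, rr u v m.unpair.1 w z = true := by
        rw [rr_iff]
        rintro ⟨n', hn', hH⟩
        have e : n' = n := by
          by_contra hnn
          apply hne
          refine le_bot_iff.1 ?_
          rw [← dj_disj (v := v) hnn]
          exact le_inf hn' hpn
        subst e
        exact h2 ((hk₀ _ ((le_max_right _ _).trans hge)).1 hH)
      exact wg_of_not hnr _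
    have h4 : ∀ K, x ⊓ J (vg u sp) K ∈ gen (wg u v sp) := by
      intro K
      induction K with
      | zero => simp
      | succ K ih =>
        rw [J_succ, inf_sup_left]
        exact Ideal.sup_mem ih (h3 K)
    have h5 := h4 K
    rw [inf_eq_left.2 hK] at h5
    exact h5

end diag

/-- **The distinguishing property fails in the lattice of all c.e. ideals.** -/
theorem not_theta_top (hat : ∀ x : Q, x ≠ ⊥ → ∃ y, y < x ∧ y ≠ ⊥) :
    ¬ Theta (Sub (⊤ : Ideal Q)) := by
  classical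
  rintro ⟨U₀, V₁, C1, C2⟩
  obtain ⟨u, hu, hU₀⟩ := U₀.2.1
  obtain ⟨v, hv, hV₁⟩ := V₁.2.1
  obtain ⟨sp, hspc, hsp, hsp'⟩ := exists_sp hat
  have hinf := inf_of_C1 hU₀ hV₁ C1
  obtain ⟨U, hU⟩ := C2 ⟨gen (vg u sp), CE_gen (c_vg hu hspc), le_top⟩
    ⟨gen (wg u v sp), CE_gen (c_wg hu hv hspc), le_top⟩
  obtain ⟨g, hg, hUg⟩ := U.2.1
  obtain ⟨e, he⟩ := exists_gen_G hg
  rw [← he] at hUg
  have hinf' : {m | ¬ Dd u (dj v m)}.Infinite := by
    rw [Set.infinite_iff_exists_gt]
    intro a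
    obtain ⟨n, hn, hn'⟩ := hinf (a + 1)
    exact ⟨n, hn', by omega⟩
  set n := Nat.nth (fun m => ¬ Dd u (dj v m)) e with hn
  have hn1 : ¬ Dd u (dj v n) := Nat.nth_mem_of_infinite hinf' e
  have hn2 : Nat.count (fun m => ¬ Dd u (dj v m)) n = e := Nat.count_nth_of_infinite hinf' e
  have key := hU (pr (dj v n)) (isComplemented_top_iff.2 ⟨_, rfl⟩)
  rw [isComplemented_pr_inf hUg] at key
  by_cases hD : Dd (G e) (dj v n)
  · obtain ⟨b, b', hbb, hb, hle⟩ := key.1 hD
    obtain ⟨x, rfl, rfl⟩ := isCompl_top_iff.1 hbb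
    rw [isComplemented_pr_inf hU₀] at hb
    obtain ⟨y, hy, hyV, hyW⟩ := coding_pos hsp hsp' hn1 (by rw [hn2]; exact hD) hb
    rw [pr_inf] at hle
    exact hyW (hle (mem_inf'.2 ⟨mem_pr.2 hy, hyV⟩))
  · obtain ⟨b, hb, hle⟩ := coding_neg (u := u) (v := v) (n := n) hsp
      (by rw [hn2]; exact fun h => hD h.2)
    refine hD (key.2 ⟨pr b, pr bᶜ, isCompl_pr b, (isComplemented_pr_inf hU₀).2 hb, ?_⟩)
    rw [pr_inf]
    intro y hy
    have h := mem_inf'.1 hy
    exact hle y (mem_pr.1 h.1) h.2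

end Pool.Agent.H30.CB
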