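import Pool.Agent.H30.PracSep

set_option autoImplicit false
open Filter Function Topology

namespace Pool.Agent.H30.Prac

/-- Generators. `d k x c a` is the `a`-th term of a sequence tending to `∑ c_i x_i`;
`y e` is minus a limit of the sequence `e`. -/
inductive Gen (Ω : Type) : Type
  | d (k : ℕ) (x : Fin k → Gen Ω) (c : Fin k → ℤ) (a : Ω) : Gen Ω
  | y (e : Ω → Gen Ω) : Gen Ω

variable {Ω : Type}

/-- The free abelian group on the generators. -/
abbrev FG (Ω : Type) : Type := Gen Ω →₀ ℤ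

namespace Gen

/-- Descendants of a generator (through `d` only). -/
def Sub : Gen Ω → Set (Gen Ω)
  | d k x c a => insert (d k x c a) (⋃ i, Sub (x i))
  | y e => {y e}

/-- Depth of a generator (through `d` only). -/
def depth : Gen Ω → ℕ
  | d _ x _ _ => (Finset.univ.sup fun i => depth (x i)) + 1
  | y _ => 0

lemma Sub_d (k : ℕ) (x : Fin k → Gen Ω) (c : Fin k → ℤ) (a : Ω) :
    Sub (d k x c a) = insert (d k x c a) (⋃ i, Sub (x i)) := rfl

lemma Sub_y (e : Ω → Gen Ω) : Sub (y e) = {y e} := rfl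

lemma mem_Sub_self (x : Gen Ω) : x ∈ Sub x := by
  cases x with
  | d k x c a => rw [Sub_d]; exact Set.mem_insert _ _
  | y e => rw [Sub_y]; rfl

lemma mem_Sub_d {k : ℕ} {x : Fin k → Gen Ω} {c : Fin k → ℤ} {a : Ω} {z : Gen Ω} :
    z ∈ Sub (d k x c a) ↔ z = d k x c a ∨ ∃ i, z ∈ Sub (x i) := by
  rw [Sub_d, Set.mem_insert_iff, Set.mem_iUnion]

lemma mem_Sub_y {e : Ω → Gen Ω} {z : Gen Ω} : z ∈ Sub (y e) ↔ z = y e := by
  rw [Sub_y, Set.mem_singleton_iff]

lemma Sub_trans {x y z : Gen Ω} (hxy : x ∈ Sub y) (hyz : y ∈ Sub z) : x ∈ Sub z := by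
  induction z with
  | d k w c a ih =>
    rw [mem_Sub_d] at hyz
    rcases hyz with rfl | ⟨i, hi⟩
    · exact hxy
    · rw [mem_Sub_d]; exact Or.inr ⟨i, ih i hi⟩
  | y e _ =>
    rw [mem_Sub_y] at hyz
    subst hyz; exact hxy

lemma depth_lt_d {k : ℕ} (x : Fin k → Gen Ω) (c : Fin k → ℤ) (a : Ω) (i : Fin k) :
    depth (x i) < depth (d k x c a) := by
  rw [depth]
  exact Nat.lt_succ_of_le (Finset.le_sup (f := fun i => depth (x i)) (Finset.mem_univ i))

lemma depth_lt_of_mem {x z : Gen Ω} (h : x ∈ Sub z) : x = z ∨ depth x < depth z := by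
  induction z with
  | d k w c a ih =>
    rw [mem_Sub_d] at h
    rcases h with rfl | ⟨i, hi⟩
    · exact Or.inl rfl
    · right
      have h1 := depth_lt_d w c a i
      rcases ih i hi with rfl | h2
      · exact h1
      · exact h2.trans h1
  | y e _ =>
    rw [mem_Sub_y] at h
    exact Or.inl h

lemma Sub_finite (z : Gen Ω) : (Sub z).Finite := by
  induction z with
  | d k w c a ih =>
    rw [Sub_d]
    exact (Set.finite_iUnion ih).insert _
  | y e _ =>
    rw [Sub_y]; exact Set.finite_singleton _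

lemma Sub_antisymm {x z : Gen Ω} (h : x ∈ Sub z) (h' : z ∈ Sub x) : x = z := by
  rcases depth_lt_of_mem h with h1 | h1
  · exact h1
  rcases depth_lt_of_mem h' with h2 | h2
  · exact h2.symm
  omega

end Gen

open Gen

/-- The value of the code `(k, x, c)`. -/
noncomputable def val (k : ℕ) (x : Fin k → Gen Ω) (c : Fin k → ℤ) : FG Ω :=
  ∑ i, c i • Finsupp.single (x i) 1

/-- The rules: pairs (injective family of generators, its limit). -/
def Rules (Ω : Type) : Set ((Ω → Gen Ω) × FG Ω) :=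
  {r | (∃ k x c, r = (fun a => d k x c a, val k x c)) ∨
    ∃ e : Ω → Gen Ω, Injective e ∧ r = (e, - Finsupp.single (y e) 1)}

/-- The submonoid of infinitesimals belonging to `A`. -/
noncomputable def W (A : (Ω → Gen Ω) × FG Ω → Set Ω) : AddSubmonoid (FG Ω) :=
  AddSubmonoid.closure {w | ∃ r ∈ Rules Ω, ∃ a ∈ A r, w = Finsupp.single (r.1 a) 1 - r.2}

lemma W_mono {A A' : (Ω → Gen Ω) × FG Ω → Set Ω} (h : ∀ r, A r ⊆ A' r) : W A ≤ W A' := by
  apply AddSubmonoid.closure_mono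
  rintro w ⟨r, hr, a, ha, rfl⟩
  exact ⟨r, hr, a, h r ha, rfl⟩

/-- `A` is `p`-admissible. -/
def Adm (p : Ultrafilter Ω) (A : (Ω → Gen Ω) × FG Ω → Set Ω) : Prop := ∀ r ∈ Rules Ω, A r ∈ p

lemma Adm.inter {p : Ultrafilter Ω} {A A' : (Ω → Gen Ω) × FG Ω → Set Ω} (h : Adm p A)
    (h' : Adm p A') : Adm p (fun r => A r ∩ A' r) :=
  fun r hr => p.inter_sets (h r hr) (h' r hr)

/-- The group `G_p`. -/
def GP (_p : Ultrafilter Ω) : Type := FG Ω

noncomputable instance (p : Ultrafilter Ω) : AddCommGroup (GP p) :=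
  inferInstanceAs (AddCommGroup (FG Ω))

instance (p : Ultrafilter Ω) : TopologicalSpace (GP p) where
  IsOpen U := ∀ g ∈ U, ∃ A, Adm p A ∧ ∀ w ∈ W A, (show GP p from (show FG Ω from g) + w) ∈ U
  isOpen_univ := fun g _ => ⟨fun _ => Set.univ, fun _ _ => p.univ_sets, fun _ _ => trivial⟩
  isOpen_inter := by
    rintro U V hU hV g ⟨hgU, hgV⟩
    obtain ⟨A, hA, h1⟩ := hU g hgU
    obtain ⟨A', hA', h2⟩ := hV g hgV
    exact ⟨_, hA.inter hA', fun w hw => ⟨h1 w (W_mono (fun _ => Set.inter_subset_left) hw),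
      h2 w (W_mono (fun _ => Set.inter_subset_right) hw)⟩⟩
  isOpen_sUnion := by
    rintro S hS g ⟨U, hU, hg⟩
    obtain ⟨A, hA, h1⟩ := hS U hU g hg
    exact ⟨A, hA, fun w hw => ⟨U, hU, h1 w hw⟩⟩

lemma isOpen_GP {p : Ultrafilter Ω} {U : Set (GP p)} : IsOpen U ↔
    ∀ g ∈ U, ∃ A, Adm p A ∧ ∀ w ∈ W A, (show GP p from (show FG Ω from g) + w) ∈ U := Iff.rfl

/-- Basic neighbourhoods. -/
def nb {p : Ultrafilter Ω} (g : GP p) (A : (Ω → Gen Ω) × FG Ω → Set Ω) : Set (GP p) :=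
  {h | ∃ w ∈ W A, h = (show GP p from (show FG Ω from g) + w)}

lemma isOpen_nb {p : Ultrafilter Ω} (g : GP p) {A : (Ω → Gen Ω) × FG Ω → Set Ω} (hA : Adm p A) :
    IsOpen (nb g A) := by
  rw [isOpen_GP]
  rintro h ⟨w, hw, rfl⟩
  refine ⟨A, hA, fun w' hw' => ⟨w + w', add_mem hw hw', ?_⟩⟩
  exact add_assoc (show FG Ω from g) w w'

lemma mem_nb_self {p : Ultrafilter Ω} (g : GP p) (A : (Ω → Gen Ω) × FG Ω → Set Ω) : g ∈ nb g A :=
  ⟨0, zero_mem _, (add_zero (show FG Ω from g)).symm⟩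

lemma nb_mem_nhds {p : Ultrafilter Ω} (g : GP p) {A : (Ω → Gen Ω) × FG Ω → Set Ω}
    (hA : Adm p A) : nb g A ∈ 𝓝 g := (isOpen_nb g hA).mem_nhds (mem_nb_self g A)

lemma exists_nb {p : Ultrafilter Ω} {g : GP p} {U : Set (GP p)} (hU : U ∈ 𝓝 g) :
    ∃ A, Adm p A ∧ nb g A ⊆ U := by
  obtain ⟨V, hVU, hV, hg⟩ := mem_nhds_iff.mp hU
  obtain ⟨A, hA, h⟩ := isOpen_GP.mp hV g hg
  refine ⟨A, hA, ?_⟩
  rintro _ ⟨w, hw, rfl⟩
  exact hVU (h w hw)

instance (p : Ultrafilter Ω) : ContinuousAdd (GP p) where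
  continuous_add := by
    rw [continuous_def]
    intro U hU
    rw [isOpen_prod_iff]
    intro a b hab
    obtain ⟨A, hA, h⟩ := isOpen_GP.mp hU _ hab
    refine ⟨nb a A, nb b A, isOpen_nb a hA, isOpen_nb b hA, mem_nb_self _ _, mem_nb_self _ _, ?_⟩
    rintro ⟨_, _⟩ ⟨⟨w, hw, rfl⟩, ⟨w', hw', rfl⟩⟩
    have h1 := h (w + w') (add_mem hw hw')
    have h2 : ((show FG Ω from a) + w) + ((show FG Ω from b) + w') =
      ((show FG Ω from a) + (show FG Ω from b)) + (w + w') := by abel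
    show (show GP p from ((show FG Ω from a) + w) + ((show FG Ω from b) + w')) ∈ U
    rw [h2]
    exact h1

/-- The generators as elements of the group. -/
noncomputable def gen (p : Ultrafilter Ω) (x : Gen Ω) : GP p := (Finsupp.single x 1 : FG Ω)

lemma gen_injective (p : Ultrafilter Ω) : Injective (gen p) := by
  intro x x' h
  have : (Finsupp.single x 1 : FG Ω) = Finsupp.single x' 1 := h
  exact (Finsupp.single_left_inj (by norm_num)).mp this

/-- Every element is the value of a code. -/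
lemma exists_code' (g : FG Ω) : ∃ k x c, val (Ω := Ω) k x c = g := by
  classical
  refine ⟨g.support.card, fun i => (g.support.equivFin.symm i : Gen Ω),
    fun i => g (g.support.equivFin.symm i : Gen Ω), ?_⟩
  unfold val
  have h1 : ∑ i : Fin g.support.card, g (g.support.equivFin.symm i : Gen Ω) •
      (Finsupp.single (g.support.equivFin.symm i : Gen Ω) (1 : ℤ) : FG Ω) =
      ∑ z : g.support, g (z : Gen Ω) • (Finsupp.single (z : Gen Ω) (1 : ℤ) : FG Ω) :=
    Fintype.sum_equiv g.support.equivFin.symm _ _ (fun _ => rfl)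
  rw [h1, Finset.sum_coe_sort g.support (fun z => g z • (Finsupp.single z (1 : ℤ) : FG Ω))]
  conv_rhs => rw [← Finsupp.sum_single g]
  unfold Finsupp.sum
  apply Finset.sum_congr rfl
  intro z _
  rw [Finsupp.smul_single]
  simp

/-- The generators are dense. -/
lemma dense_gen (p : Ultrafilter Ω) : Dense (Set.range (gen p)) := by
  intro g
  rw [mem_closure_iff_nhds]
  intro U hU
  obtain ⟨A, hA, hAU⟩ := exists_nb hU
  obtain ⟨k, x, c, hg⟩ := exists_code' (show FG Ω from g)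
  have hr : (fun a => d k x c a, val k x c) ∈ Rules Ω := Or.inl ⟨k, x, c, rfl⟩
  obtain ⟨a, ha⟩ := p.nonempty_of_mem (hA _ hr)
  refine ⟨gen p (d k x c a), hAU ⟨_, AddSubmonoid.subset_closure ⟨_, hr, a, ha, rfl⟩, ?_⟩, ⟨_, rfl⟩⟩
  simp only [hg]
  unfold gen
  exact (add_sub_cancel (show FG Ω from g) _).symm

/-- `x` is an accumulation point of `B`: every neighbourhood of `x` contains infinitely many
points of `B`. -/
def AccPoint {X : Type*} [TopologicalSpace X] (B : Set X) (x : X) : Prop :=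
  ∀ U ∈ 𝓝 x, (U ∩ B).Infinite

/-- Countable pracompactness. -/
def CP (X : Type*) [TopologicalSpace X] : Prop :=
  ∃ D : Set X, Dense D ∧ ∀ B ⊆ D, B.Infinite → ∃ x, AccPoint B x

lemma cp_GP [Countable Ω] (p : Ultrafilter Ω) (hp : ∀ s : Set Ω, s.Finite → s ∉ p) : CP (GP p) := by
  refine ⟨_, dense_gen p, fun B hB hinf => ?_⟩
  -- an injective family in B
  have h1 : Nonempty (ℕ ↪ B) := ⟨hinf.natEmbedding⟩
  obtain ⟨u⟩ := h1
  obtain ⟨v, hv⟩ := Countable.exists_injective_nat Ω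
  have h2 : ∀ a : Ω, ∃ x : Gen Ω, gen p x = (u (v a) : GP p) := fun a => hB (u (v a)).2
  choose e he using h2
  have heinj : Injective e := by
    intro a a' h
    have : (u (v a) : GP p) = (u (v a') : GP p) := by rw [← he, ← he, h]
    exact hv (u.injective (Subtype.ext this))
  have hr : (e, - Finsupp.single (y e) 1) ∈ Rules Ω := Or.inr ⟨e, heinj, rfl⟩
  refine ⟨(show FG Ω from - Finsupp.single (y e) 1), fun U hU => ?_⟩
  obtain ⟨A, hA, hAU⟩ := exists_nb hU
  have h3 : (A (e, - Finsupp.single (y e) 1)).Infinite := fun hfin => hp _ hfin (hA _ hr)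
  have h4 : ((fun a => gen p (e a)) '' (A (e, - Finsupp.single (y e) 1))).Infinite :=
    h3.image ((gen_injective p).comp heinj).injOn
  refine h4.mono ?_
  rintro _ ⟨a, ha, rfl⟩
  refine ⟨hAU ⟨_, AddSubmonoid.subset_closure ⟨_, hr, a, ha, rfl⟩, ?_⟩, ?_⟩
  · unfold gen
    exact (add_sub_cancel (- Finsupp.single (y e) 1 : FG Ω) _).symm
  · simp only [he]
    exact (u (v a)).2

end Pool.Agent.H30.Prac
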