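import Pool.Agent.H30.PracGroup

set_option autoImplicit false
open Filter Function Topology

namespace Pool.Agent.H30.Prac

variable {Ω : Type}
open Gen

lemma val_apply (k : ℕ) (x : Fin k → Gen Ω) (c : Fin k → ℤ) (z : Gen Ω) (hz : val k x c z ≠ 0) :
    ∃ i, x i = z := by
  classical
  by_contra hcon
  push Not at hcon
  apply hz
  unfold val
  rw [Finsupp.finsetSum_apply]
  apply Finset.sum_eq_zero
  intro i _
  rw [Finsupp.smul_apply, Finsupp.single_apply, if_neg (hcon i), smul_zero]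

/-- `P` controls `g`. -/
def Ctrl (g : FG Ω) (P : Set (Gen Ω)) : Prop :=
  P.Finite ∧ (∀ x, g x ≠ 0 → ∃ M ∈ P, x ∈ Sub M) ∧
    (∀ M ∈ P, g M ≤ 0 → ∃ M' ∈ P, M ∈ Sub M' ∧ M' ≠ M)

lemma Ctrl.zero : Ctrl (0 : FG Ω) ∅ := by
  refine ⟨Set.finite_empty, fun x hx => absurd rfl hx, fun M hM => absurd hM (Set.notMem_empty _)⟩

lemma Ctrl.add {g g' : FG Ω} {P P' : Set (Gen Ω)} (h : Ctrl g P) (h' : Ctrl g' P') :
    Ctrl (g + g') (P ∪ P') := by
  obtain ⟨h0, h1, h2⟩ := h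
  obtain ⟨h0', h1', h2'⟩ := h'
  have aux : ∀ {g : FG Ω} {P : Set (Gen Ω)} {M : Gen Ω}, (∀ x, g x ≠ 0 → ∃ M ∈ P, x ∈ Sub M) →
      g M ≠ 0 → M ∉ P → ∃ M' ∈ P, M ∈ Sub M' ∧ M' ≠ M := by
    intro g P M h hne hM
    obtain ⟨M', hM', hs⟩ := h M hne
    exact ⟨M', hM', hs, fun e => hM (e ▸ hM')⟩
  refine ⟨h0.union h0', ?_, ?_⟩
  · intro x hx
    by_cases hgx : g x = 0
    · have : g' x ≠ 0 := by
        intro h; apply hx; rw [Finsupp.add_apply, hgx, h, add_zero]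
      obtain ⟨M, hM, hs⟩ := h1' x this
      exact ⟨M, Or.inr hM, hs⟩
    · obtain ⟨M, hM, hs⟩ := h1 x hgx
      exact ⟨M, Or.inl hM, hs⟩
  · intro M hM hle
    rw [Finsupp.add_apply] at hle
    by_cases hMP : M ∈ P
    · by_cases hgM : g M ≤ 0
      · obtain ⟨M', hM', hs⟩ := h2 M hMP hgM
        exact ⟨M', Or.inl hM', hs⟩
      · have hg' : g' M < 0 := by omega
        by_cases hMP' : M ∈ P'
        · obtain ⟨M', hM', hs⟩ := h2' M hMP' hg'.le
          exact ⟨M', Or.inr hM', hs⟩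
        · obtain ⟨M', hM', hs⟩ := aux h1' hg'.ne hMP'
          exact ⟨M', Or.inr hM', hs⟩
    · have hMP' : M ∈ P' := hM.resolve_left hMP
      by_cases hgM : g M = 0
      · obtain ⟨M', hM', hs⟩ := h2' M hMP' (by omega)
        exact ⟨M', Or.inr hM', hs⟩
      · obtain ⟨M', hM', hs⟩ := aux h1 hgM hMP
        exact ⟨M', Or.inl hM', hs⟩

lemma Ctrl.single (z : Gen Ω) : Ctrl (Finsupp.single z 1 : FG Ω) {z} := by
  classical
  refine ⟨Set.finite_singleton _, ?_, ?_⟩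
  · intro x hx
    rw [Finsupp.single_apply] at hx
    split_ifs at hx with h
    · subst h; exact ⟨z, rfl, mem_Sub_self z⟩
    · exact absurd rfl hx
  · rintro M rfl hle
    rw [Finsupp.single_eq_same] at hle
    exact absurd hle (by norm_num)

lemma Ctrl.dRule (k : ℕ) (x : Fin k → Gen Ω) (c : Fin k → ℤ) (a : Ω) :
    Ctrl (Finsupp.single (d k x c a) 1 - val k x c : FG Ω) {d k x c a} := by
  classical
  have hx : ∀ i, x i ≠ d k x c a := by
    intro i h
    have := depth_lt_d x c a i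
    rw [h] at this
    exact lt_irrefl _ this
  refine ⟨Set.finite_singleton _, ?_, ?_⟩
  · intro z hz
    refine ⟨d k x c a, rfl, ?_⟩
    rw [mem_Sub_d]
    by_cases h : z = d k x c a
    · exact Or.inl h
    · right
      have : val k x c z ≠ 0 := by
        intro h'
        apply hz
        rw [Finsupp.sub_apply, h', Finsupp.single_apply, if_neg (Ne.symm h), sub_zero]
      obtain ⟨i, hi⟩ := val_apply k x c z this
      exact ⟨i, hi ▸ mem_Sub_self _⟩
  · rintro M rfl hle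
    have : val k x c (d k x c a) = 0 := by
      by_contra h
      obtain ⟨i, hi⟩ := val_apply k x c _ h
      exact hx i hi
    rw [Finsupp.sub_apply, Finsupp.single_eq_same, this] at hle
    exact absurd hle (by norm_num)

lemma Ctrl.yRule (e : Ω → Gen Ω) (a : Ω) :
    Ctrl (Finsupp.single (e a) 1 - (- Finsupp.single (y e) 1) : FG Ω) ({e a} ∪ {y e}) := by
  rw [sub_neg_eq_add]
  exact (Ctrl.single _).add (Ctrl.single _)

lemma exists_ctrl {A : (Ω → Gen Ω) × FG Ω → Set Ω} {w : FG Ω} (hw : w ∈ W A) :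
    ∃ P, Ctrl w P := by
  unfold W at hw
  induction hw using AddSubmonoid.closure_induction with
  | mem w hw =>
    obtain ⟨r, hr, a, _, rfl⟩ := hw
    rcases hr with ⟨k, x, c, rfl⟩ | ⟨e, _, rfl⟩
    · exact ⟨_, Ctrl.dRule k x c a⟩
    · exact ⟨_, Ctrl.yRule e a⟩
  | zero => exact ⟨_, Ctrl.zero⟩
  | add w w' _ _ h h' =>
    obtain ⟨P, hP⟩ := h
    obtain ⟨P', hP'⟩ := h'
    exact ⟨_, hP.add hP'⟩

lemma Ctrl.max {g : FG Ω} {P : Set (Gen Ω)} (h : Ctrl g P) {z : Gen Ω} (hz : z ∈ P) :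
    ∃ M : Gen Ω, z ∈ Gen.Sub M ∧ 1 ≤ g M ∧ ∀ x : Gen Ω, g x ≠ 0 → M ∈ Gen.Sub x → x = M := by
  classical
  obtain ⟨h0, h1, h2⟩ := h
  have hfin : {M ∈ P | z ∈ Gen.Sub M}.Finite := h0.subset (Set.sep_subset _ _)
  obtain ⟨M, hM, hmax⟩ := Set.exists_max_image {M ∈ P | z ∈ Gen.Sub M} depth hfin
    ⟨z, hz, mem_Sub_self z⟩
  refine ⟨M, hM.2, ?_, ?_⟩
  · by_contra hlt
    push Not at hlt
    obtain ⟨M', hM', hs, hne⟩ := h2 M hM.1 (by omega)
    have h3 := hmax M' ⟨hM', Sub_trans hM.2 hs⟩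
    rcases depth_lt_of_mem hs with h4 | h4
    · exact hne h4.symm
    · omega
  · intro x hx hMx
    obtain ⟨M', hM', hs⟩ := h1 x hx
    have h3 := hmax M' ⟨hM', Sub_trans (Sub_trans hM.2 hMx) hs⟩
    rcases depth_lt_of_mem hMx with h4 | h4
    · exact h4.symm
    · rcases depth_lt_of_mem hs with h5 | h5
      · subst h5; omega
      · omega

/-- The ordered group of values. -/
abbrev Γ : Type := Colex (WithTop ℕ →₀ ℤ)

/-- The unit vectors. -/
noncomputable def ε (i : WithTop ℕ) : Γ := toColex (Finsupp.single i 1)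

/-- The subgroup of elements supported below `n`. -/
def lowG (n : ℕ) : AddSubgroup Γ where
  carrier := {v | ∀ i : WithTop ℕ, (n : WithTop ℕ) ≤ i → (ofColex v) i = 0}
  zero_mem' := fun i _ => rfl
  add_mem' := by
    intro a b ha hb i hi
    show (ofColex a) i + (ofColex b) i = 0
    rw [ha i hi, hb i hi, add_zero]
  neg_mem' := by
    intro a ha i hi
    show - (ofColex a) i = 0
    rw [ha i hi, neg_zero]

lemma mem_lowG {n : ℕ} {v : Γ} : v ∈ lowG n ↔ ∀ i : WithTop ℕ, (n : WithTop ℕ) ≤ i → (ofColex v) i = 0 :=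
  Iff.rfl

lemma lowG_mono {m n : ℕ} (h : m ≤ n) {v : Γ} (hv : v ∈ lowG m) : v ∈ lowG n := by
  intro i hi
  exact hv i (le_trans (by exact_mod_cast h) hi)

lemma eps_mem_lowG {m n : ℕ} (h : m < n) : ε (m : WithTop ℕ) ∈ lowG n := by
  classical
  intro i hi
  show (Finsupp.single (m : WithTop ℕ) (1 : ℤ)) i = 0
  rw [Finsupp.single_apply, if_neg]
  rintro rfl
  have : n ≤ m := by exact_mod_cast hi
  omega

lemma eps_pos (i : WithTop ℕ) : 0 < ε i := by
  classical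
  rw [Finsupp.Colex.lt_iff]
  refine ⟨i, ?_, ?_⟩
  · intro j hj
    show (0 : ℤ) = (Finsupp.single i (1 : ℤ)) j
    rw [Finsupp.single_apply, if_neg hj.ne]
  · show (0 : ℤ) < (Finsupp.single i (1 : ℤ)) i
    rw [Finsupp.single_eq_same]; norm_num

lemma eps_le_top (n : ℕ) : ε (n : WithTop ℕ) ≤ ε ⊤ := by
  classical
  apply le_of_lt
  rw [Finsupp.Colex.lt_iff]
  refine ⟨⊤, fun j hj => absurd hj not_top_lt, ?_⟩
  show (Finsupp.single (n : WithTop ℕ) (1 : ℤ)) ⊤ < (Finsupp.single (⊤ : WithTop ℕ) (1 : ℤ)) ⊤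
  rw [Finsupp.single_eq_same, Finsupp.single_apply,
    if_neg (show ¬ ((n : WithTop ℕ) = ⊤) from WithTop.coe_ne_top)]
  norm_num

lemma low_lt {n : ℕ} {c : ℤ} (hc : 1 ≤ c) {v b : Γ} (hv : v ∈ lowG n) (hb : b ∈ lowG n) :
    c • (- ε (n : WithTop ℕ)) + v < b := by
  classical
  rw [Finsupp.Colex.lt_iff]
  refine ⟨(n : WithTop ℕ), ?_, ?_⟩
  · intro j hj
    show c • (- (Finsupp.single (n : WithTop ℕ) (1 : ℤ)) j) + (ofColex v) j = (ofColex b) j
    rw [hv j hj.le, hb j hj.le, Finsupp.single_apply, if_neg hj.ne]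
    simp
  · show c • (- (Finsupp.single (n : WithTop ℕ) (1 : ℤ)) (n : WithTop ℕ)) + (ofColex v) (n : WithTop ℕ)
      < (ofColex b) (n : WithTop ℕ)
    rw [hv _ le_rfl, hb _ le_rfl, Finsupp.single_eq_same]
    simp only [smul_eq_mul, mul_neg, mul_one, add_zero]
    omega

section functional

variable (p : Ultrafilter Ω) (M : ℕ → Gen Ω) (B : Set ℕ)

open Classical in
/-- The functional on generators. -/
noncomputable def phi : Gen Ω → Γ
  | d k x c a => if h : ∃ n ∈ B, M n = d k x c a then - ε ((h.choose : ℕ) : WithTop ℕ) else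
      max 0 (∑ i, c i • phi (x i))
  | y e => if Injective e ∧ {a | ∃ n ∈ B, M n = e a} ∈ p then ε ⊤ else 0

variable {p M B}

lemma phi_M (hM : Injective M) {n : ℕ} (hn : n ∈ B) (hd : ∃ k x c a, M n = d k x c a) :
    phi p M B (M n) = - ε (n : WithTop ℕ) := by
  obtain ⟨k, x, c, a, h⟩ := hd
  rw [h, phi]
  have hex : ∃ m ∈ B, M m = d k x c a := ⟨n, hn, h⟩
  rw [dif_pos hex]
  have : hex.choose = n := hM (hex.choose_spec.2.trans h.symm)
  rw [this]

lemma phi_nonneg {x : Gen Ω} (hx : ¬ ∃ n ∈ B, M n = x) : 0 ≤ phi p M B x := by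
  cases x with
  | d k x c a =>
    rw [phi, dif_neg hx]
    exact le_max_left _ _
  | y e =>
    rw [phi]
    split_ifs
    · exact (eps_pos _).le
    · exact le_rfl

lemma phi_ge (hM : Injective M) (hd : ∀ n, ∃ k x c a, M n = d k x c a) (x : Gen Ω) :
    - ε ⊤ ≤ phi p M B x := by
  by_cases hx : ∃ n ∈ B, M n = x
  · obtain ⟨n, hn, rfl⟩ := hx
    rw [phi_M hM hn (hd n)]
    exact neg_le_neg (eps_le_top n)
  · exact le_trans (by rw [neg_nonpos]; exact (eps_pos _).le) (phi_nonneg hx)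

lemma phi_low {N : ℕ} {x : Gen Ω}
    (h1 : ∀ n, M n ∈ Sub x → n < N)
    (h2 : ∀ e, Injective e → y e ∈ Sub x → {a | ∃ n ∈ B, M n = e a} ∉ p) :
    phi p M B x ∈ lowG N := by
  induction x with
  | d k x c a ih =>
    rw [phi]
    split_ifs with h
    · refine neg_mem (eps_mem_lowG ?_)
      apply h1
      rw [h.choose_spec.2]
      exact mem_Sub_self _
    · have hsum : ∑ i, c i • phi p M B (x i) ∈ lowG N := by
        apply AddSubgroup.sum_mem
        intro i _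
        apply AddSubgroup.zsmul_mem
        apply ih i
        · intro n hn; exact h1 n (mem_Sub_d.mpr (Or.inr ⟨i, hn⟩))
        · intro e hinj he; exact h2 e hinj (mem_Sub_d.mpr (Or.inr ⟨i, he⟩))
      rcases max_choice (0 : Γ) (∑ i, c i • phi p M B (x i)) with h' | h'
      · rw [h']; exact zero_mem _
      · rw [h']; exact hsum
  | y e _ =>
    rw [phi, if_neg (fun h => h2 e h.1 (mem_Sub_self _) h.2)]
    exact zero_mem _

variable (p M B)

/-- The functional. -/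
noncomputable def Phi : FG Ω →+ Γ :=
  Finsupp.liftAddHom (fun x => zmultiplesHom Γ (phi p M B x))

variable {p M B}

lemma Phi_single (x : Gen Ω) (c : ℤ) : Phi p M B (Finsupp.single x c) = c • phi p M B x := by
  unfold Phi
  rw [Finsupp.liftAddHom_apply_single]
  rfl

lemma Phi_apply (g : FG Ω) : Phi p M B g = ∑ x ∈ g.support, g x • phi p M B x := by
  conv_lhs => rw [← Finsupp.sum_single g]
  unfold Finsupp.sum
  rw [map_sum]
  exact Finset.sum_congr rfl fun x _ => Phi_single x _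

lemma Phi_val (k : ℕ) (x : Fin k → Gen Ω) (c : Fin k → ℤ) :
    Phi p M B (val k x c) = ∑ i, c i • phi p M B (x i) := by
  unfold val
  rw [map_sum]
  apply Finset.sum_congr rfl
  intro i _
  rw [map_zsmul, Phi_single, one_zsmul]

/-- The neighbourhood label attached to the functional. -/
def labPhi (p : Ultrafilter Ω) (M : ℕ → Gen Ω) (B : Set ℕ) (r : (Ω → Gen Ω) × FG Ω) : Set Ω :=
  {a | 0 ≤ Phi p M B (Finsupp.single (r.1 a) 1 - r.2)}

lemma Phi_W {w : FG Ω} (hw : w ∈ W (labPhi p M B)) : 0 ≤ Phi p M B w := by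
  unfold W at hw
  induction hw using AddSubmonoid.closure_induction with
  | mem w hw =>
    obtain ⟨r, _, a, ha, rfl⟩ := hw
    exact ha
  | zero => rw [map_zero]
  | add w w' _ _ h h' => rw [map_add]; exact add_nonneg h h'

lemma adm_labPhi (hM : Injective M) (hd : ∀ n, ∃ k x c a, M n = d k x c a)
    (hB : ∀ k x c, (∃ n a, M n = d k x c a) → {a | ∃ n ∈ B, M n = d k x c a} ∉ p) :
    Adm p (labPhi p M B) := by
  rintro r (⟨k, x, c, rfl⟩ | ⟨e, he, rfl⟩)
  · have h1 : {a | ∃ n ∈ B, M n = d k x c a} ∉ p := by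
      by_cases h : ∃ n a, M n = d k x c a
      · exact hB k x c h
      · have : {a | ∃ n ∈ B, M n = d k x c a} = ∅ := by
          ext a
          simp only [Set.mem_ofPred_eq, Set.mem_empty_iff_false, iff_false]
          rintro ⟨n, _, hn⟩
          exact h ⟨n, a, hn⟩
        rw [this]
        exact p.empty_notMem
    have h2 := Ultrafilter.compl_mem_iff_notMem.mpr h1
    refine p.sets_of_superset h2 ?_
    intro a ha
    have ha' : ¬ ∃ n ∈ B, M n = d k x c a := ha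
    show 0 ≤ Phi p M B (Finsupp.single (d k x c a) 1 - val k x c)
    rw [map_sub, Phi_single, Phi_val, one_zsmul, phi, dif_neg ha', sub_nonneg]
    exact le_max_right _ _
  · by_cases h : {a | ∃ n ∈ B, M n = e a} ∈ p
    · refine p.sets_of_superset p.univ_sets ?_
      intro a _
      show 0 ≤ Phi p M B (Finsupp.single (e a) 1 - - Finsupp.single (y e) 1)
      rw [sub_neg_eq_add, map_add, Phi_single, Phi_single, one_zsmul, one_zsmul]
      have h1 : phi p M B (y e) = ε ⊤ := by rw [phi, if_pos ⟨he, h⟩]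
      rw [h1]
      have h2 := phi_ge (p := p) (B := B) hM hd (e a)
      exact neg_le_iff_add_nonneg.mp h2
    · have h2 := Ultrafilter.compl_mem_iff_notMem.mpr h
      refine p.sets_of_superset h2 ?_
      intro a ha
      show 0 ≤ Phi p M B (Finsupp.single (e a) 1 - - Finsupp.single (y e) 1)
      rw [sub_neg_eq_add, map_add, Phi_single, Phi_single, one_zsmul, one_zsmul]
      have h1 : phi p M B (y e) = 0 := by rw [phi, if_neg (fun h' => h h'.2)]
      rw [h1, add_zero]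
      exact phi_nonneg ha

lemma Phi_low {N : ℕ} {g : FG Ω}
    (h1 : ∀ n, ∀ x ∈ g.support, M n ∈ Sub x → n < N)
    (h2 : ∀ e, Injective e → ∀ x ∈ g.support, y e ∈ Sub x → {a | ∃ n ∈ B, M n = e a} ∉ p) :
    Phi p M B g ∈ lowG N := by
  rw [Phi_apply]
  apply AddSubgroup.sum_mem
  intro x hx
  apply AddSubgroup.zsmul_mem
  exact phi_low (fun n hn => h1 n x hx hn) (fun e hinj he => h2 e hinj x hx he)

end functional

/-- Data of a good sequence. -/
structure GoodSeq (M : ℕ → Gen Ω) (gs : ℕ → FG Ω) : Prop where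
  hd : ∀ n, ∃ k x c a, M n = d k x c a
  h1 : ∀ n, 1 ≤ gs n (M n)
  h2 : ∀ n x, gs n x ≠ 0 → M n ∈ Gen.Sub x → x = M n
  h3 : ∀ m n, m < n → ∀ x, gs m x ≠ 0 → M n ∉ Gen.Sub x

lemma GoodSeq.inj {M : ℕ → Gen Ω} {gs : ℕ → FG Ω} (h : GoodSeq M gs) : Injective M := by
  apply Function.Injective.of_lt_imp_ne
  intro m n hmn he
  have h1 := h.h1 m
  have : gs m (M m) ≠ 0 := by omega
  apply h.h3 m n hmn (M m) this
  rw [← he]
  exact mem_Sub_self _

lemma GoodSeq.inj' {M : ℕ → Gen Ω} {gs : ℕ → FG Ω} (h : GoodSeq M gs) : Injective gs := by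
  apply Function.Injective.of_lt_imp_ne
  intro m n hmn he
  have h1 := h.h1 n
  have : gs m (M n) ≠ 0 := by rw [he]; omega
  exact h.h3 m n hmn (M n) this (mem_Sub_self _)

/-- The relevant injective families. -/
def Fam (M : ℕ → Gen Ω) (gs : ℕ → FG Ω) (g : FG Ω) : Set (Ω → Gen Ω) :=
  {f | Injective f ∧ ((∃ k x c, f = (fun a => d k x c a) ∧ ∃ n a, M n = d k x c a) ∨
    (∃ n x, gs n x ≠ 0 ∧ y f ∈ Gen.Sub x) ∨ (∃ x, g x ≠ 0 ∧ y f ∈ Gen.Sub x))}

lemma y_injective : Injective (y : (Ω → Gen Ω) → Gen Ω) := fun _ _ h => by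
  injection h

lemma d_injective (k : ℕ) (x : Fin k → Gen Ω) (c : Fin k → ℤ) :
    Injective (fun a : Ω => d k x c a) := fun _ _ h => by
  injection h

lemma fam_aux (g : FG Ω) : {f : Ω → Gen Ω | ∃ x, g x ≠ 0 ∧ y f ∈ Gen.Sub x}.Countable := by
  have h1 : (⋃ x ∈ g.support, Gen.Sub x).Finite :=
    (Finset.finite_toSet _).biUnion fun x _ => Sub_finite x
  refine (h1.preimage (y_injective (Ω := Ω)).injOn).countable.mono ?_
  rintro f ⟨x, hx, hf⟩
  exact Set.mem_biUnion (Finsupp.mem_support_iff.mpr hx) hf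

lemma Fam_countable (M : ℕ → Gen Ω) (gs : ℕ → FG Ω) (g : FG Ω) : (Fam M gs g).Countable := by
  have h1 : {f : Ω → Gen Ω | ∃ k x c, f = (fun a => d k x c a) ∧ ∃ n a, M n = d k x c a}.Countable := by
    have : {f : Ω → Gen Ω | ∃ k x c, f = (fun a => d k x c a) ∧ ∃ n a, M n = d k x c a} ⊆
        ⋃ n, {f : Ω → Gen Ω | ∃ k x c, f = (fun a => d k x c a) ∧ ∃ a, M n = d k x c a} := by
      rintro f ⟨k, x, c, hf, n, a, h⟩
      exact Set.mem_iUnion.mpr ⟨n, k, x, c, hf, a, h⟩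
    refine (Set.countable_iUnion fun n => ?_).mono this
    apply Set.Subsingleton.countable
    rintro f ⟨k, x, c, hf, a, h⟩ f' ⟨k', x', c', hf', a', h'⟩
    rw [h] at h'
    injection h' with e1 e2 e3 e4
    subst e1
    rw [hf, hf', eq_of_heq e2, eq_of_heq e3]
  have h2 : {f : Ω → Gen Ω | ∃ n x, gs n x ≠ 0 ∧ y f ∈ Gen.Sub x}.Countable := by
    have : {f : Ω → Gen Ω | ∃ n x, gs n x ≠ 0 ∧ y f ∈ Gen.Sub x} ⊆
        ⋃ n, {f : Ω → Gen Ω | ∃ x, gs n x ≠ 0 ∧ y f ∈ Gen.Sub x} := by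
      rintro f ⟨n, h⟩
      exact Set.mem_iUnion.mpr ⟨n, h⟩
    exact (Set.countable_iUnion fun n => fam_aux (gs n)).mono this
  refine (h1.union (h2.union (fam_aux g))).mono ?_
  rintro f ⟨_, h⟩
  exact h

lemma Fam_nonempty {M : ℕ → Gen Ω} {gs : ℕ → FG Ω} (h : GoodSeq M gs) (g : FG Ω) :
    (Fam M gs g).Nonempty := by
  obtain ⟨k, x, c, a, hM⟩ := h.hd 0
  exact ⟨fun a => d k x c a, d_injective k x c, Or.inl ⟨k, x, c, rfl, 0, a, hM⟩⟩

/-- Main estimate: no accumulation at `g` along `B`. -/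
lemma no_acc (p : Ultrafilter Ω) {M : ℕ → Gen Ω} {B : Set ℕ} {gs : ℕ → FG Ω} (g : FG Ω)
    (hgood : GoodSeq M gs) (hB : ∀ f ∈ Fam M gs g, {a | ∃ n ∈ B, f a = M n} ∉ p) :
    ∃ A, Adm p A ∧ ∃ N : ℕ, ∀ n ∈ B, N ≤ n → ¬ ∃ w ∈ W A, gs n = g + w := by
  classical
  have hM := hgood.inj
  have hB' : ∀ f ∈ Fam M gs g, {a | ∃ n ∈ B, M n = f a} ∉ p := by
    intro f hf
    have : {a | ∃ n ∈ B, M n = f a} = {a | ∃ n ∈ B, f a = M n} := by
      ext a; simp only [Set.mem_ofPred_eq, eq_comm]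
    rw [this]
    exact hB f hf
  have hB1 : ∀ k x c, (∃ n a, M n = d k x c a) → {a | ∃ n ∈ B, M n = d k x c a} ∉ p := by
    intro k x c h
    exact hB' _ ⟨d_injective k x c, Or.inl ⟨k, x, c, rfl, h⟩⟩
  have hB2 : ∀ n e x, Injective e → gs n x ≠ 0 → y e ∈ Gen.Sub x →
      {a | ∃ n ∈ B, M n = e a} ∉ p := by
    intro n e x he hx hy
    exact hB' _ ⟨he, Or.inr (Or.inl ⟨n, x, hx, hy⟩)⟩
  have hB3 : ∀ e x, Injective e → g x ≠ 0 → y e ∈ Gen.Sub x →
      {a | ∃ n ∈ B, M n = e a} ∉ p := by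
    intro e x he hx hy
    exact hB' _ ⟨he, Or.inr (Or.inr ⟨x, hx, hy⟩)⟩
  refine ⟨labPhi p M B, adm_labPhi hM hgood.hd hB1, ?_⟩
  -- bound for g
  have hfin : {n | ∃ x ∈ g.support, M n ∈ Gen.Sub x}.Finite := by
    have h1 : (⋃ x ∈ g.support, Gen.Sub x).Finite :=
      (Finset.finite_toSet _).biUnion fun x _ => Sub_finite x
    refine (h1.preimage hM.injOn).subset ?_
    rintro n ⟨x, hx, hn⟩
    exact Set.mem_biUnion hx hn
  obtain ⟨N, hN⟩ := hfin.bddAbove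
  refine ⟨N + 1, fun n hnB hn => ?_⟩
  rintro ⟨w, hw, hgw⟩
  have hlow : Phi p M B g ∈ lowG n := by
    apply Phi_low
    · intro m x hx hm
      have : m ≤ N := hN ⟨x, hx, hm⟩
      omega
    · intro e he x hx hy
      exact hB3 e x he (Finsupp.mem_support_iff.mp hx) hy
  have hsplit : gs n = Finsupp.single (M n) (gs n (M n)) + (gs n).erase (M n) :=
    (Finsupp.single_add_erase _ _).symm
  have hx0 : ∀ x ∈ ((gs n).erase (M n)).support, gs n x ≠ 0 ∧ x ≠ M n := by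
    intro x hx
    have hxM : x ≠ M n := by
      rintro rfl
      exact Finsupp.mem_support_iff.mp hx (Finsupp.erase_same)
    refine ⟨?_, hxM⟩
    have := Finsupp.mem_support_iff.mp hx
    rwa [Finsupp.erase_ne hxM] at this
  have hrest : Phi p M B ((gs n).erase (M n)) ∈ lowG n := by
    apply Phi_low
    · intro m x hx hm
      obtain ⟨h0, hxM⟩ := hx0 x hx
      by_contra hmn
      push Not at hmn
      rcases Nat.eq_or_lt_of_le hmn with rfl | hlt
      · exact hxM (hgood.h2 _ x h0 hm)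
      · exact hgood.h3 n m hlt x h0 hm
    · intro e he x hx hy
      exact hB2 n e x he (hx0 x hx).1 hy
  have h1 : Phi p M B (gs n) < Phi p M B g := by
    rw [hsplit, map_add, Phi_single, phi_M hM hnB (hgood.hd n)]
    exact low_lt (hgood.h1 n) hrest hlow
  rw [hgw, map_add] at h1
  have h2 := Phi_W hw
  exact absurd h1 (not_lt.mpr (le_add_of_nonneg_right h2))

/-- Zero is the only element lying in all `W A`. -/
lemma exists_notMem_W (p : Ultrafilter Ω) (hp : ∀ s : Set Ω, s.Finite → s ∉ p) {v : FG Ω}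
    (hv : v ≠ 0) : ∃ A, Adm p A ∧ v ∉ W A := by
  classical
  set S : Set (Gen Ω) := ⋃ x ∈ v.support, Gen.Sub x with hS
  have hSfin : S.Finite := (Finset.finite_toSet _).biUnion fun x _ => Sub_finite x
  refine ⟨fun r => {a | r.1 a ∉ S}, ?_, ?_⟩
  · intro r hr
    have hinj : Injective r.1 := by
      rcases hr with ⟨k, x, c, rfl⟩ | ⟨e, he, rfl⟩
      · exact d_injective k x c
      · exact he
    have h1 : (r.1 ⁻¹' S).Finite := hSfin.preimage hinj.injOn
    have h2 := Ultrafilter.compl_mem_iff_notMem.mpr (hp _ h1)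
    exact h2
  · intro hw
    have key : ∀ w ∈ W (fun r : (Ω → Gen Ω) × FG Ω => {a | r.1 a ∉ S}), ∃ P, Ctrl w P ∧
        (∀ M ∈ P, M ∉ S ∨ ∃ e, M = y e) ∧ (P.Nonempty → ∃ M ∈ P, M ∉ S) := by
      intro w hw
      unfold W at hw
      induction hw using AddSubmonoid.closure_induction with
      | mem w hw =>
        obtain ⟨r, hr, a, ha, rfl⟩ := hw
        rcases hr with ⟨k, x, c, rfl⟩ | ⟨e, _, rfl⟩
        · refine ⟨_, Ctrl.dRule k x c a, ?_, ?_⟩
          · rintro M rfl; exact Or.inl ha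
          · intro _; exact ⟨_, rfl, ha⟩
        · refine ⟨_, Ctrl.yRule e a, ?_, ?_⟩
          · rintro M (rfl | rfl)
            · exact Or.inl ha
            · exact Or.inr ⟨e, rfl⟩
          · intro _; exact ⟨e a, Or.inl rfl, ha⟩
      | zero =>
        refine ⟨_, Ctrl.zero, fun M hM => absurd hM (Set.notMem_empty _), ?_⟩
        rintro ⟨M, hM⟩
        exact absurd hM (Set.notMem_empty _)
      | add w w' _ _ h h' =>
        obtain ⟨P, hP, hP1, hP2⟩ := h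
        obtain ⟨P', hP', hP1', hP2'⟩ := h'
        refine ⟨_, hP.add hP', ?_, ?_⟩
        · rintro M (hM | hM)
          · exact hP1 M hM
          · exact hP1' M hM
        · rintro ⟨M, hM | hM⟩
          · obtain ⟨M, hM, h⟩ := hP2 ⟨M, hM⟩
            exact ⟨M, Or.inl hM, h⟩
          · obtain ⟨M, hM, h⟩ := hP2' ⟨M, hM⟩
            exact ⟨M, Or.inr hM, h⟩
    obtain ⟨P, ⟨h0, h1, h2⟩, hP1, hP2⟩ := key v hw
    obtain ⟨x, hx⟩ := Finsupp.ne_iff.mp hv
    obtain ⟨M0, hM0, _⟩ := h1 x hx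
    obtain ⟨M1, hM1, hM1'⟩ := hP2 ⟨M0, hM0⟩
    have hfin : {M ∈ P | M ∉ S}.Finite := h0.subset (Set.sep_subset _ _)
    obtain ⟨M, hM, hmax⟩ := Set.exists_max_image {M ∈ P | M ∉ S} depth hfin ⟨M1, hM1, hM1'⟩
    have hvM : v M = 0 := by
      by_contra h
      apply hM.2
      rw [hS]
      exact Set.mem_biUnion (Finsupp.mem_support_iff.mpr h) (mem_Sub_self _)
    obtain ⟨M', hM', hs, hne⟩ := h2 M hM.1 hvM.le
    have h3 : M' ∉ S := by
      rcases hP1 M' hM' with h | ⟨e, rfl⟩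
      · exact h
      · rw [mem_Sub_y] at hs
        exact absurd hs.symm hne
    have h4 := hmax M' ⟨hM', h3⟩
    rcases depth_lt_of_mem hs with h5 | h5
    · exact hne h5.symm
    · omega

lemma t1_GP (p : Ultrafilter Ω) (hp : ∀ s : Set Ω, s.Finite → s ∉ p) : T1Space (GP p) := by
  refine ⟨fun x => ?_⟩
  rw [← isOpen_compl_iff, isOpen_GP]
  intro g hg
  have hne : (show FG Ω from x) - (show FG Ω from g) ≠ 0 := by
    intro h
    apply hg
    exact (sub_eq_zero.mp h).symm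
  obtain ⟨A, hA, h⟩ := exists_notMem_W p hp hne
  refine ⟨A, hA, fun w hw hmem => h ?_⟩
  have h1 : (show FG Ω from g) + w = (show FG Ω from x) := hmem
  have h2 : (show FG Ω from x) - (show FG Ω from g) = w := by
    rw [← h1]; exact add_sub_cancel_left _ _
  rw [h2]
  exact hw

/-- Finding the next term. -/
lemma next_term [Infinite Ω] (S : Set (Gen Ω)) (hS : S.Finite)
    (hcl : ∀ x z : Gen Ω, z ∈ S → x ∈ Gen.Sub z → x ∈ S) :
    ∃ z : Gen Ω, ∀ w ∈ W (fun _ : (Ω → Gen Ω) × FG Ω => (Set.univ : Set Ω)), ∃ M : Gen Ω,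
      M ∉ S ∧ (∃ k x c a, M = d k x c a) ∧ 1 ≤ (Finsupp.single z 1 + w : FG Ω) M ∧
      ∀ x : Gen Ω, (Finsupp.single z 1 + w : FG Ω) x ≠ 0 → M ∈ Gen.Sub x → x = M := by
  have h1 : ∃ a : Ω, d 0 Fin.elim0 Fin.elim0 a ∉ S := by
    have h2 : ((fun a : Ω => d 0 Fin.elim0 Fin.elim0 a) ⁻¹' S).Finite :=
      hS.preimage (d_injective _ _ _).injOn
    obtain ⟨a, ha⟩ := h2.exists_notMem
    exact ⟨a, ha⟩
  obtain ⟨a, ha⟩ := h1
  refine ⟨d 0 Fin.elim0 Fin.elim0 a, fun w hw => ?_⟩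
  obtain ⟨P, hP⟩ := exists_ctrl hw
  have h3 := (Ctrl.single (d 0 Fin.elim0 Fin.elim0 a)).add hP
  obtain ⟨M, hM1, hM2, hM3⟩ := h3.max (z := d 0 Fin.elim0 Fin.elim0 a) (Or.inl rfl)
  refine ⟨M, fun hMS => ha (hcl _ _ hMS hM1), ?_, hM2, hM3⟩
  cases M with
  | d k x c b => exact ⟨k, x, c, b, rfl⟩
  | y e =>
    rw [mem_Sub_y] at hM1
    exact absurd hM1 (by simp)

/-- The statement about the sequence of terms. -/
def Good (S : Set (Gen Ω)) (M : Gen Ω) (g : FG Ω) : Prop :=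
  M ∉ S ∧ (∃ k x c a, M = d k x c a) ∧ 1 ≤ g M ∧ ∀ x : Gen Ω, g x ≠ 0 → M ∈ Gen.Sub x → x = M

lemma main_not {Ω' : Type} [Infinite Ω] [Infinite Ω'] (p : Ultrafilter Ω) (q : Ultrafilter Ω')
    (hsep : ∀ {M : ℕ → Gen Ω} {M' : ℕ → Gen Ω'} (_ : Injective M) (_ : Injective M')
      {f : ℕ → Ω → Gen Ω} {f' : ℕ → Ω' → Gen Ω'} (_ : ∀ l, Injective (f l))
      (_ : ∀ l, Injective (f' l)), ∃ B : Set ℕ, (∀ l, {a | ∃ n ∈ B, f l a = M n} ∉ p) ∧
      (∀ l, {a | ∃ n ∉ B, f' l a = M' n} ∉ q)) :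
    ¬ CP (GP p × GP q) := by
  classical
  rintro ⟨D, hD, hacc⟩
  -- the sequence
  have hseq : ∃ u : ℕ → (FG Ω × FG Ω') × (Gen Ω × Gen Ω'),
      (∀ n, ((((u n).1.1 : GP p), ((u n).1.2 : GP q)) : GP p × GP q) ∈ D ∧
        Good ∅ (u n).2.1 (u n).1.1 ∧ Good ∅ (u n).2.2 (u n).1.2) ∧
      ∀ m n, m < n → (∀ x, (u m).1.1 x ≠ 0 → (u n).2.1 ∉ Gen.Sub x) ∧
        (∀ x, (u m).1.2 x ≠ 0 → (u n).2.2 ∉ Gen.Sub x) := by
    apply exists_seq_of_forall_finset_exists
      (fun u : (FG Ω × FG Ω') × (Gen Ω × Gen Ω') => (((u.1.1 : GP p), (u.1.2 : GP q)) : GP p × GP q) ∈ D ∧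
        Good ∅ u.2.1 u.1.1 ∧ Good ∅ u.2.2 u.1.2)
      (fun u v => (∀ x, u.1.1 x ≠ 0 → v.2.1 ∉ Gen.Sub x) ∧ (∀ x, u.1.2 x ≠ 0 → v.2.2 ∉ Gen.Sub x))
    intro s _
    set S : Set (Gen Ω) := ⋃ u ∈ s, ⋃ x ∈ u.1.1.support, Gen.Sub x with hS
    set S' : Set (Gen Ω') := ⋃ u ∈ s, ⋃ x ∈ u.1.2.support, Gen.Sub x with hS'
    have hSfin : S.Finite := (Finset.finite_toSet _).biUnion fun u _ =>
      (Finset.finite_toSet _).biUnion fun x _ => Sub_finite x
    have hSfin' : S'.Finite := (Finset.finite_toSet _).biUnion fun u _ =>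
      (Finset.finite_toSet _).biUnion fun x _ => Sub_finite x
    have hcl : ∀ x z : Gen Ω, z ∈ S → x ∈ Gen.Sub z → x ∈ S := by
      intro x z hz hx
      simp only [hS, Set.mem_iUnion] at hz ⊢
      obtain ⟨u, hu, v, hv, h⟩ := hz
      exact ⟨u, hu, v, hv, Sub_trans hx h⟩
    have hcl' : ∀ x z : Gen Ω', z ∈ S' → x ∈ Gen.Sub z → x ∈ S' := by
      intro x z hz hx
      simp only [hS', Set.mem_iUnion] at hz ⊢
      obtain ⟨u, hu, v, hv, h⟩ := hz
      exact ⟨u, hu, v, hv, Sub_trans hx h⟩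
    obtain ⟨z, hz⟩ := next_term S hSfin hcl
    obtain ⟨z', hz'⟩ := next_term S' hSfin' hcl'
    have hA : Adm p (fun _ => Set.univ) := fun _ _ => p.univ_sets
    have hA' : Adm q (fun _ => Set.univ) := fun _ _ => q.univ_sets
    have hnb : (nb (gen p z) (fun _ => Set.univ)) ×ˢ (nb (gen q z') (fun _ => Set.univ)) ∈
        𝓝 ((gen p z, gen q z') : GP p × GP q) :=
      prod_mem_nhds (nb_mem_nhds _ hA) (nb_mem_nhds _ hA')
    obtain ⟨⟨g, h⟩, hgD, hg, hh⟩ := hD.inter_nhds_nonempty hnb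
    obtain ⟨w, hw, hg⟩ := hg
    obtain ⟨w', hw', hh⟩ := hh
    obtain ⟨M, hM1, hM2⟩ := hz w hw
    obtain ⟨M', hM1', hM2'⟩ := hz' w' hw'
    simp only at hg hh
    refine ⟨((g, h), (M, M')), ⟨hgD, ⟨Set.notMem_empty _, ?_⟩, ⟨Set.notMem_empty _, ?_⟩⟩, ?_⟩
    · rw [show (g : FG Ω) = Finsupp.single z 1 + w from hg]
      exact hM2
    · rw [show (h : FG Ω') = Finsupp.single z' 1 + w' from hh]
      exact hM2'
    · intro u hu
      refine ⟨fun x hx hMx => hM1 ?_, fun x hx hMx => hM1' ?_⟩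
      · simp only [hS, Set.mem_iUnion]
        exact ⟨u, hu, x, Finsupp.mem_support_iff.mpr hx, hMx⟩
      · simp only [hS', Set.mem_iUnion]
        exact ⟨u, hu, x, Finsupp.mem_support_iff.mpr hx, hMx⟩
  obtain ⟨u, hu1, hu2⟩ := hseq
  have hgood : GoodSeq (fun n => (u n).2.1) (fun n => (u n).1.1) :=
    ⟨fun n => (hu1 n).2.1.2.1, fun n => (hu1 n).2.1.2.2.1, fun n x h1 h2 => (hu1 n).2.1.2.2.2 x h1 h2,
      fun m n hmn => (hu2 m n hmn).1⟩
  have hgood' : GoodSeq (fun n => (u n).2.2) (fun n => (u n).1.2) :=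
    ⟨fun n => (hu1 n).2.2.2.1, fun n => (hu1 n).2.2.2.2.1, fun n x h1 h2 => (hu1 n).2.2.2.2.2 x h1 h2,
      fun m n hmn => (hu2 m n hmn).2⟩
  let T : ℕ → GP p × GP q := fun n => (((u n).1.1 : GP p), ((u n).1.2 : GP q))
  have hTinj : Injective T := by
    intro m n h
    exact hgood.inj' (congrArg Prod.fst h)
  obtain ⟨⟨g, h⟩, hgh⟩ := hacc (Set.range T) (by rintro _ ⟨n, rfl⟩; exact (hu1 n).1)
    (Set.infinite_range_of_injective hTinj)
  obtain ⟨f, hf⟩ := (Fam_countable (fun n => (u n).2.1) (fun n => (u n).1.1) g).exists_eq_range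
    (Fam_nonempty hgood g)
  obtain ⟨f', hf'⟩ := (Fam_countable (fun n => (u n).2.2) (fun n => (u n).1.2) h).exists_eq_range
    (Fam_nonempty hgood' h)
  have hfi : ∀ l, Injective (f l) := fun l => by
    have : f l ∈ Fam (fun n => (u n).2.1) (fun n => (u n).1.1) g := by rw [hf]; exact ⟨l, rfl⟩
    exact this.1
  have hfi' : ∀ l, Injective (f' l) := fun l => by
    have : f' l ∈ Fam (fun n => (u n).2.2) (fun n => (u n).1.2) h := by rw [hf']; exact ⟨l, rfl⟩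
    exact this.1
  obtain ⟨B, hB, hB'⟩ := hsep hgood.inj hgood'.inj hfi hfi'
  obtain ⟨A, hA, N, hN⟩ := no_acc p (B := B) g hgood (by
    intro φ hφ
    rw [hf] at hφ
    obtain ⟨l, rfl⟩ := hφ
    exact hB l)
  obtain ⟨A', hA', N', hN'⟩ := no_acc q (B := Bᶜ) h hgood' (by
    intro φ hφ
    rw [hf'] at hφ
    obtain ⟨l, rfl⟩ := hφ
    exact hB' l)
  have hnb : (nb (g : GP p) A) ×ˢ (nb (h : GP q) A') ∈ 𝓝 ((g, h) : GP p × GP q) :=
    prod_mem_nhds (nb_mem_nhds _ hA) (nb_mem_nhds _ hA')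
  have hinf := hgh _ hnb
  apply hinf
  refine ((Set.finite_lt_nat (max N N')).image T).subset ?_
  rintro _ ⟨⟨⟨w, hw, h1⟩, ⟨w', hw', h2⟩⟩, ⟨n, rfl⟩⟩
  refine ⟨n, ?_, rfl⟩
  by_contra hn
  have hn' : max N N' ≤ n := not_lt.mp hn
  by_cases hnB : n ∈ B
  · exact hN n hnB ((le_max_left _ _).trans hn') ⟨w, hw, h1⟩
  · exact hN' n hnB ((le_max_right _ _).trans hn') ⟨w', hw', h2⟩

instance : Infinite Om := Infinite.of_injective
  (fun k : ℕ => (⟨k, fun _ => ⟨0, by positivity⟩⟩ : Om)) (fun _ _ h => congrArg Sigma.fst h)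

instance : Infinite Om' := Infinite.of_injective
  (fun k : ℕ => (⟨k, ⟨0, nn_pos k⟩⟩ : Om')) (fun _ _ h => congrArg Sigma.fst h)

lemma qU_finite (s : Set Om') (hs : s.Finite) : s ∉ qU := qU_small (small_finite hs)

theorem main : ∃ p : Ultrafilter Om, T1Space (GP p) ∧ T1Space (GP qU) ∧ CP (GP p) ∧ CP (GP qU) ∧
    ¬ CP (GP p × GP qU) := by
  obtain ⟨p, hp0, hp⟩ := exists_p
  refine ⟨p, t1_GP p hp0, t1_GP qU qU_finite, cp_GP p hp0, cp_GP qU qU_finite, ?_⟩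
  apply main_not
  intro M M' hM hM' f f' hf hf'
  exact sep hp0 hp hM hM' hf hf'

end Pool.Agent.H30.Prac
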