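import Mathlib

set_option autoImplicit false
open Filter Function

namespace Pool.Agent.H30.Prac

/-- Colour selection. -/
lemma exists_colour {X : Type*} (S : ℕ → Finset X) (f : X → ℕ) (k : ℕ) :
    ∃ a < (k + 1) ^ 2, ∀ j ≤ k, (k + 1) * ((S j).filter (fun x => f x = a)).card ≤ (S j).card := by
  classical
  set cost : ℕ → ℚ := fun a => ∑ j ∈ Finset.range (k + 1),
    (((S j).filter (fun x => f x = a)).card : ℚ) / (S j).card with hcost
  have hsum : ∑ a ∈ Finset.range ((k + 1) ^ 2), cost a ≤
      ∑ _a ∈ Finset.range ((k + 1) ^ 2), (1 : ℚ) / (k + 1) := by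
    have h1 : ∑ a ∈ Finset.range ((k + 1) ^ 2), cost a ≤ k + 1 := by
      rw [hcost, Finset.sum_comm]
      calc ∑ j ∈ Finset.range (k + 1), ∑ a ∈ Finset.range ((k + 1) ^ 2),
            (((S j).filter (fun x => f x = a)).card : ℚ) / (S j).card
          ≤ ∑ j ∈ Finset.range (k + 1), (1 : ℚ) := by
            apply Finset.sum_le_sum
            intro j _
            rw [← Finset.sum_div]
            apply div_le_one_of_le₀ _ (by positivity)
            have h2 : ∑ a ∈ Finset.range ((k + 1) ^ 2), ((S j).filter (fun x => f x = a)).card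
                ≤ (S j).card := by
              rw [← Finset.card_biUnion]
              · apply Finset.card_le_card
                intro x hx
                simp only [Finset.mem_biUnion, Finset.mem_filter] at hx
                obtain ⟨a, _, hx, _⟩ := hx
                exact hx
              · intro a _ b _ hab
                rw [Function.onFun, Finset.disjoint_left]
                intro x hx hx'
                simp only [Finset.mem_filter] at hx hx'
                exact hab (hx.2.symm.trans hx'.2)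
            exact_mod_cast h2
        _ = k + 1 := by simp
    refine h1.trans (le_of_eq ?_)
    rw [Finset.sum_const, Finset.card_range, nsmul_eq_mul]
    push_cast
    field_simp
  obtain ⟨a, ha, hle⟩ := Finset.exists_le_of_sum_le
    (Finset.nonempty_range_iff.mpr (by positivity)) hsum
  refine ⟨a, Finset.mem_range.mp ha, fun j hj => ?_⟩
  have h3 : (((S j).filter (fun x => f x = a)).card : ℚ) / (S j).card ≤ 1 / (k + 1) := by
    refine le_trans ?_ hle
    exact Finset.single_le_sum (f := fun j => (((S j).filter (fun x => f x = a)).card : ℚ) / (S j).card)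
      (fun i _ => by positivity) (Finset.mem_range.mpr (by omega))
  rcases Nat.eq_zero_or_pos (S j).card with h0 | h0
  · have : (S j).filter (fun x => f x = a) = ∅ := by
      rw [Finset.card_eq_zero.mp h0]; simp
    rw [this]; simp
  · have h0' : (0 : ℚ) < (S j).card := by exact_mod_cast h0
    rw [div_le_div_iff₀ h0' (by positivity)] at h3
    have h4 : (((k + 1) * ((S j).filter (fun x => f x = a)).card : ℕ) : ℚ) ≤ ((S j).card : ℕ) := by
      push_cast; linarith
    exact_mod_cast h4

/-- The level `k`. -/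
abbrev Lv (k : ℕ) : Type := (Fin k → Bool) → Fin ((k + 1) ^ 2)

/-- The index set carrying the first ultrafilter. -/
abbrev Om : Type := Σ k, Lv k

/-- Code of a sequence of finite sets by a 0-1 sequence. -/
lemma exists_code : ∃ ξ : (ℕ → Finset Om) → ℕ → Bool, Injective ξ := by
  classical
  obtain ⟨c, hc⟩ := Countable.exists_injective_nat (ℕ × Om)
  refine ⟨fun F m => decide (∃ j x, c (j, x) = m ∧ x ∈ F j), fun F F' h => ?_⟩
  funext j
  ext x
  have key : ∀ G : ℕ → Finset Om, (decide (∃ j' x', c (j', x') = c (j, x) ∧ x' ∈ G j') = true) ↔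
      x ∈ G j := by
    intro G
    rw [decide_eq_true_iff]
    constructor
    · rintro ⟨j', x', h1, h2⟩
      have := hc h1
      simp only [Prod.mk.injEq] at this
      obtain ⟨rfl, rfl⟩ := this
      exact h2
    · intro h; exact ⟨j, x, rfl, h⟩
  rw [← key F, ← key F']
  have := congrFun h (c (j, x))
  simp only at this
  rw [this]

/-- Number of points below level `2 (j+1)^4`. -/
def Cst (j : ℕ) : ℕ := (Finset.range (2 * (j + 1) ^ 4)).sum (fun k => Fintype.card (Lv k))

theorem exists_p : ∃ p : Ultrafilter Om, (∀ s : Set Om, s.Finite → s ∉ p) ∧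
    ∀ F : ℕ → Finset Om, ∃ A ∈ p, ∀ j, ∀ S : Finset Om, (∀ x ∈ S, x ∈ F j ∧ x ∈ A) →
      2 * (j + 1) ^ 4 * S.card ≤ 2 * (j + 1) ^ 4 * Cst j + (F j).card := by
  classical
  obtain ⟨ξ, hξ⟩ := exists_code
  -- colours
  have hcol : ∀ (F : ℕ → Finset Om) (k : ℕ), ∃ a < (k + 1) ^ 2, ∀ j ≤ k,
      (k + 1) * (({x ∈ F j | x.1 = k}).filter
        (fun x => ((x.2 (fun i => ξ F i) : ℕ)) = a)).card ≤ ({x ∈ F j | x.1 = k}).card :=
    fun F k => exists_colour (fun j => {x ∈ F j | x.1 = k}) (fun x => (x.2 (fun i => ξ F i) : ℕ)) k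
  choose a ha hcol using hcol
  let AA : (ℕ → Finset Om) → ℕ → Set Om := fun F N =>
    {x | N ≤ x.1 ∧ (x.2 (fun i => ξ F i) : ℕ) = a F x.1}
  have hfip : ∀ T : Finset (Set Om), (↑T : Set (Set Om)) ⊆ Set.range (fun FN : (ℕ → Finset Om) × ℕ =>
      AA FN.1 FN.2) → (⋂₀ (↑T : Set (Set Om))).Nonempty := by
    intro T hT
    have hT' : ∀ t : Set Om, t ∈ T → ∃ FN : (ℕ → Finset Om) × ℕ, AA FN.1 FN.2 = t := by
      intro t ht
      exact hT ht
    choose! FN hFN using hT'
    have hev : ∀ᶠ k in atTop, ∀ t ∈ T, ∀ t' ∈ T, ((FN t).2 ≤ k) ∧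
        ((fun i : Fin k => ξ (FN t).1 i) = (fun i : Fin k => ξ (FN t').1 i) → (FN t).1 = (FN t').1) := by
      rw [eventually_all_finset]
      intro t _
      rw [eventually_all_finset]
      intro t' _
      refine (eventually_ge_atTop _).and ?_
      by_cases heq : (FN t).1 = (FN t').1
      · exact Eventually.of_forall fun k _ => heq
      · have hne : ξ (FN t).1 ≠ ξ (FN t').1 := fun h => heq (hξ h)
        obtain ⟨i, hi⟩ := Function.ne_iff.mp hne
        filter_upwards [eventually_gt_atTop i] with k hk h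
        exact absurd (congrFun h ⟨i, hk⟩) hi
    obtain ⟨k, hk⟩ := hev.exists
    let e : Lv k := fun s => if h : ∃ t ∈ T, (fun i : Fin k => ξ (FN t).1 i) = s then
      ⟨a (FN h.choose).1 k, ha _ _⟩ else ⟨0, by positivity⟩
    refine ⟨⟨k, e⟩, ?_⟩
    rw [Set.mem_sInter]
    intro t ht
    have ht' : t ∈ T := ht
    rw [← hFN t ht']
    refine ⟨(hk t ht' t ht').1, ?_⟩
    have hex : ∃ t' ∈ T, (fun i : Fin k => ξ (FN t').1 i) = (fun i : Fin k => ξ (FN t).1 i) :=
      ⟨t, ht', rfl⟩
    have h1 : e (fun i : Fin k => ξ (FN t).1 i) = ⟨a (FN hex.choose).1 k, ha _ _⟩ := by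
      simp only [e]
      rw [dif_pos hex]
    have h2 : (FN hex.choose).1 = (FN t).1 :=
      (hk _ hex.choose_spec.1 t ht').2 hex.choose_spec.2
    show ((e (fun i : Fin k => ξ (FN t).1 i)) : ℕ) = a (FN t).1 k
    rw [h1, h2]
  obtain ⟨p, hp⟩ := Ultrafilter.exists_ultrafilter_of_finite_inter_nonempty _ hfip
  refine ⟨p, ?_, ?_⟩
  · intro s hs hsp
    obtain ⟨N, hN⟩ : ∃ N, ∀ x ∈ s, x.1 < N := by
      obtain ⟨N, hN⟩ := (hs.image Sigma.fst).bddAbove
      exact ⟨N + 1, fun x hx => Nat.lt_succ_of_le (hN (Set.mem_image_of_mem _ hx))⟩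
    have h1 : AA (fun _ => ∅) N ∈ p := hp ⟨(_, N), rfl⟩
    have h2 := p.inter_sets hsp h1
    have h3 : s ∩ AA (fun _ => ∅) N = ∅ := by
      ext x
      simp only [Set.mem_inter_iff, Set.mem_empty_iff_false, iff_false, not_and]
      intro hx hx'
      have := hN x hx
      have := hx'.1
      omega
    rw [h3] at h2
    exact p.empty_notMem h2
  · intro F
    refine ⟨AA F 0, hp ⟨(F, 0), rfl⟩, fun j S hSsub => ?_⟩
    set φ := 2 * (j + 1) ^ 4 with hφ
    have hφj : j ≤ φ := by
      have : j + 1 ≤ (j + 1) ^ 4 := Nat.le_self_pow (by norm_num) _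
      omega
    have hsplit : S.card = (S.filter (fun x => x.1 < φ)).card +
        (S.filter (fun x => ¬ x.1 < φ)).card := (Finset.card_filter_add_card_filter_not _).symm
    have h1 : (S.filter (fun x => x.1 < φ)).card ≤ Cst j := by
      have : S.filter (fun x => x.1 < φ) ⊆ (Finset.range φ).sigma (fun k => (Finset.univ : Finset (Lv k))) := by
        intro x hx
        rw [Finset.mem_filter] at hx
        rw [Finset.mem_sigma]
        exact ⟨Finset.mem_range.mpr hx.2, Finset.mem_univ _⟩
      refine (Finset.card_le_card this).trans ?_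
      rw [Finset.card_sigma]
      exact le_of_eq rfl
    have h2 : φ * (S.filter (fun x => ¬ x.1 < φ)).card ≤ (F j).card := by
      set S2 := S.filter (fun x => ¬ x.1 < φ) with hS2
      set F2 := (F j).filter (fun x => ¬ x.1 < φ) with hF2
      have hc1 : S2.card = ∑ k ∈ (F2.image Sigma.fst), (S2.filter (fun x => x.1 = k)).card := by
        apply Finset.card_eq_sum_card_fiberwise
        intro x hx
        simp only [hS2, Finset.coe_filter, Set.mem_ofPred_eq] at hx
        simp only [hF2, Finset.coe_image, Finset.coe_filter, Set.mem_image, Set.mem_ofPred_eq]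
        exact ⟨x, ⟨(hSsub x hx.1).1, hx.2⟩, rfl⟩
      have hc2 : F2.card = ∑ k ∈ (F2.image Sigma.fst), (F2.filter (fun x => x.1 = k)).card := by
        apply Finset.card_eq_sum_card_fiberwise
        intro x hx
        exact Finset.mem_coe.mpr (Finset.mem_image_of_mem _ hx)
      refine le_trans ?_ (Finset.card_le_card (Finset.filter_subset _ _) : F2.card ≤ (F j).card)
      rw [hc1, hc2, Finset.mul_sum]
      apply Finset.sum_le_sum
      intro k hk
      rw [Finset.mem_image] at hk
      obtain ⟨x, hx, rfl⟩ := hk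
      rw [hF2, Finset.mem_filter] at hx
      have hxk : φ ≤ x.1 := by omega
      have hcol' := hcol F x.1 j (by omega)
      have e1 : (S2.filter (fun y => y.1 = x.1)).card ≤ (({y ∈ F j | y.1 = x.1}).filter
        (fun y => ((y.2 (fun i => ξ F i) : ℕ)) = a F x.1)).card := by
        apply Finset.card_le_card
        intro y hy
        simp only [hS2, Finset.mem_filter] at hy
        simp only [Finset.mem_filter]
        obtain ⟨⟨hy0, _⟩, hy3⟩ := hy
        obtain ⟨hy1, hy2⟩ := hSsub y hy0
        refine ⟨⟨hy1, hy3⟩, ?_⟩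
        rw [← hy3]
        exact hy2.2
      have e2 : ({y ∈ F j | y.1 = x.1}).card = (F2.filter (fun y => y.1 = x.1)).card := by
        congr 1
        ext y
        simp only [hF2, Finset.mem_filter]
        constructor
        · rintro ⟨h1, h2⟩
          exact ⟨⟨h1, by rw [h2]; exact hx.2⟩, h2⟩
        · rintro ⟨⟨h1, _⟩, h2⟩
          exact ⟨h1, h2⟩
      calc φ * (S2.filter (fun y => y.1 = x.1)).card
          ≤ (x.1 + 1) * (({y ∈ F j | y.1 = x.1}).filter
        (fun y => ((y.2 (fun i => ξ F i) : ℕ)) = a F x.1)).card := Nat.mul_le_mul (by omega) e1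
        _ ≤ _ := hcol'
        _ = _ := e2
    calc φ * S.card = φ * (S.filter (fun x => x.1 < φ)).card +
        φ * (S.filter (fun x => ¬ x.1 < φ)).card := by rw [hsplit]; ring
      _ ≤ φ * Cst j + (F j).card := by gcongr

/-- Sizes of the blocks carrying the second ultrafilter. -/
def nn (j : ℕ) : ℕ := 2 * (j + 1) ^ 2 * Cst j + 1

/-- The index set carrying the second ultrafilter. -/
abbrev Om' : Type := Σ j : ℕ, Fin (nn j)

open Classical in
/-- Number of points of `A` in the block `j`. -/
noncomputable def cnt (A : Set Om') (j : ℕ) : ℕ :=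
  ((Finset.univ : Finset (Fin (nn j))).filter (fun i => (⟨j, i⟩ : Om') ∈ A)).card

/-- Small sets. -/
def Small (A : Set Om') : Prop := ∀ N : ℕ, ∀ᶠ j in atTop, N * cnt A j ≤ nn j

lemma cnt_mono {A B : Set Om'} (h : A ⊆ B) (j : ℕ) : cnt A j ≤ cnt B j := by
  classical
  apply Finset.card_le_card
  intro x hx
  simp only [Finset.mem_filter, Finset.mem_univ, true_and] at hx ⊢
  exact h hx

lemma cnt_union (A B : Set Om') (j : ℕ) : cnt (A ∪ B) j ≤ cnt A j + cnt B j := by
  classical
  unfold cnt
  refine le_trans (Finset.card_le_card ?_) (Finset.card_union_le _ _)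
  intro x hx
  simp only [Finset.mem_filter, Finset.mem_univ, true_and, Finset.mem_union, Set.mem_union] at hx ⊢
  exact hx

/-- The filter of complements of small sets. -/
def qFilter : Filter Om' where
  sets := {A | Small Aᶜ}
  univ_sets := by
    intro N
    refine Eventually.of_forall fun j => ?_
    simp [cnt]
  sets_of_superset := by
    intro A B hA hAB N
    filter_upwards [hA N] with j hj
    exact le_trans (Nat.mul_le_mul_left _ (cnt_mono (Set.compl_subset_compl.mpr hAB) j)) hj
  inter_sets := by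
    intro A B hA hB N
    filter_upwards [hA (2 * N), hB (2 * N)] with j h1 h2
    rw [Set.compl_inter]
    have := cnt_union Aᶜ Bᶜ j
    nlinarith

lemma nn_pos (j : ℕ) : 0 < nn j := by unfold nn; positivity

instance qFilter_neBot : NeBot qFilter := by
  rw [neBot_iff]
  intro h
  have h1 : (∅ : Set Om') ∈ qFilter := by rw [h]; exact mem_bot
  have h2 : Small (∅ : Set Om')ᶜ := h1
  obtain ⟨j, hj⟩ := (h2 2).exists
  have h3 : cnt (∅ : Set Om')ᶜ j = nn j := by simp [cnt]
  rw [h3] at hj
  have := nn_pos j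
  omega

/-- The second ultrafilter. -/
noncomputable def qU : Ultrafilter Om' := Ultrafilter.of qFilter

lemma qU_small {A : Set Om'} (hA : Small A) : A ∉ qU := by
  intro h
  have h1 : Aᶜ ∈ qFilter := by
    show Small Aᶜᶜ
    rwa [compl_compl]
  have h2 : Aᶜ ∈ qU := Ultrafilter.of_le qFilter h1
  have h3 := qU.inter_sets h h2
  rw [Set.inter_compl_self] at h3
  exact qU.empty_notMem h3

lemma small_finite {A : Set Om'} (hA : A.Finite) : Small A := by
  classical
  intro N
  obtain ⟨K, hK⟩ := (hA.image Sigma.fst).bddAbove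
  filter_upwards [eventually_gt_atTop K] with j hj
  have : cnt A j = 0 := by
    unfold cnt
    rw [Finset.card_eq_zero, Finset.filter_eq_empty_iff]
    intro x _ hx
    have := hK (Set.mem_image_of_mem _ hx)
    simp only at this
    omega
  rw [this]; simp

/-- The separation property. -/
theorem sep {p : Ultrafilter Om} (hp0 : ∀ s : Set Om, s.Finite → s ∉ p)
    (hp : ∀ F : ℕ → Finset Om, ∃ A ∈ p, ∀ j, ∀ S : Finset Om, (∀ x ∈ S, x ∈ F j ∧ x ∈ A) →
      2 * (j + 1) ^ 4 * S.card ≤ 2 * (j + 1) ^ 4 * Cst j + (F j).card)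
    {X X' : Type*} {M : ℕ → X} {M' : ℕ → X'} (hM : Injective M) (hM' : Injective M')
    {f : ℕ → Om → X} {f' : ℕ → Om' → X'} (hf : ∀ l, Injective (f l)) (hf' : ∀ l, Injective (f' l)) :
    ∃ B : Set ℕ, (∀ l, {a | ∃ n ∈ B, f l a = M n} ∉ p) ∧
      (∀ l, {a | ∃ n ∉ B, f' l a = M' n} ∉ qU) := by
  classical
  -- transfer maps
  have hne : Nonempty Om := ⟨⟨0, fun _ => ⟨0, by norm_num⟩⟩⟩
  let τ : ℕ → ℕ → Om' → Om := fun l i k =>
    if h : ∃ ω n, f l ω = M n ∧ f' i k = M' n then h.choose else Classical.arbitrary _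
  have hτ : ∀ l i k ω n, f l ω = M n → f' i k = M' n → τ l i k = ω := by
    intro l i k ω n h1 h2
    have hex : ∃ ω n, f l ω = M n ∧ f' i k = M' n := ⟨ω, n, h1, h2⟩
    have h3 : τ l i k = hex.choose := by simp only [τ]; rw [dif_pos hex]
    obtain ⟨n', h4, h5⟩ := hex.choose_spec
    rw [h3]
    have : n = n' := hM' (h2.symm.trans h5)
    subst this
    exact hf l (h4.trans h1.symm)
  let Fl : ℕ → Finset Om := fun j => (Finset.range (j + 1) ×ˢ Finset.range (j + 1)).biUnion
    (fun li => (Finset.univ : Finset (Fin (nn j))).image (fun k => τ li.1 li.2 ⟨j, k⟩))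
  have hFl : ∀ j, (Fl j).card ≤ (j + 1) ^ 2 * nn j := by
    intro j
    refine Finset.card_biUnion_le.trans ?_
    calc ∑ li ∈ Finset.range (j + 1) ×ˢ Finset.range (j + 1),
          ((Finset.univ : Finset (Fin (nn j))).image (fun k => τ li.1 li.2 ⟨j, k⟩)).card
        ≤ ∑ _li ∈ Finset.range (j + 1) ×ˢ Finset.range (j + 1), nn j := by
          apply Finset.sum_le_sum
          intro li _
          exact Finset.card_image_le.trans (by simp)
      _ = (j + 1) ^ 2 * nn j := by
          rw [Finset.sum_const, Finset.card_product, Finset.card_range, smul_eq_mul]; ring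
  obtain ⟨A, hAp, hA⟩ := hp Fl
  -- exceptional finite sets
  let E : ℕ → Set ℕ := fun l => {n | ∃ i ≤ l, ∃ j < l, ∃ k : Fin (nn j), f' i ⟨j, k⟩ = M' n}
  have hE : ∀ l, (E l).Finite := by
    intro l
    have h1 : E l ⊆ ⋃ i ∈ Finset.range (l + 1), ⋃ j ∈ Finset.range l,
        ⋃ k ∈ (Finset.univ : Finset (Fin (nn j))), {n | f' i ⟨j, k⟩ = M' n} := by
      rintro n ⟨i, hi, j, hj, k, h⟩
      simp only [Set.mem_iUnion]
      exact ⟨i, Finset.mem_range.mpr (by omega), j, Finset.mem_range.mpr hj, k,
        Finset.mem_univ _, h⟩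
    refine Set.Finite.subset ?_ h1
    refine (Finset.finite_toSet _).biUnion fun i _ => (Finset.finite_toSet _).biUnion fun j _ =>
      (Finset.finite_toSet _).biUnion fun k _ => ?_
    apply Set.Subsingleton.finite
    intro n hn n' hn'
    exact hM' (hn.symm.trans hn')
  let B' : Set ℕ := {n | ∃ l, ∃ ω ∈ A, f l ω = M n ∧ n ∉ E l}
  refine ⟨B'ᶜ, ?_, ?_⟩
  · intro l hl
    -- the set is disjoint from A minus a finite set
    have h1 : ({a | ∃ n ∈ E l, f l a = M n} : Set Om).Finite := by
      have : ({a | ∃ n ∈ E l, f l a = M n} : Set Om) ⊆ (f l) ⁻¹' (M '' E l) := by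
        rintro a ⟨n, hn, h⟩
        exact ⟨n, hn, h.symm⟩
      exact Set.Finite.subset (((hE l).image M).preimage (hf l).injOn) this
    have h2 := p.inter_sets hl hAp
    refine hp0 _ (h1.subset ?_) h2
    rintro a ⟨⟨n, hn, h⟩, haA⟩
    refine ⟨n, ?_, h⟩
    by_contra hnE
    exact hn ⟨l, a, haA, h, hnE⟩
  · intro i
    apply qU_small
    intro N
    filter_upwards [eventually_ge_atTop (max i N)] with j hj
    have hji : i ≤ j := (le_max_left _ _).trans hj
    have hjN : N ≤ j := (le_max_right _ _).trans hj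
    -- count
    set S := (Fl j).filter (fun x => x ∈ A) with hS
    have hScard := hA j S (by intro x hx; rw [hS, Finset.mem_filter] at hx; exact hx)
    have hSle : (j + 1) ^ 2 * S.card ≤ nn j := by
      have h3 := hFl j
      have h4 : 2 * (j + 1) ^ 4 * S.card ≤ 2 * (j + 1) ^ 4 * Cst j + (j + 1) ^ 2 * nn j := by
        omega
      have h5 : (j + 1) ^ 2 * (2 * ((j + 1) ^ 2 * S.card)) ≤
          (j + 1) ^ 2 * (2 * nn j) := by
        calc (j + 1) ^ 2 * (2 * ((j + 1) ^ 2 * S.card)) = 2 * (j + 1) ^ 4 * S.card := by ring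
          _ ≤ 2 * (j + 1) ^ 4 * Cst j + (j + 1) ^ 2 * nn j := h4
          _ = (j + 1) ^ 2 * (2 * (j + 1) ^ 2 * Cst j + nn j) := by ring
          _ ≤ (j + 1) ^ 2 * (2 * nn j) := by
            apply Nat.mul_le_mul_left
            have : 2 * (j + 1) ^ 2 * Cst j ≤ nn j := by unfold nn; omega
            omega
      have h6 := Nat.le_of_mul_le_mul_left h5 (by positivity)
      omega
    have hcnt : cnt {a | ∃ n ∉ B'ᶜ, f' i a = M' n} j ≤ (j + 1) * S.card := by
      unfold cnt
      -- map each k to a pair (l, ω)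
      have h7 : ∀ k : Fin (nn j), (⟨j, k⟩ : Om') ∈ {a | ∃ n ∉ B'ᶜ, f' i a = M' n} →
          ∃ lω : ℕ × Om, lω ∈ Finset.range (j + 1) ×ˢ S ∧
            ∃ n, f lω.1 lω.2 = M n ∧ f' i ⟨j, k⟩ = M' n := by
        rintro k ⟨n, hn, h⟩
        have hn' : n ∈ B' := not_not.mp hn
        obtain ⟨l, ω, hω, hl, hE'⟩ := hn'
        have hlj : l ≤ j := by
          by_contra hlj
          push Not at hlj
          exact hE' ⟨i, by omega, j, hlj, k, h⟩
        refine ⟨(l, ω), ?_, n, hl, h⟩
        rw [Finset.mem_product]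
        refine ⟨Finset.mem_range.mpr (Nat.lt_succ_of_le hlj), ?_⟩
        simp only [hS, Finset.mem_filter]
        refine ⟨?_, hω⟩
        simp only [Fl, Finset.mem_biUnion]
        refine ⟨(l, i), ?_, ?_⟩
        · rw [Finset.mem_product]
          exact ⟨Finset.mem_range.mpr (Nat.lt_succ_of_le hlj), Finset.mem_range.mpr (Nat.lt_succ_of_le hji)⟩
        · rw [Finset.mem_image]
          exact ⟨k, Finset.mem_univ _, hτ l i ⟨j, k⟩ ω n hl h⟩
      choose! g hg1 hg2 using h7
      have h8 : ((Finset.univ : Finset (Fin (nn j))).filter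
          (fun k => (⟨j, k⟩ : Om') ∈ {a | ∃ n ∉ B'ᶜ, f' i a = M' n})).card ≤
          (Finset.range (j + 1) ×ˢ S).card := by
        apply Finset.card_le_card_of_injOn g
        · intro k hk
          exact hg1 k (Finset.mem_filter.mp hk).2
        · intro k hk k' hk' hkk
          obtain ⟨n, h9, h10⟩ := hg2 k (Finset.mem_filter.mp hk).2
          obtain ⟨n', h9', h10'⟩ := hg2 k' (Finset.mem_filter.mp hk').2
          rw [hkk] at h9
          have hnn : n = n' := hM (h9.symm.trans h9')
          subst hnn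
          have := hf' i (h10.trans h10'.symm)
          simpa using this
      rw [Finset.card_product, Finset.card_range] at h8
      exact h8
    calc N * cnt {a | ∃ n ∉ B'ᶜ, f' i a = M' n} j ≤ (j + 1) * ((j + 1) * S.card) :=
          Nat.mul_le_mul (by omega) hcnt
      _ = (j + 1) ^ 2 * S.card := by ring
      _ ≤ nn j := hSle

end Pool.Agent.H30.Prac
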