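import Pool.Agent.H30.CBA

set_option autoImplicit false
set_option linter.unusedSectionVars false

/-!
# Splitting sequences in computable Boolean algebras
-/

namespace Pool.Agent.H30.CB

open Pool.Agent.H30.CompFP Order

variable {Q : Type} [BooleanAlgebra Q]

/-! ### disjointification -/

/-- the disjointified sequence -/
def dj (v : ℕ → Q) (n : ℕ) : Q := v n \ J v n

theorem dj_le (v : ℕ → Q) (n : ℕ) : dj v n ≤ v n := sdiff_le

theorem dj_mem (v : ℕ → Q) (n : ℕ) : dj v n ∈ gen v :=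
  (gen v).lower (dj_le v n) (self_mem_gen v n)

theorem dj_disj_lt {v : ℕ → Q} {m n : ℕ} (h : m < n) : dj v m ⊓ dj v n = ⊥ := by
  have h1 : dj v m ≤ J v n := (dj_le v m).trans (le_J h)
  have h2 : Disjoint (J v n) (dj v n) := disjoint_sdiff_self_right
  exact (h2.mono_left h1).eq_bot

theorem dj_disj {v : ℕ → Q} {m n : ℕ} (h : m ≠ n) : dj v m ⊓ dj v n = ⊥ := by
  rcases lt_or_gt_of_ne h with h | h
  · exact dj_disj_lt h
  · rw [inf_comm]; exact dj_disj_lt h

theorem J_dj (v : ℕ → Q) (N : ℕ) : J (dj v) N = J v N := by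
  induction N with
  | zero => rfl
  | succ N ih =>
    rw [J_succ, J_succ, ih]
    unfold dj
    rw [sup_sdiff_self_right]

theorem gen_dj (v : ℕ → Q) : gen (dj v) = gen v := by
  apply le_antisymm
  · exact gen_le.2 fun n => dj_mem v n
  · refine gen_le.2 fun n => ?_
    refine ⟨n + 1, ?_⟩
    rw [J_dj]
    exact le_J (Nat.lt_succ_self n)

/-! ### a family of pieces deciding the elements of the algebra -/

variable [Primcodable Q]

/-- path through the splitting tree -/
def st (n σ : ℕ) : ℕ × Q :=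
  rec3 (σ, (⊤ : Q)) (fun j s => (s.1 / 2, s.2 ⊓ cond (decide (s.1 % 2 = 1)) (q j) (q j)ᶜ)) n

theorem st_zero (σ : ℕ) : st 0 σ = (σ, (⊤ : Q)) := rfl

theorem st_succ (n σ : ℕ) : st (Q := Q) (n + 1) σ = ((st (Q := Q) n σ).1 / 2,
    (st n σ).2 ⊓ cond (decide ((st (Q := Q) n σ).1 % 2 = 1)) (q n) (q n)ᶜ) := rfl

theorem st_fst (n σ : ℕ) : (st (Q := Q) n σ).1 = σ / 2 ^ n := by
  induction n with
  | zero => simp [st_zero]
  | succ n ih => rw [st_succ, ih, Nat.div_div_eq_div_mul, pow_succ]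

theorem st_disj (n : ℕ) : ∀ σ τ : ℕ, σ ≠ τ → (st (Q := Q) n σ).1 = (st (Q := Q) n τ).1 →
    (st (Q := Q) n σ).2 ⊓ (st n τ).2 = ⊥ := by
  induction n with
  | zero =>
    intro σ τ h h'
    exact absurd h' h
  | succ n ih =>
    intro σ τ h h'
    rw [st_succ, st_succ] at h' ⊢
    simp only at h' ⊢
    by_cases h1 : (st (Q := Q) n σ).1 = (st (Q := Q) n τ).1
    · have := ih σ τ h h1
      refine le_bot_iff.1 (le_trans ?_ this.le)
      exact inf_le_inf inf_le_left inf_le_left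
    · -- the parities differ
      refine le_bot_iff.1 (le_trans (inf_le_inf inf_le_right inf_le_right) ?_)
      by_cases h2 : (st (Q := Q) n σ).1 % 2 = 1
      · have h3 : ¬ (st (Q := Q) n τ).1 % 2 = 1 := by omega
        simp [h2, h3]
      · have h3 : (st (Q := Q) n τ).1 % 2 = 1 := by omega
        simp [h2, h3]

theorem st_cover (I : Ideal Q) (n : ℕ) : ∀ (r : ℕ) (x : Q),
    (∀ σ, (st (Q := Q) n σ).1 = r → x ⊓ (st n σ).2 ∈ I) → x ∈ I := by
  induction n with
  | zero =>
    intro r x h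
    have := h r rfl
    rw [st_zero] at this
    simpa using this
  | succ n ih =>
    intro r x h
    have h1 : x ⊓ q n ∈ I := by
      refine ih (2 * r + 1) _ fun σ hσ => ?_
      have h2 := h σ (by rw [st_succ]; simp only; omega)
      rw [st_succ] at h2
      have h3 : (2 * r + 1) % 2 = 1 := by omega
      simp only [hσ, h3, decide_true, cond_true] at h2
      refine I.lower (le_of_eq ?_) h2
      ac_rfl
    have h1' : x ⊓ (q n)ᶜ ∈ I := by
      refine ih (2 * r) _ fun σ hσ => ?_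
      have h2 := h σ (by rw [st_succ]; simp only; omega)
      rw [st_succ] at h2
      have h3 : ¬ (2 * r) % 2 = 1 := by omega
      simp only [hσ, h3, decide_false, cond_false] at h2
      refine I.lower (le_of_eq ?_) h2
      ac_rfl
    have h4 := Ideal.sup_mem h1 h1'
    rw [← inf_sup_left] at h4
    simpa using h4

theorem st_decides (n σ j : ℕ) (h : j < n) :
    (st (Q := Q) n σ).2 ≤ q j ∨ (st (Q := Q) n σ).2 ≤ (q j)ᶜ := by
  induction n with
  | zero => omega
  | succ n ih =>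
    rw [st_succ]
    rcases Nat.lt_succ_iff_lt_or_eq.1 h with h1 | rfl
    · rcases ih h1 with h2 | h2
      · exact Or.inl (inf_le_left.trans h2)
      · exact Or.inr (inf_le_left.trans h2)
    · cases decide ((st (Q := Q) j σ).1 % 2 = 1) with
      | true => exact Or.inl inf_le_right
      | false => exact Or.inr inf_le_right

/-- the pieces -/
def pc (u : ℕ → Q) (i : ℕ) : Q :=
  cond (decide ((st (Q := Q) i.unpair.1 i.unpair.2).1 = 0))
    (dj u i.unpair.1 ⊓ (st i.unpair.1 i.unpair.2).2) ⊥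

theorem pc_le (u : ℕ → Q) (i : ℕ) : pc u i ≤ dj u i.unpair.1 := by
  unfold pc
  cases decide ((st (Q := Q) i.unpair.1 i.unpair.2).1 = 0) with
  | true => exact inf_le_left
  | false => exact bot_le

theorem pc_le_st (u : ℕ → Q) (i : ℕ) : pc u i ≤ (st i.unpair.1 i.unpair.2).2 := by
  unfold pc
  cases decide ((st (Q := Q) i.unpair.1 i.unpair.2).1 = 0) with
  | true => exact inf_le_right
  | false => exact bot_le

theorem pc_mem (u : ℕ → Q) (i : ℕ) : pc u i ∈ gen u :=
  (gen u).lower (pc_le u i) (dj_mem u _)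

theorem pc_bot {u : ℕ → Q} {i : ℕ} (h : 2 ^ i.unpair.1 ≤ i.unpair.2) : pc u i = ⊥ := by
  unfold pc
  rw [st_fst]
  have : i.unpair.2 / 2 ^ i.unpair.1 ≠ 0 := by
    rw [Ne, Nat.div_eq_zero_iff]
    push Not
    exact ⟨by positivity, h⟩
  simp [this]

theorem pc_disj {u : ℕ → Q} {i j : ℕ} (h : i ≠ j) : pc u i ⊓ pc u j = ⊥ := by
  by_cases h1 : i.unpair.1 = j.unpair.1
  · have h2 : i.unpair.2 ≠ j.unpair.2 := by
      intro h2
      apply h
      rw [← Nat.pair_unpair i, ← Nat.pair_unpair j, h1, h2]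
    by_cases h3 : (st (Q := Q) i.unpair.1 i.unpair.2).1 = 0
    · by_cases h4 : (st (Q := Q) j.unpair.1 j.unpair.2).1 = 0
      · refine le_bot_iff.1 ((inf_le_inf (pc_le_st u i) (pc_le_st u j)).trans ?_)
        rw [← h1] at h4 ⊢
        rw [st_disj _ _ _ h2 (h3.trans h4.symm)]
      · have : pc u j = ⊥ := by unfold pc; simp [h4]
        rw [this]; simp
    · have : pc u i = ⊥ := by unfold pc; simp [h3]
      rw [this]; simp
  · refine le_bot_iff.1 ((inf_le_inf (pc_le u i) (pc_le u j)).trans ?_)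
    rw [dj_disj h1]

theorem gen_pc (u : ℕ → Q) : gen (pc u) = gen u := by
  apply le_antisymm
  · exact gen_le.2 fun i => pc_mem u i
  · rw [← gen_dj u]
    refine gen_le.2 fun n => ?_
    refine st_cover _ n 0 _ fun σ hσ => ?_
    have e : pc u (Nat.pair n σ) = dj u n ⊓ (st n σ).2 := by
      unfold pc
      rw [Nat.unpair_pair]
      simp [hσ]
    rw [← e]
    exact self_mem_gen (pc u) (Nat.pair n σ)

theorem exists_pair_bound (f : ℕ → ℕ) (n₀ : ℕ) : ∃ N, ∀ i : ℕ, N ≤ i →
    n₀ ≤ i.unpair.1 ∨ f i.unpair.1 ≤ i.unpair.2 := by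
  refine ⟨∑ n ∈ Finset.range n₀, ∑ m ∈ Finset.range (f n), (Nat.pair n m + 1), fun i hi => ?_⟩
  by_contra hcon
  push Not at hcon
  have h1 : Nat.pair i.unpair.1 i.unpair.2 + 1 ≤
      ∑ m ∈ Finset.range (f i.unpair.1), (Nat.pair i.unpair.1 m + 1) :=
    Finset.single_le_sum (f := fun m => Nat.pair i.unpair.1 m + 1) (fun _ _ => Nat.zero_le _)
      (Finset.mem_range.2 hcon.2)
  have h2 : ∑ m ∈ Finset.range (f i.unpair.1), (Nat.pair i.unpair.1 m + 1) ≤
      ∑ n ∈ Finset.range n₀, ∑ m ∈ Finset.range (f n), (Nat.pair n m + 1) :=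
    Finset.single_le_sum (f := fun n => ∑ m ∈ Finset.range (f n), (Nat.pair n m + 1))
      (fun _ _ => Nat.zero_le _) (Finset.mem_range.2 hcon.1)
  rw [Nat.pair_unpair] at h1
  omega

/-- almost all pieces are decided by a given element -/
theorem pc_decided (u : ℕ → Q) (d : Q) : ∃ N, ∀ i, N ≤ i → pc u i ≤ d ∨ pc u i ⊓ d = ⊥ := by
  obtain ⟨N, hN⟩ := exists_pair_bound (fun n => 2 ^ n) (Encodable.encode d + 1)
  refine ⟨N, fun i hi => ?_⟩
  rcases hN i hi with h | h
  · rcases st_decides (Q := Q) i.unpair.1 i.unpair.2 (Encodable.encode d) h with h1 | h1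
    · rw [q_encode] at h1
      exact Or.inl ((pc_le_st u i).trans h1)
    · rw [q_encode] at h1
      right
      have h2 := (pc_le_st u i).trans h1
      exact (disjoint_compl_left.mono_left h2).eq_bot
  · left
    rw [pc_bot h]
    exact bot_le

section comp

variable [CBA Q] {α : Type*} [Primcodable α]

@[fun_prop] theorem c_dj {v : ℕ → Q} (hv : Computable v) : Computable (dj v) := by
  unfold dj
  fun_prop

@[fun_prop] theorem c_st {n σ : α → ℕ} (hn : Computable n) (hσ : Computable σ) :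
    Computable (fun a => (st (n a) (σ a) : ℕ × Q)) := by
  unfold st
  fun_prop

@[fun_prop] theorem c_pc {u : ℕ → Q} (hu : Computable u) : Computable (pc u) := by
  unfold pc
  fun_prop

/-- a computable strict splitting function -/
theorem exists_sp (hat : ∀ x : Q, x ≠ ⊥ → ∃ y, y < x ∧ y ≠ ⊥) :
    ∃ sp : Q → Q, Computable sp ∧ (∀ x, sp x ≤ x) ∧ ∀ x, x ≠ ⊥ → sp x < x ∧ sp x ≠ ⊥ := by
  obtain ⟨g, hg, hg'⟩ := exists_search (f := fun (x : Q) (m : ℕ) =>
    eqB x ⊥ || (leB (q m) x && (!eqB (q m) x && !eqB (q m) (⊥ : Q)))) (by fun_prop) (by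
      intro x
      by_cases hx : x = ⊥
      · exact ⟨0, by rw [Bool.or_eq_true, eqB_iff]; exact Or.inl hx⟩
      · obtain ⟨y, hy, hy'⟩ := hat x hx
        refine ⟨Encodable.encode y, ?_⟩
        rw [q_encode]
        simp only [Bool.or_eq_true, Bool.and_eq_true, leB_iff, Bool.not_eq_true', eqB_false_iff]
        exact Or.inr ⟨hy.le, hy.ne, hy'⟩)
  have key : ∀ x, x ≠ ⊥ → q (g x) < x ∧ (q (g x) : Q) ≠ ⊥ := by
    intro x hx
    have h := (hg' x).1
    simp only [Bool.or_eq_true, Bool.and_eq_true, leB_iff, Bool.not_eq_true', eqB_false_iff,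
      eqB_iff] at h
    rcases h with h | h
    · exact absurd h hx
    · exact ⟨lt_of_le_of_ne h.1 h.2.1, h.2.2⟩
  refine ⟨fun x => cond (eqB x ⊥) ⊥ (q (g x)), by fun_prop, fun x => ?_, fun x hx => ?_⟩
  · by_cases hx : x = ⊥
    · have : eqB x ⊥ = true := eqB_iff.2 hx
      simp [this]
    · have : eqB x ⊥ = false := eqB_false_iff.2 hx
      simp only [this, cond_false]
      exact (key x hx).1.le
  · have : eqB x ⊥ = false := eqB_false_iff.2 hx
    simp only [this, cond_false]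
    exact key x hx

end comp

/-! ### infinite splitting of a single element -/

section tower

variable {sp : Q → Q}

/-- the iterates of the splitting function -/
def tw (sp : Q → Q) (x : Q) (j : ℕ) : Q := rec3 x (fun _ y => sp y) j

theorem tw_zero (sp : Q → Q) (x : Q) : tw sp x 0 = x := rfl

theorem tw_succ (sp : Q → Q) (x : Q) (j : ℕ) : tw sp x (j + 1) = sp (tw sp x j) := rfl

theorem tw_anti (h : ∀ x, sp x ≤ x) (x : Q) : Antitone (tw sp x) :=
  antitone_nat_of_succ_le fun n => by rw [tw_succ]; exact h _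

theorem tw_le (h : ∀ x, sp x ≤ x) (x : Q) (j : ℕ) : tw sp x j ≤ x :=
  (tw_anti h x (Nat.zero_le j)).trans_eq (tw_zero sp x)

/-- the pieces of the infinite splitting -/
def pw (sp : Q → Q) (x : Q) (j : ℕ) : Q := tw sp x j \ tw sp x (j + 1)

theorem pw_le (h : ∀ x, sp x ≤ x) (x : Q) (j : ℕ) : pw sp x j ≤ x :=
  sdiff_le.trans (tw_le h x j)

theorem tw_ne_bot (h' : ∀ x, x ≠ ⊥ → sp x < x ∧ sp x ≠ ⊥) {x : Q} (hx : x ≠ ⊥) (j : ℕ) :
    tw sp x j ≠ ⊥ := by
  induction j with
  | zero => exact hx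
  | succ j ih => rw [tw_succ]; exact (h' _ ih).2

theorem pw_ne_bot (h' : ∀ x, x ≠ ⊥ → sp x < x ∧ sp x ≠ ⊥) {x : Q} (hx : x ≠ ⊥) (j : ℕ) :
    pw sp x j ≠ ⊥ := by
  unfold pw
  rw [Ne, sdiff_eq_bot_iff, tw_succ]
  exact not_le_of_gt (h' _ (tw_ne_bot h' hx j)).1

theorem pw_disj_lt (h : ∀ x, sp x ≤ x) {x : Q} {i j : ℕ} (hij : i < j) :
    pw sp x i ⊓ pw sp x j = ⊥ := by
  have h1 : pw sp x j ≤ tw sp x (i + 1) := sdiff_le.trans (tw_anti h x hij)
  have h2 : Disjoint (pw sp x i) (tw sp x (i + 1)) := disjoint_sdiff_self_left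
  exact (h2.mono_right h1).eq_bot

theorem pw_disj (h : ∀ x, sp x ≤ x) {x : Q} {i j : ℕ} (hij : i ≠ j) :
    pw sp x i ⊓ pw sp x j = ⊥ := by
  rcases lt_or_gt_of_ne hij with h1 | h1
  · exact pw_disj_lt h h1
  · rw [inf_comm]; exact pw_disj_lt h h1

variable [CBA Q] {α : Type*} [Primcodable α]

theorem c_pw (hsp : Computable sp) {x : α → Q} {j : α → ℕ} (hx : Computable x)
    (hj : Computable j) : Computable (fun a => pw sp (x a) (j a)) := by
  unfold pw tw
  fun_prop

end tower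

end Pool.Agent.H30.CB
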