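import Pool.Agent.H80.Poly.More

set_option autoImplicit false

/-!
# 2-SAT in polynomial time

`C` is a list of pairs of literals (from each pair at least one has to be chosen) and `conf` is a
symmetric conflict relation (no two chosen literals may be in conflict).
-/

namespace Pool.Agent.H30.TwoSat

open Pool.Agent.H80.Poly

section algo

variable {L : Type} [DecidableEq L] (conf : L → L → Bool) (C : List (L × L))

/-- all literals -/
def lits : List L := C.map Prod.fst ++ C.map Prod.snd

/-- one step of the closure, as a test -/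
def stepB (R : List L) (m : L) : Bool :=
  decide (m ∈ R) || C.any (fun c => (decide (c.2 = m) && R.any (fun r => conf r c.1)) ||
    (decide (c.1 = m) && R.any (fun r => conf r c.2)))

/-- one round of the closure -/
def expand (R : List L) : List L := (lits C).filter (stepB conf C R)

/-- the closure of a literal under forced choices -/
def closure (ℓ : L) : List L := (lits C).foldl (fun R _ => expand conf C R) [ℓ]

/-- the closure of `ℓ` is free of conflicts -/
def good (ℓ : L) : Bool := (closure conf C ℓ).all (fun a => (closure conf C ℓ).all (fun b => !(conf a b)))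

/-- the decision procedure -/
def solve : Bool := C.all (fun c => good conf C c.1 || good conf C c.2)

/-- `a` forces `b`. -/
def Step (a b : L) : Prop := ∃ c, ((c, b) ∈ C ∨ (b, c) ∈ C) ∧ conf a c = true

end algo

section correctness

variable {L : Type} [DecidableEq L] {conf : L → L → Bool} {C : List (L × L)}

lemma mem_lits {a : L} : a ∈ lits C ↔ ∃ b, (a, b) ∈ C ∨ (b, a) ∈ C := by
  unfold lits
  rw [List.mem_append, List.mem_map, List.mem_map]
  constructor
  · rintro (⟨⟨x, y⟩, h, rfl⟩ | ⟨⟨x, y⟩, h, rfl⟩)
    · exact ⟨y, Or.inl h⟩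
    · exact ⟨x, Or.inr h⟩
  · rintro ⟨b, h | h⟩
    · exact Or.inl ⟨_, h, rfl⟩
    · exact Or.inr ⟨_, h, rfl⟩

lemma stepB_iff {R : List L} {m : L} : stepB conf C R m = true ↔
    m ∈ R ∨ ∃ r ∈ R, Step conf C r m := by
  unfold stepB Step
  simp only [Bool.or_eq_true, decide_eq_true_eq, List.any_eq_true, Bool.and_eq_true]
  constructor
  · rintro (h | ⟨⟨x, y⟩, h, ⟨rfl, r, hr, hc⟩ | ⟨rfl, r, hr, hc⟩⟩)
    · exact Or.inl h
    · exact Or.inr ⟨r, hr, x, Or.inl h, hc⟩
    · exact Or.inr ⟨r, hr, y, Or.inr h, hc⟩
  · rintro (h | ⟨r, hr, c, h | h, hc⟩)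
    · exact Or.inl h
    · exact Or.inr ⟨(c, m), h, Or.inl ⟨rfl, r, hr, hc⟩⟩
    · exact Or.inr ⟨(m, c), h, Or.inr ⟨rfl, r, hr, hc⟩⟩

lemma mem_expand {R : List L} {m : L} : m ∈ expand conf C R ↔
    m ∈ lits C ∧ (m ∈ R ∨ ∃ r ∈ R, Step conf C r m) := by
  unfold expand
  rw [List.mem_filter, stepB_iff]

/-- A slowly growing chain of finite sets stabilises. -/
lemma chain_stab (f : ℕ → Finset L) (mono : ∀ k, f k ⊆ f (k + 1))
    (stab : ∀ k, f k = f (k + 1) → f (k + 1) = f (k + 2)) (N : ℕ) (hN : ∀ k, (f k).card ≤ N) :
    f N = f (N + 1) := by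
  by_contra hne
  have h1 : ∀ k ≤ N, f k ≠ f (k + 1) := by
    intro k hk heq
    apply hne
    have : ∀ j, f (k + j) = f (k + j + 1) := by
      intro j
      induction j with
      | zero => exact heq
      | succ j ih => exact stab _ ih
    obtain ⟨j, rfl⟩ := Nat.exists_eq_add_of_le hk
    exact this j
  have h2 : ∀ k ≤ N + 1, k ≤ (f k).card := by
    intro k
    induction k with
    | zero => intro _; exact Nat.zero_le _
    | succ k ih =>
      intro hk
      have h3 := ih (by omega)
      have h4 : f k ⊂ f (k + 1) := (mono k).ssubset_of_ne (h1 k (by omega))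
      have h5 := Finset.card_lt_card h4
      omega
  have h6 := h2 (N + 1) le_rfl
  have h7 := hN (N + 1)
  omega

/-- the stages of the closure -/
def stage (conf : L → L → Bool) (C : List (L × L)) (ℓ : L) : ℕ → List L
  | 0 => [ℓ]
  | k + 1 => expand conf C (stage conf C ℓ k)

lemma foldl_stage {β : Type} (ℓ : L) : ∀ (l : List β) (k : ℕ),
    l.foldl (fun R _ => expand conf C R) (stage conf C ℓ k) = stage conf C ℓ (k + l.length) := by
  intro l
  induction l with
  | nil => intro k; rfl
  | cons x l ih =>
    intro k
    rw [List.foldl_cons]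
    have := ih (k + 1)
    rw [stage] at this
    rw [this, List.length_cons]
    congr 1
    omega

lemma closure_eq (ℓ : L) : closure conf C ℓ = stage conf C ℓ (lits C).length := by
  unfold closure
  have := foldl_stage (conf := conf) (C := C) ℓ (lits C) 0
  rw [stage, Nat.zero_add] at this
  exact this

lemma stage_lits {ℓ : L} (hℓ : ℓ ∈ lits C) (k : ℕ) : ∀ m ∈ stage conf C ℓ k, m ∈ lits C := by
  cases k with
  | zero => intro m hm; rw [stage, List.mem_singleton] at hm; rw [hm]; exact hℓ
  | succ k => intro m hm; rw [stage, mem_expand] at hm; exact hm.1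

lemma closure_reach {ℓ : L} (hℓ : ℓ ∈ lits C) {m : L} :
    m ∈ closure conf C ℓ ↔ Relation.ReflTransGen (Step conf C) ℓ m := by
  have hsound : ∀ k m, m ∈ stage conf C ℓ k → Relation.ReflTransGen (Step conf C) ℓ m := by
    intro k
    induction k with
    | zero => intro m hm; rw [stage, List.mem_singleton] at hm; rw [hm]
    | succ k ih =>
      intro m hm
      rw [stage, mem_expand] at hm
      rcases hm.2 with h | ⟨r, hr, h⟩
      · exact ih m h
      · exact (ih r hr).tail h
  rw [closure_eq]
  refine ⟨hsound _ m, ?_⟩
  set N := (lits C).length with hN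
  have hstab : (stage conf C ℓ N).toFinset = (stage conf C ℓ (N + 1)).toFinset := by
    apply chain_stab (fun k => (stage conf C ℓ k).toFinset)
    · intro k m hm
      rw [List.mem_toFinset] at hm ⊢
      rw [stage, mem_expand]
      exact ⟨stage_lits hℓ k m hm, Or.inl hm⟩
    · intro k hk
      ext m
      have hiff : ∀ x, x ∈ stage conf C ℓ k ↔ x ∈ stage conf C ℓ (k + 1) := by
        intro x
        rw [← List.mem_toFinset, ← List.mem_toFinset, hk]
      rw [List.mem_toFinset, List.mem_toFinset]
      show m ∈ expand conf C (stage conf C ℓ k) ↔ m ∈ expand conf C (stage conf C ℓ (k + 1))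
      rw [mem_expand, mem_expand]
      simp only [hiff]
    · intro k
      have h1 : (stage conf C ℓ k).toFinset ⊆ (lits C).toFinset := by
        intro m hm
        rw [List.mem_toFinset] at hm ⊢
        exact stage_lits hℓ k m hm
      exact (Finset.card_le_card h1).trans (List.toFinset_card_le _)
  have hmono : ∀ k, ℓ ∈ stage conf C ℓ k := by
    intro k
    induction k with
    | zero => rw [stage]; exact List.mem_singleton.mpr rfl
    | succ k ih => rw [stage, mem_expand]; exact ⟨hℓ, Or.inl ih⟩
  intro h
  induction h with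
  | refl => exact hmono N
  | @tail b c _ hs ih =>
    have h1 : c ∈ stage conf C ℓ (N + 1) := by
      rw [stage, mem_expand]
      obtain ⟨x, hx, hc⟩ := hs
      refine ⟨?_, Or.inr ⟨b, ih, x, hx, hc⟩⟩
      rw [mem_lits]
      exact ⟨x, hx.symm⟩
    rw [← List.mem_toFinset, ← hstab, List.mem_toFinset] at h1
    exact h1

lemma good_iff {ℓ : L} (hℓ : ℓ ∈ lits C) : good conf C ℓ = true ↔
    ∀ a b, Relation.ReflTransGen (Step conf C) ℓ a → Relation.ReflTransGen (Step conf C) ℓ b →
      conf a b = false := by
  unfold good
  simp only [List.all_eq_true, Bool.not_eq_true', closure_reach hℓ]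
  exact ⟨fun h a b ha hb => h a ha b hb, fun h a ha b hb => h a b ha hb⟩

/-- `S` solves the instance. -/
def IsSol (conf : L → L → Bool) (C : List (L × L)) (S : L → Prop) : Prop :=
  (∀ c ∈ C, S c.1 ∨ S c.2) ∧ ∀ a b, S a → S b → conf a b = false

lemma closed_of_sol {S : L → Prop} (h : IsSol conf C S) {a b : L} (ha : S a)
    (hr : Relation.ReflTransGen (Step conf C) a b) : S b := by
  induction hr with
  | refl => exact ha
  | @tail x y _ hs ih =>
    obtain ⟨c, hc, hcf⟩ := hs
    have hnc : ¬ S c := by
      intro hS
      rw [h.2 x c ih hS] at hcf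
      exact Bool.false_ne_true hcf
    rcases hc with hc | hc
    · exact (h.1 _ hc).resolve_left hnc
    · exact (h.1 _ hc).resolve_right hnc

lemma back (hsymm : ∀ a b, conf a b = conf b a) {S : L → Prop}
    (hcl : ∀ a b, S a → Step conf C a b → S b) {ℓ : L} : ∀ b, Relation.ReflTransGen (Step conf C) ℓ b →
    ∀ a, S a → conf a b = true → ∃ a', S a' ∧ conf a' ℓ = true := by
  intro b hr
  induction hr with
  | refl => intro a ha h; exact ⟨a, ha, h⟩
  | @tail x y _ hs ih =>
    intro a ha h
    obtain ⟨c, hc, hcf⟩ := hs
    have h1 : S c := hcl a c ha ⟨y, hc.symm, h⟩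
    exact ih c h1 (by rw [hsymm]; exact hcf)

theorem solve_iff (hsymm : ∀ a b, conf a b = conf b a) :
    solve conf C = true ↔ ∃ S : L → Prop, IsSol conf C S := by
  have hl1 : ∀ c ∈ C, c.1 ∈ lits C := fun c hc => mem_lits.mpr ⟨c.2, Or.inl hc⟩
  have hl2 : ∀ c ∈ C, c.2 ∈ lits C := fun c hc => mem_lits.mpr ⟨c.1, Or.inr hc⟩
  unfold solve
  simp only [List.all_eq_true, Bool.or_eq_true]
  constructor
  · intro h
    have key : ∀ D : List (L × L), (∀ c ∈ D, c ∈ C) → ∃ S : L → Prop,
        (∀ c ∈ D, S c.1 ∨ S c.2) ∧ (∀ a b, S a → S b → conf a b = false) ∧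
        ∀ a b, S a → Step conf C a b → S b := by
      intro D
      induction D with
      | nil =>
        intro _
        exact ⟨fun _ => False, fun c hc => absurd hc List.not_mem_nil,
          fun a b ha => absurd ha id, fun a b ha => absurd ha id⟩
      | cons c D ih =>
        intro hD
        obtain ⟨S, h1, h2, h3⟩ := ih (fun c hc => hD c (List.mem_cons_of_mem _ hc))
        have hcC := hD c List.mem_cons_self
        by_cases hc : S c.1 ∨ S c.2
        · refine ⟨S, ?_, h2, h3⟩
          intro c' hc'
          rcases List.mem_cons.mp hc' with rfl | hc'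
          · exact hc
          · exact h1 c' hc'
        · push Not at hc
          -- extend by the closure of a good literal
          have ext : ∀ ℓ m : L, ((m, ℓ) ∈ C ∨ (ℓ, m) ∈ C) → ¬ S m → good conf C ℓ = true →
              ∃ S' : L → Prop, (∀ a, S a → S' a) ∧ S' ℓ ∧
                (∀ a b, S' a → S' b → conf a b = false) ∧ ∀ a b, S' a → Step conf C a b → S' b := by
            intro ℓ m hm hSm hg
            have hℓ : ℓ ∈ lits C := mem_lits.mpr ⟨m, hm.symm⟩
            rw [good_iff hℓ] at hg
            have hcross : ∀ a b, S a → Relation.ReflTransGen (Step conf C) ℓ b →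
                conf a b = false := by
              intro a b ha hb
              by_contra hne
              rw [Bool.not_eq_false] at hne
              obtain ⟨a', ha', hc'⟩ := back hsymm h3 b hb a ha hne
              exact hSm (h3 a' m ha' ⟨ℓ, hm.symm, hc'⟩)
            refine ⟨fun a => S a ∨ Relation.ReflTransGen (Step conf C) ℓ a, fun a ha => Or.inl ha,
              Or.inr Relation.ReflTransGen.refl, ?_, ?_⟩
            · rintro a b (ha | ha) (hb | hb)
              · exact h2 a b ha hb
              · exact hcross a b ha hb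
              · rw [hsymm]; exact hcross b a hb ha
              · exact hg a b ha hb
            · rintro a b (ha | ha) hs
              · exact Or.inl (h3 a b ha hs)
              · exact Or.inr (ha.tail hs)
          rcases h c hcC with hg | hg
          · obtain ⟨S', e1, e2, e3, e4⟩ := ext c.1 c.2 (Or.inr hcC) hc.2 hg
            refine ⟨S', ?_, e3, e4⟩
            intro c' hc'
            rcases List.mem_cons.mp hc' with rfl | hc'
            · exact Or.inl e2
            · exact (h1 c' hc').imp (e1 _) (e1 _)
          · obtain ⟨S', e1, e2, e3, e4⟩ := ext c.2 c.1 (Or.inl hcC) hc.1 hg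
            refine ⟨S', ?_, e3, e4⟩
            intro c' hc'
            rcases List.mem_cons.mp hc' with rfl | hc'
            · exact Or.inr e2
            · exact (h1 c' hc').imp (e1 _) (e1 _)
    obtain ⟨S, h1, h2, _⟩ := key C (fun c hc => hc)
    exact ⟨S, h1, h2⟩
  · rintro ⟨S, hS⟩ c hc
    rcases hS.1 c hc with h | h
    · left
      rw [good_iff (hl1 c hc)]
      exact fun a b ha hb => hS.2 a b (closed_of_sol hS h ha) (closed_of_sol hS h hb)
    · right
      rw [good_iff (hl2 c hc)]
      exact fun a b ha hb => hS.2 a b (closed_of_sol hS h ha) (closed_of_sol hS h hb)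

end correctness

section polytime

variable {L : Type} [DecidableEq L] [BEnc L]

lemma size_filter_le (p : L → Bool) (l : List L) : size (l.filter p) ≤ size l := by
  induction l with
  | nil => simp
  | cons a l ih =>
    rw [List.filter_cons]
    split_ifs
    · rw [size_cons, size_cons]; omega
    · rw [size_cons]; omega

theorem polyTime_lits : PolyTime (fun C : List (L × L) => lits C) := by
  have h1 : PolyTime (fun C : List (L × L) => C.map Prod.fst) :=
    PolyTime.map (g := fun w : List (L × L) × (L × L) => w.2.1) PolyTime.id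
      (PolyTime.id (α := List (L × L) × (L × L))).snd.fst
  have h2 : PolyTime (fun C : List (L × L) => C.map Prod.snd) :=
    PolyTime.map (g := fun w : List (L × L) × (L × L) => w.2.2) PolyTime.id
      (PolyTime.id (α := List (L × L) × (L × L))).snd.snd
  exact h1.append h2

theorem polyTime_expand {conf : L → L → Bool} (hconf : PolyTime (fun x : L × L => conf x.1 x.2)) :
    PolyTime (fun x : List (L × L) × List L => expand conf x.1 x.2) := by
  unfold expand
  apply PolyTime.filter (g := fun w : (List (L × L) × List L) × L => stepB conf w.1.1 w.1.2 w.2)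
    (polyTime_lits.comp (PolyTime.id (α := List (L × L) × List L)).fst)
  unfold stepB
  have hw : PolyTime (fun w : (List (L × L) × List L) × L => w) := PolyTime.id
  have hmem : PolyTime (fun w : (List (L × L) × List L) × L => decide (w.2 ∈ w.1.2)) :=
    PolyTime.mem hw.snd hw.fst.snd
  refine hmem.or ?_
  apply PolyTime.any (g := fun w : ((List (L × L) × List L) × L) × (L × L) =>
    (decide (w.2.2 = w.1.2) && w.1.1.2.any (fun r => conf r w.2.1)) ||
      (decide (w.2.1 = w.1.2) && w.1.1.2.any (fun r => conf r w.2.2))) hw.fst.fst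
  have hv : PolyTime (fun w : ((List (L × L) × List L) × L) × (L × L) => w) := PolyTime.id
  have hu : PolyTime (fun w : (((List (L × L) × List L) × L) × (L × L)) × L => w) := PolyTime.id
  have e1 : PolyTime (fun w : ((List (L × L) × List L) × L) × (L × L) =>
      w.1.1.2.any (fun r => conf r w.2.1)) :=
    PolyTime.any (g := fun w : (((List (L × L) × List L) × L) × (L × L)) × L => conf w.2 w.1.2.1)
      hv.fst.fst.snd (hconf.comp (hu.snd.pair hu.fst.snd.fst))
  have e2 : PolyTime (fun w : ((List (L × L) × List L) × L) × (L × L) =>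
      w.1.1.2.any (fun r => conf r w.2.2)) :=
    PolyTime.any (g := fun w : (((List (L × L) × List L) × L) × (L × L)) × L => conf w.2 w.1.2.2)
      hv.fst.fst.snd (hconf.comp (hu.snd.pair hu.fst.snd.snd))
  have e3 : PolyTime (fun w : ((List (L × L) × List L) × L) × (L × L) => decide (w.2.2 = w.1.2)) :=
    PolyTime.eq hv.snd.snd hv.fst.snd
  have e4 : PolyTime (fun w : ((List (L × L) × List L) × L) × (L × L) => decide (w.2.1 = w.1.2)) :=
    PolyTime.eq hv.snd.fst hv.fst.snd
  exact (e3.and e1).or (e4.and e2)

theorem polyTime_closure {conf : L → L → Bool} (hconf : PolyTime (fun x : L × L => conf x.1 x.2)) :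
    PolyTime (fun x : List (L × L) × L => closure conf x.1 x.2) := by
  unfold closure
  have hw : PolyTime (fun w : (List (L × L) × L) × List L × L => w) := PolyTime.id
  have hx : PolyTime (fun x : List (L × L) × L => x) := PolyTime.id
  refine PolyTime.foldl_inv (σ := List L) (l := fun x : List (L × L) × L => lits x.1)
    (f := fun x => [x.2]) (h := fun w => expand conf w.1.1 w.2.1) (polyTime_lits.comp hx.fst)
    (hx.snd.cons (PolyTime.const [])) ((polyTime_expand hconf).comp (hw.fst.fst.pair hw.snd.fst))
    (fun a R => size R ≤ size (lits a.1) + size [a.2]) ?_ ?_ ?_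
  · intro a; exact Nat.le_add_left _ _
  · intro a s x _ _
    exact (size_filter_le _ _).trans (Nat.le_add_right _ _)
  · obtain ⟨b1, hb1, hs1⟩ := (polyTime_lits.comp hx.fst : PolyTime (fun x : List (L × L) × L => lits x.1)).size_le
    obtain ⟨b2, hb2, hs2⟩ := (hx.snd.cons (PolyTime.const []) : PolyTime (fun x : List (L × L) × L => [x.2])).size_le
    refine ⟨fun n => b1 n + b2 n, hb1.add hb2, fun a s hs => hs.trans ?_⟩
    exact Nat.add_le_add (hs1 a) (hs2 a)

theorem polyTime_good {conf : L → L → Bool} (hconf : PolyTime (fun x : L × L => conf x.1 x.2)) :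
    PolyTime (fun x : List (L × L) × L => good conf x.1 x.2) := by
  unfold good
  have hw : PolyTime (fun w : (List (L × L) × L) × L => w) := PolyTime.id
  have hv : PolyTime (fun w : ((List (L × L) × L) × L) × L => w) := PolyTime.id
  apply PolyTime.all (g := fun w : (List (L × L) × L) × L =>
    (closure conf w.1.1 w.1.2).all (fun b => !(conf w.2 b))) (polyTime_closure hconf)
  apply PolyTime.all (g := fun w : ((List (L × L) × L) × L) × L => !(conf w.1.2 w.2))
    ((polyTime_closure hconf).comp hw.fst)
  exact (hconf.comp (hv.fst.snd.pair hv.snd)).not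

theorem polyTime_solve {conf : L → L → Bool} (hconf : PolyTime (fun x : L × L => conf x.1 x.2)) :
    PolyTime (fun C : List (L × L) => solve conf C) := by
  unfold solve
  have hw : PolyTime (fun w : List (L × L) × (L × L) => w) := PolyTime.id
  apply PolyTime.all (g := fun w : List (L × L) × (L × L) =>
    good conf w.1 w.2.1 || good conf w.1 w.2.2) PolyTime.id
  exact ((polyTime_good hconf).comp (hw.fst.pair hw.snd.fst)).or
    ((polyTime_good hconf).comp (hw.fst.pair hw.snd.snd))

end polytime

end Pool.Agent.H30.TwoSat
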